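import Pool.Agent.Work.MP_3e8c7a_ng.Interface

set_option autoImplicit false
set_option linter.unusedSectionVars false

namespace Pool.NG

open Module Pool.Agent.MP3e8c7a

section ABS

variable {K : Type} [Fintype K] [DecidableEq K] {a c : ℕ} {W : Type} [AddCommGroup W] [Module ℝ W]
  {A : Submodule ℝ W}

lemma ABS_mv (Ξ : K → Fin c → Fin a → ℝ) (w : K × Fin a → ℝ) (x : K × Fin c) :
    mv (bd Ξ) w x = mv (Ξ x.1) (fun i => w (x.1, i)) x.2 := by
  rw [mv_apply, mv_apply, Fintype.sum_prod_type, Finset.sum_eq_single x.1]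
  · refine Finset.sum_congr rfl fun i _ => ?_
    simp [bd]
  · intro b _ hb
    refine Finset.sum_eq_zero fun i _ => ?_
    simp [bd, Ne.symm hb]
  · intro h
    exact absurd (Finset.mem_univ _) h

lemma ABS_l2_nonneg {ι : Type} [Fintype ι] (z : ι → ℝ) : 0 ≤ l2 z := Real.sqrt_nonneg _

lemma ABS_l2_le (w : K × Fin a → ℝ) (κ : K) : l2 (fun i => w (κ, i)) ≤ l2 w := by
  refine Real.sqrt_le_sqrt ?_
  rw [Fintype.sum_prod_type]
  exact Finset.single_le_sum (f := fun κ => ∑ i, w (κ, i) ^ 2)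
    (fun κ _ => Finset.sum_nonneg fun i _ => sq_nonneg _) (Finset.mem_univ κ)

lemma ABS_wS_le (Ξ : K → Fin c → Fin a → ℝ) (w : K × Fin a → ℝ) (κ : K) :
    wS (Ξ κ) (fun i => w (κ, i)) ≤ wS (bd Ξ) w := by
  rw [wS_apply, wS_apply]
  refine max_le_max (ABS_l2_le w κ) ?_
  rw [pi_norm_le_iff_of_nonneg (norm_nonneg _)]
  intro l
  rw [← ABS_mv Ξ w (κ, l)]
  exact norm_le_pi_norm (mv (bd Ξ) w) (κ, l)

lemma ABS_le_wS (Ξ : K → Fin c → Fin a → ℝ) (w : K × Fin a → ℝ) (M : ℝ) (hM : 0 ≤ M) (h1 : l2 w ≤ M)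
    (h2 : ∀ κ, wS (Ξ κ) (fun i => w (κ, i)) ≤ M) : wS (bd Ξ) w ≤ M := by
  rw [wS_apply]
  refine max_le h1 ?_
  rw [pi_norm_le_iff_of_nonneg hM]
  rintro ⟨κ, l⟩
  rw [ABS_mv Ξ w (κ, l)]
  have h3 := h2 κ
  rw [wS_apply] at h3
  exact (norm_le_pi_norm (mv (Ξ κ) fun i => w (κ, i)) l).trans ((le_max_right _ _).trans h3)

lemma ABS_l2_rep (w : K × Fin a → ℝ) (κ₀ : K) (v : Fin a → ℝ) :
    l2 (fun q : K × Fin a => if q.1 = κ₀ then v q.2 else w q) ≤ l2 v + l2 w := by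
  have h1 : ∑ q : K × Fin a, (if q.1 = κ₀ then v q.2 else w q) ^ 2 ≤ ∑ i, v i ^ 2 + ∑ q, w q ^ 2 := by
    have e1 : ∑ i, v i ^ 2 = ∑ q : K × Fin a, (if q.1 = κ₀ then v q.2 ^ 2 else 0) := by
      rw [Fintype.sum_prod_type, Finset.sum_eq_single κ₀]
      · simp
      · intro b _ hb
        simp [hb]
      · intro h
        exact absurd (Finset.mem_univ _) h
    rw [e1, ← Finset.sum_add_distrib]
    refine Finset.sum_le_sum fun q _ => ?_
    split_ifs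
    · nlinarith [sq_nonneg (w q)]
    · simp
  have h2 : (0 : ℝ) ≤ ∑ i, v i ^ 2 := Finset.sum_nonneg fun i _ => sq_nonneg _
  have h3 : (0 : ℝ) ≤ ∑ q, w q ^ 2 := Finset.sum_nonneg fun i _ => sq_nonneg _
  rw [l2, l2, l2]
  refine (Real.sqrt_le_sqrt h1).trans ?_
  rw [Real.sqrt_le_left (add_nonneg (Real.sqrt_nonneg _) (Real.sqrt_nonneg _))]
  nlinarith [Real.sq_sqrt h2, Real.sq_sqrt h3, Real.sqrt_nonneg (∑ i, v i ^ 2),
    Real.sqrt_nonneg (∑ q, w q ^ 2),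
    mul_nonneg (Real.sqrt_nonneg (∑ i, v i ^ 2)) (Real.sqrt_nonneg (∑ q, w q ^ 2))]

lemma ABS_l2_perm (σ : K ≃ K) (w : K × Fin a → ℝ) :
    l2 (fun q : K × Fin a => w (σ q.1, q.2)) = l2 w := by
  rw [l2, l2]
  congr 1
  exact Equiv.sum_comp (σ.prodCongr (Equiv.refl (Fin a))) fun q => w q ^ 2

/-- the pair `(x, θ⁻¹ w_κ₀)` -/
def ABS_ev (θ : A ≃ₗ[ℝ] (Fin a → ℝ)) (κ₀ : K) : (W × (K × Fin a → ℝ)) →ₗ[ℝ] (W × A) :=
  (LinearMap.fst ℝ W (K × Fin a → ℝ)).prod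
    (θ.symm.toLinearMap ∘ₗ (LinearMap.funLeft ℝ ℝ (fun i : Fin a => (κ₀, i))) ∘ₗ
      LinearMap.snd ℝ W (K × Fin a → ℝ))

lemma ABS_ev_apply (θ : A ≃ₗ[ℝ] (Fin a → ℝ)) (κ₀ : K) (z : W × (K × Fin a → ℝ)) :
    ABS_ev θ κ₀ z = (z.1, θ.symm fun i => z.2 (κ₀, i)) := rfl

/-- the map induced by `f` on `x` and the block `κ₀` -/
def ABS_G (θ : A ≃ₗ[ℝ] (Fin a → ℝ)) (κ₀ : K) (f : (W × A) →ₗ[ℝ] (W × A)) :
    (W × (K × Fin a → ℝ)) →ₗ[ℝ] (W × (K × Fin a → ℝ)) where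
  toFun z := ((f (ABS_ev θ κ₀ z)).1,
    fun q => if q.1 = κ₀ then θ (f (ABS_ev θ κ₀ z)).2 q.2 else z.2 q)
  map_add' z z' := by
    rw [map_add, map_add]
    refine Prod.ext rfl ?_
    funext q
    show (if q.1 = κ₀ then θ (f (ABS_ev θ κ₀ z) + f (ABS_ev θ κ₀ z')).2 q.2 else (z + z').2 q) =
      (if q.1 = κ₀ then θ (f (ABS_ev θ κ₀ z)).2 q.2 else z.2 q) +
        (if q.1 = κ₀ then θ (f (ABS_ev θ κ₀ z')).2 q.2 else z'.2 q)
    split_ifs
    · rw [Prod.snd_add, map_add]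
      rfl
    · rfl
  map_smul' r z := by
    rw [map_smul, map_smul]
    refine Prod.ext rfl ?_
    funext q
    show (if q.1 = κ₀ then θ (r • f (ABS_ev θ κ₀ z)).2 q.2 else (r • z).2 q) =
      r * (if q.1 = κ₀ then θ (f (ABS_ev θ κ₀ z)).2 q.2 else z.2 q)
    split_ifs
    · rw [Prod.smul_snd, map_smul]
      rfl
    · rfl

lemma ABS_G_apply (θ : A ≃ₗ[ℝ] (Fin a → ℝ)) (κ₀ : K) (f : (W × A) →ₗ[ℝ] (W × A))
    (z : W × (K × Fin a → ℝ)) : ABS_G θ κ₀ f z = ((f (ABS_ev θ κ₀ z)).1,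
    fun q => if q.1 = κ₀ then θ (f (ABS_ev θ κ₀ z)).2 q.2 else z.2 q) := rfl

lemma ABS_ev_G (θ : A ≃ₗ[ℝ] (Fin a → ℝ)) (κ₀ : K) (f : (W × A) →ₗ[ℝ] (W × A))
    (z : W × (K × Fin a → ℝ)) : ABS_ev θ κ₀ (ABS_G θ κ₀ f z) = f (ABS_ev θ κ₀ z) := by
  rw [ABS_ev_apply, ABS_G_apply]
  refine Prod.ext rfl ?_
  show θ.symm (fun i => if κ₀ = κ₀ then θ (f (ABS_ev θ κ₀ z)).2 i else z.2 (κ₀, i)) = _
  simp only [if_true]
  exact θ.symm_apply_apply _

lemma ABS_G_G (θ : A ≃ₗ[ℝ] (Fin a → ℝ)) (κ₀ : K) (f g : (W × A) →ₗ[ℝ] (W × A))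
    (hfg : ∀ y, g (f y) = y) (z : W × (K × Fin a → ℝ)) :
    ABS_G θ κ₀ g (ABS_G θ κ₀ f z) = z := by
  rw [ABS_G_apply, ABS_ev_G, hfg]
  refine Prod.ext rfl ?_
  funext q
  show (if q.1 = κ₀ then θ (θ.symm fun i => z.2 (κ₀, i)) q.2 else
    (if q.1 = κ₀ then θ (f (ABS_ev θ κ₀ z)).2 q.2 else z.2 q)) = z.2 q
  split_ifs with h
  · rw [θ.apply_symm_apply, ← h]
  · rfl

/-- the equivalence induced by `e` on `x` and the block `κ₀` -/
def ABS_E (θ : A ≃ₗ[ℝ] (Fin a → ℝ)) (κ₀ : K) (e : (W × A) ≃ₗ[ℝ] (W × A)) :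
    (W × (K × Fin a → ℝ)) ≃ₗ[ℝ] (W × (K × Fin a → ℝ)) :=
  LinearEquiv.ofLinearMap (ABS_G θ κ₀ e.toLinearMap) (ABS_G θ κ₀ e.symm.toLinearMap)
    (LinearMap.ext fun z => ABS_G_G θ κ₀ _ _ (fun y => e.apply_symm_apply y) z)
    (LinearMap.ext fun z => ABS_G_G θ κ₀ _ _ (fun y => e.symm_apply_apply y) z)

/-- permutation of the blocks -/
def ABS_R (W : Type) [AddCommGroup W] [Module ℝ W] (a : ℕ) (σ : K ≃ K) :
    (W × (K × Fin a → ℝ)) ≃ₗ[ℝ] (W × (K × Fin a → ℝ)) :=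
  LinearEquiv.ofLinearMap
    ((LinearMap.fst ℝ W (K × Fin a → ℝ)).prod
      ((LinearMap.funLeft ℝ ℝ (fun q : K × Fin a => (σ.symm q.1, q.2))) ∘ₗ
        LinearMap.snd ℝ W (K × Fin a → ℝ)))
    ((LinearMap.fst ℝ W (K × Fin a → ℝ)).prod
      ((LinearMap.funLeft ℝ ℝ (fun q : K × Fin a => (σ q.1, q.2))) ∘ₗ
        LinearMap.snd ℝ W (K × Fin a → ℝ)))
    (LinearMap.ext fun z => Prod.ext rfl (funext fun q => by
      show z.2 (σ (σ.symm q.1), q.2) = z.2 q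
      rw [σ.apply_symm_apply]))
    (LinearMap.ext fun z => Prod.ext rfl (funext fun q => by
      show z.2 (σ.symm (σ q.1), q.2) = z.2 q
      rw [σ.symm_apply_apply]))

end ABS

theorem p_ABS (hMAT : Stmt_MAT) : Stmt_ABS := by
  intro t a c m ι _ _ Ξ W _ _ B p A S C i₀ θ hC h1 h2 h3 h4 h5 h6
  have hanti : ∀ x, Antitone fun τ => p τ x := fun x => antitone_nat_of_succ_le fun τ => (h4 τ x).1
  obtain ⟨e₀, he1, he2⟩ := hMAT W (p 0) (p t) m B A S h1 h2 (h3 0 (Nat.zero_le _)) (h3 t le_rfl)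
    (fun x => hanti x (Nat.zero_le t)) h5
  have hC0 : 0 ≤ C := by linarith
  have hCC : C ≤ C ^ 2 := by nlinarith
  have hC1 : 1 ≤ C ^ 2 := by nlinarith
  obtain ⟨σ, hσ⟩ : ∃ σ : (ι × Fin (t + 1)) ≃ (ι × Fin (t + 1)), σ = Equiv.prodCongrRight
    (fun i => if i = i₀ then finRotate (t + 1) else Equiv.refl _) := ⟨_, rfl⟩
  have hσa : ∀ τ, σ (i₀, τ) = (i₀, finRotate (t + 1) τ) := by
    intro τ
    rw [hσ]
    simp
  have hσb : ∀ i τ, i ≠ i₀ → σ (i, τ) = (i, τ) := by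
    intro i τ hi
    rw [hσ]
    simp [hi]
  have hσl : σ (i₀, Fin.last t) = (i₀, 0) := by
    rw [hσa]
    simp
  have hG : ∀ κ, σ κ ≠ (i₀, 0) → ∀ u : Fin a → ℝ, wS (Ξ (σ κ)) u ≤ C ^ 2 * wS (Ξ κ) u ∧
      wS (Ξ κ) u ≤ 2 * C ^ 2 * wS (Ξ (σ κ)) u := by
    rintro ⟨i, τ⟩ hne u
    by_cases hi : i = i₀
    · subst hi
      rw [hσa] at hne ⊢
      have hτ : τ ≠ Fin.last t := by
        rintro rfl
        apply hne
        simp
      have hv : ((finRotate (t + 1) τ : Fin (t + 1)) : ℕ) = τ + 1 := coe_finRotate_of_ne_last hτ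
      have g1 := h6 τ (θ.symm u)
      have g2 := h6 (finRotate (t + 1) τ) (θ.symm u)
      rw [hv, θ.apply_symm_apply] at g2
      rw [θ.apply_symm_apply] at g1
      have g3 := h4 τ ((θ.symm u : A) : W)
      constructor
      · calc wS (Ξ (i, finRotate (t + 1) τ)) u ≤ C * p (τ + 1) (θ.symm u : A) := g2.2
          _ ≤ C * (C * wS (Ξ (i, τ)) u) := mul_le_mul_of_nonneg_left (g3.1.trans g1.1) hC0
          _ = C ^ 2 * wS (Ξ (i, τ)) u := by ring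
      · calc wS (Ξ (i, τ)) u ≤ C * p τ (θ.symm u : A) := g1.2
          _ ≤ C * (2 * (C * wS (Ξ (i, finRotate (t + 1) τ)) u)) :=
              mul_le_mul_of_nonneg_left (g3.2.trans (mul_le_mul_of_nonneg_left g2.1 two_pos.le)) hC0
          _ = 2 * C ^ 2 * wS (Ξ (i, finRotate (t + 1) τ)) u := by ring
    · rw [hσb i τ hi]
      have hn : 0 ≤ wS (Ξ (i, τ)) u := apply_nonneg _ _
      constructor <;> nlinarith
  have hl2 : ∀ κ (u : Fin a → ℝ), l2 u ≤ wS (Ξ κ) u := by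
    intro κ u
    rw [wS_apply]
    exact le_max_left _ _
  refine ⟨(ABS_R W a σ).trans (ABS_E θ (i₀, 0) e₀), ?_, ?_⟩
  · intro z
    obtain ⟨x, w⟩ := z
    have hM0 : 0 ≤ max (p 0 x) (wS (bd Ξ) w) := le_max_of_le_left (apply_nonneg _ _)
    have hMx : p 0 x ≤ max (p 0 x) (wS (bd Ξ) w) := le_max_left _ _
    have hMw : wS (bd Ξ) w ≤ max (p 0 x) (wS (bd Ξ) w) := le_max_right _ _
    show p t (e₀ (x, θ.symm fun i => w (σ.symm (i₀, 0), i))).1 ≤
        20 * C ^ 2 * max (p 0 x) (wS (bd Ξ) w) ∧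
      wS (bd Ξ) (fun q : (ι × Fin (t + 1)) × Fin a => if q.1 = (i₀, 0) then
        θ (e₀ (x, θ.symm fun i => w (σ.symm (i₀, 0), i))).2 q.2 else w (σ.symm q.1, q.2)) ≤
        20 * C ^ 2 * max (p 0 x) (wS (bd Ξ) w)
    generalize max (p 0 x) (wS (bd Ξ) w) = M at hM0 hMx hMw ⊢
    have hs : σ.symm (i₀, 0) = (i₀, Fin.last t) := by rw [← hσl, σ.symm_apply_apply]
    rw [hs]
    have k1 := (h6 (Fin.last t) (θ.symm fun i => w ((i₀, Fin.last t), i))).1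
    rw [Fin.val_last, θ.apply_symm_apply] at k1
    have k2 : p t (θ.symm fun i => w ((i₀, Fin.last t), i) : A) ≤ C * M :=
      k1.trans (mul_le_mul_of_nonneg_left ((ABS_wS_le Ξ w _).trans hMw) hC0)
    obtain ⟨k3, k4⟩ := he1 (x, θ.symm fun i => w ((i₀, Fin.last t), i))
    generalize θ.symm (fun i => w ((i₀, Fin.last t), i)) = aa at k2 k3 k4 ⊢
    have k5 : max (p 0 x) (p t (aa : W)) ≤ C * M := max_le (by nlinarith) k2
    have k3' : p t (e₀ (x, aa)).1 ≤ 7 * (C * M) := k3.trans (mul_le_mul_of_nonneg_left k5 (by norm_num))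
    have k4' : p 0 ((e₀ (x, aa)).2 : W) ≤ 7 * (C * M) :=
      k4.trans (mul_le_mul_of_nonneg_left k5 (by norm_num))
    have k6 := (h6 0 (e₀ (x, aa)).2).2
    rw [Fin.val_zero] at k6
    have k7 : wS (Ξ (i₀, 0)) (θ (e₀ (x, aa)).2) ≤ 7 * C ^ 2 * M := by
      refine k6.trans ?_
      calc C * p 0 ((e₀ (x, aa)).2 : W) ≤ C * (7 * (C * M)) := mul_le_mul_of_nonneg_left k4' hC0
        _ = 7 * C ^ 2 * M := by ring
    have hCM : M ≤ C ^ 2 * M := by nlinarith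
    refine ⟨?_, ?_⟩
    · nlinarith
    · refine ABS_le_wS Ξ _ _ (by nlinarith) ?_ ?_
      · refine (ABS_l2_rep (fun q : (ι × Fin (t + 1)) × Fin a => w (σ.symm q.1, q.2)) (i₀, 0)
          (θ (e₀ (x, aa)).2)).trans ?_
        rw [ABS_l2_perm σ.symm w]
        have m1 := (hl2 (i₀, 0) (θ (e₀ (x, aa)).2)).trans k7
        have m2 : l2 w ≤ M := by
          rw [wS_apply] at hMw
          exact (le_max_left _ _).trans hMw
        nlinarith
      · intro κ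
        by_cases hκ : κ = (i₀, 0)
        · have e1 : (fun i => (fun q : (ι × Fin (t + 1)) × Fin a => if q.1 = (i₀, 0) then
              θ (e₀ (x, aa)).2 q.2 else w (σ.symm q.1, q.2)) (κ, i)) = θ (e₀ (x, aa)).2 := by
            funext i
            simp [hκ]
          rw [e1, hκ]
          nlinarith
        · have e1 : (fun i => (fun q : (ι × Fin (t + 1)) × Fin a => if q.1 = (i₀, 0) then
              θ (e₀ (x, aa)).2 q.2 else w (σ.symm q.1, q.2)) (κ, i)) =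
              fun i => w (σ.symm κ, i) := by
            funext i
            simp [hκ]
          rw [e1]
          have m1 := (hG (σ.symm κ) (by rw [σ.apply_symm_apply]; exact hκ)
            (fun i => w (σ.symm κ, i))).1
          rw [σ.apply_symm_apply] at m1
          have m2 := (ABS_wS_le Ξ w (σ.symm κ)).trans hMw
          have m3 := mul_le_mul_of_nonneg_left m2 (by positivity : 0 ≤ C ^ 2)
          nlinarith
  · intro z
    obtain ⟨x, w⟩ := z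
    have hM0 : 0 ≤ max (p t x) (wS (bd Ξ) w) := le_max_of_le_left (apply_nonneg _ _)
    have hMx : p t x ≤ max (p t x) (wS (bd Ξ) w) := le_max_left _ _
    have hMw : wS (bd Ξ) w ≤ max (p t x) (wS (bd Ξ) w) := le_max_right _ _
    show p 0 (e₀.symm (x, θ.symm fun i => w ((i₀, 0), i))).1 ≤
        20 * C ^ 2 * max (p t x) (wS (bd Ξ) w) ∧
      wS (bd Ξ) (fun q : (ι × Fin (t + 1)) × Fin a => if σ q.1 = (i₀, 0) then
        θ (e₀.symm (x, θ.symm fun i => w ((i₀, 0), i))).2 q.2 else w (σ q.1, q.2)) ≤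
        20 * C ^ 2 * max (p t x) (wS (bd Ξ) w)
    generalize max (p t x) (wS (bd Ξ) w) = M at hM0 hMx hMw ⊢
    have k1 := (h6 0 (θ.symm fun i => w ((i₀, 0), i))).1
    rw [Fin.val_zero, θ.apply_symm_apply] at k1
    have k2 : p 0 (θ.symm fun i => w ((i₀, 0), i) : A) ≤ C * M :=
      k1.trans (mul_le_mul_of_nonneg_left ((ABS_wS_le Ξ w _).trans hMw) hC0)
    obtain ⟨k3, k4⟩ := he2 (x, θ.symm fun i => w ((i₀, 0), i))
    generalize θ.symm (fun i => w ((i₀, 0), i)) = aa at k2 k3 k4 ⊢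
    have k5 : max (p t x) (p 0 (aa : W)) ≤ C * M := max_le (by nlinarith) k2
    have k3' : p 0 (e₀.symm (x, aa)).1 ≤ 7 * (C * M) :=
      k3.trans (mul_le_mul_of_nonneg_left k5 (by norm_num))
    have k4' : p t ((e₀.symm (x, aa)).2 : W) ≤ 7 * (C * M) :=
      k4.trans (mul_le_mul_of_nonneg_left k5 (by norm_num))
    have k6 := (h6 (Fin.last t) (e₀.symm (x, aa)).2).2
    rw [Fin.val_last] at k6
    have k7 : wS (Ξ (i₀, Fin.last t)) (θ (e₀.symm (x, aa)).2) ≤ 7 * C ^ 2 * M := by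
      refine k6.trans ?_
      calc C * p t ((e₀.symm (x, aa)).2 : W) ≤ C * (7 * (C * M)) := mul_le_mul_of_nonneg_left k4' hC0
        _ = 7 * C ^ 2 * M := by ring
    have hCM : M ≤ C ^ 2 * M := by nlinarith
    refine ⟨?_, ?_⟩
    · nlinarith
    · refine ABS_le_wS Ξ _ _ (by nlinarith) ?_ ?_
      · refine (ABS_l2_perm σ (fun q : (ι × Fin (t + 1)) × Fin a =>
          if q.1 = (i₀, 0) then θ (e₀.symm (x, aa)).2 q.2 else w q)).le.trans ?_
        refine (ABS_l2_rep w (i₀, 0) (θ (e₀.symm (x, aa)).2)).trans ?_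
        have m1 := (hl2 (i₀, Fin.last t) (θ (e₀.symm (x, aa)).2)).trans k7
        have m2 : l2 w ≤ M := by
          rw [wS_apply] at hMw
          exact (le_max_left _ _).trans hMw
        nlinarith
      · intro κ
        by_cases hκ : σ κ = (i₀, 0)
        · have e1 : (fun i => (fun q : (ι × Fin (t + 1)) × Fin a => if σ q.1 = (i₀, 0) then
              θ (e₀.symm (x, aa)).2 q.2 else w (σ q.1, q.2)) (κ, i)) = θ (e₀.symm (x, aa)).2 := by
            funext i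
            simp [hκ]
          have e3 : κ = (i₀, Fin.last t) := σ.injective (hκ.trans hσl.symm)
          rw [e1, e3]
          nlinarith
        · have e1 : (fun i => (fun q : (ι × Fin (t + 1)) × Fin a => if σ q.1 = (i₀, 0) then
              θ (e₀.symm (x, aa)).2 q.2 else w (σ q.1, q.2)) (κ, i)) =
              fun i => w (σ κ, i) := by
            funext i
            simp [hκ]
          rw [e1]
          have m1 := (hG κ hκ (fun i => w (σ κ, i))).2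
          have m2 := (ABS_wS_le Ξ w (σ κ)).trans hMw
          have m3 := mul_le_mul_of_nonneg_left m2 (by positivity : 0 ≤ 2 * C ^ 2)
          nlinarith

end Pool.NG
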