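import Pool.Agent.Work.MP_3e8c7a_ng.Interface

/-!
# Block ATN: the infimum is attained
-/

set_option autoImplicit false

namespace Pool.NG

open Module Pool.Agent.MP3e8c7a

lemma ATN_bound {k : ℕ} (N : Seminorm ℝ (Fin k → ℝ)) : ∃ C : ℝ, 0 ≤ C ∧ ∀ v, N v ≤ C * ‖v‖ := by
  classical
  refine ⟨∑ i, N (Pi.single i 1), Finset.sum_nonneg fun i _ => apply_nonneg N _, fun v => ?_⟩
  have hv : v = ∑ i, v i • (Pi.single i 1 : Fin k → ℝ) := by
    funext j
    rw [Finset.sum_apply, Finset.sum_eq_single j]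
    · simp
    · intro i _ hij
      simp [Pi.single_apply, Ne.symm hij]
    · simp
  have h1 : N v ≤ ∑ i, N (v i • (Pi.single i 1 : Fin k → ℝ)) := by
    have h2 : ∀ s : Finset (Fin k), N (∑ i ∈ s, v i • (Pi.single i 1 : Fin k → ℝ)) ≤
        ∑ i ∈ s, N (v i • (Pi.single i 1 : Fin k → ℝ)) := by
      intro s
      induction s using Finset.induction_on with
      | empty => simp
      | insert a s ha ih =>
        rw [Finset.sum_insert ha, Finset.sum_insert ha]
        exact (map_add_le_add N _ _).trans (add_le_add le_rfl ih)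
    calc N v = N (∑ i, v i • (Pi.single i 1 : Fin k → ℝ)) := by rw [← hv]
      _ ≤ _ := h2 _
  refine h1.trans ?_
  rw [Finset.sum_mul]
  refine Finset.sum_le_sum fun i _ => ?_
  rw [map_smul_eq_mul, mul_comm]
  exact mul_le_mul_of_nonneg_left (norm_le_pi_norm v i) (apply_nonneg N _)

lemma ATN_sub {V : Type} [AddCommGroup V] [Module ℝ V] (p : Seminorm ℝ V) (x y : V) :
    |p x - p y| ≤ p (x - y) := by
  rw [abs_le]
  constructor
  · have h := map_add_le_add p (y - x) x
    rw [sub_add_cancel] at h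
    have h2 : p (y - x) = p (x - y) := map_sub_rev p y x
    linarith
  · have h := map_add_le_add p (x - y) y
    rw [sub_add_cancel] at h
    linarith

lemma ATN_cont {k : ℕ} {V : Type} [AddCommGroup V] [Module ℝ V] (p : Seminorm ℝ V)
    (S : (Fin k → ℝ) →ₗ[ℝ] V) (x : V) : Continuous fun v => p (x - S v) := by
  obtain ⟨C, hC, hb⟩ := ATN_bound (p.comp S)
  have hL : LipschitzWith (Real.toNNReal C) fun v => p (x - S v) := by
    refine LipschitzWith.of_dist_le_mul fun v w => ?_
    rw [Real.dist_eq, dist_eq_norm, Real.coe_toNNReal C hC]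
    refine (ATN_sub p _ _).trans ?_
    have e : x - S v - (x - S w) = S (w - v) := by rw [map_sub]; abel
    rw [e, ← norm_sub_rev w v]
    exact hb (w - v)
  exact hL.continuous

lemma ATN_def {k : ℕ} (N : Seminorm ℝ (Fin k → ℝ)) (hN : ∀ v, N v = 0 → v = 0) :
    ∃ c : ℝ, 0 < c ∧ ∀ v, c * ‖v‖ ≤ N v := by
  have hcont : Continuous N := by
    have h := ATN_cont N (LinearMap.id : (Fin k → ℝ) →ₗ[ℝ] (Fin k → ℝ)) 0
    refine h.congr fun v => ?_
    rw [LinearMap.id_apply, zero_sub, map_neg_eq_map]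
  by_cases hne : (Metric.sphere (0 : Fin k → ℝ) 1).Nonempty
  · obtain ⟨u, hu, hmin⟩ := (isCompact_sphere (0 : Fin k → ℝ) 1).exists_isMinOn hne
      hcont.continuousOn
    have hu1 : ‖u‖ = 1 := by simpa using hu
    have hpos : 0 < N u := by
      rcases (apply_nonneg N u).lt_or_eq with h | h
      · exact h
      · exfalso
        have := hN u h.symm
        rw [this, norm_zero] at hu1
        exact zero_ne_one hu1
    refine ⟨N u, hpos, fun v => ?_⟩
    by_cases hv : v = 0
    · rw [hv]; simp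
    · have hv0 : 0 < ‖v‖ := norm_pos_iff.2 hv
      have hmem : (‖v‖⁻¹ • v) ∈ Metric.sphere (0 : Fin k → ℝ) 1 := by
        rw [mem_sphere_zero_iff_norm, norm_smul, norm_inv, norm_norm, inv_mul_cancel₀ hv0.ne']
      have h1 : N u ≤ N (‖v‖⁻¹ • v) := hmin hmem
      rw [map_smul_eq_mul, norm_inv, norm_norm] at h1
      calc N u * ‖v‖ ≤ ‖v‖⁻¹ * N v * ‖v‖ := mul_le_mul_of_nonneg_right h1 hv0.le
        _ = N v := by field_simp
  · refine ⟨1, one_pos, fun v => ?_⟩
    have hv : v = 0 := by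
      by_contra hv
      apply hne
      have hv0 : 0 < ‖v‖ := norm_pos_iff.2 hv
      refine ⟨‖v‖⁻¹ • v, ?_⟩
      rw [mem_sphere_zero_iff_norm, norm_smul, norm_inv, norm_norm, inv_mul_cancel₀ hv0.ne']
    rw [hv]; simp

theorem p_ATN : Stmt_ATN := by
  intro V W _ _ _ _ _ _ p q T hq x
  let e : (Fin (finrank ℝ W) → ℝ) ≃ₗ[ℝ] W := (finBasis ℝ W).equivFun.symm
  let N : Seminorm ℝ (Fin (finrank ℝ W) → ℝ) := q.comp e.toLinearMap
  have hN : ∀ v, N v = 0 → v = 0 := by
    intro v hv
    have h1 : e v = 0 := hq _ hv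
    exact (map_eq_zero_iff e e.injective).1 h1
  obtain ⟨c, hc, hcN⟩ := ATN_def N hN
  let F : (Fin (finrank ℝ W) → ℝ) → ℝ := fun v => p (x - T (e v)) + N v
  have hF : Continuous F := by
    have h1 : Continuous fun v => p (x - (T ∘ₗ e.toLinearMap) v) := ATN_cont p _ x
    have h2 : Continuous fun v => N (0 - (LinearMap.id : (Fin (finrank ℝ W) → ℝ) →ₗ[ℝ] _) v) :=
      ATN_cont N _ 0
    have h3 : Continuous fun v => N v := by
      refine h2.congr fun v => ?_
      rw [LinearMap.id_apply, zero_sub, map_neg_eq_map]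
    exact h1.add h3
  have hF0 : 0 ≤ F 0 := add_nonneg (apply_nonneg _ _) (apply_nonneg _ _)
  obtain ⟨u, hu, hmin⟩ := (isCompact_closedBall (0 : Fin (finrank ℝ W) → ℝ)
    (F 0 / c)).exists_isMinOn ⟨0, by simpa using div_nonneg hF0 hc.le⟩ hF.continuousOn
  have hglob : ∀ v, F u ≤ F v := by
    intro v
    by_cases hv : v ∈ Metric.closedBall (0 : Fin (finrank ℝ W) → ℝ) (F 0 / c)
    · exact hmin hv
    · have h0 : (0 : Fin (finrank ℝ W) → ℝ) ∈ Metric.closedBall 0 (F 0 / c) := by
        simpa using div_nonneg hF0 hc.le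
      have h1 : F u ≤ F 0 := hmin h0
      rw [mem_closedBall_zero_iff, not_le, div_lt_iff₀ hc] at hv
      have h2 := hcN v
      have h3 : N v ≤ F v := le_add_of_nonneg_left (apply_nonneg _ _)
      linarith [mul_comm c ‖v‖]
  refine ⟨e u, le_antisymm ?_ ?_⟩
  · refine le_infS p q T x fun z => ?_
    have h := hglob (e.symm z)
    have h1 : F (e.symm z) = p (x - T z) + q z := by
      show p (x - T (e (e.symm z))) + q (e (e.symm z)) = _
      rw [LinearEquiv.apply_symm_apply]
    rw [h1] at h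
    exact h
  · exact infS_le p q T x (e u)

end Pool.NG
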