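import Pool.Agent.Work.MP_3e8c7a_ng.Interface

/-! # Block ATT: the infimum in the norm `N₂` is attained -/

set_option autoImplicit false

namespace Pool.NG

open Module Pool.Agent.MP3e8c7a

theorem ATT_lr_nonneg (r : ℝ) {ι : Type} [Fintype ι] (z : ι → ℝ) : 0 ≤ lr r z := by
  unfold lr
  exact Real.rpow_nonneg (Finset.sum_nonneg fun i _ => Real.rpow_nonneg (abs_nonneg _) _) _

theorem ATT_def {n : ℕ} {J d s : Type} [Fintype J] [Fintype d] [Fintype s] (X : Cfg n J d s)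
    (hρ : 0 < X.ρ) (z : J × (d ⊕ s) → ℝ) (hz : X.nu z = 0) : z = 0 := by
  rw [X.nu_apply] at hz
  have h1 : 0 ≤ lr X.r (X.wt z) := ATT_lr_nonneg _ _
  have h2 : 0 ≤ ∑ c, |z c| := Finset.sum_nonneg fun c _ => abs_nonneg _
  have h3 : 0 ≤ X.ρ * ∑ c, |z c| := mul_nonneg hρ.le h2
  have h4 : X.ρ * ∑ c, |z c| = 0 := by linarith
  have h5 : ∑ c, |z c| = 0 := by
    rcases mul_eq_zero.1 h4 with h | h
    · exact absurd h hρ.ne'
    · exact h
  have h6 := (Finset.sum_eq_zero_iff_of_nonneg (fun c _ => abs_nonneg (z c))).1 h5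
  funext c
  exact abs_eq_zero.1 (h6 c (Finset.mem_univ c))

theorem p_ATT (h1 : Stmt_ATN) : Stmt_ATT := by
  intro n J d s _ _ _ X hρ x
  obtain ⟨z, hz⟩ := h1 (Hn n) (J × (d ⊕ s) → ℝ) (normSeminorm ℝ (Hn n)) X.nu X.T
    (fun z hz => ATT_def X hρ z hz) x
  refine ⟨z, ?_⟩
  rw [← X.nu_apply]
  exact hz

end Pool.NG
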