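import Pool.Agent.Work.MP_3e8c7a_ng.InterfaceF

/-!
# MP_3e8c7a_an, THEOREM NEG, block BDY: unit balls are bodies
-/

set_option autoImplicit false

namespace Pool.NG

open Module Pool.Agent.MP3e8c7a
open scoped Topology

lemma BDY_cont {N : ℕ} (p : Seminorm ℝ (Fin N → ℝ)) : Continuous p := by
  have hle : ∀ x : Fin N → ℝ, p x ≤ (∑ i, p (Pi.single i 1)) * ‖x‖ := by
    intro x
    have e : x = ∑ i, x i • (Pi.single i (1 : ℝ) : Fin N → ℝ) := by
      funext j
      rw [Finset.sum_apply]
      simp [Pi.single_apply]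
    have h1 : p x ≤ ∑ i, p (x i • (Pi.single i (1 : ℝ) : Fin N → ℝ)) := by
      conv_lhs => rw [e]
      have : ∀ s : Finset (Fin N), p (∑ i ∈ s, x i • (Pi.single i (1 : ℝ) : Fin N → ℝ)) ≤
          ∑ i ∈ s, p (x i • (Pi.single i (1 : ℝ) : Fin N → ℝ)) := by
        intro s
        classical
        induction s using Finset.induction_on with
        | empty => simp
        | insert a s ha ih =>
          rw [Finset.sum_insert ha, Finset.sum_insert ha]
          exact (map_add_le_add p _ _).trans (by linarith)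
      exact this _
    refine h1.trans ?_
    rw [Finset.sum_mul]
    refine Finset.sum_le_sum fun i _ => ?_
    rw [map_smul_eq_mul, mul_comm]
    exact mul_le_mul_of_nonneg_left (norm_le_pi_norm x i) (apply_nonneg p _)
  have hC : 0 ≤ ∑ i, p (Pi.single i 1) := Finset.sum_nonneg fun i _ => apply_nonneg p _
  refine (LipschitzWith.of_dist_le_mul (K := ⟨∑ i, p (Pi.single i 1), hC⟩) fun x y => ?_).continuous
  rw [Real.dist_eq, dist_eq_norm]
  exact (abs_sub_map_le_sub p x y).trans (hle (x - y))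

theorem p_BDY : Stmt_BDY := by
  intro N p hp
  have hc := BDY_cont p
  refine ⟨?_, ?_, ?_, ?_⟩
  · have h := p.convex_closedBall 0 1
    have e : {x : Fin N → ℝ | p x ≤ 1} = p.closedBall 0 1 := by
      ext x
      simp [Seminorm.mem_closedBall]
    rw [e]
    exact h
  · rw [Metric.isCompact_iff_isClosed_bounded]
    refine ⟨isClosed_le hc continuous_const, ?_⟩
    rcases isEmpty_or_nonempty (Fin N) with hN | hN
    · exact (Set.toFinite _).isBounded
    · have hne : (Metric.sphere (0 : Fin N → ℝ) 1).Nonempty :=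
        NormedSpace.sphere_nonempty.2 zero_le_one
      obtain ⟨x₀, hx₀, hmin⟩ := (isCompact_sphere (0 : Fin N → ℝ) 1).exists_isMinOn hne hc.continuousOn
      have hx1 : ‖x₀‖ = 1 := by simpa using hx₀
      have hpos : 0 < p x₀ := by
        refine lt_of_le_of_ne (apply_nonneg p _) fun h => ?_
        have := hp x₀ h.symm
        rw [this, norm_zero] at hx1
        exact zero_ne_one hx1
      rw [isBounded_iff_forall_norm_le]
      refine ⟨(p x₀)⁻¹, fun x hx => ?_⟩
      rcases eq_or_ne x 0 with rfl | hx0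
      · rw [norm_zero]
        exact (inv_pos.2 hpos).le
      · have hn : 0 < ‖x‖ := norm_pos_iff.2 hx0
        have h1 : ‖x‖⁻¹ • x ∈ Metric.sphere (0 : Fin N → ℝ) 1 := by
          rw [mem_sphere_zero_iff_norm, norm_smul, norm_inv, norm_norm, inv_mul_cancel₀ hn.ne']
        have h2 : p x₀ ≤ p (‖x‖⁻¹ • x) := hmin h1
        rw [map_smul_eq_mul, norm_inv, norm_norm] at h2
        have h3 : p x ≤ 1 := hx
        have h4 : p x₀ ≤ ‖x‖⁻¹ := h2.trans (by
          calc ‖x‖⁻¹ * p x ≤ ‖x‖⁻¹ * 1 := mul_le_mul_of_nonneg_left h3 (inv_pos.2 hn).le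
            _ = ‖x‖⁻¹ := mul_one _)
        exact (le_inv_comm₀ hpos hn).1 h4
  · refine ⟨0, ?_⟩
    rw [mem_interior]
    refine ⟨{x | p x < 1}, fun x (hx : p x < 1) => (le_of_lt hx : p x ≤ 1), isOpen_lt hc continuous_const, ?_⟩
    show p 0 < 1
    rw [map_zero]
    exact one_pos
  · intro x hx
    show p (-x) ≤ 1
    rw [map_neg_eq_map]
    exact hx

end Pool.NG
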