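import Pool.Agent.Work.MP_3e8c7a_ng.Interface

/-!
# Block BGS: the bad space
-/

set_option autoImplicit false

namespace Pool.NG

open Module Pool.Agent.MP3e8c7a
open Pool.RG (FacE)
open Pool.RX (rad sgn)

theorem BGS_apply {m Q : ℕ} (a : Fin Q → Fin m → Bool) (x : Fin m → ℝ) (s : Fin Q) :
    Pool.UN.OO a (fun s => Pi.single s 1) x s = rad (a s) x := by
  rw [Pool.UN.OO_apply, Finset.sum_apply, Finset.sum_eq_single s]
  · rw [Pi.smul_apply, Pi.single_eq_same, smul_eq_mul, mul_one]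
  · intro t _ hts
    rw [Pi.smul_apply, Pi.single_eq_of_ne (Ne.symm hts), smul_zero]
  · intro h
    exact absurd (Finset.mem_univ _) h

theorem BGS_unc {Q : ℕ} : Pool.UN.Unc (normSeminorm ℝ (Fin Q → ℝ)) := by
  intro x y h
  show ‖x‖ ≤ ‖y‖
  rw [pi_norm_le_iff_of_nonneg (norm_nonneg _)]
  intro i
  rw [Real.norm_eq_abs]
  exact (h i).trans (norm_le_pi_norm y i)

theorem BGS_sing {Q : ℕ} (s : Fin Q) : ‖(Pi.single s (1 : ℝ) : Fin Q → ℝ)‖ = 1 := by
  apply le_antisymm
  · rw [pi_norm_le_iff_of_nonneg zero_le_one]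
    intro i
    by_cases h : i = s
    · rw [h, Pi.single_eq_same, norm_one]
    · rw [Pi.single_eq_of_ne h, norm_zero]
      exact zero_le_one
  · have h := norm_le_pi_norm (Pi.single s (1 : ℝ) : Fin Q → ℝ) s
    rwa [Pi.single_eq_same, norm_one] at h

theorem p_BGS (h1 : Pool.UN.Stmt_NLU) : Stmt_BGS := by
  intro C hC
  obtain ⟨m, Q, a, hQ, hinj, H⟩ := h1 (1 / 4) C (by norm_num) le_rfl hC
  refine ⟨m, Q, Pool.UN.OO a (fun s => Pi.single s 1), by omega, ?_, ?_⟩
  · rw [injective_iff_map_eq_zero]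
    intro x hx
    apply hinj x
    intro s
    rw [← BGS_apply, hx, Pi.zero_apply]
  · intro ι _ w hw hf
    obtain ⟨j, q, hq, hj, hb⟩ := hf
    set e := Fintype.equivFin ι with he
    set L : (Fin (Fintype.card ι) → ℝ) ≃ₗ[ℝ] (ι → ℝ) := LinearEquiv.funCongrLeft ℝ ℝ e with hL
    refine H Q (normSeminorm ℝ (Fin Q → ℝ)) (fun s => Pi.single s 1) BGS_unc ?_ ?_ ?_
      (Fintype.card ι) (w.comp L.toLinearMap) ?_ ⟨L.symm.toLinearMap ∘ₗ j, q ∘ₗ L.toLinearMap, ?_, ?_, ?_⟩
    · intro s t hst i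
      by_cases h : i = s
      · right
        have h2 : i ≠ t := fun h3 => hst (h.symm.trans h3)
        exact Pi.single_eq_of_ne h2 1
      · left
        exact Pi.single_eq_of_ne h 1
    · intro s
      exact BGS_sing s
    · have h2 : normSeminorm ℝ (Fin Q → ℝ) (∑ s, Pi.single s 1) ≤ 1 := by
        show ‖∑ s, (Pi.single s (1 : ℝ) : Fin Q → ℝ)‖ ≤ 1
        rw [pi_norm_le_iff_of_nonneg zero_le_one]
        intro i
        rw [Finset.sum_apply, Finset.sum_eq_single i]
        · rw [Pi.single_eq_same, norm_one]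
        · intro t _ hti
          exact Pi.single_eq_of_ne (Ne.symm hti) 1
        · intro h
          exact absurd (Finset.mem_univ _) h
      refine h2.trans (Real.one_le_rpow ?_ (by norm_num))
      have h3 : (2 : ℝ) ≤ Q := by exact_mod_cast hQ
      linarith
    · intro x y hxy
      exact hw _ _ fun i => hxy (e i)
    · intro x
      show q (L (L.symm (j x))) = x
      rw [LinearEquiv.apply_symm_apply, hq]
    · intro x
      show w (L (L.symm (j x))) ≤ _
      rw [LinearEquiv.apply_symm_apply]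
      exact hj x
    · intro x
      exact hb (L x)

end Pool.NG
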