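import Pool.Agent.Work.MP_3e8c7a_ng.Interface

/-! # Block CLS: closure, finite dimensional subspaces of `X` -/

set_option autoImplicit false

namespace Pool.NG

open Module Pool.Agent.MP3e8c7a

theorem p_CLS (h1 : Stmt_EUC) (h2 : Stmt_F3B) (h3 : Stmt_HIL) : Stmt_CLS := by
  classical
  intro n J d s _ _ _ X N₀ L a N₁ hOk ha hN1 hN1' F hF
  have hD : 1 ≤ X.D := hOk.D1
  have hD0 : 0 ≤ X.D := by linarith
  have hdef : Def X.N2 := by
    intro x hx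
    have h4 := (h1 n J d s X N₀ L hOk x).1
    rw [hx, mul_zero] at h4
    exact norm_le_zero_iff.1 h4
  have hFF : finrank ℝ F * finrank ℝ F + 1 ≤ N₀ :=
    le_trans (Nat.succ_le_succ (Nat.mul_le_mul hF hF)) ha
  obtain ⟨S₀, hS₀⟩ := (h3 n J d s X N₀ L hOk F hFF).exists_equiv
    (hdef.comp F.subtype F.injective_subtype)
  have h9 : (9 : ℝ) ≠ 0 := by norm_num
  let S : F ≃ₗ[ℝ] Hn (finrank ℝ F) :=
    S₀.trans (LinearEquiv.smulOfNeZero ℝ (Hn (finrank ℝ F)) (9 : ℝ) h9)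
  have hSn : ∀ x, ‖S x‖ = 9 * ‖S₀ x‖ := by
    intro x
    show ‖(9 : ℝ) • S₀ x‖ = _
    rw [norm_smul]
    norm_num
  have hN2S : ∀ x : F, X.N2 x ≤ ‖S x‖ ∧ ‖S x‖ ≤ 9 * X.N2 x := by
    intro x
    obtain ⟨h4, h5⟩ := hS₀ x
    change ‖S₀ x‖ ≤ X.N2 x at h4
    change X.N2 x ≤ 9 * ‖S₀ x‖ at h5
    rw [hSn]
    constructor
    · exact h5
    · linarith
  let u : Fin (finrank ℝ F) → F := fun i => S.symm (EuclideanSpace.single i (1 : ℝ))
  let φ : J × s → Fin (finrank ℝ F) → ℝ := fun c i => inner ℝ (X.psi c) (u i : Hn n)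
  have hu : ∀ i, X.N2 (u i) ≤ 1 := by
    intro i
    refine (hN2S (u i)).1.trans ?_
    rw [show S (u i) = EuclideanSpace.single i (1 : ℝ) from S.apply_symm_apply _]
    simp
  have hx : ∀ x : F, x = ∑ i, (S x) i • u i := by
    intro x
    apply S.injective
    rw [map_sum]
    have h4 : ∀ i, S ((S x) i • u i) = (S x) i • EuclideanSpace.single i (1 : ℝ) := by
      intro i
      rw [map_smul, show S (u i) = EuclideanSpace.single i (1 : ℝ) from S.apply_symm_apply _]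
    rw [Finset.sum_congr rfl fun i _ => h4 i]
    ext j
    simp [Pi.single_apply]
  have hinner : ∀ (c : J × s) (x : F), inner ℝ (X.psi c) (x : Hn n) = ∑ i, φ c i * (S x) i := by
    intro c x
    conv_lhs => rw [hx x]
    rw [Submodule.coe_sum, inner_sum]
    refine Finset.sum_congr rfl fun i _ => ?_
    rw [Submodule.coe_smul, inner_smul_right, mul_comm]
  have hnorm : ∀ x : F, ‖S x‖ ^ 2 = ∑ i, (S x) i ^ 2 := by
    intro x
    rw [EuclideanSpace.norm_sq_eq]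
    refine Finset.sum_congr rfl fun i _ => ?_
    rw [Real.norm_eq_abs, sq_abs]
  let Λ : Finset (J × s) := Finset.univ.filter fun c => 1 < ∑ i, φ c i ^ 2
  have hcard : ∀ Λ' : Finset (J × s), Λ' ⊆ Λ → Λ'.card ≤ N₀ → Λ'.card ≤ N₁ := by
    intro Λ' hΛ' hc
    have h4 : (Λ'.card : ℝ) ≤ ∑ c ∈ Λ', ∑ i, φ c i ^ 2 := by
      have h5 : ∑ c ∈ Λ', (1 : ℝ) ≤ ∑ c ∈ Λ', ∑ i, φ c i ^ 2 :=
        Finset.sum_le_sum fun c hc' => ((Finset.mem_filter.1 (hΛ' hc')).2).le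
      simpa using h5
    rw [Finset.sum_comm] at h4
    have h5 : ∀ i, ∑ c ∈ Λ', φ c i ^ 2 ≤ 9 * X.D ^ 2 := by
      intro i
      have h6 := h2 n J d s X N₀ L hOk Λ' hc (u i : Hn n)
      have h7 : Real.sqrt (∑ c ∈ Λ', φ c i ^ 2) ≤ 3 * X.D := by
        refine h6.trans ?_
        have h8 := hu i
        have h9 : 0 ≤ 3 * X.D := by linarith
        calc 3 * X.D * X.N2 (u i : Hn n) ≤ 3 * X.D * 1 := mul_le_mul_of_nonneg_left h8 h9
          _ = 3 * X.D := mul_one _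
      have h8 : 0 ≤ ∑ c ∈ Λ', φ c i ^ 2 := Finset.sum_nonneg fun c _ => sq_nonneg _
      have h9 := Real.sq_sqrt h8
      have h10 : Real.sqrt (∑ c ∈ Λ', φ c i ^ 2) ^ 2 ≤ (3 * X.D) ^ 2 :=
        pow_le_pow_left₀ (Real.sqrt_nonneg _) h7 2
      rw [h9] at h10
      linarith
    have h6 : (Λ'.card : ℝ) ≤ N₁ := by
      calc (Λ'.card : ℝ) ≤ ∑ i : Fin (finrank ℝ F), ∑ c ∈ Λ', φ c i ^ 2 := h4
        _ ≤ ∑ _i : Fin (finrank ℝ F), 9 * X.D ^ 2 := Finset.sum_le_sum fun i _ => h5 i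
        _ = (finrank ℝ F : ℝ) * (9 * X.D ^ 2) := by
            rw [Finset.sum_const, Finset.card_univ, Fintype.card_fin, nsmul_eq_mul]
        _ ≤ (a : ℝ) * (9 * X.D ^ 2) :=
            mul_le_mul_of_nonneg_right (by exact_mod_cast hF) (by positivity)
        _ = 9 * X.D ^ 2 * a := by ring
        _ ≤ N₁ := hN1
    exact_mod_cast h6
  have hΛ : Λ.card ≤ N₁ := by
    by_contra hc
    push Not at hc
    obtain ⟨Λ', hΛ', hc'⟩ := Finset.exists_subset_card_eq (s := Λ) (n := N₁ + 1) hc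
    have h4 := hcard Λ' hΛ' (by rw [hc']; exact hN1')
    rw [hc'] at h4
    omega
  refine ⟨S, Λ, hΛ, fun x => ⟨(hN2S x).1, (hN2S x).2, ?_, ?_⟩⟩
  · intro c hc
    have h4 : ∑ i, φ c i ^ 2 ≤ 1 := by
      by_contra h5
      push Not at h5
      exact hc (Finset.mem_filter.2 ⟨Finset.mem_univ _, h5⟩)
    rw [hinner]
    apply abs_le_of_sq_le_sq _ (norm_nonneg _)
    calc (∑ i, φ c i * (S x) i) ^ 2 ≤ (∑ i, φ c i ^ 2) * ∑ i, (S x) i ^ 2 :=
          Finset.sum_mul_sq_le_sq_mul_sq _ _ _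
      _ ≤ 1 * ∑ i, (S x) i ^ 2 :=
          mul_le_mul_of_nonneg_right h4 (Finset.sum_nonneg fun i _ => sq_nonneg _)
      _ = ‖S x‖ ^ 2 := by rw [one_mul, hnorm]
  · refine (h2 n J d s X N₀ L hOk Λ (by omega) (x : Hn n)).trans ?_
    exact mul_le_mul_of_nonneg_left (hN2S x).1 (by linarith)

end Pool.NG
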