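import Pool.Agent.Work.MP_3e8c7a_ng.InterfaceF

/-! # Block CON (helper25): the construction -/

set_option autoImplicit false

namespace Pool.NG

open Module Pool.Agent.MP3e8c7a
open Pool.RG (FacE)

theorem CON_good {n : ℕ} {J c : Type} [DecidableEq c] {b : J → c → Hn n} {τ τ' : ℝ} (h : τ ≤ τ')
    {E : Submodule ℝ (Hn n)} {j : J} (hE : GoodB b τ E j) : GoodB b τ' E j :=
  ⟨fun x y => (hE.1 x y).trans h, fun i hi x y => (hE.2 i hi x y).trans h⟩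

theorem p_CON (hBGS : Stmt_BGS) (hUAG : Stmt_UAG) (hNTX : Stmt_NTX) (hPAR : Stmt_PAR)
    (hRVF : Stmt_RVF) : Stmt_CON := by
  intro κ β hκ hβ hβ2
  obtain ⟨m, Q, G, hQ, hG, hFac⟩ := hBGS (378 * κ) (by linarith)
  have hD1 : (1 : ℝ) ≤ (Q : ℝ) := by exact_mod_cast hQ
  have hD3 : (1 : ℝ) ≤ 20 * (Q : ℝ) ^ 3 := by
    have h1 : (1 : ℝ) ≤ (Q : ℝ) ^ 3 := one_le_pow₀ hD1
    linarith
  obtain ⟨R, hR⟩ := hUAG (20 * (Q : ℝ) ^ 3) Q m hD3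
  obtain ⟨a, ha⟩ : ∃ a : ℕ, a = max R (max m 1) := ⟨_, rfl⟩
  obtain ⟨N₁, hN₁⟩ : ∃ N₁ : ℕ, N₁ = 9 * Q ^ 2 * a := ⟨_, rfl⟩
  obtain ⟨N₀, hN₀⟩ : ∃ N₀ : ℕ, N₀ = a * a + N₁ + 2 := ⟨_, rfl⟩
  have hRa : R ≤ a := by rw [ha]; exact le_max_left _ _
  have hma : m ≤ a := by rw [ha]; exact (le_max_left m 1).trans (le_max_right _ _)
  obtain ⟨q, Ξ, hΞ1, hΞ2, hΞ3⟩ := hNTX Q a (N₁ + Q) (Q : ℝ) (by linarith)
  obtain ⟨f, hf⟩ : ∃ f : ℝ, f = 1 + ∑ l, ∑ i, |bd Ξ l i| := ⟨_, rfl⟩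
  have hf1 : 1 ≤ f := by
    have : 0 ≤ ∑ l, ∑ i, |bd Ξ l i| :=
      Finset.sum_nonneg fun l _ => Finset.sum_nonneg fun i _ => abs_nonneg _
    linarith
  obtain ⟨cd, hcd⟩ : ∃ cd : ℕ, cd = Fintype.card ((Fin q × Fin (Q + 1)) × Fin a) := ⟨_, rfl⟩
  obtain ⟨cs, hcs⟩ : ∃ cs : ℕ, cs = Fintype.card ((Fin q × Fin (Q + 1)) × Fin (N₁ + Q)) := ⟨_, rfl⟩
  obtain ⟨L, hL⟩ : ∃ L : ℝ, L = f + N₀ + (Q + 2) + cd + cs := ⟨_, rfl⟩
  have p1 : (0 : ℝ) ≤ N₀ := Nat.cast_nonneg _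
  have p2 : (0 : ℝ) ≤ cd := Nat.cast_nonneg _
  have p3 : (0 : ℝ) ≤ cs := Nat.cast_nonneg _
  have hN₀1 : 1 ≤ N₀ := by omega
  obtain ⟨r, ρ, μ, τ, hr1, hr2, hρ, hμ, hτ, g1, g2, g3, g4, g5, g6⟩ :=
    hPAR N₀ (Q : ℝ) L β hN₀1 hD1 (by linarith) hβ
  obtain ⟨n₀, hn₀⟩ := hRVF (((Fin q × Fin (Q + 1)) × Fin a) ⊕ ((Fin q × Fin (Q + 1)) × Fin (N₁ + Q)))
    (min τ μ) (lt_min hτ hμ)
  refine ⟨Q, a, N₁, m, Q, q, N₀, L, τ, G, Ξ, n₀, hma, hFac, ?_⟩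
  intro n hn
  obtain ⟨M, b, b1, b2, b3⟩ := hn₀ n hn
  refine ⟨M, ⟨b, bd Ξ, (Q : ℝ), r, ρ, μ, hr1.le, hρ.le⟩, ?_, ?_, ?_⟩
  · refine
      { ok := ?_, Φ := rfl, aN := by omega, DN := ?_, NN := by omega, G := hG, net := hΞ3,
        sq := ?_, t2 := ?_, ua := ⟨R, hRa, ?_⟩ }
    · exact
        { D1 := hD1
          r1 := hr1
          r2 := hr2
          ρ0 := hρ
          μ0 := hμ
          unit := b1
          coh := fun x y hxy => (b2 x y hxy).trans (min_le_right _ _)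
          phi := hΞ2
          N1 := hN₀1
          L1 := by linarith
          Lf := by
            show 1 + ∑ l, ∑ i, |bd Ξ l i| ≤ L
            linarith
          LN := by linarith
          LD := by
            show (Q : ℝ) + 2 ≤ L
            linarith
          Ld := by
            rw [← hcd]
            linarith
          Ls := by
            rw [← hcs]
            linarith
          sm1 := g1
          sm2 := g2
          rN := g3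
          drop := g4 }
    · show 9 * (Q : ℝ) ^ 2 * (a : ℝ) ≤ (N₁ : ℝ)
      rw [hN₁]
      push_cast
      exact le_rfl
    · show Real.sqrt (Q : ℝ) ≤ (Q : ℝ)
      rw [Real.sqrt_le_left (by linarith)]
      nlinarith
    · show (Q : ℝ) ≤ 2 ^ Q
      have h1 : Q ≤ 2 ^ Q := Nat.lt_two_pow_self.le
      exact_mod_cast h1
    · exact hR
  · exact ⟨hτ, hβ, hβ2, g5, g6⟩
  · intro E₁ E₂
    obtain ⟨j, h1, h2⟩ := b3 E₁ E₂
    exact ⟨j, CON_good (min_le_left _ _) h1, CON_good (min_le_left _ _) h2⟩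

end Pool.NG
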