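import Pool.Agent.Work.MP_3e8c7a_ng.InterfaceF

/-!
# MP_3e8c7a_an, THEOREM NEG, block DIM: dimensions
-/

set_option autoImplicit false

namespace Pool.NG

open Module Pool.Agent.MP3e8c7a

lemma DIM_ker (n m : ℕ) (E : Submodule ℝ (Hn n × (Fin m → ℝ))) :
    finrank ℝ E ≤ finrank ℝ (E.comap (LinearMap.inl ℝ (Hn n) (Fin m → ℝ))) + m := by
  have h1 := ((LinearMap.snd ℝ (Hn n) (Fin m → ℝ)).domRestrict E).finrank_range_add_finrank_ker
  have h2 : finrank ℝ (LinearMap.range ((LinearMap.snd ℝ (Hn n) (Fin m → ℝ)).domRestrict E)) ≤ m := by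
    refine (Submodule.finrank_le _).trans ?_
    simp
  have h3 : finrank ℝ (LinearMap.ker ((LinearMap.snd ℝ (Hn n) (Fin m → ℝ)).domRestrict E)) ≤
      finrank ℝ (E.comap (LinearMap.inl ℝ (Hn n) (Fin m → ℝ))) := by
    let φ : LinearMap.ker ((LinearMap.snd ℝ (Hn n) (Fin m → ℝ)).domRestrict E) →ₗ[ℝ]
        E.comap (LinearMap.inl ℝ (Hn n) (Fin m → ℝ)) :=
      { toFun := fun v => ⟨v.1.1.1, by
          have hv : v.1.1.2 = 0 := v.2
          rw [Submodule.mem_comap]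
          show (v.1.1.1, (0 : Fin m → ℝ)) ∈ E
          rw [← hv]
          exact v.1.2⟩
        map_add' := fun _ _ => rfl
        map_smul' := fun _ _ => rfl }
    refine LinearMap.finrank_le_finrank_of_injective (f := φ) fun v w hvw => ?_
    have h : v.1.1.1 = w.1.1.1 := congrArg Subtype.val hvw
    have hv : v.1.1.2 = 0 := v.2
    have hw : w.1.1.2 = 0 := w.2
    exact Subtype.ext (Subtype.ext (Prod.ext h (hv.trans hw.symm)))
  omega

theorem p_DIM : Stmt_DIM := by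
  intro n m α β hβ h1 h2 hm E hE
  have hk1 : α * ((n + m : ℕ) : ℝ) ≤ (finrank ℝ E : ℝ) := by
    rw [hE]
    exact Nat.le_ceil _
  have hα : 0 ≤ α := by linarith
  have hn0 : (0 : ℝ) ≤ n := Nat.cast_nonneg n
  have hm0 : (0 : ℝ) ≤ m := Nat.cast_nonneg m
  have hk2 : (finrank ℝ E : ℝ) ≤ α * ((n + m : ℕ) : ℝ) + 1 := by
    rw [hE]
    exact (Nat.ceil_lt_add_one (mul_nonneg hα (Nat.cast_nonneg _))).le
  push_cast at hk1 hk2
  have h3 : (finrank ℝ E : ℝ) ≤ finrank ℝ (E.comap (LinearMap.inl ℝ (Hn n) (Fin m → ℝ))) + m := by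
    exact_mod_cast DIM_ker n m E
  have h4 : (finrank ℝ (E.map (LinearMap.fst ℝ (Hn n) (Fin m → ℝ))) : ℝ) ≤ finrank ℝ E := by
    exact_mod_cast Submodule.finrank_map_le _ E
  have h5 : 0 ≤ α * m := mul_nonneg hα hm0
  have h6 : α * m ≤ 1 * m := mul_le_mul_of_nonneg_right (by linarith) hm0
  have h7 : 2 * β * n ≤ α * n := mul_le_mul_of_nonneg_right h1 hn0
  have h8 : α * n ≤ (1 - 2 * β) * n := mul_le_mul_of_nonneg_right h2 hn0
  refine ⟨?_, ?_, ?_⟩
  · nlinarith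
  · nlinarith
  · nlinarith

end Pool.NG
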