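import Pool.Agent.Work.MP_3e8c7a_ng.Interface

/-! # Block DRP: dropping the l_1 part -/

set_option autoImplicit false

namespace Pool.NG

open Module Pool.Agent.MP3e8c7a

theorem DRP_lr_nonneg (r : ℝ) {ι : Type} [Fintype ι] (z : ι → ℝ) : 0 ≤ lr r z :=
  Real.rpow_nonneg (Finset.sum_nonneg fun i _ => Real.rpow_nonneg (abs_nonneg _) _) _

theorem DRP_lr_pow (r : ℝ) (hr : 1 ≤ r) {ι : Type} [Fintype ι] (z : ι → ℝ) :
    lr r z ^ r = ∑ i, |z i| ^ r := by
  have h0 : r ≠ 0 := by linarith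
  rw [lr, ← Real.rpow_mul (Finset.sum_nonneg fun i _ => Real.rpow_nonneg (abs_nonneg _) _),
    one_div, inv_mul_cancel₀ h0, Real.rpow_one]

theorem DRP_wt {n : ℕ} {J d s : Type} [Fintype J] [Fintype d] [Fintype s] (X : Cfg n J d s)
    (hD : 1 ≤ X.D) (z : J × (d ⊕ s) → ℝ) (c : J × (d ⊕ s)) : |z c| ≤ X.D * |X.wt z c| := by
  rcases c with ⟨j, i | l⟩
  · rw [Cfg.wt_inl]
    nlinarith [abs_nonneg (z (j, Sum.inl i))]
  · rw [Cfg.wt_inr, abs_mul, abs_inv, abs_of_pos (by linarith : 0 < X.D), ← mul_assoc,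
      mul_inv_cancel₀ (by linarith : X.D ≠ 0), one_mul]

theorem p_DRP (h1 : Stmt_LRA) (_h2 : Stmt_TYY) (h3 : Stmt_TBD) (h4 : Stmt_ATT) : Stmt_DRP := by
  classical
  intro n J d s _ _ _ X N₀ L hX x
  obtain ⟨z, hz⟩ := h4 n J d s X hX.ρ0 x
  have hlr0 := DRP_lr_nonneg X.r (X.wt z)
  have hsum0 : 0 ≤ ∑ c, |z c| := Finset.sum_nonneg fun i _ => abs_nonneg _
  have hρ := hX.ρ0
  have hnx := norm_nonneg (x - X.T z)
  have hρs : 0 ≤ X.ρ * ∑ c, |z c| := mul_nonneg hρ.le hsum0
  obtain ⟨N, hN⟩ : ∃ N : ℝ, N = X.N2 x := ⟨_, rfl⟩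
  rw [← hN] at hz ⊢
  have hN0 : 0 ≤ N := by rw [← hz]; positivity
  rcases hN0.eq_or_lt with hN0' | hNpos
  · refine ⟨z, ?_, ?_⟩
    · linarith
    · have h5 : X.ρ * ∑ c, |z c| = 0 := by linarith
      rw [h5, mul_zero]
      exact hN0
  · obtain ⟨η, hη, hη1, hη2⟩ := hX.drop
    have hD := hX.D1
    have hLD := hX.LD
    have hL3 : 3 ≤ L := by linarith
    have hr1 := hX.r1
    have hr2 := hX.r2
    have hηN : 0 < η * N := mul_pos hη hNpos
    obtain ⟨z2, hz2⟩ : ∃ z2 : J × (d ⊕ s) → ℝ, z2 = fun c => if |z c| < η * N then z c else 0 :=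
      ⟨_, rfl⟩
    obtain ⟨z1, hz1⟩ : ∃ z1 : J × (d ⊕ s) → ℝ, z1 = fun c => if |z c| < η * N then 0 else z c :=
      ⟨_, rfl⟩
    have hzz : z = z1 + z2 := by
      funext c
      rw [hz1, hz2]
      simp only [Pi.add_apply]
      split_ifs <;> simp
    have hab1 : ∀ c, |z1 c| ≤ |z c| := by
      intro c
      rw [hz1]
      simp only []
      split_ifs
      · rw [abs_zero]; exact abs_nonneg _
      · exact le_rfl
    have hab2 : ∀ c, |z2 c| ≤ |z c| := by
      intro c
      rw [hz2]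
      simp only []
      split_ifs
      · exact le_rfl
      · rw [abs_zero]; exact abs_nonneg _
    have e1 : ∑ c, |z c| ≤ N / X.ρ := by
      rw [le_div_iff₀ hρ]
      linarith
    have hs2 : ∑ c, |z2 c| ≤ ∑ c, |z c| := Finset.sum_le_sum fun c _ => hab2 c
    have e2 : l2 z2 ≤ N * Real.sqrt (η / X.ρ) := by
      have h5 : ∑ c, z2 c ^ 2 ≤ N ^ 2 * (η / X.ρ) := by
        calc ∑ c, z2 c ^ 2 ≤ ∑ c, η * N * |z c| := by
              refine Finset.sum_le_sum fun c _ => ?_
              rw [hz2]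
              simp only []
              split_ifs with hc
              · rw [← sq_abs, pow_two]
                exact mul_le_mul_of_nonneg_right hc.le (abs_nonneg _)
              · rw [zero_pow two_ne_zero]
                exact mul_nonneg hηN.le (abs_nonneg _)
          _ = η * N * ∑ c, |z c| := by rw [Finset.mul_sum]
          _ ≤ η * N * (N / X.ρ) := mul_le_mul_of_nonneg_left e1 hηN.le
          _ = N ^ 2 * (η / X.ρ) := by ring
      rw [l2]
      refine (Real.sqrt_le_sqrt h5).trans (le_of_eq ?_)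
      rw [Real.sqrt_mul (sq_nonneg N), Real.sqrt_sq hNpos.le]
    have hl20 : 0 ≤ l2 z2 := Real.sqrt_nonneg _
    have e3 : ‖X.T z2‖ ≤ N / 2 := by
      have h5 := h3 n J d s X N₀ L hX z2
      have h6 : (X.D + 2) * l2 z2 ≤ N / 4 := by
        calc (X.D + 2) * l2 z2 ≤ L * l2 z2 := mul_le_mul_of_nonneg_right hLD hl20
          _ ≤ L * (N * Real.sqrt (η / X.ρ)) := mul_le_mul_of_nonneg_left e2 (by linarith)
          _ = N * (4 * (L * Real.sqrt (η / X.ρ))) / 4 := by ring
          _ ≤ N * 1 / 4 := by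
              have := mul_le_mul_of_nonneg_left hη1 hNpos.le
              linarith
          _ = N / 4 := by ring
      have h7 : 4 * (L * Real.sqrt X.μ) ≤ X.ρ := by
        have h8 := hX.sm1
        have h9 : (4 : ℝ) ≤ L ^ 5 := by
          calc (4 : ℝ) ≤ 3 ^ 5 := by norm_num
            _ ≤ L ^ 5 := pow_le_pow_left₀ (by norm_num) hL3 5
        have h10 : 0 ≤ L * Real.sqrt X.μ := mul_nonneg (by linarith) (Real.sqrt_nonneg _)
        calc 4 * (L * Real.sqrt X.μ) ≤ L ^ 5 * (L * Real.sqrt X.μ) :=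
              mul_le_mul_of_nonneg_right h9 h10
          _ = L ^ 6 * Real.sqrt X.μ := by ring
          _ ≤ X.ρ := h8
      have h8 : L * Real.sqrt X.μ * ∑ c, |z2 c| ≤ N / 4 := by
        have h10 : 0 ≤ L * Real.sqrt X.μ := mul_nonneg (by linarith) (Real.sqrt_nonneg _)
        calc L * Real.sqrt X.μ * ∑ c, |z2 c| ≤ L * Real.sqrt X.μ * ∑ c, |z c| :=
              mul_le_mul_of_nonneg_left hs2 h10
          _ ≤ X.ρ / 4 * ∑ c, |z c| := mul_le_mul_of_nonneg_right (by linarith) hsum0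
          _ ≤ N / 4 := by linarith
      linarith
    refine ⟨z1, ?_, ?_⟩
    · have h5 : x - X.T z1 = (x - X.T z) + X.T z2 := by
        rw [hzz, map_add]
        abel
      have h6 : ‖x - X.T z1‖ ≤ ‖x - X.T z‖ + N / 2 := by
        rw [h5]
        exact (norm_add_le _ _).trans (by linarith)
      have h7 : lr X.r (X.wt z1) ≤ lr X.r (X.wt z) := by
        refine (h1 X.r (J × (d ⊕ s)) hr1.le hr2.le).2.1 _ _ ?_
        rintro ⟨j, i | l⟩
        · rw [Cfg.wt_inl, Cfg.wt_inl]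
          exact hab1 _
        · rw [Cfg.wt_inr, Cfg.wt_inr, abs_mul, abs_mul]
          exact mul_le_mul_of_nonneg_left (hab1 _) (abs_nonneg _)
      linarith
    · have h5 : ∀ c, |z1 c| ≤ (η * N) ^ (1 - X.r) * (X.D ^ X.r * |X.wt z c| ^ X.r) := by
        intro c
        have hpos : 0 ≤ (η * N) ^ (1 - X.r) * (X.D ^ X.r * |X.wt z c| ^ X.r) := by
          have := Real.rpow_nonneg hηN.le (1 - X.r)
          have := Real.rpow_nonneg (by linarith : 0 ≤ X.D) X.r
          have := Real.rpow_nonneg (abs_nonneg (X.wt z c)) X.r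
          positivity
        rw [hz1]
        simp only []
        split_ifs with hc
        · rw [abs_zero]
          exact hpos
        · rw [not_lt] at hc
          have hzc : 0 < |z c| := lt_of_lt_of_le hηN hc
          have h6 : |z c| = |z c| ^ (1 - X.r) * |z c| ^ X.r := by
            rw [← Real.rpow_add hzc, sub_add_cancel, Real.rpow_one]
          have h7 : |z c| ^ (1 - X.r) ≤ (η * N) ^ (1 - X.r) :=
            Real.rpow_le_rpow_of_nonpos hηN hc (by linarith)
          have h8 : |z c| ^ X.r ≤ X.D ^ X.r * |X.wt z c| ^ X.r := by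
            rw [← Real.mul_rpow (by linarith) (abs_nonneg _)]
            exact Real.rpow_le_rpow (abs_nonneg _) (DRP_wt X hD z c) (by linarith)
          calc |z c| = |z c| ^ (1 - X.r) * |z c| ^ X.r := h6
            _ ≤ (η * N) ^ (1 - X.r) * (X.D ^ X.r * |X.wt z c| ^ X.r) :=
                mul_le_mul h7 h8 (Real.rpow_nonneg (abs_nonneg _) _) (Real.rpow_nonneg hηN.le _)
      have h6 : ∑ c, |z1 c| ≤ η ^ (1 - X.r) * X.D ^ X.r * N := by
        have hDr := Real.rpow_nonneg (by linarith : 0 ≤ X.D) X.r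
        have hηr := Real.rpow_nonneg hηN.le (1 - X.r)
        calc ∑ c, |z1 c| ≤ ∑ c, (η * N) ^ (1 - X.r) * (X.D ^ X.r * |X.wt z c| ^ X.r) :=
              Finset.sum_le_sum fun c _ => h5 c
          _ = (η * N) ^ (1 - X.r) * (X.D ^ X.r * lr X.r (X.wt z) ^ X.r) := by
              rw [← Finset.mul_sum, ← Finset.mul_sum, DRP_lr_pow X.r hr1.le]
          _ ≤ (η * N) ^ (1 - X.r) * (X.D ^ X.r * N ^ X.r) := by
              refine mul_le_mul_of_nonneg_left (mul_le_mul_of_nonneg_left ?_ hDr) hηr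
              exact Real.rpow_le_rpow hlr0 (by linarith) (by linarith)
          _ = η ^ (1 - X.r) * X.D ^ X.r * (N ^ (1 - X.r) * N ^ X.r) := by
              rw [Real.mul_rpow hη.le hNpos.le]
              ring
          _ = η ^ (1 - X.r) * X.D ^ X.r * N := by
              rw [← Real.rpow_add hNpos, sub_add_cancel, Real.rpow_one]
      have hN₀ : (0 : ℝ) ≤ N₀ := Nat.cast_nonneg _
      calc (N₀ : ℝ) * (X.ρ * ∑ c, |z1 c|)
          ≤ N₀ * (X.ρ * (η ^ (1 - X.r) * X.D ^ X.r * N)) :=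
            mul_le_mul_of_nonneg_left (mul_le_mul_of_nonneg_left h6 hρ.le) hN₀
        _ = (X.ρ * η ^ (1 - X.r) * X.D ^ X.r * N₀) * N := by ring
        _ ≤ 1 * N := mul_le_mul_of_nonneg_right hη2 hNpos.le
        _ = N := one_mul N

end Pool.NG
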