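import Pool.Agent.Work.MP_3e8c7a_ng.Interface

/-! # Block EUC: the Euclidean constant of the space (helper5) -/

set_option autoImplicit false

namespace Pool.NG

open Module Pool.Agent.MP3e8c7a

theorem EUC_lr_nonneg (r : ℝ) {ι : Type} [Fintype ι] (z : ι → ℝ) : 0 ≤ lr r z :=
  Real.rpow_nonneg (Finset.sum_nonneg fun i _ => Real.rpow_nonneg (abs_nonneg _) _) _

theorem p_EUC (h1 : Stmt_LRA) (h2 : Stmt_TYY) (h3 : Stmt_TBD) (h4 : Stmt_PSI) (h5 : Stmt_ATT) :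
    Stmt_EUC := by
  intro n J d s _ _ _ X N₀ L hX x
  obtain ⟨z, hz⟩ := h5 n J d s X hX.ρ0 x
  have hD := hX.D1
  have hρ := hX.ρ0
  have hL1 := hX.L1
  have hn0 : 0 ≤ ‖x‖ := norm_nonneg x
  have hlr0 := EUC_lr_nonneg X.r (X.wt z)
  have hsum0 : 0 ≤ ∑ c, |z c| := Finset.sum_nonneg fun i _ => abs_nonneg _
  have hT := h3 n J d s X N₀ L hX z
  obtain ⟨_, _, _, hl⟩ := h2 n J d s X hD hX.phi z
  have hl2 := (h1 X.r (J × (d ⊕ s)) X.hr hX.r2.le).1 (X.wt z)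
  have hpsi := (h4 n J d s X N₀ L hX).2.2
  -- part 1
  have a1 : l2 z ≤ X.D * lr X.r (X.wt z) :=
    hl.trans (mul_le_mul_of_nonneg_left hl2 (by linarith))
  have a2 : L * Real.sqrt X.μ ≤ X.ρ := by
    have h6 := hX.sm1
    have h7 : L ≤ L ^ 6 := by
      calc L = L ^ 1 := (pow_one L).symm
        _ ≤ L ^ 6 := pow_le_pow_right₀ hL1 (by norm_num)
    exact (mul_le_mul_of_nonneg_right h7 (Real.sqrt_nonneg _)).trans h6
  have a3 : (X.D + 2) * l2 z ≤ 3 * X.D ^ 2 * lr X.r (X.wt z) := by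
    calc (X.D + 2) * l2 z ≤ (X.D + 2) * (X.D * lr X.r (X.wt z)) :=
          mul_le_mul_of_nonneg_left a1 (by linarith)
      _ = (X.D + 2) * X.D * lr X.r (X.wt z) := by ring
      _ ≤ 3 * X.D ^ 2 * lr X.r (X.wt z) :=
          mul_le_mul_of_nonneg_right (by nlinarith) hlr0
  have a4 : L * Real.sqrt X.μ * ∑ c, |z c| ≤ X.ρ * ∑ c, |z c| :=
    mul_le_mul_of_nonneg_right a2 hsum0
  have hD2 : 1 ≤ 3 * X.D ^ 2 := by nlinarith
  have b1 : ‖x‖ ≤ 3 * X.D ^ 2 * X.N2 x := by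
    have h6 : ‖x‖ ≤ ‖x - X.T z‖ + ‖X.T z‖ := by
      calc ‖x‖ = ‖(x - X.T z) + X.T z‖ := by rw [sub_add_cancel]
        _ ≤ _ := norm_add_le _ _
    have h7 : ‖x - X.T z‖ ≤ 3 * X.D ^ 2 * ‖x - X.T z‖ :=
      le_mul_of_one_le_left (norm_nonneg _) hD2
    have h8 : X.ρ * ∑ c, |z c| ≤ 3 * X.D ^ 2 * (X.ρ * ∑ c, |z c|) :=
      le_mul_of_one_le_left (mul_nonneg hρ.le hsum0) hD2
    rw [← hz, mul_add, mul_add]
    linarith
  -- part 2
  have b2 : X.N2 x ≤ ‖x‖ := by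
    have h6 := X.N2_le x 0
    have h7 : lr X.r (X.wt 0) = 0 := by
      rw [map_zero, ← lrS_apply X.r X.hr, map_zero]
    rw [h7, map_zero, sub_zero] at h6
    simpa using h6
  refine ⟨b1, b2, le_max_left _ _, ?_⟩
  rw [Cfg.nX_apply]
  have h3D : ‖x‖ ≤ 3 * X.D * ‖x‖ := le_mul_of_one_le_left hn0 (by linarith)
  refine max_le (b2.trans h3D) ?_
  rw [pi_norm_le_iff_of_nonneg (mul_nonneg (by linarith) hn0)]
  intro c
  rw [Cfg.ev_apply, Real.norm_eq_abs]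
  exact (abs_real_inner_le_norm _ _).trans (mul_le_mul_of_nonneg_right (hpsi c) hn0)

end Pool.NG
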