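import Pool.Agent.Work.MP_3e8c7a_ng.Interface

set_option autoImplicit false

namespace Pool.NG

open Module Pool.Agent.MP3e8c7a

/-- The linear map to the Euclidean space. -/
noncomputable def EUV_T {n m Q : ℕ} (D c : ℝ) (G : (Fin m → ℝ) →ₗ[ℝ] (Fin Q → ℝ)) :
    (Hn n × (Fin m → ℝ)) →ₗ[ℝ] EuclideanSpace ℝ (Fin n ⊕ Fin Q) where
  toFun v := WithLp.toLp 2 (Sum.elim (fun i => c * v.1 i) (fun k => c * (D * G v.2 k)))
  map_add' u v := by
    ext i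
    rcases i with i | k
    · simp [mul_add]
    · simp [mul_add]
  map_smul' t v := by
    ext i
    rcases i with i | k
    · simp [mul_left_comm]
    · simp [mul_left_comm]

lemma EUV_norm {n m Q : ℕ} (D c : ℝ) (G : (Fin m → ℝ) →ₗ[ℝ] (Fin Q → ℝ)) (v : Hn n × (Fin m → ℝ)) :
    ‖EUV_T D c G v‖ ^ 2 = c ^ 2 * (‖v.1‖ ^ 2 + (D * l2 (G v.2)) ^ 2) := by
  rw [EuclideanSpace.norm_sq_eq, Fintype.sum_sum_type, EuclideanSpace.norm_sq_eq, mul_pow D, l2,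
    Real.sq_sqrt (Finset.sum_nonneg fun _ _ => sq_nonneg _), mul_add, Finset.mul_sum, Finset.mul_sum, Finset.mul_sum]
  congr 1
  · refine Finset.sum_congr rfl fun i _ => ?_
    show ‖c * v.1 i‖ ^ 2 = _
    rw [norm_mul, mul_pow, Real.norm_eq_abs, sq_abs]
  · refine Finset.sum_congr rfl fun i _ => ?_
    show ‖c * (D * G v.2 i)‖ ^ 2 = _
    rw [Real.norm_eq_abs, sq_abs]
    ring

theorem p_EUV (h1 : Stmt_EUC) : Stmt_EUV := by
  intro n J d s _ _ _ X N₀ L hX m Q G hG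
  have hD : 1 ≤ X.D := hX.D1
  have hD0 : 0 < X.D := by linarith
  set c : ℝ := (3 * X.D ^ 2)⁻¹ with hc
  have hc0 : 0 < c := by positivity
  let T : (Hn n × (Fin m → ℝ)) →ₗ[ℝ] EuclideanSpace ℝ (Fin (n + Q)) :=
    (LinearIsometryEquiv.piLpCongrLeft 2 ℝ ℝ (finSumFinEquiv (m := n) (n := Q))).toLinearEquiv.toLinearMap ∘ₗ EUV_T X.D⁻¹ c G
  let N : Seminorm ℝ (Hn n × (Fin m → ℝ)) := (normSeminorm ℝ (EuclideanSpace ℝ (Fin (n + Q)))).comp T
  have hN : ∀ v, N v = ‖T v‖ := fun v => rfl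
  have hT : ∀ v, ‖T v‖ = ‖EUV_T X.D⁻¹ c G v‖ := fun v =>
    (LinearIsometryEquiv.piLpCongrLeft 2 ℝ ℝ (finSumFinEquiv (m := n) (n := Q))).norm_map _
  have hN2 : ∀ v, N v ^ 2 = c ^ 2 * (‖v.1‖ ^ 2 + (X.D⁻¹ * l2 (G v.2)) ^ 2) := by
    intro v
    rw [hN, hT, EUV_norm]
  have hl2 : ∀ y : Fin Q → ℝ, 0 ≤ l2 y := fun y => Real.sqrt_nonneg _
  have hDi : 0 < X.D⁻¹ := inv_pos.2 hD0
  refine ⟨N, ⟨n + Q, T, fun x => ⟨le_of_eq (hN x).symm, by rw [one_mul, hN x]⟩⟩, ?_, ?_⟩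
  · intro v hv
    have h2 := hN2 v
    rw [hv] at h2
    have h3 : ‖v.1‖ ^ 2 + (X.D⁻¹ * l2 (G v.2)) ^ 2 = 0 := by
      have h4 : c ^ 2 * (‖v.1‖ ^ 2 + (X.D⁻¹ * l2 (G v.2)) ^ 2) = 0 := by rw [← h2]; ring
      rcases mul_eq_zero.1 h4 with h5 | h5
      · exact absurd h5 (by positivity)
      · exact h5
    have h4 : ‖v.1‖ ^ 2 = 0 := by nlinarith [sq_nonneg ‖v.1‖, sq_nonneg (X.D⁻¹ * l2 (G v.2))]
    have h5 : (X.D⁻¹ * l2 (G v.2)) ^ 2 = 0 := by nlinarith [sq_nonneg ‖v.1‖, sq_nonneg (X.D⁻¹ * l2 (G v.2))]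
    have h6 : v.1 = 0 := norm_eq_zero.1 (pow_eq_zero_iff (two_ne_zero) |>.1 h4)
    have h7 : l2 (G v.2) = 0 := by
      have h8 := pow_eq_zero_iff (two_ne_zero) |>.1 h5
      rcases mul_eq_zero.1 h8 with h9 | h9
      · exact absurd h9 hDi.ne'
      · exact h9
    have h8 : G v.2 = 0 := by
      rw [l2_eq_norm, norm_eq_zero] at h7
      have := congrArg (WithLp.ofLp) h7
      simpa using this
    have h9 : v.2 = 0 := hG (by rw [h8, map_zero])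
    exact Prod.ext h6 h9
  · intro τ v
    obtain ⟨e1, e2, e3, e4⟩ := h1 n J d s X N₀ L hX v.1
    have hP := X.P_apply G τ v
    rw [qS_apply hD0] at hP
    have hx : 0 ≤ ‖v.1‖ := norm_nonneg _
    have hy : 0 ≤ X.D⁻¹ * l2 (G v.2) := mul_nonneg hDi.le (hl2 _)
    have hN0 : 0 ≤ N v := apply_nonneg _ _
    have hcD : c * (3 * X.D ^ 2) = 1 := by
      rw [hc]
      exact inv_mul_cancel₀ (by positivity)
    constructor
    · have hlow : N v ≤ c * (‖v.1‖ + X.D⁻¹ * l2 (G v.2)) := by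
        refine abs_le_of_sq_le_sq' ?_ (by positivity) |>.2
        rw [hN2]
        nlinarith [mul_nonneg hx hy, sq_nonneg c, mul_nonneg (sq_nonneg c) (mul_nonneg hx hy)]
      have h5 : c * ‖v.1‖ ≤ X.nX v.1 := by
        have h6 : ‖v.1‖ ≤ 3 * X.D ^ 2 * X.nX v.1 := e1.trans (mul_le_mul_of_nonneg_left e3 (by positivity))
        calc c * ‖v.1‖ ≤ c * (3 * X.D ^ 2 * X.nX v.1) := mul_le_mul_of_nonneg_left h6 hc0.le
          _ = (c * (3 * X.D ^ 2)) * X.nX v.1 := by ring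
          _ = X.nX v.1 := by rw [hcD, one_mul]
      have hc1 : c ≤ 1 := by
        have : 1 ≤ 3 * X.D ^ 2 := by nlinarith
        nlinarith
      have h6 : c * (X.D⁻¹ * l2 (G v.2)) ≤ X.D⁻¹ * l2 (G v.2) := by nlinarith
      rw [hP]
      have h7 := le_max_left (X.D⁻¹ * l2 (G v.2)) ((1 / 2) ^ τ * ‖G v.2‖)
      linarith
    · have hsum : ‖v.1‖ + X.D⁻¹ * l2 (G v.2) ≤ 2 * (3 * X.D ^ 2 * N v) := by
        have h5 : (3 * X.D ^ 2 * N v) ^ 2 = ‖v.1‖ ^ 2 + (X.D⁻¹ * l2 (G v.2)) ^ 2 := by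
          rw [mul_pow, hN2, ← mul_assoc, ← mul_pow, mul_comm (3 * X.D ^ 2) c, hcD]
          ring
        refine abs_le_of_sq_le_sq' ?_ (by positivity) |>.2
        rw [mul_pow, h5]
        nlinarith [sq_nonneg (‖v.1‖ - X.D⁻¹ * l2 (G v.2))]
      have hsup : ‖G v.2‖ ≤ l2 (G v.2) := by
        rw [pi_norm_le_iff_of_nonneg (hl2 _)]
        intro k
        rw [Real.norm_eq_abs, l2, ← Real.sqrt_sq_eq_abs]
        exact Real.sqrt_le_sqrt (Finset.single_le_sum (f := fun i => (G v.2 i) ^ 2) (fun i _ => sq_nonneg _) (Finset.mem_univ k))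
      have hl : l2 (G v.2) = X.D * (X.D⁻¹ * l2 (G v.2)) := by
        rw [← mul_assoc, mul_inv_cancel₀ hD0.ne', one_mul]
      have hpow : ((1 : ℝ) / 2) ^ τ ≤ 1 := pow_le_one₀ (by norm_num) (by norm_num)
      have hmax : max (X.D⁻¹ * l2 (G v.2)) ((1 / 2) ^ τ * ‖G v.2‖) ≤ X.D * (X.D⁻¹ * l2 (G v.2)) := by
        refine max_le ?_ ?_
        · nlinarith
        · rw [← hl]
          have := norm_nonneg (G v.2)
          have := hl2 (G v.2)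
          nlinarith
      rw [hP]
      have h9 : X.nX v.1 + max (X.D⁻¹ * l2 (G v.2)) ((1 / 2) ^ τ * ‖G v.2‖) ≤ 3 * X.D * (‖v.1‖ + X.D⁻¹ * l2 (G v.2)) := by
        nlinarith [mul_nonneg hD0.le hy]
      calc X.nX v.1 + max (X.D⁻¹ * l2 (G v.2)) ((1 / 2) ^ τ * ‖G v.2‖) ≤ 3 * X.D * (‖v.1‖ + X.D⁻¹ * l2 (G v.2)) := h9
        _ ≤ 3 * X.D * (2 * (3 * X.D ^ 2 * N v)) := mul_le_mul_of_nonneg_left hsum (by positivity)
        _ = 18 * X.D ^ 3 * N v := by ring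
        _ ≤ 20 * X.D ^ 3 * N v := by
            have : 0 ≤ X.D ^ 3 * N v := by positivity
            linarith

end Pool.NG
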