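import Pool.Agent.Work.MP_3e8c7a_ng.Interface

/-!
# MP_3e8c7a_an, THEOREM NEG: block F3B (few functionals)
-/

set_option autoImplicit false

namespace Pool.NG

open Module Pool.Agent.MP3e8c7a

lemma F3B_sq {n : ℕ} {J d s : Type} [Fintype J] [Fintype d] [Fintype s] {X : Cfg n J d s}
    {N₀ : ℕ} {L : ℝ} (h : X.Ok N₀ L) : Real.sqrt X.μ ≤ 1 ∧ L ^ 2 * Real.sqrt X.μ ≤ 1 ∧
      L ^ 3 * X.μ ≤ X.ρ := by
  have hL := h.L1
  have h0 : 0 ≤ Real.sqrt X.μ := Real.sqrt_nonneg _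
  have h6 : (1 : ℝ) ≤ L ^ 6 := one_le_pow₀ hL
  have hρ1 : X.ρ ≤ 1 := by
    have := h.sm2
    nlinarith [h.ρ0]
  have h26 : L ^ 2 ≤ L ^ 6 := pow_le_pow_right₀ hL (by norm_num)
  have h36 : L ^ 3 ≤ L ^ 6 := pow_le_pow_right₀ hL (by norm_num)
  have hs1 : L ^ 6 * Real.sqrt X.μ ≤ 1 := h.sm1.trans hρ1
  have hm1 : Real.sqrt X.μ ≤ 1 := by nlinarith
  refine ⟨hm1, ?_, ?_⟩
  · exact (mul_le_mul_of_nonneg_right h26 h0).trans hs1
  · have hm : X.μ ≤ Real.sqrt X.μ := by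
      calc X.μ = Real.sqrt X.μ * Real.sqrt X.μ := (Real.mul_self_sqrt h.μ0.le).symm
        _ ≤ Real.sqrt X.μ * 1 := mul_le_mul_of_nonneg_left hm1 h0
        _ = Real.sqrt X.μ := mul_one _
    have h3 : (0 : ℝ) ≤ L ^ 3 := by positivity
    calc L ^ 3 * X.μ ≤ L ^ 3 * Real.sqrt X.μ := mul_le_mul_of_nonneg_left hm h3
      _ ≤ L ^ 6 * Real.sqrt X.μ := mul_le_mul_of_nonneg_right h36 h0
      _ ≤ X.ρ := h.sm1

lemma F3B_l2 {J d s : Type} [Fintype J] [Fintype d] [Fintype s] (z : J × (d ⊕ s) → ℝ) :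
    ∑ c : J × s, z (c.1, Sum.inr c.2) ^ 2 ≤ ∑ c, z c ^ 2 := by
  rw [Fintype.sum_prod_type, Fintype.sum_prod_type]
  refine Finset.sum_le_sum fun j _ => ?_
  rw [Fintype.sum_sum_type]
  have : 0 ≤ ∑ i : d, z (j, Sum.inl i) ^ 2 := Finset.sum_nonneg fun i _ => sq_nonneg _
  linarith

theorem p_F3B (hLRA : Stmt_LRA) (hTYY : Stmt_TYY) (hPSI : Stmt_PSI) (hATT : Stmt_ATT) :
    Stmt_F3B := by
  classical
  intro n J d s _ _ _ X N₀ L hOk Λ hΛ x
  obtain ⟨hm1, hm2, hm3⟩ := F3B_sq hOk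
  obtain ⟨hP1, hP2, -⟩ := hPSI n J d s X N₀ L hOk
  have hD := hOk.D1
  have hL := hOk.L1
  have hN2 : 0 ≤ X.N2 x := apply_nonneg _ _
  set A := Real.sqrt (∑ c ∈ Λ, inner ℝ (X.psi c) x ^ 2) with hA
  have hA0 : 0 ≤ A := Real.sqrt_nonneg _
  rcases hA0.eq_or_lt with h0 | h0
  · rw [← h0]; positivity
  have hAsq : A ^ 2 = ∑ c ∈ Λ, inner ℝ (X.psi c) x ^ 2 :=
    Real.sq_sqrt (Finset.sum_nonneg fun c _ => sq_nonneg _)
  set β : J × s → ℝ := fun c => if c ∈ Λ then inner ℝ (X.psi c) x else 0 with hβ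
  have hβsum : ∀ g : J × s → ℝ → ℝ, (∀ c, g c 0 = 0) →
      ∑ c, g c (β c) = ∑ c ∈ Λ, g c (inner ℝ (X.psi c) x) := by
    intro g hg
    rw [← Finset.sum_subset (Finset.subset_univ Λ) (f := fun c => g c (β c))]
    · exact Finset.sum_congr rfl fun c hc => by rw [hβ]; simp only [if_pos hc]
    · intro c _ hc
      rw [hβ]; simp only [if_neg hc, hg]
  have hl2 : l2 β = A := by
    rw [l2, hA]
    congr 1
    exact hβsum (fun _ t => t ^ 2) (fun _ => by norm_num)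
  have hl1 : ∑ c, |β c| ≤ L * A := by
    rw [hβsum (fun _ t => |t|) (fun _ => abs_zero)]
    have hcs := Finset.sum_mul_sq_le_sq_mul_sq Λ (fun _ => (1 : ℝ)) (fun c => |inner ℝ (X.psi c) x|)
    simp only [one_mul, one_pow, Finset.sum_const, nsmul_eq_mul, mul_one, sq_abs] at hcs
    rw [← hAsq] at hcs
    have hc : (Λ.card : ℝ) ≤ L := (Nat.cast_le.2 hΛ).trans hOk.LN
    have hcL : (Λ.card : ℝ) * A ^ 2 ≤ (L * A) ^ 2 := by
      rw [mul_pow]
      refine mul_le_mul_of_nonneg_right (hc.trans ?_) (sq_nonneg _)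
      nlinarith
    exact abs_le_of_sq_le_sq' (hcs.trans hcL) (by positivity) |>.2
  obtain ⟨z, hz⟩ := hATT n J d s X hOk.ρ0 x
  set v := x - X.T z with hv
  set Z := ∑ c, |z c| with hZ
  have hZ0 : 0 ≤ Z := Finset.sum_nonneg fun c _ => abs_nonneg _
  have hlr0 : 0 ≤ lr X.r (X.wt z) := by
    have := apply_nonneg (lrS X.r X.hr (J × (d ⊕ s))) (X.wt z)
    rwa [lrS_apply] at this
  -- the decomposition
  have hsplit : A ^ 2 = inner ℝ (∑ c, β c • X.psi c) v + ∑ c, β c * inner ℝ (X.psi c) (X.T z) := by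
    have e1 : inner ℝ (∑ c, β c • X.psi c) v = ∑ c, β c * inner ℝ (X.psi c) v := by
      rw [sum_inner]
      exact Finset.sum_congr rfl fun c _ => by rw [real_inner_smul_left]
    have e2 : ∑ c, β c * inner ℝ (X.psi c) x = A ^ 2 := by
      rw [hβsum (fun c t => t * inner ℝ (X.psi c) x) (fun c => zero_mul _), hAsq]
      exact Finset.sum_congr rfl fun c _ => by ring
    rw [e1, ← Finset.sum_add_distrib, ← e2]
    refine Finset.sum_congr rfl fun c _ => ?_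
    rw [hv, inner_sub_right]; ring
  have hfirst : inner ℝ (∑ c, β c • X.psi c) v ≤ 3 * X.D * A * ‖v‖ := by
    refine (real_inner_le_norm _ _).trans (mul_le_mul_of_nonneg_right ?_ (norm_nonneg _))
    refine (hP2 β).trans ?_
    rw [hl2]
    have h1 : L * Real.sqrt X.μ * ∑ c, |β c| ≤ L * Real.sqrt X.μ * (L * A) :=
      mul_le_mul_of_nonneg_left hl1 (by positivity)
    have h2 : L * Real.sqrt X.μ * (L * A) = (L ^ 2 * Real.sqrt X.μ) * A := by ring
    have h3 : (L ^ 2 * Real.sqrt X.μ) * A ≤ 1 * A := mul_le_mul_of_nonneg_right hm2 hA0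
    nlinarith
  have hsecond : ∑ c, β c * inner ℝ (X.psi c) (X.T z) ≤
      A * (X.D * lr X.r (X.wt z)) + A * (X.ρ * Z) := by
    have e1 : ∀ c, β c * inner ℝ (X.psi c) (X.T z) ≤
        β c * z (c.1, Sum.inr c.2) + |β c| * (L ^ 2 * X.μ * Z) := by
      intro c
      have h1 : β c * (inner ℝ (X.psi c) (X.T z) - z (c.1, Sum.inr c.2)) ≤
          |β c| * (L ^ 2 * X.μ * Z) := by
        refine (le_abs_self _).trans ?_
        rw [abs_mul]
        exact mul_le_mul_of_nonneg_left (hP1 z c) (abs_nonneg _)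
      linarith [mul_sub (β c) (inner ℝ (X.psi c) (X.T z)) (z (c.1, Sum.inr c.2))]
    refine (Finset.sum_le_sum fun c _ => e1 c).trans ?_
    rw [Finset.sum_add_distrib, ← Finset.sum_mul]
    refine add_le_add ?_ ?_
    · have hcs := Finset.sum_mul_sq_le_sq_mul_sq Finset.univ β (fun c : J × s => z (c.1, Sum.inr c.2))
      have hb : ∑ c, β c ^ 2 = A ^ 2 := by
        rw [← hl2, l2, Real.sq_sqrt (Finset.sum_nonneg fun c _ => sq_nonneg _)]
      rw [hb] at hcs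
      have hz2 : ∑ c : J × s, z (c.1, Sum.inr c.2) ^ 2 ≤ (X.D * lr X.r (X.wt z)) ^ 2 := by
        refine (F3B_l2 z).trans ?_
        have h1 : l2 z ≤ X.D * lr X.r (X.wt z) :=
          ((hTYY n J d s X hD hOk.phi z).2.2.2).trans (mul_le_mul_of_nonneg_left
            ((hLRA X.r (J × (d ⊕ s)) X.hr hOk.r2.le).1 (X.wt z)) (by linarith))
        have h2 : ∑ c, z c ^ 2 = l2 z ^ 2 := by
          rw [l2, Real.sq_sqrt (Finset.sum_nonneg fun c _ => sq_nonneg _)]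
        rw [h2]
        exact pow_le_pow_left₀ (Real.sqrt_nonneg _) h1 2
      have h4 : (∑ c, β c * z (c.1, Sum.inr c.2)) ^ 2 ≤ (A * (X.D * lr X.r (X.wt z))) ^ 2 := by
        refine hcs.trans ?_
        rw [mul_pow]
        exact mul_le_mul_of_nonneg_left hz2 (sq_nonneg _)
      exact (abs_le_of_sq_le_sq' h4 (by positivity)).2
    · have h1 : (∑ c, |β c|) * (L ^ 2 * X.μ * Z) ≤ (L * A) * (L ^ 2 * X.μ * Z) :=
        mul_le_mul_of_nonneg_right hl1 (mul_nonneg (mul_nonneg (sq_nonneg _) hOk.μ0.le) hZ0)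
      have h2 : (L * A) * (L ^ 2 * X.μ * Z) = A * ((L ^ 3 * X.μ) * Z) := by ring
      refine h1.trans ?_
      rw [h2]
      exact mul_le_mul_of_nonneg_left (mul_le_mul_of_nonneg_right hm3 hZ0) hA0
  have hfin : A * A ≤ A * (3 * X.D * X.N2 x) := by
    have h1 : A ^ 2 ≤ 3 * X.D * A * ‖v‖ + (A * (X.D * lr X.r (X.wt z)) + A * (X.ρ * Z)) := by
      rw [hsplit]; exact add_le_add hfirst hsecond
    have h2 : A * (X.D * lr X.r (X.wt z)) ≤ A * (3 * X.D * lr X.r (X.wt z)) := by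
      refine mul_le_mul_of_nonneg_left ?_ hA0
      nlinarith [mul_nonneg (by linarith : (0 : ℝ) ≤ X.D) hlr0]
    have h3 : A * (X.ρ * Z) ≤ A * (3 * X.D * (X.ρ * Z)) := by
      refine mul_le_mul_of_nonneg_left ?_ hA0
      nlinarith [mul_nonneg hOk.ρ0.le hZ0]
    rw [← hz]
    calc A * A = A ^ 2 := by ring
      _ ≤ 3 * X.D * A * ‖v‖ + (A * (X.D * lr X.r (X.wt z)) + A * (X.ρ * Z)) := h1
      _ ≤ 3 * X.D * A * ‖v‖ + (A * (3 * X.D * lr X.r (X.wt z)) + A * (3 * X.D * (X.ρ * Z))) := by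
        linarith
      _ = A * (3 * X.D * (‖v‖ + (lr X.r (X.wt z) + X.ρ * Z))) := by ring
  exact le_of_mul_le_mul_left hfin h0

end Pool.NG
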