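import Pool.Agent.Work.MP_3e8c7a_ng.Interface

/-!
# HID: the noise is invisible in a section
-/

set_option autoImplicit false

namespace Pool.NG

open Module Pool.Agent.MP3e8c7a

theorem HID_sq {ι : Type} [Fintype ι] (g : ι → ℝ) : l2 g ^ 2 = ∑ i, g i ^ 2 := by
  rw [l2, Real.sq_sqrt (Finset.sum_nonneg fun i _ => sq_nonneg _)]

theorem HID_nn {ι : Type} [Fintype ι] (g : ι → ℝ) : 0 ≤ l2 g := Real.sqrt_nonneg _

theorem HID_cs {ι : Type} [Fintype ι] (f g : ι → ℝ) : ∑ i, f i * g i ≤ l2 f * l2 g :=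
  Real.sum_mul_le_sqrt_mul_sqrt _ _ _

theorem HID_l1 {ι : Type} [Fintype ι] (g : ι → ℝ) (L : ℝ) (h1 : 1 ≤ L)
    (h2 : (Fintype.card ι : ℝ) ≤ L) : ∑ i, |g i| ≤ L * l2 g := by
  have h := sq_sum_le_card_mul_sum_sq (s := (Finset.univ : Finset ι)) (f := fun i => |g i|)
  have e : ∑ i, |g i| ^ 2 = l2 g ^ 2 := by
    rw [HID_sq]
    exact Finset.sum_congr rfl fun i _ => sq_abs _
  rw [e, Finset.card_univ] at h
  have h3 : (∑ i, |g i|) ^ 2 ≤ (L * l2 g) ^ 2 := by
    refine h.trans ?_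
    rw [mul_pow]
    refine mul_le_mul_of_nonneg_right ?_ (sq_nonneg _)
    nlinarith
  exact (pow_le_pow_iff_left₀ (Finset.sum_nonneg fun i _ => abs_nonneg _)
    (mul_nonneg (by linarith) (HID_nn g)) two_ne_zero).1 h3

theorem HID_sup {ι : Type} [Fintype ι] (e : ι → ℝ) (L κ : ℝ) (h1 : 1 ≤ L)
    (h2 : (Fintype.card ι : ℝ) ≤ L) (h0 : 0 ≤ κ) (he : ∀ i, |e i| ≤ κ) : l2 e ≤ L * κ := by
  have h3 : l2 e ^ 2 ≤ (L * κ) ^ 2 := by
    rw [HID_sq]
    have h4 : ∑ i, e i ^ 2 ≤ ∑ _i : ι, κ ^ 2 := by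
      refine Finset.sum_le_sum fun i _ => ?_
      rw [← sq_abs]
      exact pow_le_pow_left₀ (abs_nonneg _) (he i) 2
    rw [Finset.sum_const, Finset.card_univ, nsmul_eq_mul] at h4
    refine h4.trans ?_
    rw [mul_pow]
    refine mul_le_mul_of_nonneg_right ?_ (sq_nonneg _)
    nlinarith
  exact (pow_le_pow_iff_left₀ (HID_nn e) (mul_nonneg (by linarith) h0) two_ne_zero).1 h3

theorem HID_inj {ι κ : Type} [Fintype ι] [Fintype κ] (e : ι → κ) (he : Function.Injective e)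
    (f : κ → ℝ) (hf : ∀ c, 0 ≤ f c) : ∑ i, f (e i) ≤ ∑ c, f c := by
  have h := Finset.sum_map Finset.univ ⟨e, he⟩ f
  simp only [Function.Embedding.coeFn_mk] at h
  rw [← h]
  exact Finset.sum_le_sum_of_subset_of_nonneg (Finset.subset_univ _) (fun c _ _ => hf c)

theorem HID_tri {ι : Type} [Fintype ι] (a b c : ι → ℝ) :
    l2 (fun i => a i - b i + c i) ≤ l2 a + l2 b + l2 c := by
  have h1 : l2S ι ((a - b) + c) ≤ l2S ι (a - b) + l2S ι c := map_add_le_add _ _ _
  have h2 : l2S ι (a - b) ≤ l2S ι a + l2S ι b := map_sub_le_add _ _ _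
  simp only [l2S_apply] at h1 h2
  have e : (fun i => a i - b i + c i) = (a - b) + c := rfl
  rw [e]
  linarith

/-- the inner products with the projection of `∑ g l • γ l` -/
theorem HID_F {n : ℕ} {s : Type} [Fintype s] (E : Submodule ℝ (Hn n)) (γ : s → Hn n) (g : s → ℝ)
    (w : Hn n) : inner ℝ (E.starProjection (∑ l, g l • γ l)) w =
      ∑ l, g l * inner ℝ w (E.starProjection (γ l)) := by
  rw [map_sum, sum_inner]
  refine Finset.sum_congr rfl fun l _ => ?_
  rw [map_smul, real_inner_smul_left, real_inner_comm]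

theorem HID_Fb {s : Type} [Fintype s] (g a : s → ℝ) (τ : ℝ) (h : ∀ l, |a l| ≤ τ) :
    |∑ l, g l * a l| ≤ τ * ∑ l, |g l| := by
  refine (Finset.abs_sum_le_sum_abs _ _).trans ?_
  rw [Finset.mul_sum]
  refine Finset.sum_le_sum fun l _ => ?_
  rw [abs_mul, mul_comm]
  exact mul_le_mul_of_nonneg_right (h l) (abs_nonneg _)

/-- splitting a sum over `J × e` at the block `j` -/
theorem HID_split {J e : Type} [Fintype J] [DecidableEq J] [Fintype e] (j : J) (f : J × e → ℝ) :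
    ∑ c, f c = ∑ c ∈ Finset.univ.filter (fun c : J × e => c.1 ≠ j), f c + ∑ k, f (j, k) := by
  rw [← Finset.sum_filter_add_sum_filter_not Finset.univ (fun c : J × e => c.1 ≠ j)]
  congr 1
  rw [Finset.sum_filter, Fintype.sum_prod_type]
  simp only [ne_eq, not_not]
  rw [Finset.sum_eq_single j]
  · simp
  · intro i _ hi
    simp [hi]
  · intro h
    exact absurd (Finset.mem_univ j) h

/-- the block `i` of `⟪h, T z⟫` -/
theorem HID_block {n : ℕ} {J d s : Type} [Fintype d] [Fintype s] (X : Cfg n J d s) (h : Hn n)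
    (z : J × (d ⊕ s) → ℝ) (i : J) :
    ∑ k, z (i, k) * inner ℝ h (X.g (i, k)) =
      ∑ a, z (i, Sum.inl a) * inner ℝ h (X.b i (Sum.inl a)) +
        ∑ l, X.yc z (i, Sum.inr l) * inner ℝ h (X.b i (Sum.inr l)) := by
  rw [Fintype.sum_sum_type]
  have e1 : ∀ a, inner ℝ h (X.g (i, Sum.inl a)) = inner ℝ h (X.b i (Sum.inl a)) -
      ∑ l, X.Φ l a * inner ℝ h (X.b i (Sum.inr l)) := by
    intro a
    show inner ℝ h (X.b i (Sum.inl a) - ∑ l, X.Φ l a • X.b i (Sum.inr l)) = _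
    rw [inner_sub_right, inner_sum]
    simp only [real_inner_smul_right]
  have e2 : ∀ l, inner ℝ h (X.g (i, Sum.inr l)) = inner ℝ h (X.b i (Sum.inr l)) := fun l => rfl
  have e3 : ∀ l, X.yc z (i, Sum.inr l) = z (i, Sum.inr l) - ∑ a, X.Φ l a * z (i, Sum.inl a) :=
    fun l => rfl
  simp only [e1, e2, e3, mul_sub, sub_mul, Finset.sum_sub_distrib]
  have e4 : ∑ a, z (i, Sum.inl a) * ∑ l, X.Φ l a * inner ℝ h (X.b i (Sum.inr l)) =
      ∑ l, (∑ a, X.Φ l a * z (i, Sum.inl a)) * inner ℝ h (X.b i (Sum.inr l)) := by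
    simp only [Finset.mul_sum, Finset.sum_mul]
    rw [Finset.sum_comm]
    refine Finset.sum_congr rfl fun l _ => Finset.sum_congr rfl fun a _ => ?_
    ring
  rw [e4]
  ring

theorem HID_gbd {n : ℕ} {J d s : Type} [Fintype d] [Fintype s] (X : Cfg n J d s) (h : Hn n) (i : J)
    (M : ℝ) (hM : ∀ k, |inner ℝ h (X.b i k)| ≤ M) (k : d ⊕ s) : |inner ℝ h (X.g (i, k))| ≤ X.f * M := by
  have hf0 : ∀ a : d, ∑ l, |X.Φ l a| ≤ ∑ l, ∑ i, |X.Φ l i| := fun a =>
    Finset.sum_le_sum fun l _ =>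
      Finset.single_le_sum (f := fun i => |X.Φ l i|) (fun i _ => abs_nonneg _) (Finset.mem_univ a)
  have hff : 0 ≤ ∑ l, ∑ i, |X.Φ l i| :=
    Finset.sum_nonneg fun l _ => Finset.sum_nonneg fun i _ => abs_nonneg _
  have hM0 : 0 ≤ M := (abs_nonneg _).trans (hM k)
  rcases k with a | l
  · have e1 : inner ℝ h (X.g (i, Sum.inl a)) = inner ℝ h (X.b i (Sum.inl a)) -
        ∑ l, X.Φ l a * inner ℝ h (X.b i (Sum.inr l)) := by
      show inner ℝ h (X.b i (Sum.inl a) - ∑ l, X.Φ l a • X.b i (Sum.inr l)) = _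
      rw [inner_sub_right, inner_sum]
      simp only [real_inner_smul_right]
    rw [e1]
    have e2 : |∑ l, X.Φ l a * inner ℝ h (X.b i (Sum.inr l))| ≤ M * ∑ l, |X.Φ l a| :=
      HID_Fb _ _ M (fun l => hM (Sum.inr l))
    calc |inner ℝ h (X.b i (Sum.inl a)) - ∑ l, X.Φ l a * inner ℝ h (X.b i (Sum.inr l))|
        ≤ |inner ℝ h (X.b i (Sum.inl a))| + |∑ l, X.Φ l a * inner ℝ h (X.b i (Sum.inr l))| :=
          abs_sub _ _
      _ ≤ M + M * ∑ l, |X.Φ l a| := add_le_add (hM _) e2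
      _ ≤ M + M * ∑ l, ∑ i, |X.Φ l i| := by
          have := mul_le_mul_of_nonneg_left (hf0 a) hM0
          linarith
      _ = X.f * M := by
          rw [Cfg.f]
          ring
  · have e2 : inner ℝ h (X.g (i, Sum.inr l)) = inner ℝ h (X.b i (Sum.inr l)) := rfl
    rw [e2]
    refine (hM _).trans ?_
    rw [Cfg.f]
    nlinarith

theorem p_HID (h1 : Stmt_LRA) (h2 : Stmt_GRA) (h3 : Stmt_TYY) (h4 : Stmt_ATT) (h5 : Stmt_HOL) :
    Stmt_HID := by
  intro n J d s _ _ _ _ _ X N₀ L τ β hO hT E j hE hn hG x hx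
  classical
  obtain ⟨z, hz⟩ := h4 n J d s X hO.ρ0 x
  obtain ⟨T1, -, T3, -⟩ := h3 n J d s X hO.D1 hO.phi z
  obtain ⟨hG1, hG2⟩ := hG
  -- constants
  have L1 : 1 ≤ L := hO.L1
  have L0 : 0 < L := by linarith
  have hμ0 := hO.μ0
  have hρ0 := hO.ρ0
  have hβ := hT.β0
  have hτ := hT.τ0
  have L6 : 1 ≤ L ^ 6 := one_le_pow₀ L1
  have s0 : 0 ≤ Real.sqrt X.μ := Real.sqrt_nonneg _
  have ss : Real.sqrt X.μ * Real.sqrt X.μ = X.μ := Real.mul_self_sqrt hμ0.le
  have a1 : L ^ 6 * Real.sqrt X.μ ≤ X.ρ := hO.sm1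
  have a2 : X.ρ ≤ 1 := (le_mul_of_one_le_left hρ0.le L6).trans hO.sm2
  have L2le : L ^ 2 ≤ L ^ 6 := pow_le_pow_right₀ L1 (by norm_num)
  have a3 : L ^ 2 * Real.sqrt X.μ ≤ X.ρ := (mul_le_mul_of_nonneg_right L2le s0).trans a1
  have LL : L ≤ L ^ 2 := le_self_pow₀ L1 two_ne_zero
  have a4 : L * Real.sqrt X.μ ≤ 1 :=
    ((mul_le_mul_of_nonneg_right LL s0).trans a3).trans a2
  have a5 : Real.sqrt X.μ ≤ 1 := (le_mul_of_one_le_left s0 L1).trans a4
  have a6 : X.μ ≤ Real.sqrt X.μ := by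
    calc X.μ = Real.sqrt X.μ * Real.sqrt X.μ := ss.symm
      _ ≤ Real.sqrt X.μ * 1 := mul_le_mul_of_nonneg_left a5 s0
      _ = Real.sqrt X.μ := mul_one _
  have a7 : L * X.μ ≤ 1 := (mul_le_mul_of_nonneg_left a6 L0.le).trans a4
  have a8 : L * (X.μ * L) ≤ X.ρ := by
    calc L * (X.μ * L) = L ^ 2 * X.μ := by ring
      _ ≤ L ^ 2 * Real.sqrt X.μ := mul_le_mul_of_nonneg_left a6 (sq_nonneg L)
      _ ≤ X.ρ := a3
  -- abbreviations
  set v : Hn n := x - X.T z with hv
  set R : ℝ := lr X.r (X.wt z) with hR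
  set S1 : ℝ := ∑ c, |z c| with hS1
  set lam : ℝ := X.N2 x with hlam
  set γ : s → Hn n := fun l => X.b j (Sum.inr l) with hγ
  set g : s → ℝ := fun l => inner ℝ (γ l) x with hg
  set G : ℝ := l2 g with hGG
  set P := E.starProjection with hP
  set u : Hn n := ∑ l, g l • γ l with hu
  set h : Hn n := P u with hh
  set t : ℝ := (finrank ℝ E : ℝ) / n with ht
  have S10 : 0 ≤ S1 := Finset.sum_nonneg fun c _ => abs_nonneg _
  have R0 : 0 ≤ R := apply_nonneg (lrS X.r X.hr _) (X.wt z)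
  have v0 : 0 ≤ ‖v‖ := norm_nonneg _
  have G0 : 0 ≤ G := HID_nn g
  have ρS : 0 ≤ X.ρ * S1 := mul_nonneg hρ0.le S10
  have lam0 : 0 ≤ lam := by rw [← hz]; positivity
  have nR : (0 : ℝ) < n := by exact_mod_cast hn
  have t0 : 0 ≤ t := by positivity
  have t1 : t ≤ 1 - β := by
    rw [ht, div_le_iff₀ nR]
    exact hE
  have g1 : ∑ l, |g l| ≤ L * G := HID_l1 g L L1 hO.Ls
  -- the norm of u and h
  obtain ⟨gr1, gr2⟩ := h2 n s γ X.μ hμ0.le (fun c => hO.unit j (Sum.inr c))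
    (fun c c' hne => hO.coh (j, Sum.inr c) (j, Sum.inr c') (by simpa using hne))
  have hu2 : ‖u‖ ≤ 2 * G := by
    have := gr1 g
    have b1 : Real.sqrt X.μ * ∑ c, |g c| ≤ Real.sqrt X.μ * (L * G) :=
      mul_le_mul_of_nonneg_left g1 s0
    have b2 : Real.sqrt X.μ * (L * G) ≤ G := by
      calc Real.sqrt X.μ * (L * G) = (L * Real.sqrt X.μ) * G := by ring
        _ ≤ 1 * G := mul_le_mul_of_nonneg_right a4 G0
        _ = G := one_mul _
    linarith
  have hh2 : ‖h‖ ≤ 2 * G := (Submodule.norm_starProjection_apply_le E u).trans hu2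
  -- the vector y
  set y : s → ℝ := fun l => X.yc z (j, Sum.inr l) with hy
  have hxv : x = v + X.T z := by rw [hv]; abel
  have yb : l2 y ≤ G + 2 * ‖v‖ + X.ρ * S1 := by
    set w : s → ℝ := fun l => inner ℝ (γ l) v with hw
    set e : s → ℝ := fun l => y l - inner ℝ (γ l) (X.T z) with he
    have ey : y = fun l => g l - w l + e l := by
      funext l
      have : g l = w l + inner ℝ (γ l) (X.T z) := by
        show inner ℝ (γ l) x = inner ℝ (γ l) v + inner ℝ (γ l) (X.T z)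
        rw [← inner_add_right, ← hxv]
      show y l = g l - w l + (y l - inner ℝ (γ l) (X.T z))
      rw [this]
      ring
    have wb : l2 w ≤ 2 * ‖v‖ := by
      have c1 := gr2 Finset.univ v (by
        rw [Finset.card_univ]
        exact (mul_le_mul_of_nonneg_right hO.Ls hμ0.le).trans a7)
      have c2 : l2 w ^ 2 ≤ (2 * ‖v‖) ^ 2 := by
        rw [HID_sq]
        refine c1.trans ?_
        have c3 : (0 : ℝ) ≤ ‖v‖ ^ 2 := sq_nonneg _
        have c4 : (2 * ‖v‖) ^ 2 = 4 * ‖v‖ ^ 2 := by ring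
        rw [c4]
        linarith
      exact (pow_le_pow_iff_left₀ (HID_nn w) (by positivity) two_ne_zero).1 c2
    have eb : l2 e ≤ X.ρ * S1 := by
      have c1 : ∀ l, |e l| ≤ X.μ * L * S1 := by
        intro l
        have c2 : inner ℝ (γ l) (X.T z) = ∑ c, X.yc z c * inner ℝ (γ l) (X.b c.1 c.2) := by
          rw [T1, inner_sum]
          simp only [real_inner_smul_right]
        have c3 : e l = ∑ c, X.yc z c *
            ((if c = (j, Sum.inr l) then 1 else 0) - inner ℝ (γ l) (X.b c.1 c.2)) := by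
          show y l - inner ℝ (γ l) (X.T z) = _
          rw [c2]
          simp only [mul_sub, Finset.sum_sub_distrib, mul_ite, mul_one, mul_zero,
            Finset.sum_ite_eq', Finset.mem_univ, if_true]
          rfl
        rw [c3]
        have c4 : |∑ c, X.yc z c *
            ((if c = (j, Sum.inr l) then 1 else 0) - inner ℝ (γ l) (X.b c.1 c.2))| ≤
            X.μ * ∑ c, |X.yc z c| := by
          refine HID_Fb _ _ X.μ fun c => ?_
          by_cases hc : c = (j, Sum.inr l)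
          · rw [if_pos hc, hc]
            have : inner ℝ (γ l) (X.b j (Sum.inr l)) = (1 : ℝ) := by
              show inner ℝ (X.b j (Sum.inr l)) (X.b j (Sum.inr l)) = (1 : ℝ)
              rw [real_inner_self_eq_norm_sq, hO.unit]
              norm_num
            simp only [this, sub_self, abs_zero]
            exact hμ0.le
          · rw [if_neg hc, zero_sub, abs_neg]
            exact hO.coh (j, Sum.inr l) c (fun h => hc h.symm)
        refine c4.trans ?_
        have c5 : ∑ c, |X.yc z c| ≤ L * S1 :=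
          T3.trans (mul_le_mul_of_nonneg_right hO.Lf S10)
        calc X.μ * ∑ c, |X.yc z c| ≤ X.μ * (L * S1) := mul_le_mul_of_nonneg_left c5 hμ0.le
          _ = X.μ * L * S1 := by ring
      have c6 := HID_sup e L (X.μ * L * S1) L1 hO.Ls (by positivity) c1
      refine c6.trans ?_
      have c7 : L * (X.μ * L) * S1 ≤ X.ρ * S1 := mul_le_mul_of_nonneg_right a8 S10
      calc L * (X.μ * L * S1) = L * (X.μ * L) * S1 := by ring
        _ ≤ X.ρ * S1 := c7
    have c8 : l2 y ≤ l2 g + l2 w + l2 e := by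
      have := HID_tri g w e
      rw [← ey] at this
      exact this
    linarith
  -- the square of G
  have hGsq : G ^ 2 = inner ℝ h v + inner ℝ h (X.T z) := by
    have c1 : G ^ 2 = inner ℝ u x := by
      rw [hGG, HID_sq, hu, sum_inner]
      refine Finset.sum_congr rfl fun l _ => ?_
      rw [real_inner_smul_left]
      show g l ^ 2 = g l * g l
      ring
    have c2 : inner ℝ u x = inner ℝ h x := by
      rw [hh, hP, Submodule.inner_starProjection_left_eq_right,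
        Submodule.starProjection_eq_self_iff.2 hx]
    rw [c1, c2, ← inner_add_right, ← hxv]
  have i1 : inner ℝ h v ≤ 2 * G * ‖v‖ :=
    (real_inner_le_norm h v).trans (mul_le_mul_of_nonneg_right hh2 v0)
  -- inner products with h
  have hF : ∀ w, inner ℝ h w = ∑ l, g l * inner ℝ w (P (γ l)) := fun w => HID_F E γ g w
  have τg : τ * ∑ l, |g l| ≤ τ * (L * G) := mul_le_mul_of_nonneg_left g1 hτ.le
  have i2 : inner ℝ h (X.T z) = ∑ c ∈ Finset.univ.filter (fun c : J × (d ⊕ s) => c.1 ≠ j),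
      z c * inner ℝ h (X.g c) + (∑ a, z (j, Sum.inl a) * inner ℝ h (X.b j (Sum.inl a)) +
        ∑ l, y l * inner ℝ h (γ l)) := by
    rw [X.T_apply, inner_sum]
    simp only [real_inner_smul_right]
    rw [HID_split j, HID_block]
  -- the other blocks
  have i3 : ∑ c ∈ Finset.univ.filter (fun c : J × (d ⊕ s) => c.1 ≠ j),
      z c * inner ℝ h (X.g c) ≤ 2 * G * (R + X.ρ * S1) := by
    refine (le_abs_self _).trans (h5 n J d s X N₀ L hO h (2 * G) (L ^ 2 * τ) _ z hh2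
      (by positivity) hT.t2 ?_)
    rintro ⟨i, k⟩ hc
    have hi : i ≠ j := (Finset.mem_filter.1 hc).2
    have c1 : ∀ k, |inner ℝ h (X.b i k)| ≤ τ * ∑ l, |g l| := by
      intro k
      rw [hF]
      exact HID_Fb _ _ τ fun l => hG2 i hi k (Sum.inr l)
    refine (HID_gbd X h i _ c1 k).trans ?_
    have c2 : 0 ≤ τ * (L * G) := by positivity
    calc X.f * (τ * ∑ l, |g l|) ≤ L * (τ * (L * G)) :=
          mul_le_mul hO.Lf τg (mul_nonneg hτ.le (Finset.sum_nonneg fun l _ => abs_nonneg _)) L0.le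
      _ = L ^ 2 * τ * G := by ring
      _ ≤ L ^ 2 * τ * (2 * G) := mul_le_mul_of_nonneg_left (by linarith) (by positivity)
  -- the signal part of the block
  have i4 : ∑ a, z (j, Sum.inl a) * inner ℝ h (X.b j (Sum.inl a)) ≤ L ^ 2 * τ * G * R := by
    have c1 : ∀ a, |inner ℝ h (X.b j (Sum.inl a))| ≤ τ * (L * G) := by
      intro a
      rw [hF]
      refine (HID_Fb _ _ τ fun l => ?_).trans τg
      have := hG1 (Sum.inl a) (Sum.inr l)
      rw [if_neg (by simp), sub_zero] at this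
      exact this
    have c2 := (le_abs_self _).trans (HID_Fb (fun a => z (j, Sum.inl a))
      (fun a => inner ℝ h (X.b j (Sum.inl a))) (τ * (L * G)) c1)
    refine c2.trans ?_
    have c3 : ∑ a : d, |z (j, Sum.inl a)| ≤ L * l2 (fun a : d => z (j, Sum.inl a)) :=
      HID_l1 _ L L1 hO.Ld
    have c4 : l2 (fun a : d => z (j, Sum.inl a)) ≤ l2 (X.wt z) := by
      have c5 : l2 (fun a : d => z (j, Sum.inl a)) ^ 2 ≤ l2 (X.wt z) ^ 2 := by
        rw [HID_sq, HID_sq]
        exact HID_inj (fun a : d => ((j, Sum.inl a) : J × (d ⊕ s)))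
          (fun a b hab => by simpa using hab) (fun c => X.wt z c ^ 2) (fun c => sq_nonneg _)
      exact (pow_le_pow_iff_left₀ (HID_nn _) (HID_nn _) two_ne_zero).1 c5
    have c5 : l2 (X.wt z) ≤ R := (h1 X.r _ hO.r1.le hO.r2.le).1 _
    have c6 : ∑ a : d, |z (j, Sum.inl a)| ≤ L * R :=
      c3.trans (mul_le_mul_of_nonneg_left (c4.trans c5) L0.le)
    calc τ * (L * G) * ∑ a : d, |z (j, Sum.inl a)| ≤ τ * (L * G) * (L * R) :=
          mul_le_mul_of_nonneg_left c6 (by positivity)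
      _ = L ^ 2 * τ * G * R := by ring
  -- the noise part of the block
  have i5 : ∑ l, y l * inner ℝ h (γ l) ≤ (t + L ^ 2 * τ) * (l2 y * G) := by
    have c1 : ∀ l, |inner ℝ h (γ l) - t * g l| ≤ τ * (L * G) := by
      intro l
      have c2 : inner ℝ h (γ l) - t * g l = ∑ l', g l' * (inner ℝ (γ l) (P (γ l')) -
          (if (Sum.inr l : d ⊕ s) = Sum.inr l' then t else 0)) := by
        rw [hF]
        simp only [mul_sub, Finset.sum_sub_distrib, Sum.inr.injEq, mul_ite, mul_zero,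
          Finset.sum_ite_eq, Finset.mem_univ, if_true]
        ring
      rw [c2]
      exact (HID_Fb _ _ τ fun l' => hG1 (Sum.inr l) (Sum.inr l')).trans τg
    have c3 : ∑ l, y l * inner ℝ h (γ l) =
        t * ∑ l, y l * g l + ∑ l, y l * (inner ℝ h (γ l) - t * g l) := by
      rw [Finset.mul_sum, ← Finset.sum_add_distrib]
      exact Finset.sum_congr rfl fun l _ => by ring
    have c4 := (le_abs_self _).trans (HID_Fb y (fun l => inner ℝ h (γ l) - t * g l)
      (τ * (L * G)) c1)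
    have c5 : ∑ l, |y l| ≤ L * l2 y := HID_l1 y L L1 hO.Ls
    have c6 : τ * (L * G) * ∑ l, |y l| ≤ τ * (L * G) * (L * l2 y) :=
      mul_le_mul_of_nonneg_left c5 (by positivity)
    have c7 : t * ∑ l, y l * g l ≤ t * (l2 y * G) := mul_le_mul_of_nonneg_left (HID_cs y g) t0
    rw [c3]
    calc t * ∑ l, y l * g l + ∑ l, y l * (inner ℝ h (γ l) - t * g l)
        ≤ t * (l2 y * G) + τ * (L * G) * (L * l2 y) := add_le_add c7 (c4.trans c6)
      _ = (t + L ^ 2 * τ) * (l2 y * G) := by ring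
  -- conclusion
  have b1 : L ^ 2 * τ ≤ β / 30 := by
    have c1 : L ^ 2 * τ ≤ L ^ 3 * τ :=
      mul_le_mul_of_nonneg_right (pow_le_pow_right₀ L1 (by norm_num)) hτ.le
    have c2 := hT.t1
    linarith
  have b2 : t + L ^ 2 * τ ≤ 1 - β / 2 := by linarith
  have b3 : L ^ 2 * τ ≤ 1 := by linarith [hT.β1]
  have y0 : 0 ≤ l2 y := HID_nn y
  have e1 : (t + L ^ 2 * τ) * (l2 y * G) ≤ (1 - β / 2) * ((G + 2 * ‖v‖ + X.ρ * S1) * G) := by
    have c1 : (t + L ^ 2 * τ) * (l2 y * G) ≤ (1 - β / 2) * (l2 y * G) :=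
      mul_le_mul_of_nonneg_right b2 (by positivity)
    have c2 : 0 ≤ 1 - β / 2 := by linarith [hT.β1]
    exact c1.trans (mul_le_mul_of_nonneg_left (mul_le_mul_of_nonneg_right yb G0) c2)
  have e2 : L ^ 2 * τ * G * R ≤ G * R := by
    calc L ^ 2 * τ * G * R = L ^ 2 * τ * (G * R) := by ring
      _ ≤ 1 * (G * R) := mul_le_mul_of_nonneg_right b3 (mul_nonneg G0 R0)
      _ = G * R := one_mul _
  have e3 : (1 - β / 2) * ((G + 2 * ‖v‖ + X.ρ * S1) * G) ≤
      (1 - β / 2) * (G * G) + (2 * ‖v‖ + X.ρ * S1) * G := by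
    have c1 : 0 ≤ (2 * ‖v‖ + X.ρ * S1) * G :=
      mul_nonneg (add_nonneg (mul_nonneg zero_le_two v0) ρS) G0
    have c2 : (1 - β / 2) * ((2 * ‖v‖ + X.ρ * S1) * G) ≤ 1 * ((2 * ‖v‖ + X.ρ * S1) * G) :=
      mul_le_mul_of_nonneg_right (by linarith) c1
    calc (1 - β / 2) * ((G + 2 * ‖v‖ + X.ρ * S1) * G) =
        (1 - β / 2) * (G * G) + (1 - β / 2) * ((2 * ‖v‖ + X.ρ * S1) * G) := by ring
      _ ≤ (1 - β / 2) * (G * G) + (2 * ‖v‖ + X.ρ * S1) * G := by linarith
  have key : β / 2 * (G * G) ≤ 4 * lam * G := by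
    have c1 : G ^ 2 ≤ 2 * G * ‖v‖ + (2 * G * (R + X.ρ * S1) + (G * R +
        ((1 - β / 2) * (G * G) + (2 * ‖v‖ + X.ρ * S1) * G))) := by
      rw [hGsq, i2]
      linarith
    have c2 : lam = ‖v‖ + (R + X.ρ * S1) := hz.symm
    have c3 : 0 ≤ G * R := mul_nonneg G0 R0
    have c4 : 0 ≤ G * (X.ρ * S1) := mul_nonneg G0 ρS
    have c5 : 4 * lam * G = 4 * (G * ‖v‖) + 4 * (G * R) + 4 * (G * (X.ρ * S1)) := by
      rw [c2]
      ring
    have c6 : 2 * G * ‖v‖ + (2 * G * (R + X.ρ * S1) + (G * R +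
        ((1 - β / 2) * (G * G) + (2 * ‖v‖ + X.ρ * S1) * G))) =
        (G * G) - β / 2 * (G * G) + 4 * (G * ‖v‖) + 3 * (G * R) + 3 * (G * (X.ρ * S1)) := by
      ring
    have c7 : G ^ 2 = G * G := sq G
    rw [c6, c7] at c1
    rw [c5]
    linarith
  rw [div_mul_eq_mul_div, le_div_iff₀ hβ]
  show G * β ≤ 14 * lam
  rcases G0.eq_or_lt with h0 | h0
  · rw [← h0]
    linarith
  · have c1 : β / 2 * G ≤ 4 * lam := by
      refine le_of_mul_le_mul_right ?_ h0
      linarith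
    linarith

end Pool.NG
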