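import Pool.Agent.Work.MP_3e8c7a_ng.Interface

/-! # Block HIL: small subspaces are Euclidean for `N2` -/

set_option autoImplicit false

namespace Pool.NG

open Module Pool.Agent.MP3e8c7a

theorem p_HIL (h1 : Stmt_EUC) (h2 : Stmt_ROT) (h3 : Pool.EH.Stmt_KWA) : Stmt_HIL := by
  intro n J d s _ _ _ X N₀ L hOk F hF
  have hdef : Def X.N2 := by
    intro x hx
    have h4 := (h1 n J d s X N₀ L hOk x).1
    rw [hx, mul_zero] at h4
    exact norm_le_zero_iff.1 h4
  refine h3 F (X.N2.comp F.subtype) N₀ 8 9 (hdef.comp F.subtype F.injective_subtype) hF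
    (by norm_num) (by norm_num) ?_
  intro U hU x y hxy
  have h5 := h2 n J d s X N₀ L hOk N₀ le_rfl U hU (fun i => (x i : Hn n)) (fun j => (y j : Hn n))
    (fun j => by
      show (y j : Hn n) = ∑ i, U j i • (x i : Hn n)
      rw [hxy j, Submodule.coe_sum]
      rfl)
  exact h5

end Pool.NG
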