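import Pool.Agent.Work.MP_3e8c7a_ng.Interface

set_option autoImplicit false
set_option linter.unusedSectionVars false

namespace Pool.NG

open Module Pool.Agent.MP3e8c7a

theorem HOL_lr_le {ι : Type} [Fintype ι] (r D : ℝ) (hr : 1 ≤ r) (hD : 0 ≤ D) (z w : ι → ℝ)
    (h : ∀ i, |z i| ≤ D * |w i|) : lr r z ≤ D * lr r w := by
  have h0 : 0 < r := by linarith
  have e : lr r (D • w) = D * lr r w := by
    have := map_smul_eq_mul (lrS r hr ι) D w
    rw [lrS_apply, lrS_apply, Real.norm_eq_abs, abs_of_nonneg hD] at this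
    exact this
  rw [← e]
  unfold lr
  apply Real.rpow_le_rpow (Finset.sum_nonneg fun i _ => Real.rpow_nonneg (abs_nonneg _) _) _
    (by positivity)
  refine Finset.sum_le_sum fun i _ => ?_
  apply Real.rpow_le_rpow (abs_nonneg _) _ h0.le
  rw [Pi.smul_apply, smul_eq_mul, abs_mul, abs_of_nonneg hD]
  exact h i

theorem HOL_wt {n : ℕ} {J d s : Type} [Fintype J] [Fintype d] [Fintype s] (X : Cfg n J d s)
    (hD : 1 ≤ X.D) (z : J × (d ⊕ s) → ℝ) (c : J × (d ⊕ s)) : |z c| ≤ X.D * |X.wt z c| := by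
  obtain ⟨j, i | l⟩ := c
  · rw [Cfg.wt_inl]
    have := abs_nonneg (z (j, Sum.inl i))
    nlinarith
  · rw [Cfg.wt_inr, abs_mul, abs_inv, abs_of_pos (by linarith : 0 < X.D), ← mul_assoc,
      mul_inv_cancel₀ (by linarith), one_mul]

theorem HOL_inner {n : ℕ} {J d s : Type} [Fintype J] [Fintype d] [Fintype s] (X : Cfg n J d s)
    (h : Hn n) (y : J × (d ⊕ s) → ℝ) : inner ℝ h (X.T y) = ∑ c, y c * inner ℝ h (X.g c) := by
  rw [Cfg.T_apply, inner_sum]
  exact Finset.sum_congr rfl fun c _ => by rw [inner_smul_right]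

theorem p_HOL (h1 : Stmt_LRH) (h2 : Stmt_TBD) : Stmt_HOL := by
  classical
  intro n J d s _ _ _ X N₀ L ok h A ε S z hA hε hsm hk
  have hA0 : 0 ≤ A := (norm_nonneg h).trans hA
  have hD1 := ok.D1
  have hLD := ok.LD
  have hL3 : 3 ≤ L := by linarith
  have hρ := ok.ρ0
  have hr1 := ok.r1
  have hr2 := ok.r2
  have hsum0 : 0 ≤ ∑ c, |z c| := Finset.sum_nonneg fun c _ => abs_nonneg _
  have hlr0 : 0 ≤ lr X.r (X.wt z) := Real.rpow_nonneg
    (Finset.sum_nonneg fun i _ => Real.rpow_nonneg (abs_nonneg _) _) _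
  rcases hA0.eq_or_lt with h0 | hApos
  · have hh : h = 0 := by
      have := hA
      rw [← h0] at this
      exact norm_le_zero_iff.1 this
    subst hh
    simp only [inner_zero_left, mul_zero, Finset.sum_const_zero, abs_zero]
    positivity
  set k : J × (d ⊕ s) → ℝ := fun c => inner ℝ h (X.g c) / A with hkdef
  have hkA : ∀ c, inner ℝ h (X.g c) = A * k c := fun c => by
    simp only [hkdef]; field_simp
  -- the basic bound
  have hbas : ∀ y : J × (d ⊕ s) → ℝ, |∑ c, y c * k c| ≤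
      L * l2 y + L * Real.sqrt X.μ * ∑ c, |y c| := by
    intro y
    have e : ∑ c, y c * k c = inner ℝ h (X.T y) / A := by
      rw [HOL_inner, Finset.sum_div]
      exact Finset.sum_congr rfl fun c _ => by simp only [hkdef]; ring
    have hb := h2 n J d s X N₀ L ok y
    have hl2 : 0 ≤ l2 y := Real.sqrt_nonneg _
    have hb' : ‖X.T y‖ ≤ L * l2 y + L * Real.sqrt X.μ * ∑ c, |y c| := by
      refine hb.trans ?_
      have : (X.D + 2) * l2 y ≤ L * l2 y := mul_le_mul_of_nonneg_right hLD hl2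
      linarith
    rw [e, abs_div, abs_of_pos hApos, div_le_iff₀ hApos]
    calc |inner ℝ h (X.T y)| ≤ ‖h‖ * ‖X.T y‖ := abs_real_inner_le_norm _ _
      _ ≤ A * ‖X.T y‖ := mul_le_mul_of_nonneg_right hA (norm_nonneg _)
      _ ≤ A * (L * l2 y + L * Real.sqrt X.μ * ∑ c, |y c|) := mul_le_mul_of_nonneg_left hb' hA0
      _ = _ := by ring
  set big : Finset (J × (d ⊕ s)) := S.filter fun c => X.ρ < |k c| with hbig
  -- K ^ 2
  set K2 : ℝ := ∑ c ∈ big, k c ^ 2 with hK2
  have hK20 : 0 ≤ K2 := Finset.sum_nonneg fun c _ => sq_nonneg _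
  have hmu : L * Real.sqrt X.μ ≤ X.ρ / 2 := by
    have hs := ok.sm1
    have hq : 0 ≤ Real.sqrt X.μ := Real.sqrt_nonneg _
    have h6 : 2 * L ≤ L ^ 6 := by
      have h1 : 1 ≤ L ^ 4 := one_le_pow₀ (by linarith)
      have h2 : L ^ 6 = L ^ 4 * (L * L) := by ring
      have h3 : 2 * L ≤ L * L := by nlinarith
      have h4 : (L * L) ≤ L ^ 4 * (L * L) := by
        have : 0 ≤ L * L := by positivity
        nlinarith
      linarith
    have : 2 * L * Real.sqrt X.μ ≤ L ^ 6 * Real.sqrt X.μ := mul_le_mul_of_nonneg_right h6 hq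
    linarith
  have hKle : K2 ≤ (2 * L) ^ 2 := by
    set y : J × (d ⊕ s) → ℝ := fun c => if c ∈ big then k c else 0 with hy
    have e1 : ∑ c, y c * k c = K2 := by
      rw [hK2, ← Finset.sum_filter_add_sum_filter_not Finset.univ (fun c => c ∈ big)]
      have hz : ∑ c ∈ Finset.univ.filter (fun c => ¬ c ∈ big), y c * k c = 0 := by
        refine Finset.sum_eq_zero fun c hc => ?_
        have := (Finset.mem_filter.1 hc).2
        simp only [hy, if_neg this, zero_mul]
      rw [hz, add_zero]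
      have : Finset.univ.filter (fun c => c ∈ big) = big := by ext c; simp
      rw [this]
      refine Finset.sum_congr rfl fun c hc => ?_
      simp only [hy, if_pos hc]; ring
    have e2 : ∑ c, y c ^ 2 = K2 := by
      rw [← e1]
      refine Finset.sum_congr rfl fun c _ => ?_
      by_cases hc : c ∈ big
      · simp only [hy, if_pos hc]; ring
      · simp only [hy, if_neg hc]; ring
    have e3 : l2 y = Real.sqrt K2 := by rw [l2, e2]
    have e4 : ∑ c, |y c| ≤ K2 / X.ρ := by
      rw [← e2, Finset.sum_div]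
      refine Finset.sum_le_sum fun c _ => ?_
      by_cases hc : c ∈ big
      · simp only [hy, if_pos hc]
        have h5 := (Finset.mem_filter.1 hc).2
        rw [le_div_iff₀ hρ, ← sq_abs]
        have := abs_nonneg (k c)
        nlinarith
      · simp only [hy, if_neg hc]; simp
    have h5 := hbas y
    rw [e1, e3, abs_of_nonneg hK20] at h5
    set q := Real.sqrt K2 with hq
    have hq0 : 0 ≤ q := Real.sqrt_nonneg _
    have hqq : q * q = K2 := Real.mul_self_sqrt hK20
    have h6 : L * Real.sqrt X.μ * ∑ c, |y c| ≤ K2 / 2 := by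
      have h7 : 0 ≤ ∑ c, |y c| := Finset.sum_nonneg fun c _ => abs_nonneg _
      calc L * Real.sqrt X.μ * ∑ c, |y c| ≤ X.ρ / 2 * ∑ c, |y c| :=
            mul_le_mul_of_nonneg_right hmu h7
        _ ≤ X.ρ / 2 * (K2 / X.ρ) := mul_le_mul_of_nonneg_left e4 (by linarith)
        _ = K2 / 2 := by field_simp
    have h8 : q * q ≤ 2 * L * q := by rw [hqq]; linarith
    have h9 : q ≤ 2 * L := by
      by_contra hcon
      push Not at hcon
      have : 0 < q := by linarith
      nlinarith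
    rw [← hqq, sq]
    exact mul_le_mul h9 h9 hq0 (by linarith)
  have hkε : ∀ c ∈ big, |k c| ≤ ε := by
    intro c hc
    have h5 := hk c (Finset.mem_filter.1 hc).1
    rw [hkA c, abs_mul, abs_of_pos hApos, mul_comm] at h5
    exact le_of_mul_le_mul_right h5 hApos
  have hH := h1 X.r (J × (d ⊕ s)) big k z ε (2 * L) hr1 hr2 hε (by linarith) hkε hKle
  have hlrz : lr X.r z ≤ X.D * lr X.r (X.wt z) :=
    HOL_lr_le X.r X.D hr1.le (by linarith) z (X.wt z) (HOL_wt X hD1 z)
  set Q : ℝ := (ε ^ (X.r / (X.r - 1) - 2) * (2 * L) ^ 2) ^ (1 - 1 / X.r) with hQ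
  have hQ0 : 0 ≤ Q := Real.rpow_nonneg (mul_nonneg (Real.rpow_nonneg hε _) (sq_nonneg _)) _
  have hbigb : |∑ c ∈ big, k c * z c| ≤ lr X.r (X.wt z) := by
    refine hH.trans ?_
    calc Q * lr X.r z ≤ Q * (X.D * lr X.r (X.wt z)) := mul_le_mul_of_nonneg_left hlrz hQ0
      _ = (X.D * Q) * lr X.r (X.wt z) := by ring
      _ ≤ 1 * lr X.r (X.wt z) := mul_le_mul_of_nonneg_right hsm hlr0
      _ = _ := one_mul _
  have hrest : |∑ c ∈ S.filter (fun c => ¬ X.ρ < |k c|), k c * z c| ≤ X.ρ * ∑ c, |z c| := by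
    refine (Finset.abs_sum_le_sum_abs _ _).trans ?_
    rw [Finset.mul_sum]
    refine (Finset.sum_le_sum (g := fun c => X.ρ * |z c|) fun c hc => ?_).trans
      (Finset.sum_le_sum_of_subset_of_nonneg (Finset.subset_univ _) fun c _ _ => by positivity)
    have h5 := (Finset.mem_filter.1 hc).2
    push Not at h5
    rw [abs_mul]
    exact mul_le_mul_of_nonneg_right h5 (abs_nonneg _)
  have efin : ∑ c ∈ S, z c * inner ℝ h (X.g c) =
      A * (∑ c ∈ big, k c * z c + ∑ c ∈ S.filter (fun c => ¬ X.ρ < |k c|), k c * z c) := by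
    rw [hbig, Finset.sum_filter_add_sum_filter_not, Finset.mul_sum]
    refine Finset.sum_congr rfl fun c _ => ?_
    rw [hkA c]; ring
  rw [efin, abs_mul, abs_of_pos hApos]
  exact mul_le_mul_of_nonneg_left ((abs_add_le _ _).trans (add_le_add hbigb hrest)) hA0

end Pool.NG
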