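import Pool.Agent.Work.MP_3e8c7a_ng.Interface

/-!
# Block LAT: factorization through a lattice
-/

set_option autoImplicit false
set_option linter.unusedSectionVars false

namespace Pool.NG

open Module Pool.Agent.MP3e8c7a

theorem LAT_l2_mono {ι : Type} [Fintype ι] (x y : ι → ℝ) (h : ∀ i, |x i| ≤ |y i|) : l2 x ≤ l2 y := by
  unfold l2
  exact Real.sqrt_le_sqrt (Finset.sum_le_sum fun i _ => sq_le_sq.2 (h i))

theorem LAT_norm_mono {ι : Type} [Fintype ι] (x y : ι → ℝ) (h : ∀ i, |x i| ≤ |y i|) : ‖x‖ ≤ ‖y‖ := by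
  rw [pi_norm_le_iff_of_nonneg (norm_nonneg _)]
  intro i
  rw [Real.norm_eq_abs]
  exact (h i).trans (norm_le_pi_norm y i)

/-- The lattice norm. -/
noncomputable def LAT_w (A B : Type) [Fintype A] [Fintype B] (D : ℝ) : Seminorm ℝ (A ⊕ B → ℝ) :=
  ((normSeminorm ℝ (A → ℝ)).comp (LinearMap.funLeft ℝ ℝ Sum.inl) ⊔
    (l2S A).comp (D⁻¹ • LinearMap.funLeft ℝ ℝ Sum.inl)) ⊔
    (l2S B).comp (LinearMap.funLeft ℝ ℝ Sum.inr)

theorem LAT_w_apply {A B : Type} [Fintype A] [Fintype B] {D : ℝ} (hD : 0 < D) (z : A ⊕ B → ℝ) :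
    LAT_w A B D z = max (max ‖z ∘ Sum.inl‖ (D⁻¹ * l2 (z ∘ Sum.inl))) (l2 (z ∘ Sum.inr)) := by
  show max (max ‖z ∘ Sum.inl‖ (l2S A (D⁻¹ • (z ∘ Sum.inl)))) (l2S B (z ∘ Sum.inr)) = _
  rw [map_smul_eq_mul, l2S_apply, l2S_apply, Real.norm_eq_abs, abs_of_pos (inv_pos.2 hD)]

theorem LAT_w_unc {A B : Type} [Fintype A] [Fintype B] {D : ℝ} (hD : 0 < D) :
    UncT (LAT_w A B D) := by
  intro x y h
  rw [LAT_w_apply hD, LAT_w_apply hD]
  refine max_le_max (max_le_max ?_ ?_) ?_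
  · exact LAT_norm_mono _ _ fun i => h (Sum.inl i)
  · exact mul_le_mul_of_nonneg_left (LAT_l2_mono _ _ fun i => h (Sum.inl i)) (inv_nonneg.2 hD.le)
  · exact LAT_l2_mono _ _ fun i => h (Sum.inr i)

section

variable {n : ℕ} {J d s : Type} [Fintype J] [Fintype d] [Fintype s] (X : Cfg n J d s)
  {F : Submodule ℝ (Hn n)} {k : ℕ} (S : F ≃ₗ[ℝ] Hn k) (Λ : Finset (J × s))

/-- The embedding into the lattice. -/
noncomputable def LAT_j : F →ₗ[ℝ] ({c // c ∈ Λ} ⊕ Fin k → ℝ) where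
  toFun x := Sum.elim (fun c => inner ℝ (X.psi c.1) (x : Hn n)) (fun i => S x i)
  map_add' x y := by
    funext c
    rcases c with c | i
    · simp [inner_add_right]
    · simp
  map_smul' t x := by
    funext c
    rcases c with c | i
    · simp [inner_smul_right]
    · simp

/-- The point of `F` with the given second coordinates. -/
noncomputable def LAT_x : ({c // c ∈ Λ} ⊕ Fin k → ℝ) →ₗ[ℝ] F :=
  S.symm.toLinearMap ∘ₗ (WithLp.linearEquiv 2 ℝ (Fin k → ℝ)).symm.toLinearMap ∘ₗ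
    LinearMap.funLeft ℝ ℝ Sum.inr

theorem LAT_x_norm (z : {c // c ∈ Λ} ⊕ Fin k → ℝ) : ‖S (LAT_x S Λ z)‖ = l2 (z ∘ Sum.inr) := by
  rw [l2_eq_norm]
  show ‖S (S.symm (WithLp.toLp 2 (z ∘ Sum.inr)))‖ = _
  rw [LinearEquiv.apply_symm_apply]

theorem LAT_x_j (x : F) : LAT_x S Λ (LAT_j X S Λ x) = x := by
  show S.symm (WithLp.toLp 2 (fun i => S x i)) = x
  have e : (WithLp.toLp 2 (fun i => S x i) : Hn k) = S x := by
    ext i
    rfl
  rw [e, LinearEquiv.symm_apply_apply]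

/-- The projection onto `F`. -/
noncomputable def LAT_q : ({c // c ∈ Λ} ⊕ Fin k → ℝ) →ₗ[ℝ] Hn n where
  toFun z := (LAT_x S Λ z : Hn n) + ∑ c : {c // c ∈ Λ},
    (z (Sum.inl c) - inner ℝ (X.psi c.1) (LAT_x S Λ z : Hn n)) • X.b c.1.1 (Sum.inr c.1.2)
  map_add' x y := by
    have e : ∀ c : {c // c ∈ Λ}, ((x + y) (Sum.inl c) -
        inner ℝ (X.psi c.1) (LAT_x S Λ (x + y) : Hn n)) • X.b c.1.1 (Sum.inr c.1.2) =
        (x (Sum.inl c) - inner ℝ (X.psi c.1) (LAT_x S Λ x : Hn n)) • X.b c.1.1 (Sum.inr c.1.2) +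
        (y (Sum.inl c) - inner ℝ (X.psi c.1) (LAT_x S Λ y : Hn n)) • X.b c.1.1 (Sum.inr c.1.2) := by
      intro c
      rw [map_add, Submodule.coe_add, inner_add_right, Pi.add_apply, ← add_smul]
      congr 1
      ring
    rw [Finset.sum_congr rfl fun c _ => e c, Finset.sum_add_distrib, map_add, Submodule.coe_add]
    abel
  map_smul' t x := by
    have e : ∀ c : {c // c ∈ Λ}, ((t • x) (Sum.inl c) -
        inner ℝ (X.psi c.1) (LAT_x S Λ (t • x) : Hn n)) • X.b c.1.1 (Sum.inr c.1.2) =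
        t • ((x (Sum.inl c) - inner ℝ (X.psi c.1) (LAT_x S Λ x : Hn n)) •
          X.b c.1.1 (Sum.inr c.1.2)) := by
      intro c
      rw [map_smul, Submodule.coe_smul, inner_smul_right, Pi.smul_apply, smul_smul]
      congr 1
      rw [smul_eq_mul]
      ring
    rw [Finset.sum_congr rfl fun c _ => e c, ← Finset.smul_sum, map_smul, Submodule.coe_smul,
      RingHom.id_apply, smul_add]

theorem LAT_q_apply (z : {c // c ∈ Λ} ⊕ Fin k → ℝ) : LAT_q X S Λ z =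
    (LAT_x S Λ z : Hn n) + ∑ c : {c // c ∈ Λ},
    (z (Sum.inl c) - inner ℝ (X.psi c.1) (LAT_x S Λ z : Hn n)) • X.b c.1.1 (Sum.inr c.1.2) := rfl

theorem LAT_q_j (x : F) : LAT_q X S Λ (LAT_j X S Λ x) = x := by
  rw [LAT_q_apply, LAT_x_j]
  rw [Finset.sum_eq_zero, add_zero]
  intro c _
  show (inner ℝ (X.psi c.1) (x : Hn n) - inner ℝ (X.psi c.1) (x : Hn n)) • _ = _
  rw [sub_self, zero_smul]

end

theorem p_LAT (h1 : Stmt_CLS) (h2 : Stmt_NOI) : Stmt_LAT := by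
  intro n J d s _ _ _ X N₀ L a N₁ hX ha hN₁ hN₁' F hF
  obtain ⟨S, Λ, hΛ, H⟩ := h1 n J d s X N₀ L a N₁ hX ha hN₁ hN₁' F hF
  classical
  have hD : 0 < X.D := lt_of_lt_of_le one_pos hX.D1
  have hL : 1 ≤ L := hX.L1
  refine ⟨{c // c ∈ Λ} ⊕ Fin (finrank ℝ F), inferInstance, LAT_w _ _ X.D, LAT_j X S Λ,
    LAT_q X S Λ, LAT_w_unc hD, LAT_q_j X S Λ, ?_, ?_⟩
  · intro x
    obtain ⟨a1, a2, a3, a4⟩ := H x
    have hn : 0 ≤ X.nX x := apply_nonneg _ _
    have hN : X.N2 x ≤ X.nX x := by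
      rw [X.nX_apply]
      exact le_max_left _ _
    have hS : ‖S x‖ ≤ 9 * X.nX x := a2.trans (by linarith)
    rw [LAT_w_apply hD]
    refine max_le (max_le ?_ ?_) ?_
    · rw [pi_norm_le_iff_of_nonneg (by linarith)]
      intro c
      have h3 : ‖X.ev x c.1‖ ≤ ‖X.ev x‖ := norm_le_pi_norm (X.ev x) c.1
      have h4 : ‖X.ev x‖ ≤ X.nX x := by
        rw [X.nX_apply]
        exact le_max_right _ _
      show ‖X.ev x c.1‖ ≤ _
      linarith
    · have h3 : l2 ((LAT_j X S Λ x) ∘ Sum.inl) =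
          Real.sqrt (∑ c ∈ Λ, inner ℝ (X.psi c) (x : Hn n) ^ 2) := by
        unfold l2
        rw [← Finset.sum_coe_sort Λ fun c => inner ℝ (X.psi c) (x : Hn n) ^ 2]
        rfl
      rw [h3, inv_mul_le_iff₀ hD]
      refine a4.trans ?_
      have h5 : 3 * X.D * ‖S x‖ ≤ 3 * X.D * (9 * X.nX x) :=
        mul_le_mul_of_nonneg_left hS (by linarith)
      linarith
    · have h3 : l2 ((LAT_j X S Λ x) ∘ Sum.inr) = ‖S x‖ := by
        rw [← LAT_x_norm, LAT_x_j]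
      rw [h3]
      linarith
  · intro z
    set w := LAT_w {c // c ∈ Λ} (Fin (finrank ℝ F)) X.D z with hw
    set x : F := LAT_x S Λ z with hx
    obtain ⟨a1, a2, a3, a4⟩ := H x
    have hw0 : 0 ≤ w := apply_nonneg _ _
    have w1 : ‖z ∘ Sum.inl‖ ≤ w := by
      rw [hw, LAT_w_apply hD]
      exact (le_max_left _ _).trans (le_max_left _ _)
    have w2 : l2 (z ∘ Sum.inl) ≤ X.D * w := by
      rw [← inv_mul_le_iff₀ hD, hw, LAT_w_apply hD]
      exact (le_max_right _ _).trans (le_max_left _ _)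
    have w3 : ‖S x‖ ≤ w := by
      rw [hx, LAT_x_norm, hw, LAT_w_apply hD]
      exact le_max_right _ _
    set β : J × s → ℝ := fun c => if h : c ∈ Λ then z (Sum.inl ⟨c, h⟩) - inner ℝ (X.psi c) (x : Hn n)
      else 0 with hβ
    have hβc : ∀ c : {c // c ∈ Λ}, β c.1 = z (Sum.inl c) - inner ℝ (X.psi c.1) (x : Hn n) := by
      intro c
      simp only [hβ]
      rw [dif_pos c.2]
    have hsum : ∑ c : {c // c ∈ Λ}, (z (Sum.inl c) - inner ℝ (X.psi c.1) (x : Hn n)) •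
        X.b c.1.1 (Sum.inr c.1.2) = ∑ c ∈ Λ, β c • X.b c.1 (Sum.inr c.2) := by
      rw [← Finset.sum_coe_sort Λ fun c => β c • X.b c.1 (Sum.inr c.2)]
      exact Finset.sum_congr rfl fun c _ => by rw [hβc]
    have hq : LAT_q X S Λ z = (x : Hn n) + ∑ c ∈ Λ, β c • X.b c.1 (Sum.inr c.2) := by
      rw [LAT_q_apply, ← hx, hsum]
    set B : ℝ := Real.sqrt (∑ c ∈ Λ, β c ^ 2) with hB
    have hB1 : B ≤ 4 * X.D * w := by
      have e1 : B = l2 (fun c : {c // c ∈ Λ} => β c.1) := by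
        unfold l2
        rw [hB, ← Finset.sum_coe_sort Λ fun c => β c ^ 2]
      have e2 : (fun c : {c // c ∈ Λ} => β c.1) = (z ∘ Sum.inl) -
          (fun c : {c // c ∈ Λ} => inner ℝ (X.psi c.1) (x : Hn n)) := by
        funext c
        exact hβc c
      have e3 : l2 (fun c : {c // c ∈ Λ} => inner ℝ (X.psi c.1) (x : Hn n)) =
          Real.sqrt (∑ c ∈ Λ, inner ℝ (X.psi c) (x : Hn n) ^ 2) := by
        unfold l2
        rw [← Finset.sum_coe_sort Λ fun c => inner ℝ (X.psi c) (x : Hn n) ^ 2]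
      have e4 := map_sub_le_add (l2S {c // c ∈ Λ}) (z ∘ Sum.inl)
        (fun c : {c // c ∈ Λ} => inner ℝ (X.psi c.1) (x : Hn n))
      rw [l2S_apply, l2S_apply, l2S_apply, e3] at e4
      rw [e1, e2]
      have e5 : 3 * X.D * ‖S x‖ ≤ 3 * X.D * w := mul_le_mul_of_nonneg_left w3 (by linarith)
      linarith
    obtain ⟨b1, b2, b3⟩ := h2 n J d s X N₀ L hX Λ β (by omega)
    rw [← hB] at b1 b2 b3
    have hB0 : 0 ≤ B := Real.sqrt_nonneg _
    have hDL : (X.D * L)⁻¹ * B ≤ 4 * w := by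
      rw [inv_mul_le_iff₀ (mul_pos hD (by linarith))]
      refine hB1.trans ?_
      have e6 : 4 * X.D * w * 1 ≤ 4 * X.D * w * L :=
        mul_le_mul_of_nonneg_left hL (by positivity)
      linarith
    have hN : X.N2 (∑ c ∈ Λ, β c • X.b c.1 (Sum.inr c.2)) ≤ 12 * w := by
      refine b1.trans ?_
      have e7 : X.D⁻¹ * B ≤ 4 * w := by
        rw [inv_mul_le_iff₀ hD]
        linarith
      linarith
    rw [hq, X.nX_apply]
    refine max_le ?_ ?_
    · have e8 := map_add_le_add X.N2 (x : Hn n) (∑ c ∈ Λ, β c • X.b c.1 (Sum.inr c.2))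
      linarith
    · rw [pi_norm_le_iff_of_nonneg (by linarith)]
      intro c
      rw [X.ev_apply, inner_add_right, Real.norm_eq_abs]
      by_cases hc : c ∈ Λ
      · have e9 := (b2 c hc).trans hDL
        have e10 := hβc ⟨c, hc⟩
        have e11 : |z (Sum.inl ⟨c, hc⟩)| ≤ w :=
          (norm_le_pi_norm (z ∘ Sum.inl) (⟨c, hc⟩ : {c // c ∈ Λ})).trans w1
        rw [abs_le] at e9 e11 ⊢
        simp only at e10
        constructor
        · linarith [e9.1, e11.1]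
        · linarith [e9.2, e11.2]
      · have e9 := (b3 c hc).trans hDL
        have e11 := (a3 c hc).trans w3
        rw [abs_le] at e9 e11 ⊢
        constructor
        · linarith [e9.1, e11.1]
        · linarith [e9.2, e11.2]

end Pool.NG
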