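import Pool.Agent.Work.MP_3e8c7a_ng.Interface

/-!
# Block LRA: the norm of `ℓ_r` (helper4)
-/

set_option autoImplicit false

namespace Pool.NG

open Module Pool.Agent.MP3e8c7a

theorem LRA_one (r : ℝ) {ι : Type} [Fintype ι] (h1 : 1 ≤ r) (h2 : r ≤ 2) (z : ι → ℝ) :
    l2 z ≤ lr r z := by
  have hr0 : 0 < r := by linarith
  have hs : 0 ≤ ∑ i, |z i| ^ r := Finset.sum_nonneg fun i _ => Real.rpow_nonneg (abs_nonneg _) _
  have hN : 0 ≤ lr r z := Real.rpow_nonneg hs _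
  have hNr : lr r z ^ r = ∑ i, |z i| ^ r := by
    rw [lr, ← Real.rpow_mul hs, one_div_mul_cancel hr0.ne', Real.rpow_one]
  have hle : ∀ i, |z i| ≤ lr r z := by
    intro i
    have h3 : |z i| ^ r ≤ lr r z ^ r := by
      rw [hNr]
      exact Finset.single_le_sum (f := fun i => |z i| ^ r)
        (fun i _ => Real.rpow_nonneg (abs_nonneg _) _) (Finset.mem_univ i)
    exact (Real.rpow_le_rpow_iff (abs_nonneg _) hN hr0).1 h3
  have hsplit : ∀ x : ℝ, 0 ≤ x → x ^ 2 = x ^ (2 - r) * x ^ r := by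
    intro x hx
    rw [← Real.rpow_add' hx (by norm_num), sub_add_cancel, Real.rpow_two]
  have hsum : ∑ i, z i ^ 2 ≤ lr r z ^ 2 := by
    rw [hsplit _ hN, hNr, Finset.mul_sum]
    refine Finset.sum_le_sum fun i _ => ?_
    rw [← sq_abs, hsplit _ (abs_nonneg _)]
    exact mul_le_mul_of_nonneg_right
      (Real.rpow_le_rpow (abs_nonneg _) (hle i) (by linarith)) (Real.rpow_nonneg (abs_nonneg _) _)
  exact Real.sqrt_le_iff.2 ⟨hN, hsum⟩

theorem LRA_three (r : ℝ) {ι : Type} [Fintype ι] (h1 : 1 ≤ r) (h2 : r ≤ 2) (S : Finset ι)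
    (z : ι → ℝ) (hz : ∀ i ∉ S, z i = 0) :
    lr r z ≤ (S.card : ℝ) ^ (1 / r - 1 / 2) * l2 z := by
  have hr0 : 0 < r := by linarith
  have e1 : ∑ i, |z i| ^ r = ∑ i ∈ S, |z i| ^ r := by
    refine (Finset.sum_subset (Finset.subset_univ S) fun i _ hi => ?_).symm
    rw [hz i hi, abs_zero, Real.zero_rpow hr0.ne']
  have e2 : ∑ i, z i ^ 2 = ∑ i ∈ S, z i ^ 2 := by
    refine (Finset.sum_subset (Finset.subset_univ S) fun i _ hi => ?_).symm
    rw [hz i hi]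
    norm_num
  have hs : 0 ≤ ∑ i ∈ S, |z i| ^ r := Finset.sum_nonneg fun i _ => Real.rpow_nonneg (abs_nonneg _) _
  have hq : 0 ≤ ∑ i ∈ S, z i ^ 2 := Finset.sum_nonneg fun i _ => sq_nonneg _
  have hp : 1 ≤ 2 / r := by
    rw [le_div_iff₀ hr0]
    linarith
  have h3 := Real.rpow_sum_le_const_mul_sum_rpow S (fun i => |z i| ^ r) hp
  have e3 : ∀ i, |(|z i| ^ r)| = |z i| ^ r := fun i => abs_of_nonneg (Real.rpow_nonneg (abs_nonneg _) _)
  have e4 : ∀ i, (|z i| ^ r) ^ (2 / r) = z i ^ 2 := by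
    intro i
    rw [← Real.rpow_mul (abs_nonneg _), mul_div_cancel₀ _ hr0.ne', Real.rpow_two, sq_abs]
  simp only [e3, e4] at h3
  have h4 := Real.rpow_le_rpow (Real.rpow_nonneg hs _) h3 (by norm_num : (0 : ℝ) ≤ 1 / 2)
  rw [← Real.rpow_mul hs, Real.mul_rpow (Real.rpow_nonneg (Nat.cast_nonneg _) _) hq,
    ← Real.rpow_mul (Nat.cast_nonneg _), ← Real.sqrt_eq_rpow] at h4
  have e5 : 2 / r * (1 / 2) = 1 / r := by
    field_simp
  have e6 : (2 / r - 1) * (1 / 2) = 1 / r - 1 / 2 := by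
    field_simp
  rw [e5, e6] at h4
  rw [lr, l2, e1, e2]
  exact h4

theorem p_LRA : Stmt_LRA := by
  intro r ι _ h1 h2
  refine ⟨LRA_one r h1 h2, ?_, LRA_three r h1 h2⟩
  intro z z' h
  refine Real.rpow_le_rpow (Finset.sum_nonneg fun i _ => Real.rpow_nonneg (abs_nonneg _) _)
    (Finset.sum_le_sum fun i _ => Real.rpow_le_rpow (abs_nonneg _) (h i) (by linarith)) (by positivity)

end Pool.NG
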