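import Pool.Agent.Work.MP_3e8c7a_ng.Interface

/-!
# Block LRH of MP_3e8c7a_an, THEOREM NEG: Hoelder for flat vectors (typed by helper99)
-/

set_option autoImplicit false

namespace Pool.NG

open Module Pool.Agent.MP3e8c7a

theorem p_LRH : Stmt_LRH := by
  classical
  intro r ι _ S k z ε A hr1 hr2 hε hA hk hsum
  have hr0 : 0 < r := by linarith
  have hr' : 0 < r - 1 := by linarith
  set q : ℝ := r / (r - 1) with hq
  have hconj : q.HolderConjugate r := (Real.HolderConjugate.conjExponent hr1).symm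
  have hq0 : 0 < q := div_pos hr0 hr'
  have hq2 : 0 ≤ q - 2 := by
    rw [hq, sub_nonneg, le_div_iff₀ hr']
    linarith
  have hq1 : 1 / q = 1 - 1 / r := by
    rw [hq]
    field_simp
  have h1 : |∑ i ∈ S, k i * z i| ≤ ∑ i ∈ S, |k i| * |z i| := by
    refine (Finset.abs_sum_le_sum_abs _ _).trans (le_of_eq ?_)
    exact Finset.sum_congr rfl fun i _ => abs_mul _ _
  have h2 := Real.inner_le_Lp_mul_Lq S (fun i => |k i|) (fun i => |z i|) hconj
  simp only [abs_abs] at h2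
  have h3 : ∑ i ∈ S, |k i| ^ q ≤ ε ^ (q - 2) * A ^ 2 := by
    calc ∑ i ∈ S, |k i| ^ q ≤ ∑ i ∈ S, ε ^ (q - 2) * k i ^ 2 := by
          refine Finset.sum_le_sum fun i hi => ?_
          have e1 : |k i| ^ q = |k i| ^ (q - 2) * |k i| ^ (2 : ℝ) := by
            rw [← Real.rpow_add_of_nonneg (abs_nonneg _) hq2 (by norm_num)]
            congr 1
            ring
          have e2 : |k i| ^ (2 : ℝ) = k i ^ 2 := by
            rw [Real.rpow_two, sq_abs]
          rw [e1, e2]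
          exact mul_le_mul_of_nonneg_right (Real.rpow_le_rpow (abs_nonneg _) (hk i hi) hq2)
            (sq_nonneg _)
      _ = ε ^ (q - 2) * ∑ i ∈ S, k i ^ 2 := by rw [Finset.mul_sum]
      _ ≤ ε ^ (q - 2) * A ^ 2 := mul_le_mul_of_nonneg_left hsum (Real.rpow_nonneg hε _)
  have h4 : 0 ≤ ∑ i ∈ S, |k i| ^ q :=
    Finset.sum_nonneg fun i _ => Real.rpow_nonneg (abs_nonneg _) _
  have h5 : (∑ i ∈ S, |k i| ^ q) ^ (1 / q) ≤ (ε ^ (q - 2) * A ^ 2) ^ (1 - 1 / r) := by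
    rw [hq1]
    refine Real.rpow_le_rpow h4 h3 ?_
    rw [← hq1]
    exact (one_div_pos.2 hq0).le
  have h6 : (∑ i ∈ S, |z i| ^ r) ^ (1 / r) ≤ lr r z := by
    refine Real.rpow_le_rpow (Finset.sum_nonneg fun i _ => Real.rpow_nonneg (abs_nonneg _) _) ?_
      (one_div_pos.2 hr0).le
    exact Finset.sum_le_sum_of_subset_of_nonneg (Finset.subset_univ S)
      fun i _ _ => Real.rpow_nonneg (abs_nonneg _) _
  calc |∑ i ∈ S, k i * z i| ≤ ∑ i ∈ S, |k i| * |z i| := h1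
    _ ≤ (∑ i ∈ S, |k i| ^ q) ^ (1 / q) * (∑ i ∈ S, |z i| ^ r) ^ (1 / r) := h2
    _ ≤ (ε ^ (q - 2) * A ^ 2) ^ (1 - 1 / r) * lr r z :=
        mul_le_mul h5 h6 (Real.rpow_nonneg (Finset.sum_nonneg fun i _ =>
          Real.rpow_nonneg (abs_nonneg _) _) _)
          (Real.rpow_nonneg (mul_nonneg (Real.rpow_nonneg hε _) (sq_nonneg _)) _)

end Pool.NG
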