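import Pool.Agent.Work.MP_3e8c7a_ng.Interface

/-!
# LRR: rotations in `ℓ_r`
-/

set_option autoImplicit false

namespace Pool.NG

open Module Pool.Agent.MP3e8c7a

theorem LRR_orth {N : ℕ} (U : Matrix (Fin N) (Fin N) ℝ) (hU : U ∈ Matrix.orthogonalGroup (Fin N) ℝ)
    (t : Fin N → ℝ) : ∑ j, (∑ i, U j i * t i) ^ 2 = ∑ i, t i ^ 2 := by
  have h1 : U.transpose * U = 1 := (Matrix.mem_orthogonalGroup_iff' (Fin N) ℝ).1 hU
  have h2 : (U.mulVec t) ⬝ᵥ (U.mulVec t) = t ⬝ᵥ t := by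
    rw [Matrix.dotProduct_mulVec, ← Matrix.mulVec_transpose, Matrix.mulVec_mulVec, h1, Matrix.one_mulVec]
  simp only [dotProduct, Matrix.mulVec] at h2
  simpa [sq] using h2

theorem LRR_sq (r : ℝ) (ι : Type) [Fintype ι] (z : ι → ℝ) : lr r z ^ 2 = (∑ i, |z i| ^ r) ^ (2 / r) := by
  have h0 : 0 ≤ ∑ i, |z i| ^ r := Finset.sum_nonneg fun i _ => Real.rpow_nonneg (abs_nonneg _) _
  rw [lr, ← Real.rpow_natCast, ← Real.rpow_mul h0]
  congr 1
  push_cast
  ring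

theorem LRR_sub {α : Type} (t : ℝ) (h0 : 0 < t) (h1 : t ≤ 1) (s : Finset α) (g : α → ℝ) (hg : ∀ i ∈ s, 0 ≤ g i) :
    (∑ i ∈ s, g i) ^ t ≤ ∑ i ∈ s, g i ^ t := by
  refine Finset.le_sum_of_subadditive_on_pred (fun x : ℝ => x ^ t) (fun x => 0 ≤ x) ?_ ?_ ?_ g hg
  · exact (Real.zero_rpow h0.ne').le
  · intro x y hx hy
    exact Real.rpow_add_le_add_rpow hx hy h0.le h1
  · intro x y hx hy
    exact add_nonneg hx hy

theorem p_LRR : Stmt_LRR := by
  intro r ι _ N hr1 hr2 hN U hU x y hxy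
  have hr0 : 0 < r := by linarith
  have hs : 1 ≤ 2 / r := by
    rw [le_div_iff₀ hr0]
    linarith
  have hs0 : 0 < 2 / r := by positivity
  -- the left side
  obtain ⟨u, hu⟩ : ∃ u : ι → Fin N → ℝ, ∀ c j, u c j = |y j c| ^ r := ⟨fun c j => |y j c| ^ r, fun _ _ => rfl⟩
  have hunn : ∀ c j, 0 ≤ u c j := fun c j => by
    rw [hu]
    exact Real.rpow_nonneg (abs_nonneg _) _
  have hA : ∑ j, lr r (y j) ^ 2 = (lrS (2 / r) hs (Fin N) (∑ c, u c)) ^ (2 / r) := by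
    rw [lrS_apply, lr]
    have h0 : 0 ≤ ∑ i, |(∑ c, u c) i| ^ (2 / r) :=
      Finset.sum_nonneg fun i _ => Real.rpow_nonneg (abs_nonneg _) _
    rw [← Real.rpow_mul h0, one_div, inv_mul_cancel₀ hs0.ne', Real.rpow_one]
    refine Finset.sum_congr rfl fun j _ => ?_
    rw [LRR_sq, Finset.sum_apply, abs_of_nonneg (Finset.sum_nonneg fun c _ => hunn c j)]
    simp only [hu]
  have hB : lrS (2 / r) hs (Fin N) (∑ c, u c) ≤ ∑ c, lrS (2 / r) hs (Fin N) (u c) :=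
    Finset.le_sum_of_subadditive _ (map_zero _).le (fun a b => map_add_le_add _ a b) _ _
  have hC : ∀ c, lrS (2 / r) hs (Fin N) (u c) = (∑ j, y j c ^ 2) ^ (r / 2) := by
    intro c
    rw [lrS_apply, lr]
    have e : 1 / (2 / r) = r / 2 := by
      field_simp
    rw [e]
    congr 1
    refine Finset.sum_congr rfl fun j _ => ?_
    rw [abs_of_nonneg (hunn c j), hu, ← Real.rpow_mul (abs_nonneg _), mul_div_cancel₀ _ hr0.ne']
    rw [Real.rpow_two, sq_abs]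
  have hD : ∀ c, ∑ j, y j c ^ 2 = ∑ i, x i c ^ 2 := by
    intro c
    rw [← LRR_orth U hU fun i => x i c]
    refine Finset.sum_congr rfl fun j _ => ?_
    rw [hxy j, Finset.sum_apply]
    simp only [Pi.smul_apply, smul_eq_mul]
  have hE : ∀ c, (∑ i, x i c ^ 2) ^ (r / 2) ≤ ∑ i, |x i c| ^ r := by
    intro c
    refine (LRR_sub (r / 2) (by linarith) (by linarith) Finset.univ (fun i => x i c ^ 2) fun i _ => sq_nonneg _).trans
      (le_of_eq ?_)
    refine Finset.sum_congr rfl fun i _ => ?_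
    rw [← sq_abs, ← Real.rpow_two, ← Real.rpow_mul (abs_nonneg _)]
    congr 1
    ring
  have hF : lrS (2 / r) hs (Fin N) (∑ c, u c) ≤ ∑ i, ∑ c, |x i c| ^ r := by
    rw [Finset.sum_comm]
    refine hB.trans (Finset.sum_le_sum fun c _ => ?_)
    rw [hC, hD]
    exact hE c
  have hG : (lrS (2 / r) hs (Fin N) (∑ c, u c)) ^ (2 / r) ≤ (∑ i, ∑ c, |x i c| ^ r) ^ (2 / r) :=
    Real.rpow_le_rpow (apply_nonneg _ _) hF hs0.le
  have hH := Real.rpow_sum_le_const_mul_sum_rpow_of_nonneg (Finset.univ : Finset (Fin N)) (f := fun i => ∑ c, |x i c| ^ r)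
    hs (fun i _ => Finset.sum_nonneg fun c _ => Real.rpow_nonneg (abs_nonneg _) _)
  rw [hA]
  refine hG.trans (hH.trans (le_of_eq ?_))
  have e1 : ((Finset.univ : Finset (Fin N)).card : ℝ) ^ (2 / r - 1) = ((N : ℝ) ^ (1 / r - 1 / 2)) ^ 2 := by
    rw [Finset.card_univ, Fintype.card_fin, ← Real.rpow_natCast, ← Real.rpow_mul (Nat.cast_nonneg _)]
    congr 1
    push_cast
    ring
  rw [e1]
  congr 1
  refine Finset.sum_congr rfl fun i _ => ?_
  rw [LRR_sq]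

end Pool.NG
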