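import Pool.Agent.Work.MP_3e8c7a_ng.Interface

/-!
# MP_3e8c7a_an, THEOREM NEG, block MAT
-/

set_option autoImplicit false

namespace Pool.NG

open Module Pool.Agent.MP3e8c7a

lemma MAT_sub {W : Type} [AddCommGroup W] [Module ℝ W] (p : Seminorm ℝ W) (x y : W) :
    p (x - y) ≤ p x + p y := map_sub_le_add p x y

lemma MAT_add {W : Type} [AddCommGroup W] [Module ℝ W] (p : Seminorm ℝ W) (x y : W) :
    p (x + y) ≤ p x + p y := map_add_le_add p x y

lemma MAT_two {W : Type} [AddCommGroup W] [Module ℝ W] (p : Seminorm ℝ W) (x : W) :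
    p ((2 : ℝ) • x) = 2 * p x := by
  rw [map_smul_eq_mul, Real.norm_of_nonneg (by norm_num)]

theorem p_MAT : Stmt_MAT := by
  intro W _ _ p0 p1 m B A S hA hB h0 h1 h10 hB0
  let σ : W →ₗ[ℝ] A := S.codRestrict A hA
  have hσ : ∀ x, (σ x : W) = S x := fun x => rfl
  let f : (W × A) →ₗ[ℝ] (W × A) :=
    { toFun := fun z => ((z.1 - S z.1) + (S (z.2 : W) - (2 : ℝ) • (z.2 : W)), σ z.1 + (z.2 - σ (z.2 : W)))
      map_add' := by
        intro x y
        refine Prod.ext ?_ ?_
        · simp only [Prod.fst_add, Prod.snd_add, Submodule.coe_add, map_add, smul_add]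
          abel
        · simp only [Prod.fst_add, Prod.snd_add, Submodule.coe_add, map_add]
          abel
      map_smul' := by
        intro c x
        refine Prod.ext ?_ ?_
        · simp only [Prod.smul_fst, Prod.smul_snd, Submodule.coe_smul, map_smul, RingHom.id_apply, smul_add, smul_sub]
          rw [smul_comm c (2 : ℝ)]
        · simp only [Prod.smul_fst, Prod.smul_snd, Submodule.coe_smul, map_smul, RingHom.id_apply, smul_add, smul_sub] }
  let g : (W × A) →ₗ[ℝ] (W × A) :=
    { toFun := fun z => ((z.1 - S z.1) + ((2 : ℝ) • (z.2 : W) - S (z.2 : W)), - σ z.1 + (z.2 - σ (z.2 : W)))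
      map_add' := by
        intro x y
        refine Prod.ext ?_ ?_
        · simp only [Prod.fst_add, Prod.snd_add, Submodule.coe_add, map_add, smul_add]
          abel
        · simp only [Prod.fst_add, Prod.snd_add, Submodule.coe_add, map_add]
          abel
      map_smul' := by
        intro c x
        refine Prod.ext ?_ ?_
        · simp only [Prod.smul_fst, Prod.smul_snd, Submodule.coe_smul, map_smul, RingHom.id_apply, smul_add, smul_sub]
          rw [smul_comm c (2 : ℝ)]
        · simp only [Prod.smul_fst, Prod.smul_snd, Submodule.coe_smul, map_smul, RingHom.id_apply, smul_add, smul_sub, smul_neg] }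
  have hf1 : ∀ z, (f z).1 = (z.1 - S z.1) + (S (z.2 : W) - (2 : ℝ) • (z.2 : W)) := fun z => rfl
  have hf2 : ∀ z, ((f z).2 : W) = S z.1 + (z.2 - S (z.2 : W)) := fun z => rfl
  have hg1 : ∀ z, (g z).1 = (z.1 - S z.1) + ((2 : ℝ) • (z.2 : W) - S (z.2 : W)) := fun z => rfl
  have hg2 : ∀ z, ((g z).2 : W) = - S z.1 + (z.2 - S (z.2 : W)) := fun z => rfl
  have hfg : f ∘ₗ g = LinearMap.id := by
    refine LinearMap.ext fun z => Prod.ext ?_ (Subtype.ext ?_)
    · rw [LinearMap.comp_apply, hf1, hg1, hg2]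
      simp only [map_add, map_sub, map_neg, map_smul, smul_add, smul_sub, smul_neg, LinearMap.id_apply]
      module
    · rw [LinearMap.comp_apply, hf2, hg1, hg2]
      simp only [map_add, map_sub, map_neg, map_smul, LinearMap.id_apply]
      module
  have hgf : g ∘ₗ f = LinearMap.id := by
    refine LinearMap.ext fun z => Prod.ext ?_ (Subtype.ext ?_)
    · rw [LinearMap.comp_apply, hg1, hf1, hf2]
      simp only [map_add, map_sub, map_neg, map_smul, smul_add, smul_sub, smul_neg, LinearMap.id_apply]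
      module
    · rw [LinearMap.comp_apply, hg2, hf1, hf2]
      simp only [map_add, map_sub, map_neg, map_smul, LinearMap.id_apply]
      module
  have hBS : ∀ x, B (x - S x) = 0 := fun x => by rw [map_sub, hB, sub_self]
  have k0 : ∀ x, p0 (x - S x) ≤ 3 * p1 x := by
    intro x
    have := hB0 _ (hBS x)
    have h2 := MAT_sub p1 x (S x)
    have h3 := h1 x
    linarith
  have k1 : ∀ x, p1 (x - S x) ≤ 3 * p1 x := by
    intro x
    have h2 := MAT_sub p1 x (S x)
    have h3 := h1 x
    linarith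
  let E : (W × A) ≃ₗ[ℝ] (W × A) := LinearEquiv.ofLinearMap f g hfg hgf
  have hE : ∀ z, E z = f z := fun z => rfl
  have hE' : ∀ z, E.symm z = g z := fun z => rfl
  refine ⟨E, ?_, ?_⟩
  · intro z
    have m1 : p0 z.1 ≤ max (p0 z.1) (p1 z.2) := le_max_left _ _
    have m2 : p1 z.2 ≤ max (p0 z.1) (p1 z.2) := le_max_right _ _
    rw [hE]
    constructor
    · rw [hf1]
      have a1 := MAT_add p1 (z.1 - S z.1) (S (z.2 : W) - (2 : ℝ) • (z.2 : W))
      have a2 := MAT_sub p1 (S (z.2 : W)) ((2 : ℝ) • (z.2 : W))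
      rw [MAT_two] at a2
      have a3 := h1 (z.2 : W)
      have a4 := k1 z.1
      have a5 := h10 z.1
      linarith
    · rw [hf2]
      have a1 := MAT_add p0 (S z.1) ((z.2 : W) - S (z.2 : W))
      have a2 := k0 (z.2 : W)
      have a3 := h0 z.1
      have a4 : 0 ≤ p1 (z.2 : W) := apply_nonneg _ _
      have a5 : 0 ≤ p0 z.1 := apply_nonneg _ _
      linarith
  · intro z
    have m1 : p1 z.1 ≤ max (p1 z.1) (p0 z.2) := le_max_left _ _
    have m2 : p0 z.2 ≤ max (p1 z.1) (p0 z.2) := le_max_right _ _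
    rw [hE']
    constructor
    · rw [hg1]
      have a1 := MAT_add p0 (z.1 - S z.1) ((2 : ℝ) • (z.2 : W) - S (z.2 : W))
      have a2 := MAT_sub p0 ((2 : ℝ) • (z.2 : W)) (S (z.2 : W))
      rw [MAT_two] at a2
      have a3 := h0 (z.2 : W)
      have a4 := k0 z.1
      linarith
    · rw [hg2]
      have a1 := MAT_add p1 (- S z.1) ((z.2 : W) - S (z.2 : W))
      have a2 := k1 (z.2 : W)
      have a3 := h1 z.1
      have a4 := h10 (z.2 : W)
      have a5 : p1 (- S z.1) = p1 (S z.1) := map_neg_eq_map _ _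
      have a6 : 0 ≤ p1 z.1 := apply_nonneg _ _
      have a7 : 0 ≤ p0 (z.2 : W) := apply_nonneg _ _
      linarith

end Pool.NG
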