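import Pool.Agent.Work.MP_3e8c7a_ng.InterfaceF
import Pool.Agent.Work.MP_3e8c7a.Glue

/-!
# MP_3e8c7a_an, THEOREM NEG, block NEG: from norms to bodies
-/

set_option autoImplicit false

namespace Pool.NG

open Module Pool.Agent.MP3e8c7a

theorem p_NEG (h1 : Stmt_FNL) (h2 : Stmt_BDY) : Stmt_NEG := by
  intro α hα0 hα1
  obtain ⟨b, hb, H⟩ := h1 α hα0 hα1
  refine ⟨b, hb, fun κ => ?_⟩
  obtain ⟨n, m, p, p', hn, hp, hp', hyp, hiso⟩ := H (|κ| + 1) (by linarith [abs_nonneg κ])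
  have hfin : finrank ℝ (Hn n × (Fin m → ℝ)) = finrank ℝ (Fin (n + m) → ℝ) := by
    rw [Module.finrank_prod]
    simp
  let e : (Hn n × (Fin m → ℝ)) ≃ₗ[ℝ] (Fin (n + m) → ℝ) := LinearEquiv.ofFinrankEq _ _ hfin
  let f : (Fin (n + m) → ℝ) →ₗ[ℝ] (Hn n × (Fin m → ℝ)) := e.symm.toLinearMap
  have hf : Function.Injective f := e.symm.injective
  refine ⟨n + m, {x | (p.comp f) x ≤ 1}, {x | (p'.comp f) x ≤ 1}, by omega,
    h2 _ _ (hp.comp f hf), h2 _ _ (hp'.comp f hf), ?_, ?_⟩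
  · intro E hE
    exact Iso.dBM_le hb (p := (p.comp f).comp E.subtype) (r := (p'.comp f).comp E.subtype)
      (fun x => Iff.rfl) (fun x => Iff.rfl) ((hyp.comp f hf) E hE)
  · by_contra hcon
    rw [not_lt] at hcon
    obtain ⟨T, hT⟩ := iso_of_dBM_le (p := p.comp f) (r := p'.comp f) (hp.comp f hf)
      (hp'.comp f hf) (fun x => Iff.rfl) (fun x => Iff.rfl) hcon
    apply hiso
    refine ⟨(e.trans T).trans e.symm, fun x => ?_⟩
    obtain ⟨hT1, hT2⟩ := hT (e x)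
    have e1 : (p.comp f) (e x) = p x := by
      show p (e.symm (e x)) = p x
      rw [e.symm_apply_apply]
    have e2 : (p'.comp f) (T (e x)) = p' (((e.trans T).trans e.symm) x) := rfl
    rw [e1, e2] at hT1
    rw [e1, e2] at hT2
    exact ⟨hT1, hT2⟩

end Pool.NG
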