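import Pool.Agent.Work.MP_3e8c7a_ng.Interface

/-!
# Block NIS: the spaces are not isomorphic
-/

set_option autoImplicit false
set_option linter.unusedSectionVars false

namespace Pool.NG

open Module Pool.Agent.MP3e8c7a
open Pool.RG (FacE)

theorem NIS_l2_mono {ι : Type} [Fintype ι] (x y : ι → ℝ) (h : ∀ i, |x i| ≤ |y i|) : l2 x ≤ l2 y := by
  unfold l2
  exact Real.sqrt_le_sqrt (Finset.sum_le_sum fun i _ => sq_le_sq.2 (h i))

theorem NIS_l2_le {Q : ℕ} (y : Fin Q → ℝ) : l2 y ≤ Real.sqrt Q * ‖y‖ := by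
  unfold l2
  have h : ∑ i, y i ^ 2 ≤ (Q : ℝ) * ‖y‖ ^ 2 := by
    calc ∑ i, y i ^ 2 ≤ ∑ _i : Fin Q, ‖y‖ ^ 2 := Finset.sum_le_sum fun i _ => by
          rw [← sq_abs (y i)]
          have h2 := norm_le_pi_norm y i
          rw [Real.norm_eq_abs] at h2
          exact pow_le_pow_left₀ (abs_nonneg _) h2 2
      _ = (Q : ℝ) * ‖y‖ ^ 2 := by
          rw [Finset.sum_const, Finset.card_univ, Fintype.card_fin, nsmul_eq_mul]
  calc Real.sqrt (∑ i, y i ^ 2) ≤ Real.sqrt ((Q : ℝ) * ‖y‖ ^ 2) := Real.sqrt_le_sqrt h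
    _ = Real.sqrt Q * ‖y‖ := by
        rw [Real.sqrt_mul (Nat.cast_nonneg _), Real.sqrt_sq (norm_nonneg _)]

theorem NIS_le_l2 {Q : ℕ} (y : Fin Q → ℝ) : ‖y‖ ≤ l2 y := by
  have h0 : 0 ≤ l2 y := Real.sqrt_nonneg _
  rw [pi_norm_le_iff_of_nonneg h0]
  intro i
  unfold l2
  rw [Real.norm_eq_abs]
  apply Real.abs_le_sqrt
  exact Finset.single_le_sum (f := fun i => y i ^ 2) (fun i _ => sq_nonneg _) (Finset.mem_univ i)

theorem p_NIS (h1 : Stmt_LAT) : Stmt_NIS := by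
  intro n J d s _ _ _ X N₀ L a N₁ hX ha hN₁ hN₁' m Q t G κ hκ hm hG hQ ht H hI
  obtain ⟨T, hT⟩ := hI
  have hD : 0 < X.D := lt_of_lt_of_le one_pos hX.D1
  have hκ0 : 0 < κ := by linarith
  have q0 : ∀ y : Fin Q → ℝ, qS X.D 0 Q y = ‖y‖ := by
    intro y
    rw [qS_apply hD, pow_zero, one_mul]
    apply max_eq_right
    rw [inv_mul_le_iff₀ hD]
    exact (NIS_l2_le y).trans (mul_le_mul_of_nonneg_right hQ (norm_nonneg _))
  have qt : ∀ y : Fin Q → ℝ, qS X.D t Q y = X.D⁻¹ * l2 y := by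
    intro y
    rw [qS_apply hD]
    apply max_eq_left
    have e1 : ((1 : ℝ) / 2) ^ t ≤ X.D⁻¹ := by
      rw [one_div, inv_pow]
      exact inv_anti₀ hD ht
    exact mul_le_mul e1 (NIS_le_l2 y) (norm_nonneg _) (inv_nonneg.2 hD.le)
  let J₁ : (Fin m → ℝ) →ₗ[ℝ] Hn n :=
    LinearMap.fst ℝ (Hn n) (Fin m → ℝ) ∘ₗ T.toLinearMap ∘ₗ LinearMap.inr ℝ (Hn n) (Fin m → ℝ)
  let J₂ : (Fin m → ℝ) →ₗ[ℝ] (Fin m → ℝ) :=
    LinearMap.snd ℝ (Hn n) (Fin m → ℝ) ∘ₗ T.toLinearMap ∘ₗ LinearMap.inr ℝ (Hn n) (Fin m → ℝ)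
  let R : (Hn n × (Fin m → ℝ)) →ₗ[ℝ] (Fin m → ℝ) :=
    LinearMap.snd ℝ (Hn n) (Fin m → ℝ) ∘ₗ T.symm.toLinearMap
  have hJ : ∀ y, X.nX (J₁ y) + X.D⁻¹ * l2 (G (J₂ y)) ≤ κ * ‖G y‖ := by
    intro y
    have h3 := (hT (0, y)).2
    rw [X.P_apply, X.P_apply, q0, qt] at h3
    have h4 : X.nX ((0, y) : Hn n × (Fin m → ℝ)).1 = 0 := map_zero X.nX
    rw [h4, zero_add] at h3
    exact h3
  have hR : ∀ v, ‖G (R v)‖ ≤ X.nX v.1 + X.D⁻¹ * l2 (G v.2) := by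
    intro v
    have h3 := (hT (T.symm v)).1
    rw [LinearEquiv.apply_symm_apply, X.P_apply, X.P_apply, q0, qt] at h3
    have h4 : 0 ≤ X.nX (T.symm v).1 := apply_nonneg _ _
    show ‖G (T.symm v).2‖ ≤ _
    linarith
  have hRJ : ∀ y, R (J₁ y, J₂ y) = y := by
    intro y
    show (T.symm (T (0, y))).2 = y
    rw [LinearEquiv.symm_apply_apply]
  let N : Seminorm ℝ (Fin m → ℝ) := (l2S (Fin Q)).comp (X.D⁻¹ • G)
  have hNa : ∀ y, N y = X.D⁻¹ * l2 (G y) := by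
    intro y
    show l2S (Fin Q) (X.D⁻¹ • G y) = _
    rw [map_smul_eq_mul, l2S_apply, Real.norm_eq_abs, abs_of_pos (inv_pos.2 hD)]
  have hNd : Def N := by
    intro y hy
    rw [hNa] at hy
    have h5 : l2 (G y) = 0 := by
      rcases mul_eq_zero.1 hy with h | h
      · exact absurd h (inv_pos.2 hD).ne'
      · exact h
    have h6 := NIS_le_l2 (G y)
    rw [h5] at h6
    have h7 : G y = 0 := norm_le_zero_iff.1 h6
    exact hG (by rw [h7, map_zero])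
  have hNe : Pool.EH.Eu 1 N := by
    refine ⟨Q, (WithLp.linearEquiv 2 ℝ (Fin Q → ℝ)).symm.toLinearMap ∘ₗ (X.D⁻¹ • G), fun y => ?_⟩
    have e : ‖((WithLp.linearEquiv 2 ℝ (Fin Q → ℝ)).symm.toLinearMap ∘ₗ (X.D⁻¹ • G)) y‖ = N y := by
      show ‖(WithLp.toLp 2 (X.D⁻¹ • G y) : EuclideanSpace ℝ (Fin Q))‖ =
        l2S (Fin Q) (X.D⁻¹ • G y)
      rw [l2S_apply, l2_eq_norm]
    rw [e, one_mul]
    exact ⟨le_rfl, le_rfl⟩
  obtain ⟨m', θ, hθ⟩ : ∃ (m' : ℕ) (θ : (Fin m → ℝ) ≃ₗ[ℝ] Hn m'),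
      ∀ x, ‖θ x‖ ≤ N x ∧ N x ≤ 1 * ‖θ x‖ := ⟨_, hNe.exists_equiv hNd⟩
  obtain ⟨ι, fι, w, j, q, hw, hqj, hwj, hqz⟩ := h1 n J d s X N₀ L a N₁ hX ha hN₁ hN₁'
    (LinearMap.range J₁) (by
      refine (LinearMap.finrank_range_le J₁).trans ?_
      rw [Module.finrank_fin_fun]
      exact hm)
  set c : ℝ := (27 * κ)⁻¹ with hc
  have hc0 : 0 < c := inv_pos.2 (by positivity)
  have hcκ : c * (27 * κ) = 1 := inv_mul_cancel₀ (by positivity)
  let w' : Seminorm ℝ (ι ⊕ Fin m' → ℝ) := w.comp (c • LinearMap.funLeft ℝ ℝ Sum.inl) ⊔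
    (l2S (Fin m')).comp (c • LinearMap.funLeft ℝ ℝ Sum.inr)
  have hw' : ∀ z : ι ⊕ Fin m' → ℝ, w' z = max (c * w (z ∘ Sum.inl)) (c * l2 (z ∘ Sum.inr)) := by
    intro z
    show max (w (c • (z ∘ Sum.inl))) (l2S (Fin m') (c • (z ∘ Sum.inr))) = _
    rw [map_smul_eq_mul, map_smul_eq_mul, l2S_apply, Real.norm_eq_abs, abs_of_pos hc0]
  let j' : (Fin m → ℝ) →ₗ[ℝ] (ι ⊕ Fin m' → ℝ) :=
    { toFun := fun y => Sum.elim (j (J₁.rangeRestrict y)) (fun i => θ (J₂ y) i)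
      map_add' := fun x y => by
        funext i
        rcases i with i | i
        · simp only [map_add, Sum.elim_inl, Pi.add_apply]
        · simp only [map_add, Sum.elim_inr, Pi.add_apply, PiLp.add_apply]
      map_smul' := fun r x => by
        funext i
        rcases i with i | i
        · simp only [map_smul, Sum.elim_inl, Pi.smul_apply, RingHom.id_apply]
        · simp only [map_smul, Sum.elim_inr, Pi.smul_apply, PiLp.smul_apply, RingHom.id_apply] }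
  let q' : (ι ⊕ Fin m' → ℝ) →ₗ[ℝ] (Fin m → ℝ) :=
    R ∘ₗ ((q ∘ₗ LinearMap.funLeft ℝ ℝ Sum.inl).prod
      (θ.symm.toLinearMap ∘ₗ (WithLp.linearEquiv 2 ℝ (Fin m' → ℝ)).symm.toLinearMap ∘ₗ
        LinearMap.funLeft ℝ ℝ Sum.inr))
  have hq' : ∀ z : ι ⊕ Fin m' → ℝ, q' z =
      R (q (z ∘ Sum.inl), θ.symm (WithLp.toLp 2 (z ∘ Sum.inr))) := fun z => rfl
  refine H (ι ⊕ Fin m') w' ?_ ⟨j', q', ?_, ?_, ?_⟩
  · intro x y h
    rw [hw', hw']
    refine max_le_max ?_ ?_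
    · exact mul_le_mul_of_nonneg_left (hw _ _ fun i => h (Sum.inl i)) hc0.le
    · exact mul_le_mul_of_nonneg_left (NIS_l2_mono _ _ fun i => h (Sum.inr i)) hc0.le
  · intro y
    rw [hq']
    have e1 : q ((j' y) ∘ Sum.inl) = J₁ y := by
      show q (j (J₁.rangeRestrict y)) = _
      rw [hqj]
      rfl
    have e2 : θ.symm (WithLp.toLp 2 ((j' y) ∘ Sum.inr)) = J₂ y := by
      have e3 : (WithLp.toLp 2 ((j' y) ∘ Sum.inr) : Hn m') = θ (J₂ y) := by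
        ext i
        rfl
      rw [e3, LinearEquiv.symm_apply_apply]
    rw [e1, e2, hRJ]
  · intro y
    show w' (j' y) ≤ ‖G y‖
    rw [hw']
    have h5 := hJ y
    have h6 : 0 ≤ X.nX (J₁ y) := apply_nonneg _ _
    have h7 : 0 ≤ X.D⁻¹ * l2 (G (J₂ y)) :=
      mul_nonneg (inv_nonneg.2 hD.le) (Real.sqrt_nonneg _)
    refine max_le ?_ ?_
    · have h8 : w (j (J₁.rangeRestrict y)) ≤ 27 * X.nX (J₁ y) := hwj (J₁.rangeRestrict y)
      have h9 : c * w (j (J₁.rangeRestrict y)) ≤ c * (27 * κ * ‖G y‖) :=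
        mul_le_mul_of_nonneg_left (by linarith) hc0.le
      rw [← mul_assoc, hcκ, one_mul] at h9
      exact h9
    · have h8 : l2 ((j' y) ∘ Sum.inr) = ‖θ (J₂ y)‖ := by
        rw [l2_eq_norm]
        rfl
      have h9 := (hθ (J₂ y)).1
      rw [hNa] at h9
      rw [h8]
      have h10 : 0 ≤ κ * ‖G y‖ := mul_nonneg hκ0.le (norm_nonneg _)
      have h11 : c * ‖θ (J₂ y)‖ ≤ c * (27 * κ * ‖G y‖) :=
        mul_le_mul_of_nonneg_left (by linarith) hc0.le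
      rw [← mul_assoc, hcκ, one_mul] at h11
      exact h11
  · intro z
    show ‖G (q' z)‖ ≤ _
    rw [hq']
    refine (hR _).trans ?_
    show X.nX (q (z ∘ Sum.inl)) + X.D⁻¹ * l2 (G (θ.symm (WithLp.toLp 2 (z ∘ Sum.inr)))) ≤ _
    have h5 := hqz (z ∘ Sum.inl)
    have h6 := (hθ (θ.symm (WithLp.toLp 2 (z ∘ Sum.inr)))).2
    rw [hNa, LinearEquiv.apply_symm_apply, one_mul, ← l2_eq_norm] at h6
    have h7 : w (z ∘ Sum.inl) = 27 * κ * (c * w (z ∘ Sum.inl)) := by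
      rw [← mul_assoc, mul_comm (27 * κ) c, hcκ, one_mul]
    have h8 : l2 (z ∘ Sum.inr) = 27 * κ * (c * l2 (z ∘ Sum.inr)) := by
      rw [← mul_assoc, mul_comm (27 * κ) c, hcκ, one_mul]
    have h9 : c * w (z ∘ Sum.inl) ≤ w' z := by
      rw [hw']
      exact le_max_left _ _
    have h10 : c * l2 (z ∘ Sum.inr) ≤ w' z := by
      rw [hw']
      exact le_max_right _ _
    have h11 : w (z ∘ Sum.inl) ≤ 27 * κ * w' z := by
      rw [h7]
      exact mul_le_mul_of_nonneg_left h9 (by positivity)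
    have h12 : l2 (z ∘ Sum.inr) ≤ 27 * κ * w' z := by
      rw [h8]
      exact mul_le_mul_of_nonneg_left h10 (by positivity)
    linarith

end Pool.NG
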