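import Pool.Agent.Work.MP_3e8c7a_ng.Interface

/-!
# MP_3e8c7a_an, THEOREM NEG: block NOI (combinations of few noise vectors)
-/

set_option autoImplicit false

namespace Pool.NG

open Module Pool.Agent.MP3e8c7a

open Classical in
/-- the coordinates of a combination of noise vectors -/
noncomputable def NOI_z {J d s : Type} (Λ : Finset (J × s)) (β : J × s → ℝ) : J × (d ⊕ s) → ℝ :=
  fun c => Sum.elim (fun _ => 0) (fun l => if (c.1, l) ∈ Λ then β (c.1, l) else 0) c.2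

theorem NOI_sum {J d s : Type} [Fintype J] [Fintype d] [Fintype s] {M : Type} [AddCommMonoid M]
    (F : J × (d ⊕ s) → M) (Λ : Finset (J × s)) (h0 : ∀ j i, F (j, Sum.inl i) = 0)
    (h1 : ∀ c : J × s, c ∉ Λ → F (c.1, Sum.inr c.2) = 0) :
    ∑ c, F c = ∑ c ∈ Λ, F (c.1, Sum.inr c.2) := by
  classical
  rw [Fintype.sum_prod_type]
  have h2 : ∀ j, ∑ e : d ⊕ s, F (j, e) = ∑ l : s, F (j, Sum.inr l) := by
    intro j
    rw [Fintype.sum_sum_type]
    simp [h0]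
  simp only [h2]
  rw [← Fintype.sum_prod_type (f := fun c : J × s => F (c.1, Sum.inr c.2))]
  exact (Finset.sum_subset (Finset.subset_univ Λ) fun c _ hc => h1 c hc).symm

theorem p_NOI (hLRA : Stmt_LRA) (hPSI : Stmt_PSI) : Stmt_NOI := by
  intro n J d s _ _ _ X N₀ L hX Λ β hΛ
  classical
  set A : ℝ := Real.sqrt (∑ c ∈ Λ, β c ^ 2) with hA
  have hA0 : 0 ≤ A := Real.sqrt_nonneg _
  have hA2 : A ^ 2 = ∑ c ∈ Λ, β c ^ 2 :=
    Real.sq_sqrt (Finset.sum_nonneg fun c _ => sq_nonneg _)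
  set z : J × (d ⊕ s) → ℝ := NOI_z Λ β with hz
  have zl : ∀ j i, z (j, Sum.inl i) = 0 := fun j i => rfl
  have zr : ∀ c : J × s, z (c.1, Sum.inr c.2) = if c ∈ Λ then β c else 0 := fun c => rfl
  have zin : ∀ c ∈ Λ, z (c.1, Sum.inr c.2) = β c := fun c hc => by rw [zr c, if_pos hc]
  have zout : ∀ c : J × s, c ∉ Λ → z (c.1, Sum.inr c.2) = 0 := fun c hc => by
    rw [zr c, if_neg hc]
  have hT : X.T z = ∑ c ∈ Λ, β c • X.b c.1 (Sum.inr c.2) := by
    rw [X.T_apply, NOI_sum (fun c => z c • X.g c) Λ (fun j i => by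
      show z (j, Sum.inl i) • _ = 0
      rw [zl, zero_smul]) (fun c hc => by
      show z (c.1, Sum.inr c.2) • _ = 0
      rw [zout c hc, zero_smul])]
    refine Finset.sum_congr rfl fun c hc => ?_
    show z (c.1, Sum.inr c.2) • X.b c.1 (Sum.inr c.2) = _
    rw [zin c hc]
  have h1 : ∑ c, |z c| = ∑ c ∈ Λ, |β c| := by
    rw [NOI_sum (fun c => |z c|) Λ (fun j i => by
      show |z (j, Sum.inl i)| = 0
      rw [zl, abs_zero]) (fun c hc => by
      show |z (c.1, Sum.inr c.2)| = 0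
      rw [zout c hc, abs_zero])]
    refine Finset.sum_congr rfl fun c hc => ?_
    show |z (c.1, Sum.inr c.2)| = _
    rw [zin c hc]
  have hL1 := hX.L1
  have hL0 : 0 < L := by linarith
  have hD1 := hX.D1
  have hD0 : 0 < X.D := by linarith
  have hDL : X.D ≤ L := by linarith [hX.LD]
  have hcard : (Λ.card : ℝ) ≤ L := le_trans (by exact_mod_cast hΛ) hX.LN
  have h2 : ∑ c ∈ Λ, |β c| ≤ L * A := by
    have h3 : (∑ c ∈ Λ, |β c|) ^ 2 ≤ Λ.card * ∑ c ∈ Λ, |β c| ^ 2 := sq_sum_le_card_mul_sum_sq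
    have h4 : ∑ c ∈ Λ, |β c| ^ 2 = A ^ 2 := by
      rw [hA2]
      exact Finset.sum_congr rfl fun c _ => sq_abs _
    rw [h4] at h3
    have h5 : (Λ.card : ℝ) * A ^ 2 ≤ (L * A) ^ 2 := by
      rw [mul_pow]
      refine mul_le_mul_of_nonneg_right ?_ (sq_nonneg _)
      nlinarith
    exact abs_le_of_sq_le_sq' (h3.trans h5) (by positivity) |>.2
  have h3 : l2 z = A := by
    rw [l2, hA, NOI_sum (fun c => z c ^ 2) Λ (fun j i => by
      show z (j, Sum.inl i) ^ 2 = 0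
      rw [zl]; norm_num) (fun c hc => by
      show z (c.1, Sum.inr c.2) ^ 2 = 0
      rw [zout c hc]; norm_num)]
    congr 1
    refine Finset.sum_congr rfl fun c hc => ?_
    show z (c.1, Sum.inr c.2) ^ 2 = _
    rw [zin c hc]
  have h4 : X.wt z = X.D⁻¹ • z := by
    funext c
    rcases c with ⟨j, i | l⟩
    · rw [Cfg.wt_inl, Pi.smul_apply, zl, smul_zero]
    · rw [Cfg.wt_inr, Pi.smul_apply, smul_eq_mul]
  have h5 : l2 (X.wt z) = X.D⁻¹ * A := by
    rw [h4, ← l2S_apply, map_smul_eq_mul, l2S_apply, h3, Real.norm_eq_abs,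
      abs_of_pos (inv_pos.2 hD0)]
  have hr1 := hX.r1
  have hr2 := hX.r2
  have h6 : lr X.r (X.wt z) ≤ 2 * (X.D⁻¹ * A) := by
    let S : Finset (J × (d ⊕ s)) := Λ.image fun c => (c.1, Sum.inr c.2)
    have h7 := (hLRA X.r (J × (d ⊕ s)) hr1.le hr2.le).2.2 S (X.wt z) (by
      intro i hi
      rcases i with ⟨j, i | l⟩
      · rw [Cfg.wt_inl, zl]
      · rw [Cfg.wt_inr]
        have h8 : (j, l) ∉ Λ := fun h => hi (Finset.mem_image.2 ⟨(j, l), h, rfl⟩)
        have h9 := zout (j, l) h8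
        simp only at h9
        rw [h9, mul_zero])
    refine h7.trans ?_
    rw [h5]
    refine mul_le_mul_of_nonneg_right ?_ (mul_nonneg (inv_pos.2 hD0).le hA0)
    refine le_trans ?_ hX.rN
    refine Real.rpow_le_rpow (Nat.cast_nonneg _) ?_ ?_
    · exact_mod_cast Finset.card_image_le.trans hΛ
    · have h8 : 1 / 2 < 1 / X.r := one_div_lt_one_div_of_lt (by linarith) hr2
      linarith
  have hρ0 := hX.ρ0
  have hL6 : L ^ 2 ≤ L ^ 6 := pow_le_pow_right₀ hL1 (by norm_num)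
  have h7 : X.ρ * L ≤ X.D⁻¹ := by
    rw [← one_div, le_div_iff₀ hD0]
    calc X.ρ * L * X.D ≤ X.ρ * L * L := mul_le_mul_of_nonneg_left hDL (by positivity)
      _ = L ^ 2 * X.ρ := by ring
      _ ≤ L ^ 6 * X.ρ := mul_le_mul_of_nonneg_right hL6 hρ0.le
      _ ≤ 1 := hX.sm2
  have hs0 : 0 < Real.sqrt X.μ := Real.sqrt_pos.2 hX.μ0
  have h8 : L ^ 12 * Real.sqrt X.μ ≤ 1 := by
    calc L ^ 12 * Real.sqrt X.μ = L ^ 6 * (L ^ 6 * Real.sqrt X.μ) := by ring
      _ ≤ L ^ 6 * X.ρ := mul_le_mul_of_nonneg_left hX.sm1 (by positivity)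
      _ ≤ 1 := hX.sm2
  have h9 : Real.sqrt X.μ ≤ 1 := by
    refine le_trans ?_ h8
    exact le_mul_of_one_le_left hs0.le (one_le_pow₀ hL1)
  have h10 : L ^ 2 * X.μ * L ≤ (X.D * L)⁻¹ := by
    rw [← one_div, le_div_iff₀ (by positivity)]
    have h11 : X.μ = Real.sqrt X.μ * Real.sqrt X.μ := (Real.mul_self_sqrt hX.μ0.le).symm
    have h12 : X.μ ≤ Real.sqrt X.μ := by
      conv_lhs => rw [h11]
      exact mul_le_of_le_one_left hs0.le h9
    calc L ^ 2 * X.μ * L * (X.D * L) = X.D * (L ^ 4 * X.μ) := by ring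
      _ ≤ L * (L ^ 4 * X.μ) := mul_le_mul_of_nonneg_right hDL
          (mul_nonneg (by positivity) hX.μ0.le)
      _ = L ^ 5 * X.μ := by ring
      _ ≤ L ^ 5 * Real.sqrt X.μ := mul_le_mul_of_nonneg_left h12 (by positivity)
      _ ≤ L ^ 12 * Real.sqrt X.μ := mul_le_mul_of_nonneg_right
          (pow_le_pow_right₀ hL1 (by norm_num)) hs0.le
      _ ≤ 1 := h8
  have h11 : ∀ c : J × s, |inner ℝ (X.psi c) (X.T z) - z (c.1, Sum.inr c.2)| ≤
      (X.D * L)⁻¹ * A := by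
    intro c
    refine ((hPSI n J d s X N₀ L hX).1 z c).trans ?_
    calc L ^ 2 * X.μ * ∑ c, |z c| ≤ L ^ 2 * X.μ * (L * A) := by
          refine mul_le_mul_of_nonneg_left ?_ (mul_nonneg (by positivity) hX.μ0.le)
          rw [h1]; exact h2
      _ = (L ^ 2 * X.μ * L) * A := by ring
      _ ≤ (X.D * L)⁻¹ * A := mul_le_mul_of_nonneg_right h10 hA0
  rw [← hT]
  refine ⟨?_, ?_, ?_⟩
  · refine (X.N2_le (X.T z) z).trans ?_
    rw [sub_self, norm_zero, zero_add, h1]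
    have h12 : X.ρ * ∑ c ∈ Λ, |β c| ≤ X.D⁻¹ * A := by
      calc X.ρ * ∑ c ∈ Λ, |β c| ≤ X.ρ * (L * A) := mul_le_mul_of_nonneg_left h2 hρ0.le
        _ = X.ρ * L * A := by ring
        _ ≤ X.D⁻¹ * A := mul_le_mul_of_nonneg_right h7 hA0
    linarith
  · intro c hc
    have h12 := h11 c
    rw [zin c hc] at h12
    exact h12
  · intro c hc
    have h12 := h11 c
    rw [zout c hc, sub_zero] at h12
    exact h12

end Pool.NG
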