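import Pool.Agent.Work.MP_3e8c7a_ng.Interface

/-! Block NTX: the net of types and the block diagonal matrix (typed by helper56). -/

set_option autoImplicit false

namespace Pool.NG

open Module Pool.Agent.MP3e8c7a

theorem NTX_l2_sq {ι : Type} [Fintype ι] (z : ι → ℝ) : l2 z ^ 2 = ∑ i, z i ^ 2 :=
  Real.sq_sqrt (Finset.sum_nonneg fun i _ => sq_nonneg (z i))

theorem NTX_l2_nonneg {ι : Type} [Fintype ι] (z : ι → ℝ) : 0 ≤ l2 z := Real.sqrt_nonneg _

theorem NTX_abs_le {ι : Type} [Fintype ι] (z : ι → ℝ) (i : ι) : |z i| ≤ l2 z := by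
  refine abs_le_of_sq_le_sq ?_ (NTX_l2_nonneg z)
  rw [NTX_l2_sq]
  exact Finset.single_le_sum (f := fun i => z i ^ 2) (fun j _ => sq_nonneg (z j)) (Finset.mem_univ i)

theorem NTX_single {ι : Type} [Fintype ι] [DecidableEq ι] (i : ι) :
    l2 (Pi.single i 1 : ι → ℝ) = 1 := by
  unfold l2
  have h1 : ∑ j, (Pi.single i 1 : ι → ℝ) j ^ 2 = 1 := by
    rw [Finset.sum_eq_single i]
    · simp
    · intro j _ hj
      simp [Pi.single_eq_of_ne hj]
    · intro h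
      exact absurd (Finset.mem_univ i) h
  rw [h1, Real.sqrt_one]

theorem NTX_bd {K : Type} [Fintype K] [DecidableEq K] {c a : ℕ} (Ξ : K → Fin c → Fin a → ℝ)
    (D : ℝ) (hD : 0 ≤ D) (h : ∀ κ (w : Fin a → ℝ), l2 (mv (Ξ κ) w) ≤ D * l2 w)
    (w : K × Fin a → ℝ) : l2 (mv (bd Ξ) w) ≤ D * l2 w := by
  have e1 : ∀ (κ : K) (l : Fin c), mv (bd Ξ) w (κ, l) = mv (Ξ κ) (fun i => w (κ, i)) l := by
    intro κ l
    rw [mv_apply, mv_apply, Fintype.sum_prod_type, Finset.sum_eq_single κ]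
    · refine Finset.sum_congr rfl fun i _ => ?_
      simp [bd]
    · intro κ' _ hκ
      refine Finset.sum_eq_zero fun i _ => ?_
      have : κ ≠ κ' := fun h => hκ h.symm
      simp [bd, this]
    · intro h
      exact absurd (Finset.mem_univ κ) h
  refine le_of_sq_le_sq ?_ (mul_nonneg hD (NTX_l2_nonneg w))
  rw [mul_pow, NTX_l2_sq, NTX_l2_sq, Fintype.sum_prod_type, Fintype.sum_prod_type, Finset.mul_sum]
  refine Finset.sum_le_sum fun κ _ => ?_
  have h1 := h κ (fun i => w (κ, i))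
  have h2 := pow_le_pow_left₀ (NTX_l2_nonneg _) h1 2
  rw [mul_pow, NTX_l2_sq, NTX_l2_sq] at h2
  refine le_trans (le_of_eq ?_) h2
  exact Finset.sum_congr rfl fun l _ => by rw [e1]

theorem NTX_dist {t c a : ℕ} (x y : Fin t → Fin c → Fin a → ℝ) (τ : Fin t) (l : Fin c)
    (i : Fin a) : |x τ l i - y τ l i| ≤ dist x y := by
  rw [dist_eq_norm]
  have h1 : ‖(x - y) τ‖ ≤ ‖x - y‖ := norm_le_pi_norm (x - y) τ
  have h2 : ‖(x - y) τ l‖ ≤ ‖(x - y) τ‖ := norm_le_pi_norm ((x - y) τ) l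
  have h3 : ‖(x - y) τ l i‖ ≤ ‖(x - y) τ l‖ := norm_le_pi_norm ((x - y) τ l) i
  have h4 : |x τ l i - y τ l i| = ‖(x - y) τ l i‖ := rfl
  rw [h4]
  exact (h3.trans h2).trans h1

theorem NTX_row {a : ℕ} (x y w : Fin a → ℝ) (h : ∀ i, |x i - y i| ≤ 1 / ((a : ℝ) + 1)) :
    |∑ i, (x i * w i - y i * w i)| ≤ l2 w := by
  have hε : (0 : ℝ) < 1 / (a + 1) := by positivity
  have h3 : ∀ i, |x i * w i - y i * w i| ≤ 1 / (a + 1) * l2 w := by
    intro i
    rw [← sub_mul, abs_mul]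
    exact mul_le_mul (h i) (NTX_abs_le w i) (abs_nonneg _) hε.le
  calc |∑ i, (x i * w i - y i * w i)| ≤ ∑ i, |x i * w i - y i * w i| :=
        Finset.abs_sum_le_sum_abs _ _
    _ ≤ ∑ _i : Fin a, 1 / (a + 1) * l2 w := Finset.sum_le_sum fun i _ => h3 i
    _ = (a / (a + 1)) * l2 w := by
        rw [Finset.sum_const, Finset.card_univ, Fintype.card_fin, nsmul_eq_mul]
        ring
    _ ≤ 1 * l2 w := by
        refine mul_le_mul_of_nonneg_right ?_ (NTX_l2_nonneg w)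
        rw [div_le_one (by positivity)]
        linarith
    _ = l2 w := one_mul _

theorem p_NTX : Stmt_NTX := by
  classical
  intro t a c D hD
  set K : Set (Fin (t + 1) → Fin c → Fin a → ℝ) :=
    {Ξ' | ∀ τ (w : Fin a → ℝ), l2 (mv (Ξ' τ) w) ≤ D * l2 w} with hK
  have hbd : Bornology.IsBounded K := by
    rw [Metric.isBounded_iff_subset_closedBall 0]
    refine ⟨D, fun Ξ' hΞ => ?_⟩
    rw [mem_closedBall_zero_iff, pi_norm_le_iff_of_nonneg hD]
    intro τ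
    rw [pi_norm_le_iff_of_nonneg hD]
    intro l
    rw [pi_norm_le_iff_of_nonneg hD]
    intro i
    have h1 := hΞ τ (Pi.single i 1)
    rw [NTX_single, mul_one] at h1
    have h2 := NTX_abs_le (mv (Ξ' τ) (Pi.single i 1)) l
    have h3 : mv (Ξ' τ) (Pi.single i 1) l = Ξ' τ l i := by
      rw [mv_apply, Finset.sum_eq_single i]
      · simp
      · intro j _ hj
        simp [Pi.single_eq_of_ne hj]
      · intro h
        exact absurd (Finset.mem_univ i) h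
    rw [h3] at h2
    rw [Real.norm_eq_abs]
    exact h2.trans h1
  have hε : (0 : ℝ) < 1 / (a + 1) := by positivity
  have htb : TotallyBounded K :=
    (Metric.isCompact_of_isClosed_isBounded isClosed_closure hbd.closure).totallyBounded.subset
      subset_closure
  obtain ⟨F, hFK, hFfin, hcov⟩ := htb.exists_subset (Metric.dist_mem_uniformity hε)
  obtain ⟨e⟩ : Nonempty (Fin hFfin.toFinset.card ≃ {x // x ∈ hFfin.toFinset}) :=
    ⟨hFfin.toFinset.equivFin.symm⟩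
  have hmem : ∀ i τ (w : Fin a → ℝ), l2 (mv ((e i).1 τ) w) ≤ D * l2 w := fun i =>
    hFK (hFfin.mem_toFinset.1 (e i).2)
  obtain ⟨Ξ, hΞd⟩ : ∃ Ξ : Fin hFfin.toFinset.card × Fin (t + 1) → Fin c → Fin a → ℝ,
      ∀ κ, Ξ κ = (e κ.1).1 κ.2 := ⟨fun κ => (e κ.1).1 κ.2, fun κ => rfl⟩
  have hΞ1 : ∀ κ (w : Fin a → ℝ), l2 (mv (Ξ κ) w) ≤ D * l2 w := by
    intro κ w
    rw [hΞd]
    exact hmem κ.1 κ.2 w
  refine ⟨hFfin.toFinset.card, Ξ, hΞ1, fun w => NTX_bd Ξ D hD hΞ1 w, ?_⟩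
  · intro Ξ' hΞ
    have h1 : Ξ' ∈ K := hΞ
    obtain ⟨Θ, hΘ, hdist⟩ := Set.mem_iUnion₂.1 (hcov h1)
    refine ⟨e.symm ⟨Θ, hFfin.mem_toFinset.2 hΘ⟩, fun τ w => ?_⟩
    have h2 : Ξ (e.symm ⟨Θ, hFfin.mem_toFinset.2 hΘ⟩, τ) = Θ τ := by
      rw [hΞd]
      dsimp only
      rw [Equiv.apply_symm_apply]
    rw [h2, pi_norm_le_iff_of_nonneg (NTX_l2_nonneg w)]
    intro l
    rw [Pi.sub_apply, mv_apply, mv_apply, ← Finset.sum_sub_distrib, Real.norm_eq_abs]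
    have hd : dist Ξ' Θ < 1 / ((a : ℝ) + 1) := hdist
    exact NTX_row (Ξ' τ l) (Θ τ l) w fun i => (NTX_dist Ξ' Θ τ l i).trans hd.le

end Pool.NG
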