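import Pool.Agent.Work.MP_3e8c7a_ng.InterfaceF

/-!
# PAR: the parameters
-/

set_option autoImplicit false

namespace Pool.NG

open Module Pool.Agent.MP3e8c7a

theorem PAR_small (e A : ℝ) (he : 0 < e) (hA : 0 < A) :
    ∃ B : ℝ, 0 < B ∧ ∀ x : ℝ, 0 ≤ x → x ≤ B → x ^ e ≤ A := by
  refine ⟨A ^ (1 / e), Real.rpow_pos_of_pos hA _, fun x hx hxB => ?_⟩
  refine (Real.rpow_le_rpow hx hxB he.le).trans_eq ?_
  rw [← Real.rpow_mul hA.le, one_div_mul_cancel he.ne', Real.rpow_one]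

theorem PAR_r (N₀ : ℕ) (hN : 1 ≤ N₀) : ∃ r : ℝ, 1 < r ∧ r < 2 ∧ (N₀ : ℝ) ^ (1 / r - 1 / 2) ≤ 2 := by
  have hN1 : (1 : ℝ) ≤ (N₀ : ℝ) := by exact_mod_cast hN
  have hpos : (0 : ℝ) < (N₀ : ℝ) + 1 := by linarith
  have h1 : 1 / ((N₀ : ℝ) + 1) ≤ 1 / 2 := by
    apply one_div_le_one_div_of_le <;> linarith
  have h2 : 0 < 1 / ((N₀ : ℝ) + 1) := by positivity
  obtain ⟨r, hr⟩ : ∃ r : ℝ, r = 2 - 1 / ((N₀ : ℝ) + 1) := ⟨_, rfl⟩
  have hr1 : 1 < r := by rw [hr]; linarith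
  have hr2 : r < 2 := by rw [hr]; linarith
  have hr0 : 0 < r := by linarith
  refine ⟨r, hr1, hr2, ?_⟩
  have he : 1 / r - 1 / 2 = (2 - r) / (2 * r) := by
    field_simp
  have he0 : 0 ≤ 1 / r - 1 / 2 := by
    rw [he]
    apply div_nonneg <;> linarith
  have he1 : 1 / r - 1 / 2 ≤ 2 - r := by
    rw [he, div_le_iff₀ (by linarith)]
    nlinarith
  have he2 : (N₀ : ℝ) * (1 / r - 1 / 2) ≤ 1 := by
    have h3 : (N₀ : ℝ) * (1 / r - 1 / 2) ≤ (N₀ : ℝ) * (2 - r) := by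
      apply mul_le_mul_of_nonneg_left he1
      linarith
    have h4 : (N₀ : ℝ) * (2 - r) ≤ 1 := by
      have h5 : 2 - r = 1 / ((N₀ : ℝ) + 1) := by rw [hr]; ring
      rw [h5, mul_one_div, div_le_one hpos]
      linarith
    linarith
  have h6 : (N₀ : ℝ) ≤ (2 : ℝ) ^ (N₀ : ℝ) := by
    rw [Real.rpow_natCast]
    exact_mod_cast (Nat.lt_two_pow_self (n := N₀)).le
  calc (N₀ : ℝ) ^ (1 / r - 1 / 2) ≤ ((2 : ℝ) ^ (N₀ : ℝ)) ^ (1 / r - 1 / 2) :=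
        Real.rpow_le_rpow (by linarith) h6 he0
    _ = (2 : ℝ) ^ ((N₀ : ℝ) * (1 / r - 1 / 2)) := by rw [← Real.rpow_mul (by norm_num)]
    _ ≤ (2 : ℝ) ^ (1 : ℝ) := Real.rpow_le_rpow_of_exponent_le (by norm_num) he2
    _ = 2 := by norm_num

theorem p_PAR : Stmt_PAR := by
  intro N₀ D L β hN hD hL hβ
  obtain ⟨r, hr1, hr2, hrN⟩ := PAR_r N₀ hN
  have hr0 : 0 < r := by linarith
  have hL0 : 0 < L := by linarith
  have hD0 : 0 < D := by linarith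
  have hN1 : (1 : ℝ) ≤ (N₀ : ℝ) := by exact_mod_cast hN
  have hN0 : (0 : ℝ) < (N₀ : ℝ) := by linarith
  -- rho
  have hC : 0 < (16 * L ^ 2) ^ (r - 1) * D ^ r * N₀ := by
    have h1 : 0 < (16 * L ^ 2) ^ (r - 1) := Real.rpow_pos_of_pos (by positivity) _
    have h2 : 0 < D ^ r := Real.rpow_pos_of_pos hD0 _
    positivity
  obtain ⟨B, hB, hB'⟩ := PAR_small (2 - r) ((16 * L ^ 2) ^ (r - 1) * D ^ r * N₀)⁻¹ (by linarith) (inv_pos.2 hC)
  obtain ⟨ρ, hρ0, hρ1, hρ2⟩ : ∃ ρ : ℝ, 0 < ρ ∧ L ^ 6 * ρ ≤ 1 ∧ ρ ≤ B := by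
    refine ⟨min (L ^ 6)⁻¹ B, lt_min (by positivity) hB, ?_, min_le_right _ _⟩
    calc L ^ 6 * min (L ^ 6)⁻¹ B ≤ L ^ 6 * (L ^ 6)⁻¹ := by
          apply mul_le_mul_of_nonneg_left (min_le_left _ _)
          positivity
      _ = 1 := mul_inv_cancel₀ (by positivity)
  have hρC : ρ ^ (2 - r) * ((16 * L ^ 2) ^ (r - 1) * D ^ r * N₀) ≤ 1 := by
    have h := mul_le_mul_of_nonneg_right (hB' ρ hρ0.le hρ2) hC.le
    rwa [inv_mul_cancel₀ hC.ne'] at h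
  -- tau
  have he1 : 0 < r / (r - 1) - 2 := by
    have h : r / (r - 1) - 2 = (2 - r) / (r - 1) := by
      have h0 : r - 1 ≠ 0 := by linarith
      field_simp
      ring
    rw [h]
    apply div_pos <;> linarith
  have he2 : 0 < 1 - 1 / r := by
    have h : 1 / r < 1 := by
      rw [div_lt_one hr0]
      exact hr1
    linarith
  obtain ⟨A1, hA1, hA1'⟩ := PAR_small (1 - 1 / r) D⁻¹ he2 (inv_pos.2 hD0)
  obtain ⟨A2, hA2, hA2'⟩ := PAR_small (r / (r - 1) - 2) (A1 / (2 * L) ^ 2) he1 (by positivity)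
  obtain ⟨τ, hτ0, hτ1, hτ2⟩ : ∃ τ : ℝ, 0 < τ ∧ 30 * (L ^ 3 * τ) ≤ β ∧ L ^ 2 * τ ≤ A2 := by
    refine ⟨min (β / (30 * L ^ 3)) (A2 / L ^ 2), lt_min (by positivity) (by positivity), ?_, ?_⟩
    · have h1 := min_le_left (β / (30 * L ^ 3)) (A2 / L ^ 2)
      rw [le_div_iff₀ (by positivity)] at h1
      linarith
    · have h1 := min_le_right (β / (30 * L ^ 3)) (A2 / L ^ 2)
      rw [le_div_iff₀ (by positivity)] at h1
      linarith
  refine ⟨r, ρ, (ρ / L ^ 6) ^ 2, τ, hr1, hr2, hρ0, by positivity, hτ0, ?_, hρ1, hrN, ?_, hτ1, ?_⟩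
  · rw [Real.sqrt_sq (by positivity)]
    exact (mul_div_cancel₀ ρ (by positivity)).le
  · refine ⟨ρ / (16 * L ^ 2), by positivity, ?_, ?_⟩
    · have e1 : ρ / (16 * L ^ 2) / ρ = (1 / (4 * L)) ^ 2 := by
        field_simp
        norm_num
      rw [e1, Real.sqrt_sq (by positivity)]
      have e2 : 4 * (L * (1 / (4 * L))) = 1 := by
        field_simp
      rw [e2]
    · have e1 : ρ * (ρ / (16 * L ^ 2)) ^ (1 - r) = ρ ^ (2 - r) * (16 * L ^ 2) ^ (r - 1) := by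
        rw [Real.div_rpow hρ0.le (by positivity)]
        have e2 : ρ ^ (2 - r) = ρ * ρ ^ (1 - r) := by
          have e3 : (2 : ℝ) - r = 1 + (1 - r) := by ring
          rw [e3, Real.rpow_add hρ0, Real.rpow_one]
        have e4 : (16 * L ^ 2) ^ (1 - r) = ((16 * L ^ 2) ^ (r - 1))⁻¹ := by
          rw [← Real.rpow_neg (by positivity)]
          congr 1
          ring
        rw [e2, e4, div_inv_eq_mul, mul_assoc]
      rw [e1]
      linarith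
  · have h1 : (L ^ 2 * τ) ^ (r / (r - 1) - 2) * (2 * L) ^ 2 ≤ A1 := by
      have h2 := mul_le_mul_of_nonneg_right (hA2' (L ^ 2 * τ) (by positivity) hτ2) (by positivity : (0 : ℝ) ≤ (2 * L) ^ 2)
      rwa [div_mul_cancel₀ _ (by positivity)] at h2
    have h3 : 0 ≤ (L ^ 2 * τ) ^ (r / (r - 1) - 2) * (2 * L) ^ 2 := by
      have := Real.rpow_nonneg (by positivity : (0 : ℝ) ≤ L ^ 2 * τ) (r / (r - 1) - 2)
      positivity
    have h4 := mul_le_mul_of_nonneg_left (hA1' _ h3 h1) hD0.le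
    rwa [mul_inv_cancel₀ hD0.ne'] at h4

end Pool.NG
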