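import Pool.Agent.Work.MP_3e8c7a_ng.Interface

/-! # Block PSI (helper25): the functionals `ψ` -/

set_option autoImplicit false

namespace Pool.NG

open Module Pool.Agent.MP3e8c7a

theorem PSI_inner {n : ℕ} {ι : Type} [Fintype ι] (b : ι → Hn n) (μ : ℝ) (hμ : 0 ≤ μ)
    (h1 : ∀ c, ‖b c‖ = 1) (h2 : ∀ c c', c ≠ c' → |inner ℝ (b c) (b c')| ≤ μ) (y : ι → ℝ) (a : ι) :
    |inner ℝ (b a) (∑ c, y c • b c) - y a| ≤ μ * ∑ c, |y c| := by
  classical
  have e1 : inner ℝ (b a) (∑ c, y c • b c) - y a =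
      ∑ c, y c * (inner ℝ (b a) (b c) - if c = a then 1 else 0) := by
    rw [inner_sum]
    simp only [mul_sub, mul_ite, mul_one, mul_zero, Finset.sum_sub_distrib, Finset.sum_ite_eq',
      Finset.mem_univ, if_true, real_inner_smul_right]
  rw [e1]
  refine (Finset.abs_sum_le_sum_abs _ _).trans ?_
  rw [Finset.mul_sum]
  refine Finset.sum_le_sum fun c _ => ?_
  rw [abs_mul, mul_comm]
  refine mul_le_mul_of_nonneg_right ?_ (abs_nonneg _)
  by_cases h : c = a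
  · rw [if_pos h, h, real_inner_self_eq_norm_sq, h1]
    simpa using hμ
  · rw [if_neg h, sub_zero]
    exact h2 _ _ (Ne.symm h)

theorem PSI_l2_sq {ι : Type} [Fintype ι] (z : ι → ℝ) : l2 z ^ 2 = ∑ i, z i ^ 2 :=
  Real.sq_sqrt (Finset.sum_nonneg fun i _ => sq_nonneg _)

theorem PSI_l2_nonneg {ι : Type} [Fintype ι] (z : ι → ℝ) : 0 ≤ l2 z := Real.sqrt_nonneg _

/-- the transposed matrix -/
theorem PSI_trans {d s : Type} [Fintype d] [Fintype s] (Φ : s → d → ℝ) (D : ℝ) (hD : 0 ≤ D)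
    (h : ∀ w : d → ℝ, l2 (mv Φ w) ≤ D * l2 w) (β : s → ℝ) :
    ∑ i, (∑ l, Φ l i * β l) ^ 2 ≤ D ^ 2 * ∑ l, β l ^ 2 := by
  let w : d → ℝ := fun i => ∑ l, Φ l i * β l
  have h1 : l2 w ^ 2 ≤ l2 β * l2 (mv Φ w) := by
    have h2 : ∑ l, β l * mv Φ w l ≤ l2 β * l2 (mv Φ w) := Real.sum_mul_le_sqrt_mul_sqrt _ _ _
    have h3 : l2 w ^ 2 = ∑ l, β l * mv Φ w l := by
      rw [PSI_l2_sq]
      simp only [mv_apply, Finset.mul_sum]
      rw [Finset.sum_comm]
      refine Finset.sum_congr rfl fun i _ => ?_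
      have h4 : w i ^ 2 = (∑ l, Φ l i * β l) * w i := by
        rw [pow_two]
      rw [h4, Finset.sum_mul]
      exact Finset.sum_congr rfl fun l _ => by ring
    rw [h3]
    exact h2
  have h5 : l2 w ^ 2 ≤ l2 β * (D * l2 w) :=
    h1.trans (mul_le_mul_of_nonneg_left (h w) (PSI_l2_nonneg β))
  have h6 : l2 w ≤ D * l2 β := by
    rcases (PSI_l2_nonneg w).eq_or_lt with h0 | h0
    · rw [← h0]
      exact mul_nonneg hD (PSI_l2_nonneg β)
    · have h7 : l2 w * l2 w ≤ (D * l2 β) * l2 w := by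
        calc l2 w * l2 w = l2 w ^ 2 := by ring
          _ ≤ l2 β * (D * l2 w) := h5
          _ = (D * l2 β) * l2 w := by ring
      exact le_of_mul_le_mul_right h7 h0
  calc ∑ i, (∑ l, Φ l i * β l) ^ 2 = l2 w ^ 2 := (PSI_l2_sq w).symm
    _ ≤ (D * l2 β) ^ 2 := pow_le_pow_left₀ (PSI_l2_nonneg w) h6 2
    _ = D ^ 2 * ∑ l, β l ^ 2 := by rw [mul_pow, PSI_l2_sq]

section

variable {n : ℕ} {J d s : Type} [Fintype J] [Fintype d] [Fintype s] (X : Cfg n J d s)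

/-- the coefficients of `∑ β_c ψ_c` -/
def PSI_y (X : Cfg n J d s) (β : J × s → ℝ) : J × (d ⊕ s) → ℝ
  | (j, Sum.inl i) => ∑ l, X.Φ l i * β (j, l)
  | (j, Sum.inr l) => β (j, l)

theorem PSI_sum {M : Type*} [AddCommMonoid M] (F : J × (d ⊕ s) → M) :
    ∑ c, F c = ∑ j, (∑ i, F (j, Sum.inl i) + ∑ l, F (j, Sum.inr l)) := by
  rw [Fintype.sum_prod_type]
  exact Finset.sum_congr rfl fun j _ => Fintype.sum_sum_type _

theorem PSI_psi (β : J × s → ℝ) :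
    ∑ c, β c • X.psi c = ∑ c, PSI_y X β c • X.b c.1 c.2 := by
  rw [PSI_sum, Fintype.sum_prod_type]
  refine Finset.sum_congr rfl fun j _ => ?_
  simp only [Cfg.psi, PSI_y, smul_add, Finset.sum_add_distrib, Finset.smul_sum, Finset.sum_smul,
    smul_smul]
  rw [add_comm, Finset.sum_comm]
  congr 1
  refine Finset.sum_congr rfl fun i _ => Finset.sum_congr rfl fun l _ => ?_
  rw [mul_comm]

theorem PSI_rowf (l : s) : 1 + ∑ i, |X.Φ l i| ≤ X.f := by
  unfold Cfg.f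
  have h := Finset.single_le_sum (f := fun l => ∑ i, |X.Φ l i|)
    (fun l _ => Finset.sum_nonneg fun i _ => abs_nonneg _) (Finset.mem_univ l)
  have h' : ∑ i, |X.Φ l i| ≤ ∑ l, ∑ i, |X.Φ l i| := h
  linarith

theorem PSI_y1 (β : J × s → ℝ) : ∑ c, |PSI_y X β c| ≤ X.f * ∑ c, |β c| := by
  rw [PSI_sum, Fintype.sum_prod_type, Finset.mul_sum]
  refine Finset.sum_le_sum fun j _ => ?_
  simp only [PSI_y]
  have h1 : ∑ i, |∑ l, X.Φ l i * β (j, l)| ≤ ∑ l, (∑ i, |X.Φ l i|) * |β (j, l)| := by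
    calc ∑ i, |∑ l, X.Φ l i * β (j, l)| ≤ ∑ i, ∑ l, |X.Φ l i| * |β (j, l)| := by
          refine Finset.sum_le_sum fun i _ => (Finset.abs_sum_le_sum_abs _ _).trans (le_of_eq ?_)
          exact Finset.sum_congr rfl fun l _ => abs_mul _ _
      _ = ∑ l, (∑ i, |X.Φ l i|) * |β (j, l)| := by
          rw [Finset.sum_comm]
          exact Finset.sum_congr rfl fun l _ => (Finset.sum_mul _ _ _).symm
  rw [Finset.mul_sum]
  calc ∑ i, |∑ l, X.Φ l i * β (j, l)| + ∑ l, |β (j, l)|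
      ≤ ∑ l, (∑ i, |X.Φ l i|) * |β (j, l)| + ∑ l, |β (j, l)| := by linarith
    _ = ∑ l, (1 + ∑ i, |X.Φ l i|) * |β (j, l)| := by
        rw [← Finset.sum_add_distrib]
        exact Finset.sum_congr rfl fun l _ => by ring
    _ ≤ ∑ l, X.f * |β (j, l)| :=
        Finset.sum_le_sum fun l _ => mul_le_mul_of_nonneg_right (PSI_rowf X l) (abs_nonneg _)

theorem PSI_y2 (hD : 1 ≤ X.D) (h : ∀ w : d → ℝ, l2 (mv X.Φ w) ≤ X.D * l2 w) (β : J × s → ℝ) :
    l2 (PSI_y X β) ≤ 2 * X.D * l2 β := by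
  have h1 : l2 (PSI_y X β) ^ 2 ≤ (2 * X.D * l2 β) ^ 2 := by
    have h2 : l2 (PSI_y X β) ^ 2 ≤ (X.D ^ 2 + 1) * l2 β ^ 2 := by
      rw [PSI_l2_sq, PSI_l2_sq, PSI_sum, Fintype.sum_prod_type, Finset.mul_sum]
      refine Finset.sum_le_sum fun j _ => ?_
      simp only [PSI_y]
      have h3 := PSI_trans X.Φ X.D (by linarith) h (fun l => β (j, l))
      have h3' : ∑ i, (∑ l, X.Φ l i * β (j, l)) ^ 2 ≤ X.D ^ 2 * ∑ l, β (j, l) ^ 2 := h3
      calc ∑ i, (∑ l, X.Φ l i * β (j, l)) ^ 2 + ∑ l, β (j, l) ^ 2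
          ≤ X.D ^ 2 * ∑ l, β (j, l) ^ 2 + ∑ l, β (j, l) ^ 2 := by linarith
        _ = (X.D ^ 2 + 1) * ∑ l, β (j, l) ^ 2 := by ring
    refine h2.trans ?_
    have h4 : X.D ^ 2 + 1 ≤ (2 * X.D) ^ 2 := by nlinarith
    calc (X.D ^ 2 + 1) * l2 β ^ 2 ≤ (2 * X.D) ^ 2 * l2 β ^ 2 :=
          mul_le_mul_of_nonneg_right h4 (sq_nonneg _)
      _ = (2 * X.D * l2 β) ^ 2 := by ring
  exact (sq_le_sq₀ (PSI_l2_nonneg _) (by
    have := PSI_l2_nonneg β
    positivity)).1 h1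

end

theorem p_PSI (hGRA : Stmt_GRA) (hTYY : Stmt_TYY) : Stmt_PSI := by
  classical
  intro n J d s _ _ _ X N₀ L h
  have hμ : 0 ≤ X.μ := h.μ0.le
  have hf0 : 0 ≤ X.f := by
    have : 0 ≤ ∑ l, ∑ i, |X.Φ l i| := Finset.sum_nonneg fun l _ => Finset.sum_nonneg fun i _ => abs_nonneg _
    unfold Cfg.f
    linarith
  have hsμ : L * Real.sqrt X.μ ≤ 1 := by
    have h0 := Real.sqrt_nonneg X.μ
    have hL6 : L ≤ L ^ 6 := by
      calc L = L ^ 1 := (pow_one L).symm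
        _ ≤ L ^ 6 := pow_le_pow_right₀ h.L1 (by norm_num)
    have h1 : L * Real.sqrt X.μ ≤ L ^ 6 * Real.sqrt X.μ := mul_le_mul_of_nonneg_right hL6 h0
    have h2 : X.ρ ≤ L ^ 6 * X.ρ := by
      have h3 : 1 ≤ L ^ 6 := one_le_pow₀ h.L1
      nlinarith [h.ρ0]
    linarith [h.sm1, h.sm2]
  have key2 : ∀ β : J × s → ℝ, ‖∑ c, β c • X.psi c‖ ≤
      2 * X.D * l2 β + L * Real.sqrt X.μ * ∑ c, |β c| := by
    intro β
    rw [PSI_psi]
    have h1 := (hGRA n (J × (d ⊕ s)) (fun c => X.b c.1 c.2) X.μ hμ (fun c => h.unit c.1 c.2)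
      (fun c c' hcc => h.coh c c' hcc)).1 (PSI_y X β)
    refine h1.trans (add_le_add (PSI_y2 X h.D1 h.phi β) ?_)
    have h2 := PSI_y1 X β
    have h3 : X.f * ∑ c, |β c| ≤ L * ∑ c, |β c| :=
      mul_le_mul_of_nonneg_right h.Lf (Finset.sum_nonneg fun c _ => abs_nonneg _)
    calc Real.sqrt X.μ * ∑ c, |PSI_y X β c| ≤ Real.sqrt X.μ * (L * ∑ c, |β c|) :=
          mul_le_mul_of_nonneg_left (h2.trans h3) (Real.sqrt_nonneg _)
      _ = L * Real.sqrt X.μ * ∑ c, |β c| := by ring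
  refine ⟨?_, key2, ?_⟩
  · intro z c
    obtain ⟨t1, -, t3, -⟩ := hTYY n J d s X h.D1 h.phi z
    rw [t1]
    have hin : ∀ a : J × (d ⊕ s), |inner ℝ (X.b a.1 a.2) (∑ c, X.yc z c • X.b c.1 c.2) - X.yc z a| ≤
        X.μ * ∑ c, |X.yc z c| := fun a =>
      PSI_inner (fun c : J × (d ⊕ s) => X.b c.1 c.2) X.μ hμ (fun c => h.unit c.1 c.2)
        (fun c c' hcc => h.coh c c' hcc) (X.yc z) a
    obtain ⟨j, l⟩ := c
    set V : Hn n := ∑ c, X.yc z c • X.b c.1 c.2 with hV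
    have e1 : inner ℝ (X.psi (j, l)) V - z (j, Sum.inr l) =
        (inner ℝ (X.b j (Sum.inr l)) V - X.yc z (j, Sum.inr l)) +
        ∑ i, X.Φ l i * (inner ℝ (X.b j (Sum.inl i)) V - X.yc z (j, Sum.inl i)) := by
      have e2 : inner ℝ (X.psi (j, l)) V = inner ℝ (X.b j (Sum.inr l)) V +
          ∑ i, X.Φ l i * inner ℝ (X.b j (Sum.inl i)) V := by
        simp only [Cfg.psi, inner_add_left, sum_inner, real_inner_smul_left]
      have e3 : X.yc z (j, Sum.inr l) = z (j, Sum.inr l) - ∑ i, X.Φ l i * z (j, Sum.inl i) := rfl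
      have e4 : ∀ i, X.yc z (j, Sum.inl i) = z (j, Sum.inl i) := fun i => rfl
      rw [e2, e3]
      simp only [e4, mul_sub, Finset.sum_sub_distrib]
      ring
    rw [e1]
    have hE := hin (j, Sum.inr l)
    have hE' : ∀ i, |inner ℝ (X.b j (Sum.inl i)) V - X.yc z (j, Sum.inl i)| ≤
        X.μ * ∑ c, |X.yc z c| := fun i => hin (j, Sum.inl i)
    have hS : |∑ i, X.Φ l i * (inner ℝ (X.b j (Sum.inl i)) V - X.yc z (j, Sum.inl i))| ≤
        (∑ i, |X.Φ l i|) * (X.μ * ∑ c, |X.yc z c|) := by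
      refine (Finset.abs_sum_le_sum_abs _ _).trans ?_
      rw [Finset.sum_mul]
      refine Finset.sum_le_sum fun i _ => ?_
      rw [abs_mul]
      exact mul_le_mul_of_nonneg_left (hE' i) (abs_nonneg _)
    have hY0 : 0 ≤ ∑ c, |X.yc z c| := Finset.sum_nonneg fun c _ => abs_nonneg _
    have hz0 : 0 ≤ ∑ c, |z c| := Finset.sum_nonneg fun c _ => abs_nonneg _
    have hrow := PSI_rowf X l
    calc |(inner ℝ (X.b j (Sum.inr l)) V - X.yc z (j, Sum.inr l)) +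
          ∑ i, X.Φ l i * (inner ℝ (X.b j (Sum.inl i)) V - X.yc z (j, Sum.inl i))|
        ≤ X.μ * ∑ c, |X.yc z c| + (∑ i, |X.Φ l i|) * (X.μ * ∑ c, |X.yc z c|) :=
          (abs_add_le _ _).trans (add_le_add hE hS)
      _ = (1 + ∑ i, |X.Φ l i|) * (X.μ * ∑ c, |X.yc z c|) := by ring
      _ ≤ X.f * (X.μ * ∑ c, |X.yc z c|) :=
          mul_le_mul_of_nonneg_right hrow (mul_nonneg hμ hY0)
      _ ≤ X.f * (X.μ * (X.f * ∑ c, |z c|)) :=
          mul_le_mul_of_nonneg_left (mul_le_mul_of_nonneg_left t3 hμ) hf0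
      _ = X.f ^ 2 * (X.μ * ∑ c, |z c|) := by ring
      _ ≤ L ^ 2 * (X.μ * ∑ c, |z c|) :=
          mul_le_mul_of_nonneg_right (pow_le_pow_left₀ hf0 h.Lf 2) (mul_nonneg hμ hz0)
      _ = L ^ 2 * X.μ * ∑ c, |z c| := by ring
  · intro c
    have h1 := key2 (Pi.single c 1)
    have e1 : ∑ c', (Pi.single c 1 : J × s → ℝ) c' • X.psi c' = X.psi c := by
      rw [Finset.sum_eq_single c]
      · rw [Pi.single_eq_same, one_smul]
      · intro c' _ hc
        rw [Pi.single_eq_of_ne hc, zero_smul]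
      · intro hc
        exact absurd (Finset.mem_univ c) hc
    have e2 : l2 (Pi.single c 1 : J × s → ℝ) = 1 := by
      unfold l2
      rw [Finset.sum_eq_single c]
      · rw [Pi.single_eq_same]; simp
      · intro c' _ hc
        rw [Pi.single_eq_of_ne hc]; simp
      · intro hc
        exact absurd (Finset.mem_univ c) hc
    have e3 : ∑ c', |(Pi.single c 1 : J × s → ℝ) c'| = 1 := by
      rw [Finset.sum_eq_single c]
      · rw [Pi.single_eq_same]; simp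
      · intro c' _ hc
        rw [Pi.single_eq_of_ne hc]; simp
      · intro hc
        exact absurd (Finset.mem_univ c) hc
    rw [e1, e2, e3] at h1
    have := h.D1
    linarith

end Pool.NG
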