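import Pool.Agent.Work.MP_3e8c7a_ng.InterfaceR

/-!
# RAP: what is left after the approximation
-/

set_option autoImplicit false

namespace Pool.NG

open Module Pool.Agent.MP3e8c7ak
open scoped RealInnerProductSpace

theorem RAP_sg (b : Bool) : |sg b| = 1 := by
  cases b <;> simp [sg]

theorem RAP_sum {n L : ℕ} (D : Fin n → Fin n → ℝ) (hn : 1 ≤ n) (hL : n ≤ L) (h : ∀ k l, |D k l| ≤ 1 / (L : ℝ)) :
    ∑ k, ∑ l, D k l ^ 2 ≤ 1 := by
  have hn' : (1 : ℝ) ≤ (n : ℝ) := by exact_mod_cast hn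
  have hL' : (n : ℝ) ≤ (L : ℝ) := by exact_mod_cast hL
  have h1 : ∀ k l, D k l ^ 2 ≤ (1 / (L : ℝ)) ^ 2 := fun k l => by
    rw [← sq_abs]
    exact pow_le_pow_left₀ (abs_nonneg _) (h k l) 2
  calc ∑ k, ∑ l, D k l ^ 2 ≤ ∑ _k : Fin n, ∑ _l : Fin n, (1 / (L : ℝ)) ^ 2 :=
        Finset.sum_le_sum fun k _ => Finset.sum_le_sum fun l _ => h1 k l
    _ = (n : ℝ) * ((n : ℝ) * (1 / (L : ℝ)) ^ 2) := by
        simp only [Finset.sum_const, Finset.card_univ, Fintype.card_fin, nsmul_eq_mul]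
    _ = ((n : ℝ) / L) ^ 2 := by ring
    _ ≤ 1 := by
        have h2 : (n : ℝ) / L ≤ 1 := by
          rw [div_le_one (by linarith)]
          exact hL'
        have h3 : 0 ≤ (n : ℝ) / L := by positivity
        nlinarith

theorem p_RAP : Stmt_RAP := by
  intro n L A Z hn hL hAZ hA hAy
  have hn' : (1 : ℝ) ≤ (n : ℝ) := by exact_mod_cast hn
  have hL' : (n : ℝ) ≤ (L : ℝ) := by exact_mod_cast hL
  have hL0 : (0 : ℝ) < (L : ℝ) := by linarith
  have hD := RAP_sum (fun k l => A k l - Z k l) hn hL hAZ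
  refine ⟨?_, ?_, ?_, ?_⟩
  · have h1 : hs Z ≤ 2 * hs A + 2 * ∑ k, ∑ l, (A k l - Z k l) ^ 2 := by
      simp only [hs, Finset.mul_sum, ← Finset.sum_add_distrib]
      refine Finset.sum_le_sum fun k _ => Finset.sum_le_sum fun l _ => ?_
      nlinarith [sq_nonneg (2 * A k l - Z k l)]
    linarith
  · intro y
    have h2 : ∑ k, (∑ l, (A k l - Z k l) * y l) ^ 2 ≤ ∑ l, y l ^ 2 := by
      calc ∑ k, (∑ l, (A k l - Z k l) * y l) ^ 2 ≤ ∑ k, (∑ l, (A k l - Z k l) ^ 2) * ∑ l, y l ^ 2 :=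
            Finset.sum_le_sum fun k _ => Finset.sum_mul_sq_le_sq_mul_sq _ _ _
        _ = (∑ k, ∑ l, (A k l - Z k l) ^ 2) * ∑ l, y l ^ 2 := by rw [Finset.sum_mul]
        _ ≤ 1 * ∑ l, y l ^ 2 :=
            mul_le_mul_of_nonneg_right hD (Finset.sum_nonneg fun l _ => sq_nonneg _)
        _ = ∑ l, y l ^ 2 := one_mul _
    have h3 : ∑ k, (∑ l, Z k l * y l) ^ 2 ≤ 2 * ∑ k, (∑ l, A k l * y l) ^ 2 + 2 * ∑ k, (∑ l, (A k l - Z k l) * y l) ^ 2 := by
      simp only [Finset.mul_sum, ← Finset.sum_add_distrib]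
      refine Finset.sum_le_sum fun k _ => ?_
      have e : ∑ l, (A k l - Z k l) * y l = ∑ l, A k l * y l - ∑ l, Z k l * y l := by
        rw [← Finset.sum_sub_distrib]
        exact Finset.sum_congr rfl fun l _ => by ring
      rw [e]
      nlinarith [sq_nonneg (2 * (∑ l, A k l * y l) - ∑ l, Z k l * y l)]
    have h4 := hAy y
    linarith
  · intro x y
    have e : BL A x y - BL Z x y = ∑ k, ∑ l, sg (x k) * (A k l - Z k l) * sg (y l) := by
      simp only [BL, ← Finset.sum_sub_distrib]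
      exact Finset.sum_congr rfl fun k _ => Finset.sum_congr rfl fun l _ => by ring
    rw [e]
    calc |∑ k, ∑ l, sg (x k) * (A k l - Z k l) * sg (y l)| ≤ ∑ k, |∑ l, sg (x k) * (A k l - Z k l) * sg (y l)| :=
          Finset.abs_sum_le_sum_abs _ _
      _ ≤ ∑ k, ∑ l, |sg (x k) * (A k l - Z k l) * sg (y l)| :=
          Finset.sum_le_sum fun k _ => Finset.abs_sum_le_sum_abs _ _
      _ ≤ ∑ _k : Fin n, ∑ _l : Fin n, 1 / (L : ℝ) := by
          refine Finset.sum_le_sum fun k _ => Finset.sum_le_sum fun l _ => ?_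
          rw [abs_mul, abs_mul, RAP_sg, RAP_sg, one_mul, mul_one]
          exact hAZ k l
      _ = (n : ℝ) ^ 2 / L := by
          simp only [Finset.sum_const, Finset.card_univ, Fintype.card_fin, nsmul_eq_mul]
          ring
  · have e : tr A - tr Z = ∑ k, (A k k - Z k k) := by
      simp only [tr, ← Finset.sum_sub_distrib]
    rw [e]
    calc |∑ k, (A k k - Z k k)| ≤ ∑ k, |A k k - Z k k| := Finset.abs_sum_le_sum_abs _ _
      _ ≤ ∑ _k : Fin n, 1 / (L : ℝ) := Finset.sum_le_sum fun k _ => hAZ k k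
      _ = (n : ℝ) / L := by
          simp only [Finset.sum_const, Finset.card_univ, Fintype.card_fin, nsmul_eq_mul]
          ring
      _ ≤ (n : ℝ) ^ 2 / L := by
          apply div_le_div_of_nonneg_right _ hL0.le
          nlinarith

end Pool.NG
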