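import Pool.Agent.Work.MP_3e8c7a_ng.InterfaceR

/-! # Block RBA -/

set_option autoImplicit false

namespace Pool.NG

open Module Pool.Agent.MP3e8c7ak
open scoped RealInnerProductSpace

theorem RBA_hs {n : ℕ} (A : Fin n → Fin n → ℝ) : 0 ≤ hs A :=
  Finset.sum_nonneg fun _ _ => Finset.sum_nonneg fun _ _ => sq_nonneg _

theorem RBA_card {α : Type} [Fintype α] (P : α → Prop) (i1 i2 : DecidablePred P) :
    (@Finset.filter α P i1 Finset.univ).card = (@Finset.filter α P i2 Finset.univ).card := by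
  congr

open Classical in
theorem RBA_off (hCB : Stmt_RCB) (hFB : Stmt_RFB) (ι : Type) [Fintype ι] [DecidableEq ι] (n : ℕ)
    (A : Fin n → Fin n → ℝ) (t : ℝ) (ht : 0 < t) (c c' : ι) (hne : c ≠ c') :
    t ^ 2 * ((Finset.univ.filter fun β : ι → Fin n → Bool => t < |BL A (β c) (β c')|).card : ℝ) ≤
      hs A * (Fintype.card (ι → Fin n → Bool) : ℝ) := by
  have h1 := hCB n A t ht
  have h2 := (hFB ι (Fin n → Bool)).2 c c' (fun x y => t < |BL A x y|) hne
  rw [RBA_card (fun β : ι → Fin n → Bool => t < |BL A (β c) (β c')|) _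
    (fun β => inferInstance)] at h2
  rw [RBA_card (fun p : (Fin n → Bool) × (Fin n → Bool) => t < |BL A p.1 p.2|) _
    (fun p => inferInstance)] at h2
  have h3 : (Fintype.card (Fin n → Bool) : ℝ) = 2 ^ n := by
    rw [Fintype.card_fun, Fintype.card_bool, Fintype.card_fin]
    push_cast
    rfl
  have h4 := congrArg (fun x : ℕ => (x : ℝ)) h2
  simp only [Nat.cast_mul, Nat.cast_pow, h3] at h4
  have h5 : (0 : ℝ) < (2 ^ n) ^ 2 := by positivity
  have h6 : (0 : ℝ) ≤ (Fintype.card (ι → Fin n → Bool) : ℝ) := Nat.cast_nonneg _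
  refine le_of_mul_le_mul_right ?_ h5
  rw [mul_assoc, h4]
  calc _ = t ^ 2 * ((Finset.univ.filter fun p : (Fin n → Bool) × (Fin n → Bool) =>
          t < |BL A p.1 p.2|).card : ℝ) * (Fintype.card (ι → Fin n → Bool) : ℝ) := by ring
    _ ≤ hs A * (2 ^ n) ^ 2 * (Fintype.card (ι → Fin n → Bool) : ℝ) :=
        mul_le_mul_of_nonneg_right h1 h6
    _ = _ := by ring

open Classical in
theorem RBA_diag (hCQ : Stmt_RCQ) (hFB : Stmt_RFB) (ι : Type) [Fintype ι] [DecidableEq ι] (n : ℕ)
    (A : Fin n → Fin n → ℝ) (t : ℝ) (ht : 0 < t) (c : ι) :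
    t ^ 2 * ((Finset.univ.filter fun β : ι → Fin n → Bool =>
      t < |BL A (β c) (β c) - tr A|).card : ℝ) ≤
      2 * hs A * (Fintype.card (ι → Fin n → Bool) : ℝ) := by
  have h1 := hCQ n A t ht
  have h2 := (hFB ι (Fin n → Bool)).1 c (fun x => t < |BL A x x - tr A|)
  rw [RBA_card (fun β : ι → Fin n → Bool => t < |BL A (β c) (β c) - tr A|) _
    (fun β => inferInstance)] at h2
  rw [RBA_card (fun x : Fin n → Bool => t < |BL A x x - tr A|) _
    (fun p => inferInstance)] at h2
  have h3 : (Fintype.card (Fin n → Bool) : ℝ) = 2 ^ n := by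
    rw [Fintype.card_fun, Fintype.card_bool, Fintype.card_fin]
    push_cast
    rfl
  have h4 := congrArg (fun x : ℕ => (x : ℝ)) h2
  simp only [Nat.cast_mul, h3] at h4
  have h5 : (0 : ℝ) < 2 ^ n := by positivity
  have h6 : (0 : ℝ) ≤ (Fintype.card (ι → Fin n → Bool) : ℝ) := Nat.cast_nonneg _
  refine le_of_mul_le_mul_right ?_ h5
  rw [mul_assoc, h4]
  calc _ = t ^ 2 * ((Finset.univ.filter fun x : Fin n → Bool =>
          t < |BL A x x - tr A|).card : ℝ) * (Fintype.card (ι → Fin n → Bool) : ℝ) := by ring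
    _ ≤ 2 * hs A * 2 ^ n * (Fintype.card (ι → Fin n → Bool) : ℝ) :=
        mul_le_mul_of_nonneg_right h1 h6
    _ = _ := by ring

open Classical in
theorem p_RBA (hCB : Stmt_RCB) (hCQ : Stmt_RCQ) (hFB : Stmt_RFB) : Stmt_RBA := by
  intro ι _ _ n A t H ht hH
  have hA := RBA_hs A
  have hH0 : 0 ≤ H := hA.trans hH
  have hN : (0 : ℝ) ≤ (Fintype.card (ι → Fin n → Bool) : ℝ) := Nat.cast_nonneg _
  have ht2 : 0 < t ^ 2 := by positivity
  have key : ∀ p : ι × ι, ((Finset.univ.filter fun β : ι → Fin n → Bool =>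
      t < |BL A (β p.1) (β p.2) - (if p.1 = p.2 then tr A else 0)|).card : ℝ) ≤
      2 * H / t ^ 2 * (Fintype.card (ι → Fin n → Bool) : ℝ) := by
    rintro ⟨c, c'⟩
    rw [div_mul_eq_mul_div, le_div_iff₀ ht2, mul_comm]
    have hHN : hs A * (Fintype.card (ι → Fin n → Bool) : ℝ) ≤
        H * (Fintype.card (ι → Fin n → Bool) : ℝ) := mul_le_mul_of_nonneg_right hH hN
    have hAN : 0 ≤ hs A * (Fintype.card (ι → Fin n → Bool) : ℝ) := mul_nonneg hA hN
    by_cases hc : c = c'
    · subst hc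
      simp only [if_true]
      have h := RBA_diag hCQ hFB ι n A t ht c
      refine le_trans ?_ (le_trans h ?_)
      · refine mul_le_mul_of_nonneg_left (le_of_eq ?_) ht2.le
        congr 1
      · linarith
    · simp only [if_neg hc, sub_zero]
      have h := RBA_off hCB hFB ι n A t ht c c' hc
      refine le_trans ?_ (le_trans h ?_)
      · refine mul_le_mul_of_nonneg_left (le_of_eq ?_) ht2.le
        congr 1
      · linarith
  have hsub : (Finset.univ.filter fun β : ι → Fin n → Bool => BadA A t β) ⊆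
      (Finset.univ : Finset (ι × ι)).biUnion fun p => Finset.univ.filter fun β =>
        t < |BL A (β p.1) (β p.2) - (if p.1 = p.2 then tr A else 0)| := by
    intro β hβ
    rw [Finset.mem_filter] at hβ
    obtain ⟨-, c, c', h⟩ := hβ
    rw [Finset.mem_biUnion]
    refine ⟨(c, c'), Finset.mem_univ _, ?_⟩
    rw [Finset.mem_filter]
    refine ⟨Finset.mem_univ _, ?_⟩
    exact lt_of_lt_of_eq h (by congr)
  have h1 := (Finset.card_le_card hsub).trans Finset.card_biUnion_le
  have h2 : ((Finset.univ.filter fun β : ι → Fin n → Bool => BadA A t β).card : ℝ) ≤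
      ∑ p : ι × ι, ((Finset.univ.filter fun β : ι → Fin n → Bool =>
        t < |BL A (β p.1) (β p.2) - (if p.1 = p.2 then tr A else 0)|).card : ℝ) := by
    exact_mod_cast h1
  refine h2.trans ((Finset.sum_le_sum fun p _ => key p).trans (le_of_eq ?_))
  rw [Finset.sum_const, Finset.card_univ, Fintype.card_prod, nsmul_eq_mul]
  push_cast
  ring

end Pool.NG
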