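import Pool.Agent.Work.MP_3e8c7a_ng.InterfaceR

set_option autoImplicit false

namespace Pool.NG

open Module Pool.Agent.MP3e8c7ak
open scoped RealInnerProductSpace

theorem RBB_sg (b : Bool) : sg b ^ 2 = 1 := by
  cases b <;> simp [sg]

theorem RBB_BL {n : ℕ} (A : Fin n → Fin n → ℝ) (x y : Fin n → Bool) :
    BL A x y = dt x (fun k => ∑ l, A k l * sg (y l)) := by
  unfold BL dt
  refine Finset.sum_congr rfl fun k _ => ?_
  rw [Finset.mul_sum]
  refine Finset.sum_congr rfl fun l _ => ?_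
  ring

open Classical in
theorem RBB_one (h1 : Stmt_RHO) (h2 : Stmt_RFB) (ι : Type) [Fintype ι] [DecidableEq ι] (n : ℕ)
    (A : Fin n → Fin n → ℝ) (t : ℝ) (hn : 1 ≤ n) (ht : 0 ≤ t)
    (hA : ∀ y : Fin n → ℝ, ∑ k, (∑ l, A k l * y l) ^ 2 ≤ 4 * ∑ l, y l ^ 2)
    (y : Fin n → Bool) (c : ι) :
    ((Finset.univ.filter fun β : ι → Fin n → Bool => t < |BL A (β c) y|).card : ℝ) ≤
      2 * Real.exp (-(t ^ 2 / (8 * n))) * (Fintype.card (ι → Fin n → Bool) : ℝ) := by
  have hn' : (0 : ℝ) < n := by exact_mod_cast hn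
  have e1 : (Finset.univ.filter fun β : ι → Fin n → Bool => t < |BL A (β c) y|).card *
      Fintype.card (Fin n → Bool) =
      (Finset.univ.filter fun x : Fin n → Bool => t < |BL A x y|).card *
        Fintype.card (ι → Fin n → Bool) := by
    have := (h2 ι (Fin n → Bool)).1 c (fun x => t < |BL A x y|)
    convert this
  have hc : Fintype.card (Fin n → Bool) = 2 ^ n := by simp
  have hs : ∑ k, (∑ l, A k l * sg (y l)) ^ 2 ≤ 4 * (n : ℝ) := by
    refine (hA (fun l => sg (y l))).trans (le_of_eq ?_)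
    simp [RBB_sg]
  have e2 := h1 n (fun k => ∑ l, A k l * sg (y l)) (4 * n) t (by positivity) hs ht
  have e3 : ((Finset.univ.filter fun x : Fin n → Bool => t < |BL A x y|).card : ℝ) ≤
      2 * Real.exp (-(t ^ 2 / (8 * n))) * 2 ^ n := by
    have h8 : t ^ 2 / (2 * (4 * (n : ℝ))) = t ^ 2 / (8 * n) := by
      congr 1; ring
    rw [h8] at e2
    refine le_trans ?_ e2
    exact_mod_cast Finset.card_le_card (by
      intro x hx
      rw [Finset.mem_filter] at hx ⊢
      refine ⟨Finset.mem_univ _, ?_⟩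
      rw [← RBB_BL]
      exact hx.2.le)
  have e4 : ((Finset.univ.filter fun β : ι → Fin n → Bool => t < |BL A (β c) y|).card : ℝ) *
      2 ^ n = ((Finset.univ.filter fun x : Fin n → Bool => t < |BL A x y|).card : ℝ) *
        (Fintype.card (ι → Fin n → Bool) : ℝ) := by
    rw [hc] at e1
    exact_mod_cast e1
  have h2n : (0 : ℝ) < 2 ^ n := by positivity
  have e5 : ((Finset.univ.filter fun β : ι → Fin n → Bool => t < |BL A (β c) y|).card : ℝ) *
      2 ^ n ≤ (2 * Real.exp (-(t ^ 2 / (8 * n))) * (Fintype.card (ι → Fin n → Bool) : ℝ)) *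
        2 ^ n := by
    rw [e4]
    calc _ ≤ (2 * Real.exp (-(t ^ 2 / (8 * n))) * 2 ^ n) *
          (Fintype.card (ι → Fin n → Bool) : ℝ) :=
          mul_le_mul_of_nonneg_right e3 (Nat.cast_nonneg _)
      _ = _ := by ring
  exact le_of_mul_le_mul_right e5 h2n

open Classical in
theorem p_RBB (h1 : Stmt_RHO) (h2 : Stmt_RFB) : Stmt_RBB := by
  intro ι J _ _ _ n A t γ hn ht hA
  have hsub : (Finset.univ.filter fun β : ι → Fin n → Bool => ∃ j, BadB A t β (γ j)) ⊆
      (Finset.univ : Finset (J × ι × ι)).biUnion (fun p => Finset.univ.filter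
        fun β : ι → Fin n → Bool => t < |BL A (β p.2.1) (γ p.1 p.2.2)|) := by
    intro β hβ
    rw [Finset.mem_filter] at hβ
    obtain ⟨-, j, c, c', h⟩ := hβ
    rw [Finset.mem_biUnion]
    exact ⟨(j, c, c'), Finset.mem_univ _, by
      rw [Finset.mem_filter]; exact ⟨Finset.mem_univ _, h⟩⟩
  have e1 := (Finset.card_le_card hsub).trans Finset.card_biUnion_le
  have e2 : ((Finset.univ.filter fun β : ι → Fin n → Bool =>
      ∃ j, BadB A t β (γ j)).card : ℝ) ≤ ∑ p : J × ι × ι,
      ((Finset.univ.filter fun β : ι → Fin n → Bool =>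
        t < |BL A (β p.2.1) (γ p.1 p.2.2)|).card : ℝ) := by
    exact_mod_cast e1
  refine e2.trans ?_
  refine (Finset.sum_le_sum fun p _ => RBB_one h1 h2 ι n A t hn ht hA (γ p.1 p.2.2) p.2.1).trans
    (le_of_eq ?_)
  rw [Finset.sum_const, Finset.card_univ, Fintype.card_prod, Fintype.card_prod, nsmul_eq_mul]
  push_cast
  ring

end Pool.NG
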