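import Pool.Agent.Work.MP_3e8c7a_ng.InterfaceR

/-!
# Block RCB: Chebyshev for two independent sign vectors
-/

set_option autoImplicit false

namespace Pool.NG

open Module Pool.Agent.MP3e8c7ak
open scoped RealInnerProductSpace

theorem RCB_BL {n : ℕ} (A : Fin n → Fin n → ℝ) (x y : Fin n → Bool) :
    BL A x y = dt x (fun k => dt y (A k)) := by
  unfold BL dt
  refine Finset.sum_congr rfl fun k _ => ?_
  rw [Finset.mul_sum]
  refine Finset.sum_congr rfl fun l _ => ?_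
  ring

theorem RCB_sum {n : ℕ} (A : Fin n → Fin n → ℝ) :
    ∑ p : (Fin n → Bool) × (Fin n → Bool), BL A p.1 p.2 ^ 2 = (2 ^ n) ^ 2 * hs A := by
  rw [Fintype.sum_prod_type_right]
  have h1 : ∀ y : Fin n → Bool, ∑ x : Fin n → Bool, BL A x y ^ 2 = 2 ^ n * ∑ k, dt y (A k) ^ 2 := by
    intro y
    have h := (MOM n (fun k => dt y (A k))).1
    have e : ∑ x : Fin n → Bool, BL A x y ^ 2 = ∑ x : Fin n → Bool, dt x (fun k => dt y (A k)) ^ 2 :=
      Finset.sum_congr rfl fun x _ => by rw [RCB_BL]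
    rw [e, h]
    rfl
  have h2 : ∀ k : Fin n, ∑ y : Fin n → Bool, dt y (A k) ^ 2 = 2 ^ n * ∑ l, A k l ^ 2 := by
    intro k
    rw [(MOM n (A k)).1]
    rfl
  calc ∑ y : Fin n → Bool, ∑ x : Fin n → Bool, BL A (x, y).1 (x, y).2 ^ 2
      = ∑ y : Fin n → Bool, 2 ^ n * ∑ k, dt y (A k) ^ 2 := Finset.sum_congr rfl fun y _ => h1 y
    _ = 2 ^ n * ∑ k, ∑ y : Fin n → Bool, dt y (A k) ^ 2 := by
        rw [← Finset.mul_sum, Finset.sum_comm]
    _ = 2 ^ n * ∑ k, (2 ^ n * ∑ l, A k l ^ 2) := by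
        rw [Finset.sum_congr rfl fun k _ => h2 k]
    _ = (2 ^ n) ^ 2 * hs A := by
        rw [← Finset.mul_sum, hs]
        ring

open Classical in
theorem p_RCB : Stmt_RCB := by
  intro n A t ht
  have h1 : ∑ p ∈ Finset.univ.filter (fun p : (Fin n → Bool) × (Fin n → Bool) => t < |BL A p.1 p.2|), t ^ 2 ≤
      ∑ p : (Fin n → Bool) × (Fin n → Bool), BL A p.1 p.2 ^ 2 := by
    refine (Finset.sum_le_sum fun p hp => ?_).trans
      (Finset.sum_le_sum_of_subset_of_nonneg (Finset.filter_subset _ _) fun p _ _ => sq_nonneg _)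
    have h := (Finset.mem_filter.1 hp).2
    rw [← sq_abs (BL A p.1 p.2)]
    exact pow_le_pow_left₀ ht.le h.le 2
  rw [Finset.sum_const, nsmul_eq_mul, RCB_sum] at h1
  rw [mul_comm (t ^ 2), mul_comm (hs A)]
  exact h1

end Pool.NG
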