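import Pool.Agent.Work.MP_3e8c7a_ng.InterfaceR

set_option autoImplicit false

/-!
# Block RCO (coherence)
-/

namespace Pool.NG

open Module Pool.Agent.MP3e8c7ak
open scoped RealInnerProductSpace

open Classical in
theorem RCO_pair (h1 : Stmt_RHO) (n : ℕ) (τ : ℝ) (hn : 1 ≤ n) (hτ : 0 ≤ τ) :
    ((Finset.univ.filter fun p : (Fin n → Bool) × (Fin n → Bool) => τ * n < |∑ k, sg (p.1 k) * sg (p.2 k)|).card : ℝ) ≤
      2 * Real.exp (-(τ ^ 2 * n / 2)) * (Fintype.card (Fin n → Bool) : ℝ) ^ 2 := by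
  have hcard : (Fintype.card (Fin n → Bool) : ℝ) = 2 ^ n := by simp
  have hn0 : (0 : ℝ) < n := by exact_mod_cast hn
  rw [Finset.natCast_card_filter, Fintype.sum_prod_type_right]
  have key : ∀ y : Fin n → Bool, (∑ x : Fin n → Bool, if τ * n < |∑ k, sg (x k) * sg (y k)| then (1 : ℝ) else 0) ≤
      2 * Real.exp (-(τ ^ 2 * n / 2)) * 2 ^ n := by
    intro y
    have h2 := h1 n (fun k => sg (y k)) n (τ * n) hn0 (by
      have : ∀ k : Fin n, sg (y k) ^ 2 = 1 := by
        intro k; unfold sg; split_ifs <;> norm_num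
      simp [this]) (by positivity)
    have e1 : (τ * n) ^ 2 / (2 * (n : ℝ)) = τ ^ 2 * n / 2 := by
      field_simp
    rw [e1] at h2
    refine le_trans ?_ h2
    rw [← Finset.natCast_card_filter]
    have : (Finset.univ.filter fun x : Fin n → Bool => τ * n < |∑ k, sg (x k) * sg (y k)|).card ≤
        (Finset.univ.filter fun ω : Fin n → Bool => τ * n ≤ |dt ω fun k => sg (y k)|).card := by
      apply Finset.card_le_card
      intro x hx
      rw [Finset.mem_filter] at hx ⊢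
      refine ⟨Finset.mem_univ _, ?_⟩
      unfold dt
      exact hx.2.le
    exact_mod_cast this
  calc _ ≤ ∑ _y : Fin n → Bool, 2 * Real.exp (-(τ ^ 2 * n / 2)) * 2 ^ n := Finset.sum_le_sum fun y _ => key y
    _ = 2 * Real.exp (-(τ ^ 2 * n / 2)) * (Fintype.card (Fin n → Bool) : ℝ) ^ 2 := by
      rw [Finset.sum_const, Finset.card_univ, nsmul_eq_mul, hcard]
      ring

open Classical in
theorem RCO_fib (h1 : Stmt_RHO) (h2 : Stmt_RFB) (P : Type) [Fintype P] [DecidableEq P] (n : ℕ) (τ : ℝ) (hn : 1 ≤ n) (hτ : 0 ≤ τ)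
    (p p' : P) (hp : p ≠ p') :
    ((Finset.univ.filter fun β : P → Fin n → Bool => τ * n < |∑ k, sg (β p k) * sg (β p' k)|).card : ℝ) ≤
      2 * Real.exp (-(τ ^ 2 * n / 2)) * (Fintype.card (P → Fin n → Bool) : ℝ) := by
  have h3 := (h2 P (Fin n → Bool)).2 p p' (fun x y => τ * n < |∑ k, sg (x k) * sg (y k)|) hp
  have h4 := RCO_pair h1 n τ hn hτ
  have hX : (0 : ℝ) < (Fintype.card (Fin n → Bool) : ℝ) ^ 2 := by
    have : (Fintype.card (Fin n → Bool) : ℝ) = 2 ^ n := by simp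
    rw [this]; positivity
  have h5 : ((Finset.univ.filter fun β : P → Fin n → Bool => τ * n < |∑ k, sg (β p k) * sg (β p' k)|).card : ℝ) *
      (Fintype.card (Fin n → Bool) : ℝ) ^ 2 =
      ((Finset.univ.filter fun q : (Fin n → Bool) × (Fin n → Bool) => τ * n < |∑ k, sg (q.1 k) * sg (q.2 k)|).card : ℝ) *
      (Fintype.card (P → Fin n → Bool) : ℝ) := by
    have := congrArg (Nat.cast : ℕ → ℝ) h3
    push_cast at this
    convert this using 2
  have hC : (0 : ℝ) ≤ (Fintype.card (P → Fin n → Bool) : ℝ) := Nat.cast_nonneg _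
  have h6 := mul_le_mul_of_nonneg_right h4 hC
  rw [← h5] at h6
  have h7 : 2 * Real.exp (-(τ ^ 2 * n / 2)) * (Fintype.card (Fin n → Bool) : ℝ) ^ 2 * (Fintype.card (P → Fin n → Bool) : ℝ) =
    2 * Real.exp (-(τ ^ 2 * n / 2)) * (Fintype.card (P → Fin n → Bool) : ℝ) * (Fintype.card (Fin n → Bool) : ℝ) ^ 2 := by ring
  rw [h7] at h6
  exact le_of_mul_le_mul_right h6 hX

open Classical in
theorem p_RCO (h1 : Stmt_RHO) (h2 : Stmt_RFB) : Stmt_RCO := by
  intro ι _ _ M n τ hn hτ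
  set B : ℝ := 2 * Real.exp (-(τ ^ 2 * n / 2)) with hB
  have hB0 : 0 ≤ B := by positivity
  set e : (Fin M × ι → Fin n → Bool) ≃ (Fin M → ι → Fin n → Bool) := Equiv.curry (Fin M) ι (Fin n → Bool) with he
  have hcard : (Fintype.card (Fin M → ι → Fin n → Bool) : ℝ) = (Fintype.card (Fin M × ι → Fin n → Bool) : ℝ) := by
    rw [Fintype.card_congr e]
  -- the bad set is the image under e
  have h3 : (Finset.univ.filter fun Ω : Fin M → ι → Fin n → Bool => ∃ j c i c', (j, c) ≠ (i, c') ∧ τ * n < |∑ k, sg (Ω j c k) * sg (Ω i c' k)|) ⊆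
      (Finset.univ : Finset ((Fin M × ι) × (Fin M × ι))).biUnion fun q =>
        (Finset.univ.filter fun β : Fin M × ι → Fin n → Bool => q.1 ≠ q.2 ∧ τ * n < |∑ k, sg (β q.1 k) * sg (β q.2 k)|).map e.toEmbedding := by
    intro Ω hΩ
    rw [Finset.mem_filter] at hΩ
    obtain ⟨-, j, c, i, c', hne, hlt⟩ := hΩ
    rw [Finset.mem_biUnion]
    refine ⟨((j, c), (i, c')), Finset.mem_univ _, ?_⟩
    rw [Finset.mem_map]
    refine ⟨e.symm Ω, ?_, by simp⟩
    rw [Finset.mem_filter]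
    refine ⟨Finset.mem_univ _, hne, ?_⟩
    exact hlt
  have h4 : ∀ q : (Fin M × ι) × (Fin M × ι),
      (((Finset.univ.filter fun β : Fin M × ι → Fin n → Bool => q.1 ≠ q.2 ∧ τ * n < |∑ k, sg (β q.1 k) * sg (β q.2 k)|).map e.toEmbedding).card : ℝ) ≤
      B * (Fintype.card (Fin M → ι → Fin n → Bool) : ℝ) := by
    intro q
    rw [Finset.card_map, hcard]
    by_cases hq : q.1 = q.2
    · have : (Finset.univ.filter fun β : Fin M × ι → Fin n → Bool => q.1 ≠ q.2 ∧ τ * n < |∑ k, sg (β q.1 k) * sg (β q.2 k)|) = ∅ := by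
        apply Finset.filter_eq_empty_iff.2
        intro β _ h
        exact h.1 hq
      rw [this, Finset.card_empty]
      simp only [Nat.cast_zero]
      positivity
    · have h5 := RCO_fib h1 h2 (Fin M × ι) n τ hn hτ q.1 q.2 hq
      refine le_trans ?_ h5
      have : (Finset.univ.filter fun β : Fin M × ι → Fin n → Bool => q.1 ≠ q.2 ∧ τ * n < |∑ k, sg (β q.1 k) * sg (β q.2 k)|).card ≤
        (Finset.univ.filter fun β : Fin M × ι → Fin n → Bool => τ * n < |∑ k, sg (β q.1 k) * sg (β q.2 k)|).card := by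
        apply Finset.card_le_card
        intro β hβ
        rw [Finset.mem_filter] at hβ ⊢
        exact ⟨Finset.mem_univ _, hβ.2.2⟩
      exact_mod_cast this
  have h5 : ((Finset.univ.filter fun Ω : Fin M → ι → Fin n → Bool => ∃ j c i c', (j, c) ≠ (i, c') ∧ τ * n < |∑ k, sg (Ω j c k) * sg (Ω i c' k)|).card : ℝ) ≤
      ∑ q : (Fin M × ι) × (Fin M × ι), B * (Fintype.card (Fin M → ι → Fin n → Bool) : ℝ) := by
    refine le_trans ?_ (Finset.sum_le_sum fun q _ => h4 q)
    have h6 := (Finset.card_le_card h3).trans Finset.card_biUnion_le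
    exact_mod_cast h6
  refine le_trans (le_of_eq ?_) (h5.trans (le_of_eq ?_))
  · congr 1
  · rw [Finset.sum_const, Finset.card_univ, nsmul_eq_mul, Fintype.card_prod, Fintype.card_prod, Fintype.card_fin]
    push_cast
    ring

end Pool.NG
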