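import Pool.Agent.Work.MP_3e8c7a_ng.InterfaceR

/-!
# MP_3e8c7a_an, THEOREM NEG, block RCQ: Chebyshev for the quadratic form
-/

set_option autoImplicit false

namespace Pool.NG

open Module Pool.Agent.MP3e8c7ak
open scoped RealInnerProductSpace

lemma RCQ_sg (c : Bool) : sg c * sg c = 1 := by
  cases c <;> simp [sg]

lemma RCQ_cons {n : ℕ} (A : Fin (n + 1) → Fin (n + 1) → ℝ) (c : Bool) (x : Fin n → Bool) :
    BL A (Fin.cons c x : Fin (n + 1) → Bool) (Fin.cons c x : Fin (n + 1) → Bool) - tr A =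
      sg c * dt x (fun l => A 0 l.succ + A l.succ 0) +
        (BL (fun k l : Fin n => A k.succ l.succ) x x - tr (fun k l : Fin n => A k.succ l.succ)) := by
  unfold BL tr dt
  simp only [Fin.sum_univ_succ, Fin.cons_zero, Fin.cons_succ, Finset.sum_add_distrib, mul_add,
    Finset.mul_sum]
  have h1 : sg c * A 0 0 * sg c = A 0 0 := by
    calc sg c * A 0 0 * sg c = (sg c * sg c) * A 0 0 := by ring
      _ = A 0 0 := by rw [RCQ_sg, one_mul]
  have h2 : ∑ l : Fin n, sg c * A 0 l.succ * sg (x l) = ∑ l : Fin n, sg c * (sg (x l) * A 0 l.succ) :=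
    Finset.sum_congr rfl fun l _ => by ring
  have h3 : ∑ l : Fin n, sg (x l) * A l.succ 0 * sg c = ∑ l : Fin n, sg c * (sg (x l) * A l.succ 0) :=
    Finset.sum_congr rfl fun l _ => by ring
  rw [h1, h2, h3]
  ring

lemma RCQ_hs {n : ℕ} (A : Fin (n + 1) → Fin (n + 1) → ℝ) :
    hs A = A 0 0 ^ 2 + ∑ l : Fin n, A 0 l.succ ^ 2 + ∑ l : Fin n, A l.succ 0 ^ 2 +
      hs (fun k l : Fin n => A k.succ l.succ) := by
  unfold hs
  simp only [Fin.sum_univ_succ, Finset.sum_add_distrib]
  ring

lemma RCQ_sum : ∀ (n : ℕ) (A : Fin n → Fin n → ℝ),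
    ∑ x : Fin n → Bool, (BL A x x - tr A) ^ 2 ≤ 2 * hs A * 2 ^ n := by
  intro n
  induction n with
  | zero =>
    intro A
    simp [BL, tr, hs]
  | succ n ih =>
    intro A
    have h1 : ∑ x : Fin (n + 1) → Bool, (BL A x x - tr A) ^ 2 =
        ∑ x : Fin n → Bool, (2 * dt x (fun l => A 0 l.succ + A l.succ 0) ^ 2 +
          2 * (BL (fun k l : Fin n => A k.succ l.succ) x x - tr (fun k l : Fin n => A k.succ l.succ)) ^ 2) := by
      rw [← Equiv.sum_comp (Fin.consEquiv (fun _ : Fin (n + 1) => Bool))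
        (fun x : Fin (n + 1) → Bool => (BL A x x - tr A) ^ 2), Fintype.sum_prod_type, Fintype.sum_bool,
        ← Finset.sum_add_distrib]
      refine Finset.sum_congr rfl fun x _ => ?_
      have h1 : BL A ((Fin.consEquiv (fun _ : Fin (n + 1) => Bool)) (true, x))
          ((Fin.consEquiv (fun _ : Fin (n + 1) => Bool)) (true, x)) - tr A =
          dt x (fun l => A 0 l.succ + A l.succ 0) +
            (BL (fun k l : Fin n => A k.succ l.succ) x x - tr (fun k l : Fin n => A k.succ l.succ)) := by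
        have h := RCQ_cons A true x
        rw [show sg true = 1 from rfl, one_mul] at h
        exact h
      have h2 : BL A ((Fin.consEquiv (fun _ : Fin (n + 1) => Bool)) (false, x))
          ((Fin.consEquiv (fun _ : Fin (n + 1) => Bool)) (false, x)) - tr A =
          -dt x (fun l => A 0 l.succ + A l.succ 0) +
            (BL (fun k l : Fin n => A k.succ l.succ) x x - tr (fun k l : Fin n => A k.succ l.succ)) := by
        have h := RCQ_cons A false x
        rw [show sg false = -1 from rfl, neg_one_mul] at h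
        exact h
      rw [h1, h2]
      ring
    have h2 := (MOM n (fun l => A 0 l.succ + A l.succ 0)).1
    have h3 := ih (fun k l : Fin n => A k.succ l.succ)
    have h4 : Pool.Agent.MP3e8c7ak.sq (fun l : Fin n => A 0 l.succ + A l.succ 0) ≤
        2 * (∑ l : Fin n, A 0 l.succ ^ 2 + ∑ l : Fin n, A l.succ 0 ^ 2) := by
      unfold Pool.Agent.MP3e8c7ak.sq
      rw [← Finset.sum_add_distrib, Finset.mul_sum]
      refine Finset.sum_le_sum fun l _ => ?_
      nlinarith [sq_nonneg (A 0 l.succ - A l.succ 0)]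
    rw [h1, Finset.sum_add_distrib, ← Finset.mul_sum, ← Finset.mul_sum, h2, RCQ_hs A]
    have h5 : (2 : ℝ) ^ n * Pool.Agent.MP3e8c7ak.sq (fun l : Fin n => A 0 l.succ + A l.succ 0) ≤
        2 ^ n * (2 * (∑ l : Fin n, A 0 l.succ ^ 2 + ∑ l : Fin n, A l.succ 0 ^ 2)) :=
      mul_le_mul_of_nonneg_left h4 (by positivity)
    have h6 : (0 : ℝ) ≤ 2 ^ n * A 0 0 ^ 2 := by positivity
    rw [pow_succ (2 : ℝ) n]
    nlinarith [h3, h5, h6]

open Classical in
theorem p_RCQ : Stmt_RCQ := by
  intro n A t ht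
  refine le_trans ?_ (RCQ_sum n A)
  rw [mul_comm, ← nsmul_eq_mul, ← Finset.sum_const]
  refine le_trans (Finset.sum_le_sum fun x hx => ?_)
    (Finset.sum_le_sum_of_subset_of_nonneg (Finset.filter_subset _ _) fun x _ _ => sq_nonneg _)
  rw [Finset.mem_filter] at hx
  have h := hx.2
  rw [← sq_abs (BL A x x - tr A)]
  exact pow_le_pow_left₀ ht.le h.le 2

end Pool.NG
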