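import Pool.Agent.Work.MP_3e8c7a_ng.InterfaceR

/-!
# Block RFB of MP_3e8c7a_an, THEOREM NEG: fibres of coordinate projections (typed by helper99)
-/

set_option autoImplicit false

namespace Pool.NG

open Module Pool.Agent.MP3e8c7ak
open scoped RealInnerProductSpace

open Classical in
lemma RFB_one {ι X : Type} [Fintype ι] [DecidableEq ι] [Fintype X] [DecidableEq X] (c : ι)
    (Q : X → Prop) : (Finset.univ.filter fun β : ι → X => Q (β c)).card * Fintype.card X =
    (Finset.univ.filter fun x : X => Q x).card * Fintype.card (ι → X) := by
  rw [← Finset.card_univ (α := X), ← Finset.card_univ (α := ι → X), ← Finset.card_product,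
    ← Finset.card_product]
  refine Finset.card_bij' (fun a _ => (a.1 c, Function.update a.1 c a.2))
    (fun b _ => (Function.update b.2 c b.1, b.2 c)) ?_ ?_ ?_ ?_
  · rintro ⟨β, y⟩ h
    simp only [Finset.mem_product, Finset.mem_filter, Finset.mem_univ, true_and, and_true] at h ⊢
    exact h
  · rintro ⟨x, γ⟩ h
    simp only [Finset.mem_product, Finset.mem_filter, Finset.mem_univ, true_and, and_true] at h ⊢
    simpa using h
  · rintro ⟨β, y⟩ _
    simp
  · rintro ⟨x, γ⟩ _
    simp

open Classical in
lemma RFB_two {ι X : Type} [Fintype ι] [DecidableEq ι] [Fintype X] [DecidableEq X] (c c' : ι)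
    (Q : X → X → Prop) (hc : c ≠ c') :
    (Finset.univ.filter fun β : ι → X => Q (β c) (β c')).card * Fintype.card X ^ 2 =
    (Finset.univ.filter fun p : X × X => Q p.1 p.2).card * Fintype.card (ι → X) := by
  have hX : Fintype.card X ^ 2 = (Finset.univ : Finset (X × X)).card := by
    rw [Finset.card_univ, Fintype.card_prod, _root_.sq]
  rw [hX, ← Finset.card_univ (α := ι → X), ← Finset.card_product, ← Finset.card_product]
  refine Finset.card_bij'
    (fun a _ => ((a.1 c, a.1 c'), Function.update (Function.update a.1 c a.2.1) c' a.2.2))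
    (fun b _ => (Function.update (Function.update b.2 c b.1.1) c' b.1.2, (b.2 c, b.2 c')))
    ?_ ?_ ?_ ?_
  · rintro ⟨β, y⟩ h
    simp only [Finset.mem_product, Finset.mem_filter, Finset.mem_univ, true_and, and_true] at h ⊢
    exact h
  · rintro ⟨x, γ⟩ h
    simp only [Finset.mem_product, Finset.mem_filter, Finset.mem_univ, true_and, and_true] at h ⊢
    simpa [Function.update_of_ne hc] using h
  · rintro ⟨β, y, y'⟩ _
    refine Prod.ext ?_ ?_
    · funext i
      by_cases h1 : i = c'
      · subst h1
        simp
      · by_cases h2 : i = c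
        · subst h2
          simp [Function.update_of_ne h1]
        · simp [Function.update_of_ne h1, Function.update_of_ne h2]
    · simp [Function.update_of_ne hc]
  · rintro ⟨⟨x, x'⟩, γ⟩ _
    refine Prod.ext ?_ ?_
    · simp [Function.update_of_ne hc]
    · funext i
      by_cases h1 : i = c'
      · subst h1
        simp
      · by_cases h2 : i = c
        · subst h2
          simp [Function.update_of_ne h1]
        · simp [Function.update_of_ne h1, Function.update_of_ne h2]

open Classical in
theorem p_RFB : Stmt_RFB := by
  intro ι X _ _ _ _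
  exact ⟨fun c Q => RFB_one c Q, fun c c' Q hc => RFB_two c c' Q hc⟩

end Pool.NG
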