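import Pool.Agent.Work.MP_3e8c7a_ng.InterfaceR

/-!
Block RHO: the inequality of Hoeffding for sign vectors.
-/

set_option autoImplicit false

namespace Pool.NG

open Module Pool.Agent.MP3e8c7ak
open scoped RealInnerProductSpace

theorem RHO_row (s : ℕ) (x : Fin s → ℝ) (c : ℝ) :
    ∑ g : Fin s → Bool, Real.exp (c * dt g x) ≤
      2 ^ s * Real.exp (c ^ 2 / 2 * ∑ a, x a ^ 2) := by
  have h1 : ∀ g : Fin s → Bool, Real.exp (c * dt g x) =
      ∏ a, Real.exp (c * (sg (g a) * x a)) := by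
    intro g
    rw [dt, Finset.mul_sum, Real.exp_sum]
  simp_rw [h1]
  have h2 : ∑ g : Fin s → Bool, ∏ a, Real.exp (c * (sg (g a) * x a)) =
      ∏ a, ∑ b : Bool, Real.exp (c * (sg b * x a)) := by
    rw [Finset.prod_univ_sum, Fintype.piFinset_univ]
  rw [h2]
  have h3 : ∀ a : Fin s, ∑ b : Bool, Real.exp (c * (sg b * x a)) ≤
      2 * Real.exp ((c * x a) ^ 2 / 2) := by
    intro a
    rw [Fintype.sum_bool]
    have h4 : Real.exp (c * (sg true * x a)) + Real.exp (c * (sg false * x a)) =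
        2 * Real.cosh (c * x a) := by
      rw [Real.cosh_eq]
      have e1 : c * (sg true * x a) = c * x a := by simp [sg]
      have e2 : c * (sg false * x a) = -(c * x a) := by simp [sg]
      rw [e1, e2]
      ring
    rw [h4]
    exact mul_le_mul_of_nonneg_left (Real.cosh_le_exp_half_sq _) (by norm_num)
  refine (Finset.prod_le_prod (fun a _ => Finset.sum_nonneg fun b _ => (Real.exp_pos _).le)
    (fun a _ => h3 a)).trans (le_of_eq ?_)
  rw [Finset.prod_mul_distrib, Finset.prod_const, Finset.card_univ, Fintype.card_fin,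
    ← Real.exp_sum, Finset.mul_sum]
  congr 2
  refine Finset.sum_congr rfl fun a _ => ?_
  ring

theorem RHO_one (n : ℕ) (x : Fin n → ℝ) (s t : ℝ) (hs : 0 < s) (hx : ∑ k, x k ^ 2 ≤ s)
    (ht : 0 ≤ t) (B : Finset (Fin n → Bool)) (hB : ∀ ω ∈ B, t ≤ dt ω x) :
    (B.card : ℝ) ≤ Real.exp (-(t ^ 2 / (2 * s))) * 2 ^ n := by
  have h1 := RHO_row n x (t / s)
  have h0 : 0 ≤ t / s := div_nonneg ht hs.le
  have h2 : (B.card : ℝ) * Real.exp (t / s * t) ≤
      ∑ g : Fin n → Bool, Real.exp (t / s * dt g x) := by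
    rw [← nsmul_eq_mul]
    refine (Finset.card_nsmul_le_sum B (fun g => Real.exp (t / s * dt g x)) _
      fun g hg => ?_).trans
      (Finset.sum_le_sum_of_subset_of_nonneg (Finset.subset_univ B)
        fun _ _ _ => (Real.exp_pos _).le)
    exact Real.exp_le_exp.mpr (mul_le_mul_of_nonneg_left (hB g hg) h0)
  have h3 : (t / s) ^ 2 / 2 * ∑ k, x k ^ 2 ≤ (t / s) ^ 2 / 2 * s :=
    mul_le_mul_of_nonneg_left hx (by positivity)
  have h4 : (B.card : ℝ) * Real.exp (t / s * t) ≤ 2 ^ n * Real.exp ((t / s) ^ 2 / 2 * s) :=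
    h2.trans (h1.trans (mul_le_mul_of_nonneg_left (Real.exp_le_exp.mpr h3) (by positivity)))
  have h5 : Real.exp ((t / s) ^ 2 / 2 * s) =
      Real.exp (-(t ^ 2 / (2 * s))) * Real.exp (t / s * t) := by
    rw [← Real.exp_add]
    congr 1
    field_simp
    ring
  rw [h5, ← mul_assoc] at h4
  have h6 := le_of_mul_le_mul_right h4 (Real.exp_pos _)
  linarith

open Classical in
theorem p_RHO : Stmt_RHO := by
  intro n x s t hs hx ht
  have h1 := RHO_one n x s t hs hx ht (Finset.univ.filter fun ω : Fin n → Bool => t ≤ dt ω x)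
    (fun ω hω => (Finset.mem_filter.1 hω).2)
  have hx' : ∑ k, (fun k => -x k) k ^ 2 ≤ s := by
    refine le_trans (le_of_eq ?_) hx
    exact Finset.sum_congr rfl fun k _ => neg_sq _
  have h2 := RHO_one n (fun k => -x k) s t hs hx' ht
    (Finset.univ.filter fun ω : Fin n → Bool => t ≤ dt ω (fun k => -x k))
    (fun ω hω => (Finset.mem_filter.1 hω).2)
  have hneg : ∀ ω : Fin n → Bool, dt ω (fun k => -x k) = -dt ω x := by
    intro ω
    unfold dt
    rw [← Finset.sum_neg_distrib]
    exact Finset.sum_congr rfl fun k _ => mul_neg _ _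
  have hsub : (Finset.univ.filter fun ω : Fin n → Bool => t ≤ |dt ω x|) ⊆
      (Finset.univ.filter fun ω : Fin n → Bool => t ≤ dt ω x) ∪
        (Finset.univ.filter fun ω : Fin n → Bool => t ≤ dt ω (fun k => -x k)) := by
    intro ω hω
    rw [Finset.mem_union, Finset.mem_filter, Finset.mem_filter, hneg]
    rcases le_abs.1 (Finset.mem_filter.1 hω).2 with h | h
    · exact Or.inl ⟨Finset.mem_univ _, h⟩
    · exact Or.inr ⟨Finset.mem_univ _, h⟩
  have h3 : ((Finset.univ.filter fun ω : Fin n → Bool => t ≤ |dt ω x|).card : ℝ) ≤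
      (Finset.univ.filter fun ω : Fin n → Bool => t ≤ dt ω x).card +
        (Finset.univ.filter fun ω : Fin n → Bool => t ≤ dt ω (fun k => -x k)).card := by
    exact_mod_cast (Finset.card_le_card hsub).trans (Finset.card_union_le _ _)
  linarith

end Pool.NG
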