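import Pool.Agent.Work.MP_3e8c7a_ng.InterfaceR

/-!
# Block RNA: many bad blocks are rare
-/

set_option autoImplicit false

namespace Pool.NG

open Module Pool.Agent.MP3e8c7ak
open scoped RealInnerProductSpace

open Classical in
theorem p_RNA (h1 : Stmt_RBA) (h2 : Stmt_RPD) : Stmt_RNA := by
  intro ι _ _ M n A t H ht hH0 hH
  have hq : 0 ≤ 2 * (Fintype.card ι : ℝ) ^ 2 * H / t ^ 2 := by positivity
  have key := h2 M (ι → Fin n → Bool) Finset.univ (fun _ β => BadA A t β)
    (2 * (Fintype.card ι : ℝ) ^ 2 * H / t ^ 2) (M / 4) hq (fun _ _ _ _ h => h)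
    (fun _ => h1 ι n A t H ht hH)
  refine le_trans ?_ key
  have hsub : (Finset.univ.filter fun Ω : Fin M → ι → Fin n → Bool =>
      M ≤ 4 * (Finset.univ.filter fun j => BadA A t (Ω j)).card) ⊆
      (Finset.univ.filter fun Ω : Fin M → ι → Fin n → Bool =>
        M / 4 ≤ (Finset.univ.filter fun j => BadA A t (Ω j)).card) := by
    intro Ω hΩ
    rw [Finset.mem_filter] at hΩ ⊢
    refine ⟨hΩ.1, ?_⟩
    have := hΩ.2
    omega
  exact_mod_cast Finset.card_le_card hsub

end Pool.NG
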