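import Pool.Agent.Work.MP_3e8c7a_ng.InterfaceR

/-!
# MP_3e8c7a_an, THEOREM NEG, block RNB: many correlated blocks are rare
-/

set_option autoImplicit false

namespace Pool.NG

open Module Pool.Agent.MP3e8c7ak
open scoped RealInnerProductSpace

/-- The indices with the digit `d` equal to `e`. -/
def RNB_S (M K : ℕ) (p : Fin K × Bool) : Finset (Fin M) :=
  Finset.univ.filter fun j : Fin M => Nat.testBit (j : ℕ) (p.1 : ℕ) = p.2

lemma RNB_mem {M K : ℕ} {p : Fin K × Bool} {j : Fin M} :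
    j ∈ RNB_S M K p ↔ Nat.testBit (j : ℕ) (p.1 : ℕ) = p.2 := by
  simp [RNB_S]

lemma RNB_digit {M K : ℕ} (hMK : M ≤ 2 ^ K) {i j : Fin M} (hij : i ≠ j) :
    ∃ p : Fin K × Bool, j ∈ RNB_S M K p ∧ i ∉ RNB_S M K p := by
  by_contra hcon
  push Not at hcon
  apply hij
  apply Fin.ext
  apply Nat.eq_of_testBit_eq
  intro d
  by_cases hd : d < K
  · have h := hcon (⟨d, hd⟩, Nat.testBit (j : ℕ) d) (RNB_mem.2 rfl)
    exact RNB_mem.1 h
  · have hK : K ≤ d := by omega
    have h2 : 2 ^ K ≤ 2 ^ d := Nat.pow_le_pow_right (by norm_num) hK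
    rw [Nat.testBit_lt_two_pow (lt_of_lt_of_le i.2 (hMK.trans h2)),
      Nat.testBit_lt_two_pow (lt_of_lt_of_le j.2 (hMK.trans h2))]

open Classical in
lemma RNB_count {M K : ℕ} (hK : 1 ≤ K) (hMK : M ≤ 2 ^ K) (R : Fin M → Fin M → Prop)
    (hM : M ≤ 4 * (Finset.univ.filter fun j => ∃ i, i ≠ j ∧ R j i).card) :
    ∃ p : Fin K × Bool, M / (8 * K) ≤ ((RNB_S M K p).filter fun j => ∃ i, i ∉ RNB_S M K p ∧ R j i).card := by
  by_contra hcon
  push Not at hcon
  have h1 : (Finset.univ.filter fun j => ∃ i, i ≠ j ∧ R j i) ⊆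
      (Finset.univ : Finset (Fin K × Bool)).biUnion
        (fun p => (RNB_S M K p).filter fun j => ∃ i, i ∉ RNB_S M K p ∧ R j i) := by
    intro j hj
    rw [Finset.mem_filter] at hj
    obtain ⟨i, hij, hR⟩ := hj.2
    obtain ⟨p, hp1, hp2⟩ := RNB_digit hMK hij
    rw [Finset.mem_biUnion]
    exact ⟨p, Finset.mem_univ _, Finset.mem_filter.2 ⟨hp1, i, hp2, hR⟩⟩
  have h2 := (Finset.card_le_card h1).trans Finset.card_biUnion_le
  haveI : Nonempty (Fin K) := ⟨⟨0, hK⟩⟩
  have h3 : ∑ p : Fin K × Bool, ((RNB_S M K p).filter fun j => ∃ i, i ∉ RNB_S M K p ∧ R j i).card <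
      ∑ _p : Fin K × Bool, M / (8 * K) :=
    Finset.sum_lt_sum_of_nonempty Finset.univ_nonempty fun p _ => hcon p
  rw [Finset.sum_const, Finset.card_univ, Fintype.card_prod, Fintype.card_fin, Fintype.card_bool,
    smul_eq_mul] at h3
  have h4 : 8 * K * (M / (8 * K)) ≤ M := Nat.mul_div_le M (8 * K)
  have h5 : 4 * (K * 2 * (M / (8 * K))) = 8 * K * (M / (8 * K)) := by ring
  omega

open Classical in
theorem p_RNB (h1 : Stmt_RBB) (h2 : Stmt_RPD) : Stmt_RNB := by
  intro ι _ _ M n K A t hn hK hMK ht hA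
  set E : ℝ := Real.exp (-(t ^ 2 / (8 * n))) with hE
  set q : ℝ := 2 * M * (Fintype.card ι : ℝ) ^ 2 * E with hq
  have hE0 : 0 ≤ E := (Real.exp_pos _).le
  have hq0 : 0 ≤ q := by positivity
  set B : Type := ι → Fin n → Bool with hB
  have hpd : ∀ p : Fin K × Bool,
      ((Finset.univ.filter fun Ω : Fin M → ι → Fin n → Bool => M / (8 * K) ≤
        ((RNB_S M K p).filter fun j => ∃ i, i ∉ RNB_S M K p ∧ BadB A t (Ω j) (Ω i)).card).card : ℝ) ≤
      2 ^ M * q ^ (M / (8 * K)) * (Fintype.card (Fin M → ι → Fin n → Bool) : ℝ) := by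
    intro p
    have h := h2 M (ι → Fin n → Bool) (RNB_S M K p)
      (fun Ω β => ∃ i, i ∉ RNB_S M K p ∧ BadB A t β (Ω i)) q (M / (8 * K)) hq0 ?_ ?_
    · convert h
    · rintro Ω Ω' hΩ β ⟨i, hi, hb⟩
      refine ⟨i, hi, ?_⟩
      rw [← hΩ i hi]
      exact hb
    · intro Ω
      have h3 := h1 ι {i : Fin M // i ∉ RNB_S M K p} n A t (fun i => Ω i.1) hn ht hA
      have h4 : (Finset.univ.filter fun β : ι → Fin n → Bool => ∃ i, i ∉ RNB_S M K p ∧ BadB A t β (Ω i)) =
          (Finset.univ.filter fun β : ι → Fin n → Bool =>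
            ∃ j : {i : Fin M // i ∉ RNB_S M K p}, BadB A t β (Ω j.1)) := by
        apply Finset.filter_congr
        intro β _
        constructor
        · rintro ⟨i, hi, hb⟩
          exact ⟨⟨i, hi⟩, hb⟩
        · rintro ⟨⟨i, hi⟩, hb⟩
          exact ⟨i, hi, hb⟩
      have h5 : (Fintype.card {i : Fin M // i ∉ RNB_S M K p} : ℝ) ≤ M := by
        have h6 := Fintype.card_subtype_le (fun i : Fin M => i ∉ RNB_S M K p)
        rw [Fintype.card_fin] at h6
        exact_mod_cast h6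
      have h7 : 2 * (Fintype.card {i : Fin M // i ∉ RNB_S M K p} : ℝ) * (Fintype.card ι : ℝ) ^ 2 * E *
          (Fintype.card (ι → Fin n → Bool) : ℝ) ≤ q * (Fintype.card (ι → Fin n → Bool) : ℝ) := by
        rw [hq]
        gcongr
      refine le_trans (le_of_eq ?_) (h3.trans h7)
      convert congrArg (fun s : Finset (ι → Fin n → Bool) => (s.card : ℝ)) h4
  have hcov : (Finset.univ.filter fun Ω : Fin M → ι → Fin n → Bool =>
      M ≤ 4 * (Finset.univ.filter fun j => ∃ i, i ≠ j ∧ BadB A t (Ω j) (Ω i)).card) ⊆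
      (Finset.univ : Finset (Fin K × Bool)).biUnion (fun p =>
        Finset.univ.filter fun Ω : Fin M → ι → Fin n → Bool => M / (8 * K) ≤
          ((RNB_S M K p).filter fun j => ∃ i, i ∉ RNB_S M K p ∧ BadB A t (Ω j) (Ω i)).card) := by
    intro Ω hΩ
    rw [Finset.mem_filter] at hΩ
    obtain ⟨p, hp⟩ := RNB_count hK hMK (fun j i => BadB A t (Ω j) (Ω i)) hΩ.2
    rw [Finset.mem_biUnion]
    exact ⟨p, Finset.mem_univ _, Finset.mem_filter.2 ⟨Finset.mem_univ _, hp⟩⟩
  have hcard : ((Finset.univ.filter fun Ω : Fin M → ι → Fin n → Bool =>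
      M ≤ 4 * (Finset.univ.filter fun j => ∃ i, i ≠ j ∧ BadB A t (Ω j) (Ω i)).card).card : ℝ) ≤
      ∑ p : Fin K × Bool, ((Finset.univ.filter fun Ω : Fin M → ι → Fin n → Bool => M / (8 * K) ≤
        ((RNB_S M K p).filter fun j => ∃ i, i ∉ RNB_S M K p ∧ BadB A t (Ω j) (Ω i)).card).card : ℝ) := by
    have h := (Finset.card_le_card hcov).trans Finset.card_biUnion_le
    exact_mod_cast h
  refine hcard.trans ((Finset.sum_le_sum fun p _ => hpd p).trans (le_of_eq ?_))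
  rw [Finset.sum_const, Finset.card_univ, Fintype.card_prod, Fintype.card_fin, Fintype.card_bool,
    nsmul_eq_mul]
  push_cast
  ring

end Pool.NG
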