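import Pool.Agent.Work.MP_3e8c7a_ng.InterfaceR

/-!
# Block RNT (typed by helper43)
-/

set_option autoImplicit false

noncomputable section

namespace Pool.NG

/-- Block RNT. -/
theorem p_RNT : Stmt_RNT := by
  classical
  intro n L hL
  refine ⟨(Fintype.piFinset (fun _ : Fin n => Fintype.piFinset fun _ : Fin n =>
    Finset.Icc (-(L : ℤ)) L)).image (fun z k l => (z k l : ℝ) / L), ?_, ?_⟩
  · refine Finset.card_image_le.trans (le_of_eq ?_)
    rw [Fintype.card_piFinset_const, Fintype.card_piFinset_const, Int.card_Icc, ← pow_mul, pow_two]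
    congr 1
    omega
  · intro A hA
    have hL0 : (0 : ℝ) < L := by exact_mod_cast hL
    refine ⟨fun k l => ((⌊A k l * L⌋ : ℤ) : ℝ) / L, Finset.mem_image.2
      ⟨fun k l => ⌊A k l * L⌋, ?_, rfl⟩, ?_⟩
    · rw [Fintype.mem_piFinset]
      intro k
      rw [Fintype.mem_piFinset]
      intro l
      rw [Finset.mem_Icc]
      obtain ⟨h1, h2⟩ := abs_le.1 (hA k l)
      constructor
      · rw [Int.le_floor]
        push_cast
        nlinarith
      · rw [← Int.cast_le (R := ℝ)]
        refine (Int.floor_le _).trans ?_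
        push_cast
        nlinarith
    · intro k l
      have h1 := Int.floor_le (A k l * L)
      have h2 := Int.lt_floor_add_one (A k l * L)
      have e : A k l - ((⌊A k l * L⌋ : ℤ) : ℝ) / L = (A k l * L - ((⌊A k l * L⌋ : ℤ) : ℝ)) / L := by
        field_simp
      rw [e, abs_div, abs_of_pos hL0, abs_of_nonneg (by linarith)]
      gcongr
      linarith

end Pool.NG
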