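import Pool.Agent.Work.MP_3e8c7a_ng.Interface

set_option autoImplicit false

namespace Pool.NG

open Module Pool.Agent.MP3e8c7a

lemma ROT_col {N : ℕ} (U : Matrix (Fin N) (Fin N) ℝ) (hU : U ∈ Matrix.orthogonalGroup (Fin N) ℝ) (i k : Fin N) :
    ∑ j, U j i * U j k = if i = k then 1 else 0 := by
  have h := (Matrix.mem_orthogonalGroup_iff' (Fin N) ℝ).1 hU
  have h' := congrFun (congrFun h i) k
  simpa [Matrix.mul_apply, Matrix.one_apply] using h'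

lemma ROT_abs {N : ℕ} (U : Matrix (Fin N) (Fin N) ℝ) (hU : U ∈ Matrix.orthogonalGroup (Fin N) ℝ) (j i : Fin N) :
    |U j i| ≤ 1 := by
  have h := ROT_col U hU i i
  rw [if_pos rfl] at h
  have h2 : U j i * U j i ≤ 1 := by
    rw [← h]
    exact Finset.single_le_sum (f := fun j => U j i * U j i) (fun k _ => mul_self_nonneg _) (Finset.mem_univ j)
  rw [abs_le]
  constructor <;> nlinarith

/-- Orthogonal matrices preserve the sum of the squares of the norms. -/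
lemma ROT_orth {V : Type*} [NormedAddCommGroup V] [InnerProductSpace ℝ V] {N : ℕ} (U : Matrix (Fin N) (Fin N) ℝ)
    (hU : U ∈ Matrix.orthogonalGroup (Fin N) ℝ) (v : Fin N → V) :
    ∑ j, ‖∑ i, U j i • v i‖ ^ 2 = ∑ i, ‖v i‖ ^ 2 := by
  have h1 : ∀ j, ‖∑ i, U j i • v i‖ ^ 2 = ∑ i, ∑ k, U j i * U j k * inner ℝ (v i) (v k) := by
    intro j
    rw [← real_inner_self_eq_norm_sq, sum_inner]
    refine Finset.sum_congr rfl fun i _ => ?_
    rw [inner_sum]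
    refine Finset.sum_congr rfl fun k _ => ?_
    rw [real_inner_smul_left, real_inner_smul_right]
    ring
  simp only [h1]
  rw [Finset.sum_comm]
  refine Finset.sum_congr rfl fun i _ => ?_
  rw [Finset.sum_comm]
  have h3 : ∀ k, ∑ j, U j i * U j k * inner ℝ (v i) (v k) = (if i = k then 1 else 0) * inner ℝ (v i) (v k) := by
    intro k
    rw [← Finset.sum_mul, ROT_col U hU]
  simp only [h3]
  simp [real_inner_self_eq_norm_sq]

theorem p_ROT (h1 : Stmt_LRR) (h2 : Stmt_DRP) : Stmt_ROT := by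
  intro n J d s _ _ _ X N₀ L hX N hN U hU x y hxy
  rcases Nat.eq_zero_or_pos N with h0 | hpos
  · subst h0
    simp
  have hdr := h2 n J d s X N₀ L hX
  choose z hz1 hz2 using fun i => hdr (x i)
  obtain ⟨q, hq⟩ : ∃ q : Fin N → ℝ, ∀ i, q i = X.N2 (x i) := ⟨_, fun _ => rfl⟩
  have hq0 : ∀ i, 0 ≤ q i := fun i => by rw [hq]; exact apply_nonneg _ _
  obtain ⟨z', hz'⟩ : ∃ z' : Fin N → (J × (d ⊕ s) → ℝ), ∀ j, z' j = ∑ i, U j i • z i := ⟨_, fun _ => rfl⟩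
  have hlr0 : ∀ w : J × (d ⊕ s) → ℝ, 0 ≤ lr X.r w := fun w =>
    Real.rpow_nonneg (Finset.sum_nonneg fun i _ => Real.rpow_nonneg (abs_nonneg _) _) _
  have hv : ∀ i, ‖x i - X.T (z i)‖ ≤ 2 * q i := fun i => by
    have e1 := hz1 i
    have e2 := hlr0 (X.wt (z i))
    rw [← hq] at e1
    linarith
  have hl : ∀ i, lr X.r (X.wt (z i)) ≤ 2 * q i := fun i => by
    have e1 := hz1 i
    have e2 := norm_nonneg (x i - X.T (z i))
    rw [← hq] at e1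
    linarith
  have hy : ∀ j, y j - X.T (z' j) = ∑ i, U j i • (x i - X.T (z i)) := by
    intro j
    rw [hxy j, hz' j]
    simp only [map_sum, map_smul, smul_sub, Finset.sum_sub_distrib]
  have hw : ∀ j, X.wt (z' j) = ∑ i, U j i • X.wt (z i) := by
    intro j
    rw [hz' j]
    simp only [map_sum, map_smul]
  obtain ⟨C, hCd⟩ : ∃ C : ℝ, C = X.ρ * ∑ i, ∑ c, |z i c| := ⟨_, rfl⟩
  have hC0 : 0 ≤ C := by
    rw [hCd]
    exact mul_nonneg X.hρ (Finset.sum_nonneg fun i _ => Finset.sum_nonneg fun c _ => abs_nonneg _)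
  have hC : ∀ j, X.ρ * ∑ c, |z' j c| ≤ C := by
    intro j
    rw [hCd]
    refine mul_le_mul_of_nonneg_left ?_ X.hρ
    rw [Finset.sum_comm]
    refine Finset.sum_le_sum fun c _ => ?_
    rw [hz' j, Finset.sum_apply]
    refine (Finset.abs_sum_le_sum_abs _ _).trans (Finset.sum_le_sum fun i _ => ?_)
    rw [Pi.smul_apply, smul_eq_mul, abs_mul]
    exact mul_le_of_le_one_left (abs_nonneg _) (ROT_abs U hU j i)
  have hN0 : (0 : ℝ) < N₀ := by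
    have := hX.N1
    exact_mod_cast this
  have hNN : (N : ℝ) ≤ N₀ := by exact_mod_cast hN
  have hNp : (0 : ℝ) < N := by exact_mod_cast hpos
  have hC2 : N₀ * C ≤ ∑ i, q i := by
    rw [hCd, Finset.mul_sum, Finset.mul_sum]
    refine Finset.sum_le_sum fun i _ => ?_
    have := hz2 i
    rw [← hq] at this
    exact this
  have hA : ∑ j, ‖y j - X.T (z' j)‖ ^ 2 ≤ 4 * ∑ i, q i ^ 2 := by
    have e : ∑ j, ‖y j - X.T (z' j)‖ ^ 2 = ∑ i, ‖x i - X.T (z i)‖ ^ 2 := by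
      rw [← ROT_orth U hU (fun i => x i - X.T (z i))]
      exact Finset.sum_congr rfl fun j _ => by rw [hy j]
    rw [e, Finset.mul_sum]
    refine Finset.sum_le_sum fun i _ => ?_
    have := hv i
    nlinarith [norm_nonneg (x i - X.T (z i)), hq0 i]
  have hpow : ((N : ℝ) ^ (1 / X.r - 1 / 2)) ^ 2 ≤ 4 := by
    have e0 : 0 ≤ 1 / X.r - 1 / 2 := by
      have a1 := hX.r1
      have a2 := hX.r2
      rw [sub_nonneg]
      exact one_div_le_one_div_of_le (by linarith) a2.le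
    have e1 : (N : ℝ) ^ (1 / X.r - 1 / 2) ≤ 2 :=
      (Real.rpow_le_rpow hNp.le hNN e0).trans hX.rN
    have e2 : 0 ≤ (N : ℝ) ^ (1 / X.r - 1 / 2) := Real.rpow_nonneg hNp.le _
    nlinarith
  have hB : ∑ j, lr X.r (X.wt (z' j)) ^ 2 ≤ 16 * ∑ i, q i ^ 2 := by
    have e := h1 X.r (J × (d ⊕ s)) N X.hr hX.r2.le hpos U hU (fun i => X.wt (z i)) (fun j => X.wt (z' j)) hw
    have e2 : ∑ i, lr X.r (X.wt (z i)) ^ 2 ≤ 4 * ∑ i, q i ^ 2 := by
      rw [Finset.mul_sum]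
      refine Finset.sum_le_sum fun i _ => ?_
      have := hl i
      nlinarith [hlr0 (X.wt (z i)), hq0 i]
    have e3 : 0 ≤ ∑ i, lr X.r (X.wt (z i)) ^ 2 := Finset.sum_nonneg fun i _ => sq_nonneg _
    calc ∑ j, lr X.r (X.wt (z' j)) ^ 2 ≤ ((N : ℝ) ^ (1 / X.r - 1 / 2)) ^ 2 * ∑ i, lr X.r (X.wt (z i)) ^ 2 := e
      _ ≤ 4 * ∑ i, lr X.r (X.wt (z i)) ^ 2 := mul_le_mul_of_nonneg_right hpow e3
      _ ≤ 4 * (4 * ∑ i, q i ^ 2) := mul_le_mul_of_nonneg_left e2 (by norm_num)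
      _ = 16 * ∑ i, q i ^ 2 := by ring
  have hCC : N * C ^ 2 ≤ ∑ i, q i ^ 2 := by
    have e1 : (∑ i, q i) ^ 2 ≤ N * ∑ i, q i ^ 2 := by
      have := sq_sum_le_card_mul_sum_sq (s := (Finset.univ : Finset (Fin N))) (f := q)
      simpa using this
    have e2 : (N₀ * C) ^ 2 ≤ (∑ i, q i) ^ 2 := pow_le_pow_left₀ (by positivity) hC2 2
    have e3 : 0 ≤ ∑ i, q i ^ 2 := Finset.sum_nonneg fun i _ => sq_nonneg _
    have e4 : (N : ℝ) * N * ∑ i, q i ^ 2 ≤ N₀ * N₀ * ∑ i, q i ^ 2 :=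
      mul_le_mul_of_nonneg_right (by nlinarith) e3
    have e5 : (N₀ : ℝ) * N₀ * (N * C ^ 2) ≤ N₀ * N₀ * ∑ i, q i ^ 2 := by
      calc (N₀ : ℝ) * N₀ * (N * C ^ 2) = N * (N₀ * C) ^ 2 := by ring
        _ ≤ N * (N * ∑ i, q i ^ 2) := mul_le_mul_of_nonneg_left (e2.trans e1) hNp.le
        _ = N * N * ∑ i, q i ^ 2 := by ring
        _ ≤ N₀ * N₀ * ∑ i, q i ^ 2 := e4
    exact le_of_mul_le_mul_left e5 (by positivity)
  have hfin : ∀ j, X.N2 (y j) ^ 2 ≤ 3 * (‖y j - X.T (z' j)‖ ^ 2 + lr X.r (X.wt (z' j)) ^ 2 + C ^ 2) := by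
    intro j
    have e1 := X.N2_le (y j) (z' j)
    have e2 := hC j
    have e3 : 0 ≤ X.N2 (y j) := apply_nonneg _ _
    have e4 := hlr0 (X.wt (z' j))
    have e5 := norm_nonneg (y j - X.T (z' j))
    obtain ⟨a, ha⟩ : ∃ a, a = ‖y j - X.T (z' j)‖ := ⟨_, rfl⟩
    obtain ⟨b, hb⟩ : ∃ b, b = lr X.r (X.wt (z' j)) := ⟨_, rfl⟩
    rw [← ha] at e1 e5
    rw [← hb] at e1 e4
    rw [← ha, ← hb]
    have e6 : X.N2 (y j) ≤ a + b + C := by linarith
    have e7 : X.N2 (y j) ^ 2 ≤ (a + b + C) ^ 2 := pow_le_pow_left₀ e3 e6 2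
    nlinarith [sq_nonneg (a - b), sq_nonneg (a - C), sq_nonneg (b - C)]
  calc ∑ j, X.N2 (y j) ^ 2
      ≤ ∑ j : Fin N, 3 * (‖y j - X.T (z' j)‖ ^ 2 + lr X.r (X.wt (z' j)) ^ 2 + C ^ 2) :=
        Finset.sum_le_sum fun j _ => hfin j
    _ = 3 * (∑ j, ‖y j - X.T (z' j)‖ ^ 2 + ∑ j, lr X.r (X.wt (z' j)) ^ 2 + N * C ^ 2) := by
        rw [← Finset.mul_sum, Finset.sum_add_distrib, Finset.sum_add_distrib]
        simp
    _ ≤ 3 * (4 * ∑ i, q i ^ 2 + 16 * ∑ i, q i ^ 2 + ∑ i, q i ^ 2) := by linarith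
    _ ≤ 8 ^ 2 * ∑ i, q i ^ 2 := by
        have e3 : 0 ≤ ∑ i, q i ^ 2 := Finset.sum_nonneg fun i _ => sq_nonneg _
        linarith
    _ = 8 ^ 2 * ∑ i, X.N2 (x i) ^ 2 := by simp only [hq]

end Pool.NG
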