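import Pool.Agent.Work.MP_3e8c7a_ng.InterfaceR

/-! # Block RPJ -/

set_option autoImplicit false

namespace Pool.NG

open Module Pool.Agent.MP3e8c7ak
open scoped RealInnerProductSpace

theorem RPJ_sum {n : ℕ} (y : Fin n → ℝ) :
    (WithLp.toLp 2 y : EuclideanSpace ℝ (Fin n)) = ∑ l, y l • EuclideanSpace.single l (1 : ℝ) := by
  ext k
  simp [Pi.single_apply]

theorem RPJ_coord {n : ℕ} (k : Fin n) (v : EuclideanSpace ℝ (Fin n)) :
    ⟪EuclideanSpace.single k (1 : ℝ), v⟫ = v k := by
  rw [EuclideanSpace.inner_single_left]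
  simp

theorem RPJ_norm {n : ℕ} (v : EuclideanSpace ℝ (Fin n)) : ∑ k, v k ^ 2 = ‖v‖ ^ 2 := by
  rw [EuclideanSpace.norm_sq_eq]
  simp only [Real.norm_eq_abs, sq_abs]

theorem p_RPJ : Stmt_RPJ := by
  intro n P
  let e : Fin n → EuclideanSpace ℝ (Fin n) := fun k => EuclideanSpace.single k (1 : ℝ)
  have he : ∀ k, ‖e k‖ = 1 := fun k => by
    show ‖EuclideanSpace.single k (1 : ℝ)‖ = 1
    rw [PiLp.norm_single, norm_one]
  have hmul : ∀ (y : Fin n → ℝ) (k : Fin n),
      ∑ l, P.starProjection (e l) k * y l = P.starProjection (WithLp.toLp 2 y) k := by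
    intro y k
    rw [← RPJ_coord k (P.starProjection (WithLp.toLp 2 y)), RPJ_sum, map_sum, inner_sum]
    refine Finset.sum_congr rfl fun l _ => ?_
    rw [map_smul, inner_smul_right, RPJ_coord, mul_comm]
  have hle : ∀ v : EuclideanSpace ℝ (Fin n), ‖P.starProjection v‖ ≤ ‖v‖ :=
    fun v => P.norm_starProjection_apply_le v
  have hidem : ∀ v, P.starProjection (P.starProjection v) = P.starProjection v := fun v =>
    Submodule.starProjection_eq_self_iff.2 (Submodule.starProjection_apply_mem P v)
  have hdiag : ∀ l, ‖P.starProjection (e l)‖ ^ 2 = P.starProjection (e l) l := by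
    intro l
    rw [← RPJ_coord l (P.starProjection (e l)), ← real_inner_self_eq_norm_sq,
      Submodule.inner_starProjection_left_eq_right, hidem]
  have htr : tr (fun k l => P.starProjection (e l) k) = finrank ℝ P := by
    have h1 : LinearMap.IsProj P (P.starProjection : EuclideanSpace ℝ (Fin n) →ₗ[ℝ] _) :=
      ⟨fun x => Submodule.starProjection_apply_mem P x,
        fun x hx => Submodule.starProjection_eq_self_iff.2 hx⟩
    rw [← h1.trace, LinearMap.trace_eq_sum_inner _ (EuclideanSpace.basisFun (Fin n) ℝ)]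
    unfold tr
    refine Finset.sum_congr rfl fun k _ => ?_
    rw [EuclideanSpace.basisFun_apply, RPJ_coord]
    rfl
  have hhs : hs (fun k l => P.starProjection (e l) k) = finrank ℝ P := by
    rw [← htr]
    unfold hs tr
    rw [Finset.sum_comm]
    refine Finset.sum_congr rfl fun l _ => ?_
    rw [RPJ_norm, hdiag]
  refine ⟨fun k l => P.starProjection (e l) k, ?_, ?_, htr, ?_, ?_⟩
  · intro k l
    show |P.starProjection (e l) k| ≤ 1
    rw [← RPJ_coord k (P.starProjection (e l))]
    refine (abs_real_inner_le_norm _ _).trans ?_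
    have h1 : ‖EuclideanSpace.single k (1 : ℝ)‖ = 1 := he k
    rw [h1, one_mul]
    exact (hle _).trans (he l).le
  · rw [hhs]
    have h := Submodule.finrank_le P
    rw [finrank_euclideanSpace_fin] at h
    exact_mod_cast h
  · intro y
    simp only [hmul y]
    rw [RPJ_norm]
    have h1 := hle (WithLp.toLp 2 y)
    have h2 := pow_le_pow_left₀ (norm_nonneg _) h1 2
    refine h2.trans (le_of_eq ?_)
    rw [← RPJ_norm]
  · intro x y
    have h1 : ∀ k : Fin n, ∑ l, x k * P.starProjection (e l) k * y l =
        x k * P.starProjection (WithLp.toLp 2 y) k := by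
      intro k
      rw [← hmul y k, Finset.mul_sum]
      exact Finset.sum_congr rfl fun l _ => mul_assoc _ _ _
    simp only [h1]
    rw [RPJ_sum x, sum_inner]
    refine Finset.sum_congr rfl fun k _ => ?_
    rw [real_inner_smul_left, RPJ_coord]

end Pool.NG
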