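import Pool.Agent.Work.MP_3e8c7a_ng.InterfaceR

set_option autoImplicit false

/-!
# Block RUA (numbers, first and third term)
-/

namespace Pool.NG

open Module Pool.Agent.MP3e8c7ak
open scoped RealInnerProductSpace

theorem RUA_sq (n : ℕ) (hn : 4 ≤ n) : n ^ 2 ≤ 2 ^ n := by
  induction n, hn using Nat.le_induction with
  | base => norm_num
  | succ n hn ih =>
    rw [pow_succ 2 n]
    nlinarith

theorem RUA_one (a : ℕ) (C : ℝ) (hC : 0 < C) (n : ℕ) (h4 : 4 ≤ n) (ha : 2 * a + 1 ≤ n)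
    (hn : 2 ^ 32 * C ≤ n) :
    (((2 * (n * a) + 1) ^ (n ^ 2) : ℕ) : ℝ) * (2 ^ (n ^ 3) * (C / n) ^ (n ^ 3 / 4)) < 1 / 4 := by
  have hnpos : (0 : ℝ) < n := by
    have : (4 : ℝ) ≤ n := by exact_mod_cast h4
    linarith
  have h1 : 2 * (n * a) + 1 ≤ 2 ^ n := by
    have := RUA_sq n h4
    nlinarith
  have h2 : (2 * (n * a) + 1) ^ (n ^ 2) ≤ 2 ^ (n ^ 3) := by
    calc (2 * (n * a) + 1) ^ (n ^ 2) ≤ (2 ^ n) ^ (n ^ 2) := Nat.pow_le_pow_left h1 _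
      _ = 2 ^ (n ^ 3) := by rw [← pow_mul]; congr 1; ring
  have h2' : (((2 * (n * a) + 1) ^ (n ^ 2) : ℕ) : ℝ) ≤ 2 ^ (n ^ 3) := by
    calc (((2 * (n * a) + 1) ^ (n ^ 2) : ℕ) : ℝ) ≤ ((2 ^ (n ^ 3) : ℕ) : ℝ) := by exact_mod_cast h2
      _ = 2 ^ (n ^ 3) := by push_cast; rfl
  have h3 : C / n ≤ (1 / 2) ^ 32 := by
    rw [div_le_iff₀ hnpos]
    have : (1 / 2 : ℝ) ^ 32 * n = n / 2 ^ 32 := by ring
    rw [this, le_div_iff₀ (by positivity)]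
    linarith
  have hm : 64 ≤ n ^ 3 := by
    calc 64 = 4 ^ 3 := by norm_num
      _ ≤ n ^ 3 := Nat.pow_le_pow_left h4 3
  have h4' : (C / n) ^ (n ^ 3 / 4) ≤ (1 / 2 : ℝ) ^ (4 * n ^ 3) := by
    calc (C / n) ^ (n ^ 3 / 4) ≤ ((1 / 2 : ℝ) ^ 32) ^ (n ^ 3 / 4) :=
          pow_le_pow_left₀ (by positivity) h3 _
      _ = (1 / 2 : ℝ) ^ (32 * (n ^ 3 / 4)) := by rw [← pow_mul]
      _ ≤ (1 / 2 : ℝ) ^ (4 * n ^ 3) := by
          apply pow_le_pow_of_le_one (by norm_num) (by norm_num)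
          generalize n ^ 3 = m at hm
          omega
  have hp : (0 : ℝ) < 2 ^ (n ^ 3) := by positivity
  calc (((2 * (n * a) + 1) ^ (n ^ 2) : ℕ) : ℝ) * (2 ^ (n ^ 3) * (C / n) ^ (n ^ 3 / 4))
      ≤ 2 ^ (n ^ 3) * (2 ^ (n ^ 3) * (1 / 2 : ℝ) ^ (4 * n ^ 3)) := by
        apply mul_le_mul h2' _ (by positivity) hp.le
        exact mul_le_mul_of_nonneg_left h4' hp.le
    _ = (1 / 2 : ℝ) ^ (2 * n ^ 3) := by
        have e1 : (1 / 2 : ℝ) ^ (4 * n ^ 3) = (1 / 2 : ℝ) ^ (2 * n ^ 3) * ((1 / 2 : ℝ) ^ (n ^ 3) * (1 / 2 : ℝ) ^ (n ^ 3)) := by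
          rw [← pow_add, ← pow_add]; congr 1; ring
        have e2 : (2 : ℝ) ^ (n ^ 3) * (1 / 2 : ℝ) ^ (n ^ 3) = 1 := by
          rw [← mul_pow]; norm_num
        rw [e1]
        calc (2 : ℝ) ^ (n ^ 3) * (2 ^ (n ^ 3) * ((1 / 2 : ℝ) ^ (2 * n ^ 3) * ((1 / 2 : ℝ) ^ (n ^ 3) * (1 / 2 : ℝ) ^ (n ^ 3))))
            = (1 / 2 : ℝ) ^ (2 * n ^ 3) * ((2 : ℝ) ^ (n ^ 3) * (1 / 2 : ℝ) ^ (n ^ 3)) * ((2 : ℝ) ^ (n ^ 3) * (1 / 2 : ℝ) ^ (n ^ 3)) := by ring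
          _ = (1 / 2 : ℝ) ^ (2 * n ^ 3) := by rw [e2]; ring
    _ ≤ (1 / 2 : ℝ) ^ 3 := by
        apply pow_le_pow_of_le_one (by norm_num) (by norm_num)
        omega
    _ < 1 / 4 := by norm_num

theorem RUA_two (C c : ℝ) (hC : 0 < C) (hc : 0 < c) :
    ∃ n₀ : ℕ, ∀ n : ℕ, n₀ ≤ n → C * (n : ℝ) ^ 6 * Real.exp (-(c * n)) < 1 / 4 := by
  have h1 := Real.tendsto_pow_mul_exp_neg_atTop_nhds_zero 6
  have h2 : Filter.Tendsto (fun n : ℕ => c * (n : ℝ)) Filter.atTop Filter.atTop :=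
    Filter.Tendsto.const_mul_atTop hc tendsto_natCast_atTop_atTop
  have h3 := h1.comp h2
  have hpos : 0 < c ^ 6 / (4 * C) := by positivity
  have h4 := h3.eventually (gt_mem_nhds hpos)
  obtain ⟨n₀, hn₀⟩ := Filter.eventually_atTop.1 h4
  refine ⟨n₀, fun n hn => ?_⟩
  have h5 := hn₀ n hn
  simp only [Function.comp] at h5
  rw [lt_div_iff₀ (by positivity)] at h5
  have hc6 : 0 < c ^ 6 := by positivity
  have h6 : (c * (n : ℝ)) ^ 6 * Real.exp (-(c * n)) * (4 * C) = c ^ 6 * (4 * (C * (n : ℝ) ^ 6 * Real.exp (-(c * n)))) := by ring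
  rw [h6] at h5
  have h7 : 4 * (C * (n : ℝ) ^ 6 * Real.exp (-(c * n))) < 1 := by
    by_contra hcon
    push Not at hcon
    nlinarith
  linarith

theorem p_RUA : Stmt_RUA := by
  intro a C c hC hc
  obtain ⟨n₁, hn₁⟩ := RUA_two C c hC hc
  obtain ⟨n₂, hn₂⟩ := exists_nat_ge (2 ^ 32 * C)
  refine ⟨n₁ + n₂ + 4 + (2 * a + 1), fun n hn => ⟨?_, hn₁ n (by omega)⟩⟩
  apply RUA_one a C hC n (by omega) (by omega)
  have : (n₂ : ℝ) ≤ n := by exact_mod_cast (by omega : n₂ ≤ n)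
  linarith

end Pool.NG
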