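import Pool.Agent.Work.MP_3e8c7a_ng.InterfaceR

/-!
# MP_3e8c7a_an, THEOREM NEG, block RUB: numbers, second term
-/

set_option autoImplicit false

namespace Pool.NG

open Module Pool.Agent.MP3e8c7ak
open scoped RealInnerProductSpace

open Filter Topology in
lemma RUB_pow_le_exp (C c : ℝ) (hc : 0 < c) :
    ∀ᶠ n : ℕ in atTop, C * (n : ℝ) ^ 3 ≤ Real.exp (c * n) := by
  have h1 := Real.tendsto_pow_mul_exp_neg_atTop_nhds_zero 3
  have h2 : Tendsto (fun n : ℕ => c * (n : ℝ)) atTop atTop :=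
    tendsto_natCast_atTop_atTop.const_mul_atTop hc
  have h3 : Tendsto (fun n : ℕ => (C / c ^ 3) * ((c * (n : ℝ)) ^ 3 * Real.exp (-(c * (n : ℝ))))) atTop
      (𝓝 ((C / c ^ 3) * 0)) := (h1.comp h2).const_mul _
  rw [mul_zero] at h3
  filter_upwards [h3.eventually_le_const (show (0 : ℝ) < 1 by norm_num)] with n hn
  have h4 : (C / c ^ 3) * ((c * (n : ℝ)) ^ 3 * Real.exp (-(c * (n : ℝ)))) =
      C * (n : ℝ) ^ 3 * Real.exp (-(c * n)) := by
    field_simp
  rw [h4] at hn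
  have h5 : 0 < Real.exp (c * n) := Real.exp_pos _
  calc C * (n : ℝ) ^ 3 = (C * (n : ℝ) ^ 3 * Real.exp (-(c * n))) * Real.exp (c * n) := by
        rw [mul_assoc, ← Real.exp_add]
        simp
    _ ≤ 1 * Real.exp (c * n) := mul_le_mul_of_nonneg_right hn h5.le
    _ = Real.exp (c * n) := one_mul _

open Filter Topology in
lemma RUB_log (e : ℝ) (he : 0 < e) : ∀ᶠ n : ℕ in atTop, Real.log (n : ℝ) ≤ e * n := by
  have h := (Real.isLittleO_log_id_atTop.comp_tendsto tendsto_natCast_atTop_atTop).def he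
  filter_upwards [h] with n hn
  simp only [Function.comp, id] at hn
  rw [Real.norm_eq_abs, Real.norm_eq_abs, abs_of_nonneg (Nat.cast_nonneg n : (0 : ℝ) ≤ (n : ℝ))] at hn
  exact (le_abs_self _).trans hn

open Filter Topology in
lemma RUB_K (c : ℝ) (hc : 0 < c) :
    ∀ᶠ n : ℕ in atTop, ((Nat.log 2 (n ^ 3) + 1 : ℕ) : ℝ) ≤ c * n := by
  have h1 := RUB_log (c / 12) (by positivity)
  have h2 : ∀ᶠ n : ℕ in atTop, 2 / c ≤ (n : ℝ) := tendsto_natCast_atTop_atTop.eventually_ge_atTop _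
  filter_upwards [h1, h2, eventually_ge_atTop 1] with n hn1 hn2 hn3
  have hn0 : n ^ 3 ≠ 0 := by positivity
  have h3 : 2 ^ Nat.log 2 (n ^ 3) ≤ n ^ 3 := Nat.pow_log_le_self 2 hn0
  have h4 : ((2 : ℝ) ^ Nat.log 2 (n ^ 3)) ≤ (n : ℝ) ^ 3 := by exact_mod_cast h3
  have h5 := Real.log_le_log (by positivity) h4
  rw [Real.log_pow, Real.log_pow] at h5
  have h6 : (1 : ℝ) / 2 ≤ Real.log 2 := by
    have := Real.log_two_gt_d9
    linarith
  have h7 : (0 : ℝ) ≤ (Nat.log 2 (n ^ 3) : ℝ) := Nat.cast_nonneg _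
  have h8 : 1 ≤ c * n / 2 := by
    rw [div_le_iff₀ hc] at hn2
    linarith
  push_cast at h5 ⊢
  nlinarith [mul_le_mul_of_nonneg_left h6 h7]

open Filter Topology in
lemma RUB_lin (a b : ℕ) : ∀ᶠ n : ℕ in atTop, a * n + b ≤ 2 ^ n := by
  have h1 := tendsto_pow_const_div_const_pow_of_one_lt 1 (show (1 : ℝ) < 2 by norm_num)
  have h2 := (h1.const_mul ((a : ℝ) + b))
  rw [mul_zero] at h2
  filter_upwards [h2.eventually_le_const (show (0 : ℝ) < 1 by norm_num), eventually_ge_atTop 1] with n hn h1n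
  have h3 : (0 : ℝ) < 2 ^ n := by positivity
  rw [← mul_div_assoc, div_le_one h3, pow_one] at hn
  have h1n' : (1 : ℝ) ≤ n := by exact_mod_cast h1n
  have h4 : (a : ℝ) * n + b ≤ 2 ^ n := by
    have : (b : ℝ) ≤ b * n := le_mul_of_one_le_right (Nat.cast_nonneg _) h1n'
    linarith [add_mul (a : ℝ) b n]
  exact_mod_cast h4

open Filter Topology in
lemma RUB_cube : ∀ᶠ n : ℕ in atTop, 2 * n ^ 3 + 2 ≤ 2 ^ n := by
  have h1 := tendsto_pow_const_div_const_pow_of_one_lt 3 (show (1 : ℝ) < 2 by norm_num)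
  have h2 := (h1.const_mul 4)
  rw [mul_zero] at h2
  filter_upwards [h2.eventually_le_const (show (0 : ℝ) < 1 by norm_num), eventually_ge_atTop 1] with n hn h1n
  have h3 : (0 : ℝ) < 2 ^ n := by positivity
  rw [← mul_div_assoc, div_le_one h3] at hn
  have h4 : 4 * n ^ 3 ≤ 2 ^ n := by exact_mod_cast hn
  have h5 : 1 ≤ n ^ 3 := Nat.one_le_pow _ _ h1n
  omega

open Filter Topology in
theorem p_RUB : Stmt_RUB := by
  intro a C c hC hc
  have hev : ∀ᶠ n : ℕ in atTop,
      (((2 * (n * a) + 1) ^ (n ^ 2) : ℕ) : ℝ) * (2 * (Nat.log 2 (n ^ 3) + 1 : ℕ) *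
        (2 ^ (n ^ 3) * (C * (n : ℝ) ^ 3 * Real.exp (-(c * n))) ^ (n ^ 3 / (8 * (Nat.log 2 (n ^ 3) + 1))))) < 1 / 4 := by
    filter_upwards [RUB_pow_le_exp C (c / 2) (by positivity), RUB_K (c / 128) (by positivity),
      RUB_K 1 (by norm_num), RUB_lin (2 * a) 1, RUB_cube, eventually_ge_atTop 16] with n h1 h2 h3 h4 h5 h6
    set K : ℕ := Nat.log 2 (n ^ 3) + 1 with hKdef
    set h : ℕ := n ^ 3 / (8 * K) with hh
    have hK1 : 1 ≤ K := by omega
    have hn16 : (16 : ℝ) ≤ n := by exact_mod_cast h6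
    have hn0 : (0 : ℝ) < n := by linarith
    -- the quotient
    have hKn : K ≤ n := by
      have : (K : ℝ) ≤ n := by linarith
      exact_mod_cast this
    have hq1 : n ^ 3 < 8 * K * (h + 1) := by
      rw [hh]
      exact Nat.lt_mul_div_succ (n ^ 3) (by positivity)
    have hq2 : 16 * K ≤ n ^ 3 := by
      calc 16 * K ≤ n * n := Nat.mul_le_mul h6 hKn
        _ ≤ n * n * n := Nat.le_mul_of_pos_right _ (by omega)
        _ = n ^ 3 := by ring
    have hq3 : (n : ℝ) ^ 3 ≤ 16 * K * h := by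
      have hq1' : (n : ℝ) ^ 3 ≤ 8 * K * (h + 1) := by exact_mod_cast hq1.le
      have hq2' : (16 : ℝ) * K ≤ (n : ℝ) ^ 3 := by exact_mod_cast hq2
      linarith
    -- the exponent
    have hexp : 4 * (n : ℝ) ^ 3 ≤ (c / 2) * n * h := by
      have hKpos : (0 : ℝ) < K := by exact_mod_cast hK1
      have hh0 : (0 : ℝ) ≤ h := Nat.cast_nonneg _
      have h7 : 4 * (n : ℝ) ^ 3 ≤ 4 * (16 * K * h) := by linarith
      have h8 : 4 * (16 * (K : ℝ) * h) ≤ 4 * (16 * (c / 128 * n) * h) := by gcongr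
      calc 4 * (n : ℝ) ^ 3 ≤ 4 * (16 * (c / 128 * n) * h) := h7.trans h8
        _ = (c / 2) * n * h := by ring
    have hq0 : 0 ≤ C * (n : ℝ) ^ 3 * Real.exp (-(c * n)) := by positivity
    have hqle : C * (n : ℝ) ^ 3 * Real.exp (-(c * n)) ≤ Real.exp (-(c / 2 * n)) := by
      calc C * (n : ℝ) ^ 3 * Real.exp (-(c * n)) ≤ Real.exp (c / 2 * n) * Real.exp (-(c * n)) :=
            mul_le_mul_of_nonneg_right h1 (Real.exp_pos _).le
        _ = Real.exp (-(c / 2 * n)) := by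
            rw [← Real.exp_add]
            congr 1
            ring
    have hpow : (C * (n : ℝ) ^ 3 * Real.exp (-(c * n))) ^ h ≤ (1 / 16) ^ (n ^ 3) := by
      calc (C * (n : ℝ) ^ 3 * Real.exp (-(c * n))) ^ h ≤ (Real.exp (-(c / 2 * n))) ^ h :=
            pow_le_pow_left₀ hq0 hqle h
        _ = Real.exp (-((c / 2) * n * h)) := by
            rw [← Real.exp_nat_mul]
            congr 1
            ring
        _ ≤ Real.exp (-(4 * (n : ℝ) ^ 3)) := by
            apply Real.exp_le_exp.2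
            linarith
        _ = (Real.exp (-4)) ^ (n ^ 3) := by
            rw [← Real.exp_nat_mul]
            congr 1
            push_cast
            ring
        _ ≤ (1 / 16) ^ (n ^ 3) := by
            apply pow_le_pow_left₀ (Real.exp_pos _).le
            have h9 : (2 : ℝ) ≤ Real.exp 1 := by
              have := Real.exp_one_gt_d9
              linarith
            have h10 : (16 : ℝ) ≤ Real.exp 4 := by
              calc (16 : ℝ) = 2 ^ 4 := by norm_num
                _ ≤ Real.exp 1 ^ 4 := pow_le_pow_left₀ (by norm_num) h9 4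
                _ = Real.exp 4 := by
                  rw [← Real.exp_nat_mul]
                  norm_num
            rw [Real.exp_neg, one_div]
            exact inv_anti₀ (by norm_num) h10
    have hA : (((2 * (n * a) + 1) ^ (n ^ 2) : ℕ) : ℝ) ≤ 2 ^ (n ^ 3) := by
      have h11 : (2 * (n * a) + 1) ^ (n ^ 2) ≤ 2 ^ (n ^ 3) := by
        calc (2 * (n * a) + 1) ^ (n ^ 2) ≤ (2 ^ n) ^ (n ^ 2) := by
              apply Nat.pow_le_pow_left
              calc 2 * (n * a) + 1 = 2 * a * n + 1 := by ring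
                _ ≤ 2 ^ n := h4
          _ = 2 ^ (n ^ 3) := by
              rw [← pow_mul]
              congr 1
              ring
      exact_mod_cast h11
    have hB : (2 : ℝ) * (K : ℕ) ≤ 2 ^ n := by
      have h12 : 2 * K ≤ 2 ^ n := by
        have h13 : K ≤ n ^ 3 := by omega
        omega
      exact_mod_cast h12
    have hfin : (2 : ℝ) ^ (n ^ 3) * (2 ^ n * (2 ^ (n ^ 3) * (1 / 16) ^ (n ^ 3))) < 1 / 4 := by
      have h14 : (2 : ℝ) ^ (n ^ 3) * (2 ^ n * (2 ^ (n ^ 3) * (1 / 16) ^ (n ^ 3))) =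
          2 ^ n * (1 / 4) ^ (n ^ 3) := by
        calc (2 : ℝ) ^ (n ^ 3) * (2 ^ n * (2 ^ (n ^ 3) * (1 / 16) ^ (n ^ 3))) =
            2 ^ n * ((2 : ℝ) ^ (n ^ 3) * 2 ^ (n ^ 3) * (1 / 16) ^ (n ^ 3)) := by ring
          _ = 2 ^ n * (1 / 4) ^ (n ^ 3) := by
            rw [← mul_pow, ← mul_pow]
            norm_num
      rw [h14]
      have h15 : ((1 : ℝ) / 4) ^ (n ^ 3) ≤ (1 / 4) ^ n := by
        apply pow_le_pow_of_le_one (by norm_num) (by norm_num)
        exact Nat.le_self_pow (by norm_num) n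
      calc (2 : ℝ) ^ n * (1 / 4) ^ (n ^ 3) ≤ 2 ^ n * (1 / 4) ^ n :=
            mul_le_mul_of_nonneg_left h15 (by positivity)
        _ = (1 / 2) ^ n := by
            rw [← mul_pow]
            norm_num
        _ ≤ (1 / 2) ^ 16 := pow_le_pow_of_le_one (by norm_num) (by norm_num) h6
        _ < 1 / 4 := by norm_num
    refine lt_of_le_of_lt ?_ hfin
    have hC0 : (0 : ℝ) ≤ (C * (n : ℝ) ^ 3 * Real.exp (-(c * n))) ^ h := pow_nonneg hq0 _
    gcongr
  obtain ⟨n₀, hn₀⟩ := eventually_atTop.1 hev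
  exact ⟨n₀, hn₀⟩

end Pool.NG
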