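import Pool.Agent.Work.MP_3e8c7a_ng.InterfaceR

set_option autoImplicit false

namespace Pool.NG

open Module Pool.Agent.MP3e8c7ak
open scoped RealInnerProductSpace

theorem RVE_ex (N : ℕ) (S1 S2 S3 S4 : Finset (Fin N)) (h1 : 4 * S1.card < N) (h2 : 4 * S2.card < N)
    (h3 : 4 * S3.card < N) (h4 : 4 * S4.card < N) : ∃ j, j ∉ S1 ∧ j ∉ S2 ∧ j ∉ S3 ∧ j ∉ S4 := by
  classical
  by_contra hcon
  push Not at hcon
  have hu : (Finset.univ : Finset (Fin N)) ⊆ (S1 ∪ S2) ∪ (S3 ∪ S4) := by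
    intro j _
    simp only [Finset.mem_union]
    by_contra hj
    push Not at hj
    exact hj.2.2 (hcon j hj.1.1 hj.1.2 hj.2.1)
  have hc := Finset.card_le_card hu
  rw [Finset.card_univ, Fintype.card_fin] at hc
  have e1 := Finset.card_union_le (S1 ∪ S2) (S3 ∪ S4)
  have e2 := Finset.card_union_le S1 S2
  have e3 := Finset.card_union_le S3 S4
  omega

theorem RVE_sg (b : Bool) : sg b * sg b = 1 := by cases b <;> simp [sg]

/-- The vectors. -/
noncomputable def RVE_v {n : ℕ} (ω : Fin n → Bool) : Hn n :=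
  WithLp.toLp 2 (fun k => sg (ω k) / Real.sqrt n)

theorem RVE_inner {n : ℕ} (hn : 1 ≤ n) (ω ω' : Fin n → Bool) :
    inner ℝ (RVE_v ω) (RVE_v ω') = (∑ k, sg (ω k) * sg (ω' k)) / n := by
  have hn0 : (0 : ℝ) < n := by exact_mod_cast hn
  have hs : Real.sqrt n * Real.sqrt n = n := Real.mul_self_sqrt hn0.le
  have hs0 : Real.sqrt n ≠ 0 := (Real.sqrt_pos.2 hn0).ne'
  rw [PiLp.inner_apply, Finset.sum_div]
  refine Finset.sum_congr rfl fun k _ => ?_
  simp only [RVE_v, RCLike.inner_apply, conj_trivial]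
  nth_rewrite 3 [← hs]
  field_simp

theorem RVE_norm {n : ℕ} (hn : 1 ≤ n) (ω : Fin n → Bool) : ‖RVE_v ω‖ = 1 := by
  have hn0 : (0 : ℝ) < n := by exact_mod_cast hn
  have h := RVE_inner hn ω ω
  rw [real_inner_self_eq_norm_sq] at h
  have e : ∑ k, sg (ω k) * sg (ω k) = (n : ℝ) := by
    simp [RVE_sg]
  rw [e, div_self hn0.ne'] at h
  have h0 := norm_nonneg (RVE_v ω)
  nlinarith

theorem RVE_proj {n : ℕ} (hn : 1 ≤ n) (P : Submodule ℝ (Hn n)) (A : Fin n → Fin n → ℝ)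
    (h : ∀ x y : Fin n → ℝ, ⟪(WithLp.toLp 2 x : EuclideanSpace ℝ (Fin n)), P.starProjection (WithLp.toLp 2 y)⟫ =
      ∑ k, ∑ l, x k * A k l * y l) (ω ω' : Fin n → Bool) :
    inner ℝ (RVE_v ω) (P.starProjection (RVE_v ω')) = BL A ω ω' / n := by
  have hn0 : (0 : ℝ) < n := by exact_mod_cast hn
  have hs : Real.sqrt n * Real.sqrt n = n := Real.mul_self_sqrt hn0.le
  have hs0 : Real.sqrt n ≠ 0 := (Real.sqrt_pos.2 hn0).ne'
  rw [RVE_v, RVE_v, h, BL, Finset.sum_div]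
  refine Finset.sum_congr rfl fun k _ => ?_
  rw [Finset.sum_div]
  refine Finset.sum_congr rfl fun l _ => ?_
  have : sg (ω k) / Real.sqrt n * A k l * (sg (ω' l) / Real.sqrt n) =
      sg (ω k) * A k l * sg (ω' l) / (Real.sqrt n * Real.sqrt n) := by
    field_simp
  rw [this, hs]

theorem RVE_good {n M : ℕ} {ι : Type} [DecidableEq ι] (hn : 1 ≤ n) (P : Submodule ℝ (Hn n)) (A : Fin n → Fin n → ℝ)
    (h : ∀ x y : Fin n → ℝ, ⟪(WithLp.toLp 2 x : EuclideanSpace ℝ (Fin n)), P.starProjection (WithLp.toLp 2 y)⟫ =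
      ∑ k, ∑ l, x k * A k l * y l) (htr : tr A = finrank ℝ P) (τ τ' : ℝ) (hτ : τ' ≤ τ)
    (Ω : Fin M → ι → Fin n → Bool) (j : Fin M) (hA : ¬ BadA A (τ' * n) (Ω j))
    (hB : ¬ ∃ i, i ≠ j ∧ BadB A (τ' * n) (Ω j) (Ω i)) :
    GoodB (fun j c => RVE_v (Ω j c)) τ P j := by
  have hn0 : (0 : ℝ) < n := by exact_mod_cast hn
  constructor
  · intro x y
    rw [RVE_proj hn P A h]
    unfold BadA at hA
    push Not at hA
    have h1 := hA x y
    have e : (if x = y then (finrank ℝ P : ℝ) / n else 0) = (if x = y then (finrank ℝ P : ℝ) else 0) / n := by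
      split_ifs <;> simp
    rw [e, ← sub_div, abs_div, abs_of_pos hn0, div_le_iff₀ hn0]
    rw [htr] at h1
    have e2 : (if x = y then (finrank ℝ P : ℝ) else 0) =
        @ite ℝ (x = y) (Classical.propDecidable _) (finrank ℝ P : ℝ) 0 := by
      congr
    rw [e2]
    exact h1.trans (mul_le_mul_of_nonneg_right hτ hn0.le)
  · intro i hi x y
    push Not at hB
    have h1 := hB i hi
    unfold BadB at h1
    push Not at h1
    have h2 := h1 y x
    rw [← Submodule.inner_starProjection_left_eq_right, real_inner_comm, RVE_proj hn P A h, abs_div, abs_of_pos hn0,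
      div_le_iff₀ hn0]
    exact h2.trans (mul_le_mul_of_nonneg_right hτ hn0.le)

open Classical in
theorem p_RVE (h1 : Stmt_REX) (h2 : Stmt_RPJ) : Stmt_RVE := by
  intro ι _ _ τ hτ
  obtain ⟨n₀, hn₀, H⟩ := h1 ι (min τ 1) (lt_min hτ one_pos) (min_le_right _ _)
  refine ⟨n₀, hn₀, fun n hn => ?_⟩
  obtain ⟨Ω, hco, hA⟩ := H n hn
  have hn1 : 1 ≤ n := hn₀.trans hn
  have hn0 : (0 : ℝ) < n := by exact_mod_cast hn1
  refine ⟨n ^ 3, fun j c => RVE_v (Ω j c), fun j c => RVE_norm hn1 _, ?_, ?_⟩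
  · rintro ⟨j, c⟩ ⟨i, c'⟩ hne
    show |inner ℝ (RVE_v (Ω j c)) (RVE_v (Ω i c'))| ≤ τ
    rw [RVE_inner hn1, abs_div, abs_of_pos hn0, div_le_iff₀ hn0]
    exact (hco j c i c' hne).trans (mul_le_mul_of_nonneg_right (min_le_left _ _) hn0.le)
  · intro P₁ P₂
    obtain ⟨A₁, a1, a2, a3, a4, a5⟩ := h2 n P₁
    obtain ⟨A₂, b1, b2, b3, b4, b5⟩ := h2 n P₂
    obtain ⟨c1, c2⟩ := hA A₁ a1 a2 a4
    obtain ⟨d1, d2⟩ := hA A₂ b1 b2 b4
    obtain ⟨j, j1, j2, j3, j4⟩ := RVE_ex (n ^ 3) _ _ _ _ c1 c2 d1 d2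
    simp only [Finset.mem_filter, Finset.mem_univ, true_and] at j1 j2 j3 j4
    exact ⟨j, RVE_good hn1 P₁ A₁ a5 a3 τ _ (min_le_left _ _) Ω j j1 j2,
      RVE_good hn1 P₂ A₂ b5 b3 τ _ (min_le_left _ _) Ω j j3 j4⟩

end Pool.NG
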