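import Pool.Agent.Work.MP_3e8c7a_ng.InterfaceF

/-!
# Block SEA: the absorption for a subspace (helper4)
-/

set_option autoImplicit false

namespace Pool.NG

open Module Pool.Agent.MP3e8c7a
open Pool.RG (FacE)

theorem SEA_wS {s d : Type} [Fintype s] [Fintype d] (Φ Φ' : s → d → ℝ) (w : d → ℝ)
    (h : ‖mv Φ w - mv Φ' w‖ ≤ l2 w) : wS Φ w ≤ 2 * wS Φ' w := by
  rw [wS_apply, wS_apply]
  have h1 : ‖mv Φ w‖ ≤ ‖mv Φ w - mv Φ' w‖ + ‖mv Φ' w‖ := by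
    have := norm_add_le (mv Φ w - mv Φ' w) (mv Φ' w)
    rwa [sub_add_cancel] at this
  have h2 := le_max_left (l2 w) ‖mv Φ' w‖
  have h3 := le_max_right (l2 w) ‖mv Φ' w‖
  have h4 : 0 ≤ l2 w := Real.sqrt_nonneg _
  exact max_le (by linarith) (by linarith)

theorem SEA_step {n : ℕ} {J d s : Type} [Fintype J] [Fintype d] [Fintype s] (X : Cfg n J d s)
    (hD : 0 < X.D) {m Q : ℕ} (G : (Fin m → ℝ) →ₗ[ℝ] (Fin Q → ℝ)) (τ : ℕ) (v : Hn n × (Fin m → ℝ)) :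
    X.P G (τ + 1) v ≤ X.P G τ v ∧ X.P G τ v ≤ 2 * X.P G (τ + 1) v := by
  rw [Cfg.P_apply, Cfg.P_apply, qS_apply hD, qS_apply hD]
  have h0 : 0 ≤ X.nX v.1 := apply_nonneg _ _
  have hl : 0 ≤ X.D⁻¹ * l2 (G v.2) := mul_nonneg (inv_nonneg.2 hD.le) (Real.sqrt_nonneg _)
  have hn : 0 ≤ (1 / 2 : ℝ) ^ τ * ‖G v.2‖ := by positivity
  have e : (1 / 2 : ℝ) ^ (τ + 1) * ‖G v.2‖ = ((1 / 2 : ℝ) ^ τ * ‖G v.2‖) / 2 := by
    rw [pow_succ]
    ring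
  rw [e]
  constructor
  · have : max (X.D⁻¹ * l2 (G v.2)) ((1 / 2 : ℝ) ^ τ * ‖G v.2‖ / 2) ≤
        max (X.D⁻¹ * l2 (G v.2)) ((1 / 2 : ℝ) ^ τ * ‖G v.2‖) :=
      max_le_max le_rfl (by linarith)
    linarith
  · have h1 := le_max_left (X.D⁻¹ * l2 (G v.2)) ((1 / 2 : ℝ) ^ τ * ‖G v.2‖ / 2)
    have h2 := le_max_right (X.D⁻¹ * l2 (G v.2)) ((1 / 2 : ℝ) ^ τ * ‖G v.2‖ / 2)
    have : max (X.D⁻¹ * l2 (G v.2)) ((1 / 2 : ℝ) ^ τ * ‖G v.2‖) ≤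
        2 * max (X.D⁻¹ * l2 (G v.2)) ((1 / 2 : ℝ) ^ τ * ‖G v.2‖ / 2) :=
      max_le (by linarith) (by linarith)
    linarith

theorem p_SEA (h1 : Stmt_EUV) (h2 : Stmt_ABS) (h3 : Stmt_TYP) : Stmt_SEA := by
  intro n M t a N₁ m Q q X N₀ L G Ξ hU E' hE'
  have hD : 0 < X.D := lt_of_lt_of_le one_pos hU.ok.D1
  obtain ⟨N, hEu, hDef, hN⟩ := h1 n _ _ _ X N₀ L hU.ok m Q G hU.G
  obtain ⟨R, hR, hUA⟩ := hU.ua
  have hinj : Function.Injective E'.subtype := Submodule.injective_subtype E'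
  obtain ⟨A, S, hA, hSA, hBS, hpS⟩ := hUA E' (N.comp E'.subtype)
    (fun τ => (X.P G τ).comp E'.subtype) (hEu.comp _) (hDef.comp _ hinj)
    (fun τ x => hN τ (E'.subtype x))
    ((LinearMap.snd ℝ (Hn n) (Fin m → ℝ)) ∘ₗ E'.subtype) a hR hE'
  have hA' : finrank ℝ (A.map E'.subtype) = a := by
    rw [← (Submodule.equivMapOfInjective E'.subtype hinj A).finrank_eq]
    exact hA
  obtain ⟨θ', Ξ', hΞ', hty⟩ := h3 n _ _ _ X N₀ L a N₁ hU.ok hU.aN hU.DN hU.NN m Q t G hU.G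
    (A.map E'.subtype) hA'
  obtain ⟨i₀, hi₀⟩ := hU.net Ξ' hΞ'
  let θ : A ≃ₗ[ℝ] (Fin a → ℝ) := (Submodule.equivMapOfInjective E'.subtype hinj A).trans θ'
  have key := h2 t a (N₁ + Q) m (Fin q) Ξ E'
    ((LinearMap.snd ℝ (Hn n) (Fin m → ℝ)) ∘ₗ E'.subtype)
    (fun τ => (X.P G τ).comp E'.subtype) A S 90 i₀ θ (by norm_num) hSA hBS
    (fun τ hτ x => hpS ⟨τ, Nat.lt_succ_of_le hτ⟩ x)
    (fun τ x => SEA_step X hD G τ (E'.subtype x))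
    (fun x hx => by
      have hx2 : (E'.subtype x).2 = 0 := hx
      show X.P G 0 (E'.subtype x) ≤ X.P G t (E'.subtype x)
      rw [Cfg.P_apply, Cfg.P_apply, hx2, map_zero, map_zero, map_zero])
    (fun τ x => by
      have hx := hty τ (Submodule.equivMapOfInjective E'.subtype hinj A x)
      have e1 : ((Submodule.equivMapOfInjective E'.subtype hinj A x : A.map E'.subtype) :
          Hn n × (Fin m → ℝ)) = E'.subtype x := Submodule.coe_equivMapOfInjective_apply _ _ _ _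
      rw [e1] at hx
      have hθ : θ' (Submodule.equivMapOfInjective E'.subtype hinj A x) = θ x := rfl
      rw [hθ] at hx
      have h5 := hi₀ τ (θ x)
      have h6 := SEA_wS (Ξ' τ) (Ξ (i₀, τ)) (θ x) h5
      have h7 := SEA_wS (Ξ (i₀, τ)) (Ξ' τ) (θ x) (by rw [norm_sub_rev]; exact h5)
      have h8 : 0 ≤ wS (Ξ (i₀, τ)) (θ x) := apply_nonneg _ _
      have h9 : 0 ≤ X.P G τ (E'.subtype x) := apply_nonneg _ _
      show X.P G τ (E'.subtype x) ≤ 90 * wS (Ξ (i₀, τ)) (θ x) ∧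
        wS (Ξ (i₀, τ)) (θ x) ≤ 90 * X.P G τ (E'.subtype x)
      constructor
      · linarith [hx.1]
      · linarith [hx.2])
  obtain ⟨e, he1, he2⟩ := key
  have e20 : (20 : ℝ) * 90 ^ 2 = 162000 := by norm_num
  rw [e20] at he1 he2
  refine ⟨e, ?_, ?_⟩
  · intro z
    rw [hU.Φ]
    exact he1 z
  · intro z
    rw [hU.Φ]
    exact he2 z

end Pool.NG
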