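import Pool.Agent.Work.MP_3e8c7a_ng.InterfaceF

/-!
Block SEC of MP_3e8c7a_ng (helper46): one section.
-/

set_option autoImplicit false
set_option linter.unusedSectionVars false

namespace Pool.NG

open Module Pool.Agent.MP3e8c7a

/-- the real inequality of the two bounds -/
theorem SEC_real {β S u v p w P0 W : ℝ} (hβ : 0 < β) (hβ1 : 2 * β ≤ 1) (hS : 0 ≤ S)
    (h1 : u ≤ v + 4 / β * w) (h2 : v ≤ 162000 * max P0 W) (h3 : w ≤ 162000 * max P0 W)
    (h4 : P0 ≤ 61 / β ^ 2 * S) (h5 : W ≤ 15 / β * S) (hp : p = 5 * 10 ^ 7 / β ^ 3 * S) : u ≤ p := by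
  subst hp
  have hb : 0 ≤ 4 / β := by positivity
  have h6 : 15 / β * S ≤ 61 / β ^ 2 * S := by
    refine mul_le_mul_of_nonneg_right ?_ hS
    rw [div_le_div_iff₀ hβ (by positivity)]
    nlinarith
  have hM : max P0 W ≤ 61 / β ^ 2 * S := max_le h4 (h5.trans h6)
  have hK : 0 ≤ 61 / β ^ 2 * S := by positivity
  have h7 : u ≤ (1 + 4 / β) * (162000 * (61 / β ^ 2 * S)) := by
    have h8 : v ≤ 162000 * (61 / β ^ 2 * S) := h2.trans (by linarith)
    have h9 : w ≤ 162000 * (61 / β ^ 2 * S) := h3.trans (by linarith)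
    have h10 : 4 / β * w ≤ 4 / β * (162000 * (61 / β ^ 2 * S)) :=
      mul_le_mul_of_nonneg_left h9 hb
    linarith
  refine h7.trans ?_
  have h11 : 1 + 4 / β ≤ 5 / β := by
    rw [show (1 : ℝ) + 4 / β = (β + 4) / β by field_simp]
    exact div_le_div_of_nonneg_right (by linarith) hβ.le
  calc (1 + 4 / β) * (162000 * (61 / β ^ 2 * S))
      ≤ 5 / β * (162000 * (61 / β ^ 2 * S)) :=
        mul_le_mul_of_nonneg_right h11 (by positivity)
    _ = 49410000 / β ^ 3 * S := by field_simp; ring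
    _ ≤ 5 * 10 ^ 7 / β ^ 3 * S := by
        refine mul_le_mul_of_nonneg_right ?_ hS
        exact div_le_div_of_nonneg_right (by norm_num) (by positivity)

theorem p_SEC (h1 : Stmt_SPL) (h2 : Stmt_SEA) : Stmt_SEC := by
  intro n M t a N₁ m Q q X N₀ L G Ξ hU τ β hT E j hn hdim hc1 hc2 hg1 hg2
  obtain ⟨E', Ψ, hΨ⟩ := h1 n (Fin M) ((Fin q × Fin (t + 1)) × Fin a)
    ((Fin q × Fin (t + 1)) × Fin (N₁ + Q)) X N₀ L τ β hU.ok hT m E j hn hc1 hc2 hg1 hg2
  have hfr : finrank ℝ E = finrank ℝ E' + q * (t + 1) * a := by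
    rw [Ψ.finrank_eq, Module.finrank_prod, Module.finrank_fintype_fun_eq_card]
    simp
  have ha : a ≤ finrank ℝ E' := by omega
  obtain ⟨e, he1, he2⟩ := h2 n M t a N₁ m Q q X N₀ L G Ξ hU E' ha
  have hP0 : ∀ (k : ℕ) (x : Hn n), X.P G k (x, 0) = X.nX x := by
    intro k x
    rw [Cfg.P_apply, map_zero, map_zero, add_zero]
  have hP1 : ∀ (k : ℕ) (v : Hn n × (Fin m → ℝ)), X.nX v.1 ≤ X.P G k v := by
    intro k v
    rw [Cfg.P_apply]
    exact le_add_of_nonneg_right (apply_nonneg _ _)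
  have s0 := hΨ (X.P G 0) (hP0 0) (hP1 0)
  have st := hΨ (X.P G t) (hP0 t) (hP1 t)
  have hβ := hT.β0
  have hβ1 := hT.β1
  set T : E ≃ₗ[ℝ] E := Ψ.trans (e.trans Ψ.symm) with hTdef
  have hTx : ∀ x, Ψ (T x) = e (Ψ x) := by
    intro x
    simp [hTdef]
  have hA : (0 : ℝ) < 5 * 10 ^ 7 / β ^ 3 := by positivity
  have key := Iso.of_bounds (p := (X.P G 0).comp E.subtype) (r := (X.P G t).comp E.subtype) T
    (A := 5 * 10 ^ 7 / β ^ 3) (B := 5 * 10 ^ 7 / β ^ 3) hA ?_ ?_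
  · refine key.mono ?_
    rw [div_mul_div_comm, ← pow_add]
    exact div_le_div_of_nonneg_right (by norm_num) (by positivity)
  · intro x
    have e1 : e.symm (Ψ (T x)) = Ψ x := by rw [hTx]; simp
    have b := he2 (Ψ (T x))
    rw [e1] at b
    have c := st (T x)
    exact SEC_real hβ hβ1 (apply_nonneg _ _) (s0 x).2.2 b.1 b.2 c.1 c.2.1 rfl
  · intro x
    have b := he1 (Ψ x)
    rw [← hTx] at b
    have c := s0 x
    exact SEC_real hβ hβ1 (apply_nonneg _ _) (st (T x)).2.2 b.1 b.2 c.1 c.2.1 rfl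

end Pool.NG
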