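import Pool.Agent.Work.MP_3e8c7a_ng.Interface

/-! # Block SIG -/

set_option autoImplicit false
set_option linter.unusedSectionVars false

namespace Pool.NG

open Module Pool.Agent.MP3e8c7a

theorem SIG_tri {d : Type} [Fintype d] (u w : d → ℝ) : l2 (u + w) ≤ l2 u + l2 w := by
  have h := map_add_le_add (l2S d) u w
  rwa [l2S_apply, l2S_apply, l2S_apply] at h

theorem SIG_le {d : Type} [Fintype d] (u : d → ℝ) (K : ℝ) (hK : 0 ≤ K) (h : ∑ i, u i ^ 2 ≤ K ^ 2) :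
    l2 u ≤ K := by
  unfold l2
  exact Real.sqrt_le_iff.2 ⟨hK, h⟩

theorem SIG_inner {n : ℕ} {ι : Type} [Fintype ι] [DecidableEq ι] (b : ι → Hn n) (μ : ℝ) (hμ : 0 ≤ μ)
    (hu : ∀ c, ‖b c‖ = 1) (hc : ∀ c c', c ≠ c' → |inner ℝ (b c) (b c')| ≤ μ) (y : ι → ℝ) (c0 : ι) :
    |inner ℝ (b c0) (∑ c, y c • b c) - y c0| ≤ μ * ∑ c, |y c| := by
  have h1 : inner ℝ (b c0) (∑ c, y c • b c) - y c0 =
      ∑ c, y c * (inner ℝ (b c0) (b c) - if c = c0 then 1 else 0) := by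
    simp only [mul_sub, Finset.sum_sub_distrib, mul_ite, mul_one, mul_zero, Finset.sum_ite_eq',
      Finset.mem_univ, if_true]
    rw [inner_sum]
    simp only [inner_smul_right]
  rw [h1, Finset.mul_sum]
  refine (Finset.abs_sum_le_sum_abs _ _).trans (Finset.sum_le_sum fun c _ => ?_)
  rw [abs_mul, mul_comm μ]
  refine mul_le_mul_of_nonneg_left ?_ (abs_nonneg _)
  by_cases h : c = c0
  · subst h
    rw [if_pos rfl, real_inner_self_eq_norm_sq, hu c]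
    simpa using hμ
  · rw [if_neg h, sub_zero]
    exact hc _ _ (Ne.symm h)

theorem p_SIG (hLRA : Stmt_LRA) (hGRA : Stmt_GRA) (hTYY : Stmt_TYY) (hATT : Stmt_ATT) :
    Stmt_SIG := by
  classical
  intro n J d s _ _ _ X N₀ L hX j x
  obtain ⟨z, hz⟩ := hATT n J d s X hX.ρ0 x
  obtain ⟨hT, -, hy, -⟩ := hTYY n J d s X hX.D1 hX.phi z
  obtain ⟨hl, -, -⟩ := hLRA X.r (J × (d ⊕ s)) X.hr hX.r2.le
  have hL1 := hX.L1
  have hρ0 := hX.ρ0
  have hμ0 := hX.μ0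
  have hs0 : 0 ≤ √X.μ := Real.sqrt_nonneg _
  have hL6 : 1 ≤ L ^ 6 := one_le_pow₀ hL1
  have hs1 : √X.μ ≤ 1 := by
    have e1 : 1 * √X.μ ≤ L ^ 6 * √X.μ := mul_le_mul_of_nonneg_right hL6 hs0
    have e2 : 1 * X.ρ ≤ L ^ 6 * X.ρ := mul_le_mul_of_nonneg_right hL6 hρ0.le
    linarith [hX.sm1, hX.sm2]
  have hμs : X.μ = √X.μ * √X.μ := (Real.mul_self_sqrt hμ0.le).symm
  have hμs1 : X.μ ≤ √X.μ := by
    calc X.μ = √X.μ * √X.μ := hμs
      _ ≤ √X.μ * 1 := mul_le_mul_of_nonneg_left hs1 hs0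
      _ = √X.μ := mul_one _
  have hL26 : L ^ 2 ≤ L ^ 6 := pow_le_pow_right₀ hL1 (by norm_num)
  have hμρ : L ^ 2 * X.μ ≤ X.ρ := by
    calc L ^ 2 * X.μ ≤ L ^ 6 * √X.μ := mul_le_mul hL26 hμs1 hμ0.le (by positivity)
      _ ≤ X.ρ := hX.sm1
  have hρ1 : X.ρ ≤ 1 := by
    have e2 : 1 * X.ρ ≤ L ^ 6 * X.ρ := mul_le_mul_of_nonneg_right hL6 hρ0.le
    linarith [hX.sm2]
  have hLμ : L * X.μ ≤ 1 := by
    have e1 : L * X.μ ≤ L ^ 2 * X.μ := by
      refine mul_le_mul_of_nonneg_right ?_ hμ0.le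
      nlinarith
    linarith
  have hcoh : ∀ c c' : J × (d ⊕ s), c ≠ c' →
      |inner ℝ (X.b c.1 c.2) (X.b c'.1 c'.2)| ≤ X.μ := fun c c' h => hX.coh c c' h
  obtain ⟨-, g2⟩ := hGRA n (J × (d ⊕ s)) (fun c => X.b c.1 c.2) X.μ hμ0.le
    (fun c => hX.unit c.1 c.2) hcoh
  let e : d ↪ J × (d ⊕ s) := ⟨fun i => (j, Sum.inl i), fun a b h => by simpa using h⟩
  have hA := g2 (Finset.univ.map e) (x - X.T z) (by
    rw [Finset.card_map, Finset.card_univ]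
    refine le_trans ?_ hLμ
    exact mul_le_mul_of_nonneg_right hX.Ld hμ0.le)
  rw [Finset.sum_map] at hA
  have hlA : l2 (fun i : d => inner ℝ (X.b j (Sum.inl i)) (x - X.T z)) ≤ 2 * ‖x - X.T z‖ := by
    refine SIG_le _ _ (by positivity) (le_trans hA ?_)
    nlinarith [sq_nonneg ‖x - X.T z‖]
  have hlB : l2 (fun i : d => z (j, Sum.inl i)) ≤ lr X.r (X.wt z) := by
    refine le_trans ?_ (hl (X.wt z))
    unfold l2
    refine Real.sqrt_le_sqrt ?_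
    have h1 : ∑ i : d, z (j, Sum.inl i) ^ 2 = ∑ c ∈ Finset.univ.map e, X.wt z c ^ 2 := by
      rw [Finset.sum_map]
      rfl
    rw [h1]
    exact Finset.sum_le_sum_of_subset_of_nonneg (Finset.subset_univ _) fun c _ _ => sq_nonneg _
  obtain ⟨Z, hZ⟩ : ∃ Z, Z = ∑ c, |z c| := ⟨_, rfl⟩
  have hZ0 : 0 ≤ Z := by
    rw [hZ]
    exact Finset.sum_nonneg fun c _ => abs_nonneg _
  rw [← hZ] at hz hy
  have hyL : ∑ c, |X.yc z c| ≤ L * Z := hy.trans (mul_le_mul_of_nonneg_right hX.Lf hZ0)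
  have hC : ∀ i : d, |inner ℝ (X.b j (Sum.inl i)) (X.T z) - z (j, Sum.inl i)| ≤
      X.μ * (L * Z) := by
    intro i
    have h := SIG_inner (fun c : J × (d ⊕ s) => X.b c.1 c.2) X.μ hμ0.le
      (fun c => hX.unit c.1 c.2) hcoh (X.yc z) (j, Sum.inl i)
    rw [← hT] at h
    exact h.trans (mul_le_mul_of_nonneg_left hyL hμ0.le)
  have hlC : l2 (fun i : d => inner ℝ (X.b j (Sum.inl i)) (X.T z) - z (j, Sum.inl i)) ≤
      X.ρ * Z := by
    refine SIG_le _ _ (by positivity) ?_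
    have h1 : ∀ i ∈ (Finset.univ : Finset d),
        (inner ℝ (X.b j (Sum.inl i)) (X.T z) - z (j, Sum.inl i)) ^ 2 ≤ (X.μ * (L * Z)) ^ 2 := by
      intro i _
      rw [← sq_abs]
      exact pow_le_pow_left₀ (abs_nonneg _) (hC i) 2
    refine (Finset.sum_le_card_nsmul _ _ _ h1).trans ?_
    rw [nsmul_eq_mul, Finset.card_univ]
    calc (Fintype.card d : ℝ) * (X.μ * (L * Z)) ^ 2 ≤ L ^ 2 * (X.μ * (L * Z)) ^ 2 := by
          refine mul_le_mul_of_nonneg_right ?_ (sq_nonneg _)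
          have := hX.Ld
          nlinarith
      _ = ((L ^ 2 * X.μ) * Z) ^ 2 := by ring
      _ ≤ (X.ρ * Z) ^ 2 :=
          pow_le_pow_left₀ (by positivity) (mul_le_mul_of_nonneg_right hμρ hZ0) 2
  have hU : X.U j x = (fun i : d => inner ℝ (X.b j (Sum.inl i)) (x - X.T z)) +
      ((fun i : d => z (j, Sum.inl i)) +
        fun i : d => inner ℝ (X.b j (Sum.inl i)) (X.T z) - z (j, Sum.inl i)) := by
    funext i
    simp only [Pi.add_apply, Cfg.U_apply, inner_sub_right]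
    ring
  rw [hU]
  have t1 := SIG_tri (fun i : d => inner ℝ (X.b j (Sum.inl i)) (x - X.T z))
    ((fun i : d => z (j, Sum.inl i)) +
        fun i : d => inner ℝ (X.b j (Sum.inl i)) (X.T z) - z (j, Sum.inl i))
  have t2 := SIG_tri (fun i : d => z (j, Sum.inl i))
    (fun i : d => inner ℝ (X.b j (Sum.inl i)) (X.T z) - z (j, Sum.inl i))
  have hl0 : 0 ≤ lr X.r (X.wt z) := le_trans (by unfold l2; positivity) hlB
  have hZρ : 0 ≤ X.ρ * Z := by positivity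
  linarith

end Pool.NG
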