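import Pool.Agent.Work.MP_3e8c7a_ng.Interface

/-!
# MP_3e8c7a_an, THEOREM NEG, block SPL: splitting the section
-/

set_option autoImplicit false

namespace Pool.NG

open Module Pool.Agent.MP3e8c7a

theorem SPL_equiv {V W : Type} [AddCommGroup V] [Module ℝ V] [AddCommGroup W] [Module ℝ W]
    (E : Submodule ℝ V) (Λ : V →ₗ[ℝ] W) (K : W →ₗ[ℝ] V) (hK : ∀ w, K w ∈ E)
    (hΛ : ∀ w, Λ (K w) = w) :
    ∃ Ψ : E ≃ₗ[ℝ] ↥(E ⊓ LinearMap.ker Λ) × W,
      ∀ e : E, (((Ψ e).1 : ↥(E ⊓ LinearMap.ker Λ)) : V) = (e : V) - K (Λ e) ∧ (Ψ e).2 = Λ e := by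
  have hmem : ∀ e : E, (e : V) - K (Λ e) ∈ E ⊓ LinearMap.ker Λ := by
    intro e
    refine Submodule.mem_inf.2 ⟨E.sub_mem e.2 (hK _), ?_⟩
    rw [LinearMap.mem_ker, map_sub, hΛ, sub_self]
  have hmem2 : ∀ z : ↥(E ⊓ LinearMap.ker Λ) × W, (z.1 : V) + K z.2 ∈ E := by
    intro z
    exact E.add_mem z.1.2.1 (hK _)
  have hker : ∀ z : ↥(E ⊓ LinearMap.ker Λ), Λ (z : V) = 0 := fun z => z.2.2
  refine ⟨{ toFun := fun e => (⟨(e : V) - K (Λ e), hmem e⟩, Λ e)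
            map_add' := ?_
            map_smul' := ?_
            invFun := fun z => ⟨(z.1 : V) + K z.2, hmem2 z⟩
            left_inv := ?_
            right_inv := ?_ }, fun e => ⟨rfl, rfl⟩⟩
  · intro x y
    refine Prod.ext (Subtype.ext ?_) ?_
    · simp only [Submodule.coe_add, map_add, Prod.fst_add]
      abel
    · simp only [Submodule.coe_add, map_add, Prod.snd_add]
  · intro c x
    refine Prod.ext (Subtype.ext ?_) ?_
    · simp only [Submodule.coe_smul, map_smul, RingHom.id_apply, Prod.smul_fst]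
      rw [smul_sub]
    · simp only [Submodule.coe_smul, map_smul, RingHom.id_apply, Prod.smul_snd]
  · intro e
    refine Subtype.ext ?_
    simp only [sub_add_cancel]
  · intro z
    have h0 : Λ ((z.1 : V) + K z.2) = z.2 := by rw [map_add, hker, zero_add, hΛ]
    refine Prod.ext (Subtype.ext ?_) ?_
    · simp only [h0, add_sub_cancel_right]
    · exact h0

theorem p_SPL (h1 : Stmt_VIB) (h2 : Stmt_VIS) : Stmt_SPL := by
  intro n J d s _ _ _ _ _ X N₀ L τ β hok htau m E j hn hE1 hE2 hg1 hg2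
  obtain ⟨I, hI⟩ := h1 n J d s X N₀ L τ β hok htau _ j hE1 hn hg1
  have hV := h2 n J d s X N₀ L τ β hok htau _ j hE2 hn hg2
  obtain ⟨Ψ, hΨ⟩ := SPL_equiv E ((X.U j).comp (LinearMap.fst ℝ (Hn n) (Fin m → ℝ)))
    ((LinearMap.inl ℝ (Hn n) (Fin m → ℝ)).comp I) (fun w => (hI w).1) (fun w => (hI w).2.1)
  refine ⟨_, Ψ, ?_⟩
  intro p hp0 hp1 e
  obtain ⟨e1, e2⟩ := hΨ e
  have hβ := htau.β0
  have hβ1 := htau.β1
  -- the signal coordinates of `e`
  have e3 : (Ψ e).2 = X.U j (e : Hn n × (Fin m → ℝ)).1 := e2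
  have e4 : (((Ψ e).1 : _) : Hn n × (Fin m → ℝ)) =
      (e : Hn n × (Fin m → ℝ)) - (I (X.U j (e : Hn n × (Fin m → ℝ)).1), 0) := e1
  have h3 : wS X.Φ (X.U j (e : Hn n × (Fin m → ℝ)).1) ≤
      15 / β * X.nX (e : Hn n × (Fin m → ℝ)).1 := hV _ ⟨e, e.2, rfl⟩
  have h4 : X.nX (e : Hn n × (Fin m → ℝ)).1 ≤ p e := hp1 _
  have h5 : X.nX (I (X.U j (e : Hn n × (Fin m → ℝ)).1)) ≤
      4 / β * wS X.Φ (X.U j (e : Hn n × (Fin m → ℝ)).1) := (hI _).2.2
  have h6 : p ((I (X.U j (e : Hn n × (Fin m → ℝ)).1), 0) : Hn n × (Fin m → ℝ)) =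
      X.nX (I (X.U j (e : Hn n × (Fin m → ℝ)).1)) := hp0 _
  have hp : 0 ≤ p (e : Hn n × (Fin m → ℝ)) := apply_nonneg _ _
  have h7 : wS X.Φ (X.U j (e : Hn n × (Fin m → ℝ)).1) ≤ 15 / β * p e :=
    h3.trans (mul_le_mul_of_nonneg_left h4 (by positivity))
  refine ⟨?_, ?_, ?_⟩
  · rw [e4]
    have h8 : p ((e : Hn n × (Fin m → ℝ)) - (I (X.U j (e : Hn n × (Fin m → ℝ)).1), 0)) ≤
        p e + p ((I (X.U j (e : Hn n × (Fin m → ℝ)).1), 0) : Hn n × (Fin m → ℝ)) :=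
      map_sub_le_add p _ _
    have h9 : 4 / β * wS X.Φ (X.U j (e : Hn n × (Fin m → ℝ)).1) ≤ 4 / β * (15 / β * p e) :=
      mul_le_mul_of_nonneg_left h7 (by positivity)
    have h10 : 4 / β * (15 / β * p e) = 60 / β ^ 2 * p e := by
      field_simp
      ring
    have h11 : (1 : ℝ) ≤ 1 / β ^ 2 := by
      rw [le_div_iff₀ (by positivity)]
      nlinarith
    have h12 : (1 : ℝ) * p e ≤ 1 / β ^ 2 * p e := mul_le_mul_of_nonneg_right h11 hp
    have h13 : 61 / β ^ 2 * p e = 1 / β ^ 2 * p e + 60 / β ^ 2 * p e := by ring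
    rw [h13]
    linarith
  · rw [e3]
    exact h7
  · rw [e3]
    have h8 : (e : Hn n × (Fin m → ℝ)) =
        (((Ψ e).1 : _) : Hn n × (Fin m → ℝ)) + (I (X.U j (e : Hn n × (Fin m → ℝ)).1), 0) := by
      rw [e4, sub_add_cancel]
    have h9 : p (e : Hn n × (Fin m → ℝ)) ≤ p (((Ψ e).1 : _) : Hn n × (Fin m → ℝ)) +
        p ((I (X.U j (e : Hn n × (Fin m → ℝ)).1), 0) : Hn n × (Fin m → ℝ)) := by
      conv_lhs => rw [h8]
      exact map_add_le_add p _ _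
    linarith

end Pool.NG
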