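import Pool.Agent.Work.MP_3e8c7a_ng.Interface

/-! Block TBD (helper20). -/

set_option autoImplicit false

namespace Pool.NG

open Module Pool.Agent.MP3e8c7a

theorem p_TBD (h1 : Stmt_GRA) (h2 : Stmt_TYY) : Stmt_TBD := by
  intro n J d s _ _ _ X N₀ L hOk z
  obtain ⟨hT, hl2, habs, _⟩ := h2 n J d s X hOk.D1 hOk.phi z
  have hg := (h1 n (J × (d ⊕ s)) (fun c => X.b c.1 c.2) X.μ hOk.μ0.le (fun c => hOk.unit c.1 c.2)
    (fun c c' h => hOk.coh c c' h)).1 (X.yc z)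
  rw [hT]
  have hs : 0 ≤ ∑ c, |z c| := Finset.sum_nonneg fun c _ => abs_nonneg _
  have h3 : ∑ c, |X.yc z c| ≤ L * ∑ c, |z c| :=
    habs.trans (mul_le_mul_of_nonneg_right hOk.Lf hs)
  have h4 := mul_le_mul_of_nonneg_left h3 (Real.sqrt_nonneg X.μ)
  calc ‖∑ c, X.yc z c • X.b c.1 c.2‖ ≤ l2 (X.yc z) + Real.sqrt X.μ * ∑ c, |X.yc z c| := hg
    _ ≤ (X.D + 2) * l2 z + Real.sqrt X.μ * (L * ∑ c, |z c|) := add_le_add hl2 h4
    _ = (X.D + 2) * l2 z + L * Real.sqrt X.μ * ∑ c, |z c| := by ring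

end Pool.NG
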