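import Pool.Agent.Work.MP_3e8c7a_ng.Interface

set_option autoImplicit false

namespace Pool.NG

open Module Pool.Agent.MP3e8c7a

lemma TYP_iso {W E : Type} [AddCommGroup W] [Module ℝ W] [NormedAddCommGroup E] [InnerProductSpace ℝ E]
    [FiniteDimensional ℝ E] (f : W →ₗ[ℝ] E) (hf : Function.Injective f) (a : ℕ) (ha : finrank ℝ W = a) :
    ∃ θ : W ≃ₗ[ℝ] (Fin a → ℝ), ∀ x, l2 (θ x) = ‖f x‖ := by
  let R := LinearMap.range f
  let e1 : W ≃ₗ[ℝ] R := LinearEquiv.ofInjective f hf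
  have hR : finrank ℝ R = a := by rw [← e1.finrank_eq, ha]
  let b := (stdOrthonormalBasis ℝ R).reindex (finCongr hR)
  refine ⟨e1.trans (b.repr.toLinearEquiv.trans (WithLp.linearEquiv 2 ℝ (Fin a → ℝ))), fun x => ?_⟩
  rw [l2_eq_norm]
  show ‖b.repr (e1 x)‖ = _
  rw [LinearIsometryEquiv.norm_map]
  rfl

lemma TYP_enum {n : ℕ} {ι : Type} (Λ : Finset ι) (p : ι → Hn n) {N : ℕ} (h : Λ.card ≤ N) :
    ∃ u : Fin N → Hn n, (∀ c ∈ Λ, ∃ l, u l = p c) ∧ (∀ l, (∃ c ∈ Λ, u l = p c) ∨ u l = 0) ∧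
      ∀ x : Hn n, ∑ l, inner ℝ (u l) x ^ 2 = ∑ c ∈ Λ, inner ℝ (p c) x ^ 2 := by
  obtain ⟨r, rfl⟩ := Nat.exists_eq_add_of_le h
  refine ⟨Fin.append (fun i => p (Λ.equivFin.symm i)) (fun _ => 0), ?_, ?_, ?_⟩
  · intro c hc
    refine ⟨Fin.castAdd r (Λ.equivFin ⟨c, hc⟩), ?_⟩
    rw [Fin.append_left, Equiv.symm_apply_apply]
  · intro l
    refine Fin.addCases (fun i => ?_) (fun i => ?_) l
    · left
      refine ⟨Λ.equivFin.symm i, (Λ.equivFin.symm i).2, ?_⟩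
      rw [Fin.append_left]
    · right
      rw [Fin.append_right]
  · intro x
    rw [Fin.sum_univ_add]
    simp only [Fin.append_left, Fin.append_right, inner_zero_left]
    rw [Equiv.sum_comp Λ.equivFin.symm (fun c : Λ => inner ℝ (p c) x ^ 2),
      Finset.sum_coe_sort Λ (fun c => inner ℝ (p c) x ^ 2)]
    simp

lemma TYP_map {n m Q N : ℕ} (u : Fin N → Hn n) (G : (Fin m → ℝ) →ₗ[ℝ] (Fin Q → ℝ)) (c : ℝ) :
    ∃ B : Hn n × (Fin m → ℝ) →ₗ[ℝ] (Fin (N + Q) → ℝ), (∀ x l, B x (Fin.castAdd Q l) = inner ℝ (u l) x.1) ∧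
      ∀ x k, B x (Fin.natAdd N k) = c * G x.2 k := by
  refine ⟨LinearMap.pi fun l => Fin.addCases (motive := fun _ => Hn n × (Fin m → ℝ) →ₗ[ℝ] ℝ)
    (fun i => (innerₛₗ ℝ (u i)) ∘ₗ LinearMap.fst ℝ (Hn n) (Fin m → ℝ))
    (fun k => c • (LinearMap.proj k ∘ₗ G ∘ₗ LinearMap.snd ℝ (Hn n) (Fin m → ℝ))) l, ?_, ?_⟩
  · intro x l
    rw [LinearMap.pi_apply, Fin.addCases_left]
    rfl
  · intro x k
    rw [LinearMap.pi_apply, Fin.addCases_right]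
    rfl

lemma TYP_mv {a : ℕ} {s : Type} (M : (Fin a → ℝ) →ₗ[ℝ] (s → ℝ)) (w : Fin a → ℝ) :
    mv (fun l i => M (fun j => if i = j then 1 else 0) l) w = M w := by
  funext l
  rw [mv_apply, LinearMap.pi_apply_eq_sum_univ M w, Finset.sum_apply]
  refine Finset.sum_congr rfl fun i _ => ?_
  rw [Pi.smul_apply, smul_eq_mul, mul_comm]

lemma TYP_l2_nonneg {ι : Type} [Fintype ι] (z : ι → ℝ) : 0 ≤ l2 z := Real.sqrt_nonneg _

lemma TYP_l2_sq {ι : Type} [Fintype ι] (z : ι → ℝ) : l2 z ^ 2 = ∑ i, z i ^ 2 :=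
  Real.sq_sqrt (Finset.sum_nonneg fun _ _ => sq_nonneg _)

lemma TYP_le {a b : ℝ} (h : a ^ 2 ≤ b ^ 2) (hb : 0 ≤ b) : a ≤ b := (abs_le_of_sq_le_sq' h hb).2

lemma TYP_l2_zero {ι : Type} [Fintype ι] (z : ι → ℝ) (h : l2 z = 0) : z = 0 := by
  have h1 := TYP_l2_sq z
  rw [h] at h1
  have h2 : ∑ i, z i ^ 2 = 0 := by rw [← h1]; norm_num
  rw [Finset.sum_eq_zero_iff_of_nonneg (fun _ _ => sq_nonneg _)] at h2
  funext i
  have := h2 i (Finset.mem_univ i)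
  simpa using this

lemma TYP_f {k Q : ℕ} {W : Type} [AddCommGroup W] [Module ℝ W] (S : W →ₗ[ℝ] Hn k) (g : W →ₗ[ℝ] (Fin Q → ℝ)) (c : ℝ) :
    ∃ f : W →ₗ[ℝ] WithLp 2 (Hn k × EuclideanSpace ℝ (Fin Q)), ∀ x,
      ‖f x‖ ^ 2 = 9 * (‖S x‖ ^ 2 + (c * l2 (g x)) ^ 2) := by
  refine ⟨(WithLp.linearEquiv 2 ℝ (Hn k × EuclideanSpace ℝ (Fin Q))).symm.toLinearMap ∘ₗ
    LinearMap.prod ((3 : ℝ) • S) ((3 * c) • ((WithLp.linearEquiv 2 ℝ (Fin Q → ℝ)).symm.toLinearMap ∘ₗ g)), fun x => ?_⟩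
  rw [WithLp.prod_norm_sq_eq_of_L2]
  show ‖(3 : ℝ) • S x‖ ^ 2 + ‖(3 * c) • (WithLp.toLp 2 (g x) : EuclideanSpace ℝ (Fin Q))‖ ^ 2 = _
  rw [norm_smul, norm_smul, ← l2_eq_norm (g x), mul_pow, mul_pow, Real.norm_eq_abs, Real.norm_eq_abs, sq_abs, sq_abs]
  ring

theorem p_TYP (hEUC : Stmt_EUC) (hCLS : Stmt_CLS) : Stmt_TYP := by
  intro n J d s _ _ _ X N₀ L a N₁ hOk h1 h2 h3 m Q t G hG A hA
  have hD : 1 ≤ X.D := hOk.D1
  have hD0 : 0 < X.D := by linarith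
  have hEu := hEUC n J d s X N₀ L hOk
  obtain ⟨F, hF⟩ : ∃ F, F = A.map (LinearMap.fst ℝ (Hn n) (Fin m → ℝ)) := ⟨_, rfl⟩
  have hFa : finrank ℝ F ≤ a := by
    rw [hF, ← hA]
    exact Submodule.finrank_map_le _ _
  obtain ⟨S, Λ, hΛ, hS⟩ := hCLS n J d s X N₀ L a N₁ hOk h1 h2 h3 F hFa
  obtain ⟨u, hu1, hu2, hu3⟩ := TYP_enum Λ X.psi hΛ
  obtain ⟨π, hπ⟩ : ∃ π : A →ₗ[ℝ] F, ∀ x : A, ((π x : F) : Hn n) = x.1.1 :=
    ⟨((LinearMap.fst ℝ (Hn n) (Fin m → ℝ)).domRestrict A).codRestrict F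
      (fun x => by rw [hF]; exact Submodule.mem_map_of_mem x.2), fun _ => rfl⟩
  obtain ⟨f, hf⟩ := TYP_f (S.toLinearMap ∘ₗ π) (G ∘ₗ LinearMap.snd ℝ (Hn n) (Fin m → ℝ) ∘ₗ A.subtype) X.D⁻¹
  have hf' : ∀ x : A, ‖f x‖ ^ 2 = 9 * (‖S (π x)‖ ^ 2 + (X.D⁻¹ * l2 (G x.1.2)) ^ 2) := fun x => hf x
  have hinj : Function.Injective f := by
    rw [injective_iff_map_eq_zero]
    intro x hx
    have e := hf' x
    rw [hx, norm_zero] at e
    have e1 : ‖S (π x)‖ = 0 := by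
      have := sq_nonneg (X.D⁻¹ * l2 (G x.1.2))
      have h5 : ‖S (π x)‖ ^ 2 = 0 := le_antisymm (by nlinarith) (sq_nonneg _)
      simpa using h5
    have e2 : X.D⁻¹ * l2 (G x.1.2) = 0 := by
      have := sq_nonneg ‖S (π x)‖
      have h5 : (X.D⁻¹ * l2 (G x.1.2)) ^ 2 = 0 := le_antisymm (by nlinarith) (sq_nonneg _)
      exact pow_eq_zero_iff (two_ne_zero) |>.1 h5
    have e3 : π x = 0 := by
      have : S (π x) = 0 := norm_eq_zero.1 e1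
      exact S.map_eq_zero_iff.1 this
    have e4 : l2 (G x.1.2) = 0 := by
      rcases mul_eq_zero.1 e2 with h | h
      · exact absurd h (inv_ne_zero hD0.ne')
      · exact h
    have e5 : G x.1.2 = 0 := TYP_l2_zero _ e4
    have e6 : x.1.2 = 0 := hG (by rw [e5, map_zero])
    have e7 : x.1.1 = 0 := by rw [← hπ x, e3]; rfl
    exact Subtype.ext (Prod.ext e7 e6)
  obtain ⟨θ, hθ⟩ := TYP_iso f hinj a hA
  choose B hB1 hB2 using fun τ : Fin (t + 1) => TYP_map u G (((1 : ℝ) / 2) ^ (τ : ℕ))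
  have hmv : ∀ (τ : Fin (t + 1)) (w : Fin a → ℝ),
      mv (fun l i => B τ (θ.symm (fun j => if i = j then 1 else 0)).1 l) w = B τ (θ.symm w).1 := by
    intro τ w
    exact TYP_mv (B τ ∘ₗ A.subtype ∘ₗ θ.symm.toLinearMap) w
  have hp1 : ∀ τ : ℕ, 0 < ((1 : ℝ) / 2) ^ τ := fun τ => by positivity
  have hp2 : ∀ τ : ℕ, ((1 : ℝ) / 2) ^ τ ≤ 1 := fun τ => pow_le_one₀ (by norm_num) (by norm_num)
  -- the facts for one vector
  have key : ∀ x : A, l2 (θ x) ^ 2 = 9 * (‖S (π x)‖ ^ 2 + (X.D⁻¹ * l2 (G x.1.2)) ^ 2) := fun x => by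
    rw [hθ x, hf' x]
  refine ⟨θ, fun τ l i => B τ (θ.symm (fun j => if i = j then 1 else 0)).1 l, ?_, ?_⟩
  · intro τ w
    rw [hmv τ w]
    obtain ⟨x, hx⟩ : ∃ x, x = θ.symm w := ⟨_, rfl⟩
    have hw : w = θ x := by rw [hx, LinearEquiv.apply_symm_apply]
    rw [← hx, hw]
    refine TYP_le ?_ (mul_nonneg hD0.le (TYP_l2_nonneg _))
    rw [mul_pow, key x, TYP_l2_sq, Fin.sum_univ_add]
    simp only [hB1, hB2]
    rw [hu3]
    have hc := (hS (π x)).2.2.2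
    rw [hπ x] at hc
    have hc2 : ∑ c ∈ Λ, inner ℝ (X.psi c) x.1.1 ^ 2 ≤ (3 * X.D * ‖S (π x)‖) ^ 2 := by
      have hnn : 0 ≤ ∑ c ∈ Λ, inner ℝ (X.psi c) x.1.1 ^ 2 := Finset.sum_nonneg fun i _ => sq_nonneg _
      calc ∑ c ∈ Λ, inner ℝ (X.psi c) x.1.1 ^ 2 = Real.sqrt (∑ c ∈ Λ, inner ℝ (X.psi c) x.1.1 ^ 2) ^ 2 :=
            (Real.sq_sqrt hnn).symm
        _ ≤ _ := pow_le_pow_left₀ (Real.sqrt_nonneg _) hc 2
    have hg : ∑ k, (((1 : ℝ) / 2) ^ (τ : ℕ) * G x.1.2 k) ^ 2 ≤ l2 (G x.1.2) ^ 2 := by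
      rw [TYP_l2_sq]
      refine Finset.sum_le_sum fun k _ => ?_
      rw [mul_pow]
      have h5 : (((1 : ℝ) / 2) ^ (τ : ℕ)) ^ 2 ≤ 1 := pow_le_one₀ (hp1 _).le (hp2 _)
      nlinarith [sq_nonneg (G x.1.2 k)]
    have he : X.D ^ 2 * (9 * (‖S (π x)‖ ^ 2 + (X.D⁻¹ * l2 (G x.1.2)) ^ 2)) =
        (3 * X.D * ‖S (π x)‖) ^ 2 + 9 * l2 (G x.1.2) ^ 2 := by
      have h6 : X.D * (X.D⁻¹ * l2 (G x.1.2)) = l2 (G x.1.2) := by
        rw [← mul_assoc, mul_inv_cancel₀ hD0.ne', one_mul]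
      have h7 : X.D ^ 2 * (9 * (‖S (π x)‖ ^ 2 + (X.D⁻¹ * l2 (G x.1.2)) ^ 2)) =
          (3 * X.D * ‖S (π x)‖) ^ 2 + 9 * (X.D * (X.D⁻¹ * l2 (G x.1.2))) ^ 2 := by ring
      rw [h7, h6]
    rw [he]
    nlinarith [sq_nonneg (l2 (G x.1.2))]
  · intro τ x
    rw [wS_apply, hmv τ (θ x), LinearEquiv.symm_apply_apply, Cfg.P_apply, Cfg.nX_apply, qS_apply hD0]
    obtain ⟨hS1, hS2, hS3, hS4⟩ := hS (π x)
    rw [hπ x] at hS1 hS2 hS3 hS4
    have hk := key x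
    have hb1 : ∀ l, |inner ℝ (u l) x.1.1| ≤ ‖B τ x.1‖ := fun l => by
      rw [← hB1 τ x.1 l, ← Real.norm_eq_abs]
      exact norm_le_pi_norm _ _
    have hb2 : ((1 : ℝ) / 2) ^ (τ : ℕ) * ‖G x.1.2‖ ≤ ‖B τ x.1‖ := by
      have h5 : ‖((1 : ℝ) / 2) ^ (τ : ℕ) • G x.1.2‖ ≤ ‖B τ x.1‖ := by
        rw [pi_norm_le_iff_of_nonneg (norm_nonneg _)]
        intro k
        rw [Pi.smul_apply, smul_eq_mul, ← hB2 τ x.1 k]
        exact norm_le_pi_norm _ _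
      rw [norm_smul, Real.norm_eq_abs, abs_of_pos (hp1 _)] at h5
      exact h5
    have hev : ‖X.ev x.1.1‖ ≤ max ‖S (π x)‖ ‖B τ x.1‖ := by
      rw [pi_norm_le_iff_of_nonneg (le_max_of_le_left (norm_nonneg _))]
      intro c
      rw [Cfg.ev_apply, Real.norm_eq_abs]
      by_cases hc : c ∈ Λ
      · obtain ⟨l, hl⟩ := hu1 c hc
        rw [← hl]
        exact le_max_of_le_right (hb1 l)
      · exact le_max_of_le_left (hS3 c hc)
    have hB : ‖B τ x.1‖ ≤ max ‖X.ev x.1.1‖ (((1 : ℝ) / 2) ^ (τ : ℕ) * ‖G x.1.2‖) := by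
      rw [pi_norm_le_iff_of_nonneg (le_max_of_le_left (norm_nonneg _))]
      intro l
      refine Fin.addCases (fun i => ?_) (fun k => ?_) l
      · rw [hB1, Real.norm_eq_abs]
        rcases hu2 i with ⟨c, _, hc⟩ | hc
        · rw [hc, ← Cfg.ev_apply, ← Real.norm_eq_abs]
          exact le_max_of_le_left (norm_le_pi_norm _ _)
        · rw [hc, inner_zero_left, abs_zero]
          exact le_max_of_le_left (norm_nonneg _)
      · rw [hB2, norm_mul, Real.norm_eq_abs, abs_of_pos (hp1 _)]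
        exact le_max_of_le_right (mul_le_mul_of_nonneg_left (norm_le_pi_norm _ _) (hp1 _).le)
    have hg0 : 0 ≤ X.D⁻¹ * l2 (G x.1.2) := mul_nonneg (inv_nonneg.2 hD0.le) (TYP_l2_nonneg _)
    have hN0 := TYP_l2_nonneg (θ x)
    have hs0 := norm_nonneg (S (π x))
    have hq0 : 0 ≤ ((1 : ℝ) / 2) ^ (τ : ℕ) * ‖G x.1.2‖ := mul_nonneg (hp1 _).le (norm_nonneg _)
    have hn0 : 0 ≤ X.N2 x.1.1 := apply_nonneg _ _
    have he0 := norm_nonneg (X.ev x.1.1)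
    generalize l2 (θ x) = N at *
    generalize ‖S (π x)‖ = σ at *
    generalize X.D⁻¹ * l2 (G x.1.2) = g at *
    generalize ((1 : ℝ) / 2) ^ (τ : ℕ) * ‖G x.1.2‖ = q at *
    generalize ‖B τ x.1‖ = b at *
    generalize ‖X.ev x.1.1‖ = e at *
    generalize X.N2 x.1.1 = p at *
    have hsN : σ ≤ N := by
      refine TYP_le ?_ hN0
      nlinarith [sq_nonneg g, sq_nonneg σ]
    have hgN : g ≤ N := by
      refine TYP_le ?_ hN0
      nlinarith [sq_nonneg g, sq_nonneg σ]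
    have hNs : N ≤ 3 * (σ + g) := by
      refine TYP_le ?_ (by positivity)
      nlinarith [mul_nonneg hs0 hg0]
    constructor
    · have a1 : max p e ≤ max N b := by
        refine max_le ?_ ?_
        · exact le_max_of_le_left (hS1.trans hsN)
        · exact hev.trans (max_le_max hsN le_rfl)
      have a2 : max g q ≤ max N b := max_le_max hgN hb2
      linarith
    · have a1 : p ≤ max p e := le_max_left _ _
      have a2 : e ≤ max p e := le_max_right _ _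
      have a3 : g ≤ max g q := le_max_left _ _
      have a4 : q ≤ max g q := le_max_right _ _
      refine max_le ?_ ?_
      · nlinarith
      · refine hB.trans (max_le ?_ ?_)
        · linarith
        · linarith

end Pool.NG
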