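import Pool.Agent.Work.MP_3e8c7a_ng.Interface

/-! Block TYY. -/

set_option autoImplicit false
set_option linter.unusedSectionVars false

namespace Pool.NG

open Module Pool.Agent.MP3e8c7a

lemma TYY_sq {ι : Type} [Fintype ι] (z : ι → ℝ) : l2 z ^ 2 = ∑ i, z i ^ 2 := by
  rw [l2, Real.sq_sqrt (Finset.sum_nonneg fun i _ => sq_nonneg _)]

lemma TYY_nn {ι : Type} [Fintype ι] (z : ι → ℝ) : 0 ≤ l2 z := Real.sqrt_nonneg _

lemma TYY_le {ι κ : Type} [Fintype ι] [Fintype κ] (z : ι → ℝ) (w : κ → ℝ) (D : ℝ) (hD : 0 ≤ D)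
    (h : ∑ i, z i ^ 2 ≤ D ^ 2 * ∑ i, w i ^ 2) : l2 z ≤ D * l2 w := by
  refine abs_le_of_sq_le_sq' ?_ (mul_nonneg hD (TYY_nn w)) |>.2
  rw [mul_pow, TYY_sq, TYY_sq]
  exact h

theorem p_TYY : Stmt_TYY := by
  intro n J d s _ _ _ X hD hΦ z
  have hD0 : 0 ≤ X.D := by linarith
  refine ⟨?_, ?_, ?_, ?_⟩
  · rw [Cfg.T_apply, Fintype.sum_prod_type, Fintype.sum_prod_type]
    refine Finset.sum_congr rfl fun j _ => ?_
    rw [Fintype.sum_sum_type, Fintype.sum_sum_type]
    simp only [Cfg.g, Cfg.yc, smul_sub, sub_smul, Finset.sum_sub_distrib, Finset.smul_sum,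
      Finset.sum_smul, smul_smul]
    rw [Finset.sum_comm (f := fun (i : d) (l : s) =>
      (z (j, Sum.inl i) * X.Φ l i) • X.b j (Sum.inr l))]
    have e : ∀ (l : s) (i : d), (z (j, Sum.inl i) * X.Φ l i) • X.b j (Sum.inr l) =
        (X.Φ l i * z (j, Sum.inl i)) • X.b j (Sum.inr l) := fun l i => by rw [mul_comm]
    simp only [e]
    abel
  · set y2 : J × (d ⊕ s) → ℝ := fun c => Sum.elim (fun _ => 0)
      (fun l => mv X.Φ (fun i => z (c.1, Sum.inl i)) l) c.2 with hy2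
    have e1 : X.yc z = z - y2 := by
      funext c
      rcases c with ⟨j, i | l⟩
      · simp [hy2, Cfg.yc]
      · simp [hy2, Cfg.yc]
    have e2 : l2 y2 ≤ X.D * l2 z := by
      refine TYY_le _ _ _ hD0 ?_
      rw [Fintype.sum_prod_type, Fintype.sum_prod_type, Finset.mul_sum]
      refine Finset.sum_le_sum fun j _ => ?_
      rw [Fintype.sum_sum_type, Fintype.sum_sum_type]
      have h1 : ∑ l : s, y2 (j, Sum.inr l) ^ 2 = l2 (mv X.Φ (fun i => z (j, Sum.inl i))) ^ 2 := by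
        rw [TYY_sq]
        rfl
      have h2 : ∑ i : d, y2 (j, Sum.inl i) ^ 2 = 0 := by
        simp [hy2]
      have h3 : l2 (mv X.Φ (fun i => z (j, Sum.inl i))) ^ 2 ≤
          X.D ^ 2 * ∑ i, z (j, Sum.inl i) ^ 2 := by
        have := hΦ (fun i => z (j, Sum.inl i))
        calc l2 (mv X.Φ (fun i => z (j, Sum.inl i))) ^ 2
            ≤ (X.D * l2 (fun i => z (j, Sum.inl i))) ^ 2 := by
              gcongr
              exact TYY_nn _
          _ = X.D ^ 2 * ∑ i, z (j, Sum.inl i) ^ 2 := by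
              rw [mul_pow, TYY_sq]
      rw [h1, h2, zero_add, mul_add]
      have h4 : 0 ≤ X.D ^ 2 * ∑ l : s, z (j, Sum.inr l) ^ 2 := by positivity
      linarith
    have e3 : l2 (X.yc z) ≤ l2 z + l2 y2 := by
      rw [e1]
      have := map_sub_le_add (l2S (J × (d ⊕ s))) z y2
      simpa only [l2S_apply] using this
    have := TYY_nn z
    nlinarith
  · rw [Fintype.sum_prod_type, Fintype.sum_prod_type, Finset.mul_sum]
    refine Finset.sum_le_sum fun j _ => ?_
    rw [Fintype.sum_sum_type, Fintype.sum_sum_type]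
    simp only [Cfg.yc]
    have h1 : ∀ l : s, |z (j, Sum.inr l) - ∑ i, X.Φ l i * z (j, Sum.inl i)| ≤
        |z (j, Sum.inr l)| + ∑ i, |X.Φ l i| * |z (j, Sum.inl i)| := by
      intro l
      refine (abs_sub _ _).trans (add_le_add le_rfl ?_)
      refine (Finset.abs_sum_le_sum_abs _ _).trans (le_of_eq ?_)
      exact Finset.sum_congr rfl fun i _ => abs_mul _ _
    have h2 : ∑ l : s, |z (j, Sum.inr l) - ∑ i, X.Φ l i * z (j, Sum.inl i)| ≤
        ∑ l : s, |z (j, Sum.inr l)| + ∑ l : s, ∑ i, |X.Φ l i| * |z (j, Sum.inl i)| := by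
      rw [← Finset.sum_add_distrib]
      exact Finset.sum_le_sum fun l _ => h1 l
    have h3 : ∑ l : s, ∑ i, |X.Φ l i| * |z (j, Sum.inl i)| ≤
        (X.f - 1) * ∑ i, |z (j, Sum.inl i)| := by
      rw [Finset.sum_comm, Finset.mul_sum]
      refine Finset.sum_le_sum fun i _ => ?_
      rw [← Finset.sum_mul]
      refine mul_le_mul_of_nonneg_right ?_ (abs_nonneg _)
      have : X.f - 1 = ∑ l, ∑ i, |X.Φ l i| := by
        simp [Cfg.f]
      rw [this]
      refine Finset.sum_le_sum fun l _ => ?_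
      exact Finset.single_le_sum (f := fun i => |X.Φ l i|) (fun i _ => abs_nonneg _)
        (Finset.mem_univ i)
    have h4 : 0 ≤ X.f - 1 := by
      have : X.f - 1 = ∑ l, ∑ i, |X.Φ l i| := by
        simp [Cfg.f]
      rw [this]
      positivity
    have h5 : 0 ≤ (X.f - 1) * ∑ l : s, |z (j, Sum.inr l)| := by positivity
    nlinarith
  · refine TYY_le _ _ _ hD0 ?_
    rw [Finset.mul_sum]
    refine Finset.sum_le_sum fun c _ => ?_
    rcases c with ⟨j, i | l⟩
    · rw [Cfg.wt_inl]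
      have : 1 ≤ X.D ^ 2 := by nlinarith
      nlinarith [sq_nonneg (z (j, Sum.inl i))]
    · rw [Cfg.wt_inr]
      have hne : X.D ≠ 0 := by linarith
      have : X.D ^ 2 * (X.D⁻¹ * z (j, Sum.inr l)) ^ 2 = z (j, Sum.inr l) ^ 2 := by
        field_simp
      rw [this]

end Pool.NG
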