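import Pool.Agent.Work.MP_3e8c7a_ng.Interface

/-!
# MP_3e8c7a_an, THEOREM NEG, block UAG
-/

set_option autoImplicit false

namespace Pool.NG

open Module Pool.Agent.MP3e8c7a

/-- enlarging a subspace to a given dimension -/
lemma UAG_super {W : Type} [AddCommGroup W] [Module ℝ W] [FiniteDimensional ℝ W]
    (F : Submodule ℝ W) (j : ℕ) (hj : finrank ℝ F + j ≤ finrank ℝ W) :
    ∃ F' : Submodule ℝ W, F ≤ F' ∧ finrank ℝ F' = finrank ℝ F + j := by
  induction j with
  | zero => exact ⟨F, le_refl _, rfl⟩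
  | succ j ih =>
    obtain ⟨F', h1, h2⟩ := ih (by omega)
    have hlt : finrank ℝ F' < finrank ℝ W := by omega
    have hne : ∃ x, x ∉ F' := by
      by_contra h
      push Not at h
      have h3 : F' = ⊤ := (Submodule.eq_top_iff').2 h
      rw [h3, finrank_top] at hlt
      omega
    obtain ⟨v, hv⟩ := hne
    refine ⟨F' ⊔ Submodule.span ℝ {v}, h1.trans le_sup_left, ?_⟩
    rw [Submodule.finrank_sup_span_singleton hv, h2]
    omega

theorem p_UAG (h1 : Stmt_UAP) : Stmt_UAG := by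
  intro D t m hD
  obtain ⟨R, hR⟩ := h1 D t m hD
  refine ⟨R, ?_⟩
  intro W _ _ _ N p hE hN hp B a hRa haW
  obtain ⟨T, hT⟩ := Pool.EH.Eu.exists_equiv hN hE
  have hTn : ∀ x, ‖T x‖ = N x := fun x => le_antisymm (hT x).1 (by simpa using (hT x).2)
  let p' : Fin (t + 1) → Seminorm ℝ (Hn (finrank ℝ W)) := fun τ => (p τ).comp T.symm.toLinearMap
  have hp' : ∀ τ y, p' τ y = p τ (T.symm y) := fun τ y => rfl
  have hb : ∀ τ y, ‖y‖ ≤ p' τ y ∧ p' τ y ≤ D * ‖y‖ := by
    intro τ y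
    have e : ‖y‖ = N (T.symm y) := by rw [← hTn, T.apply_symm_apply]
    rw [e, hp']
    exact hp τ _
  obtain ⟨A', S', hA', hS', hB', hpS⟩ := hR (finrank ℝ W) p' hb (B ∘ₗ T.symm.toLinearMap)
  have hfin : finrank ℝ (A'.map T.symm.toLinearMap) = finrank ℝ A' :=
    LinearEquiv.finrank_map_eq T.symm A'
  obtain ⟨A, hAA, hA⟩ := UAG_super (A'.map T.symm.toLinearMap) (a - finrank ℝ A') (by omega)
  refine ⟨A, T.symm.toLinearMap ∘ₗ S' ∘ₗ T.toLinearMap, by omega, ?_, ?_, ?_⟩
  · intro x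
    exact hAA (Submodule.mem_map_of_mem (hS' (T x)))
  · intro x
    have e := hB' (T x)
    have e2 : (B ∘ₗ T.symm.toLinearMap) (T x) = B x := by
      show B (T.symm (T x)) = B x
      rw [T.symm_apply_apply]
    exact e.trans e2
  · intro τ x
    have e := hpS τ (T x)
    rw [hp', hp', T.symm_apply_apply] at e
    exact e

end Pool.NG
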