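import Pool.Agent.Work.MP_3e8c7a_ng.Interface

/-!
# MP_3e8c7a_an, THEOREM NEG, block UAP
-/

set_option autoImplicit false

namespace Pool.NG

open Module Pool.Agent.MP3e8c7a

lemma UAP_sum {W : Type} [AddCommGroup W] [Module ℝ W] (p : Seminorm ℝ W) (v : ℕ → W) (n : ℕ) :
    p (∑ i ∈ Finset.range n, v i) ≤ ∑ i ∈ Finset.range n, p (v i) := by
  induction n with
  | zero => simp
  | succ n ih =>
    rw [Finset.sum_range_succ, Finset.sum_range_succ]
    exact (map_add_le_add p _ _).trans (by linarith)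

/-- `f ∈ K`: the inner product with `x` is the inner product with the projection -/
lemma UAP_inner {k : ℕ} (K : Submodule ℝ (Hn k)) {f : Hn k} (hf : f ∈ K) (x : Hn k) :
    inner ℝ f (K.starProjection x) = inner ℝ f x := by
  have h : inner ℝ f (x - K.starProjection x) = 0 :=
    Submodule.inner_right_of_mem_orthogonal hf (Submodule.sub_starProjection_mem_orthogonal x)
  rw [inner_sub_right] at h
  linarith

/-- Pythagoras for nested subspaces -/
lemma UAP_pyth {k : ℕ} {K K' : Submodule ℝ (Hn k)} (h : K ≤ K') (x : Hn k) :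
    ‖K'.starProjection x - K.starProjection x‖ ^ 2 = ‖K'.starProjection x‖ ^ 2 - ‖K.starProjection x‖ ^ 2 := by
  have h1 : inner ℝ (K.starProjection x) (K'.starProjection x - K.starProjection x) = 0 := by
    have hm : K.starProjection x ∈ K := K.starProjection_apply_mem x
    rw [inner_sub_right, UAP_inner K' (h hm) x, UAP_inner K hm x, sub_self]
  have h2 : K'.starProjection x = K.starProjection x + (K'.starProjection x - K.starProjection x) := by abel
  have h3 := norm_add_sq_real (K.starProjection x) (K'.starProjection x - K.starProjection x)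
  rw [← h2, h1] at h3
  linarith

/-- telescoping -/
lemma UAP_tel {k : ℕ} (H : ℕ → Submodule ℝ (Hn k)) (hH : ∀ i, H i ≤ H (i + 1)) (x : Hn k) (L : ℕ) :
    ∑ i ∈ Finset.range L, ‖(H (i + 1)).starProjection x - (H i).starProjection x‖ ^ 2 ≤ ‖x‖ ^ 2 := by
  have h1 : ∑ i ∈ Finset.range L, ‖(H (i + 1)).starProjection x - (H i).starProjection x‖ ^ 2 =
      ∑ i ∈ Finset.range L, (‖(H (i + 1)).starProjection x‖ ^ 2 - ‖(H i).starProjection x‖ ^ 2) :=
    Finset.sum_congr rfl fun i _ => UAP_pyth (hH i) x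
  rw [h1, Finset.sum_range_sub (fun i => ‖(H i).starProjection x‖ ^ 2)]
  have h2 : ‖(H L).starProjection x‖ ≤ ‖x‖ := (H L).norm_starProjection_apply_le x
  have h3 : 0 ≤ ‖(H L).starProjection x‖ := norm_nonneg _
  have h4 : 0 ≤ ‖(H 0).starProjection x‖ ^ 2 := by positivity
  nlinarith

lemma UAP_fin {L D px nx sg : ℝ} (hL : 0 < L) (h4 : 4 * D ^ 2 ≤ L) (hD : 1 ≤ D) (hsg : 0 ≤ sg) (hnx : 0 ≤ nx)
    (hx : nx ≤ px) (hcs : sg ^ 2 ≤ L * nx ^ 2) : 5 / 4 * (L * px + D * sg) ≤ L * (2 * px) := by
  have hkey : D * sg ≤ L / 2 * nx := by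
    have e2 : D ^ 2 * sg ^ 2 ≤ D ^ 2 * (L * nx ^ 2) := mul_le_mul_of_nonneg_left hcs (sq_nonneg D)
    have e3 : D ^ 2 * (L * nx ^ 2) ≤ (L / 4) * (L * nx ^ 2) :=
      mul_le_mul_of_nonneg_right (by linarith) (mul_nonneg hL.le (sq_nonneg nx))
    have e1 : (D * sg) ^ 2 ≤ (L / 2 * nx) ^ 2 := by nlinarith
    exact abs_le_of_sq_le_sq' e1 (by positivity) |>.2
  have hpx : 0 ≤ px := hnx.trans hx
  have e1 : L / 2 * nx ≤ L / 2 * px := mul_le_mul_of_nonneg_left hx (by linarith)
  have e2 : 0 ≤ L * px := mul_nonneg hL.le hpx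
  linarith

theorem p_UAP (h1 : Stmt_UTW) : Stmt_UAP := by
  intro D t m hD
  obtain ⟨L, hL⟩ : ∃ L : ℕ, 4 * D ^ 2 ≤ L := exists_nat_ge _
  have hL0 : (0 : ℝ) < L := by
    have : (0 : ℝ) < 4 * D ^ 2 := by positivity
    linarith
  obtain ⟨R, hR⟩ := h1 D t m L hD
  refine ⟨R, fun k p hp B => ?_⟩
  have hfin : finrank ℝ ((LinearMap.ker B)ᗮ : Submodule ℝ (Hn k)) ≤ m := by
    have e1 := Submodule.finrank_add_finrank_orthogonal (LinearMap.ker B)
    have e2 := LinearMap.finrank_range_add_finrank_ker B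
    have e3 : finrank ℝ (LinearMap.range B) ≤ m := by
      refine (Submodule.finrank_le _).trans ?_
      simp
    omega
  obtain ⟨H, hH0, hH, hHL, hf⟩ := hR k p hp (LinearMap.ker B)ᗮ hfin
  have hmono : Monotone H := monotone_nat_of_le_succ hH
  let S : Hn k →ₗ[ℝ] Hn k := (1 / (L : ℝ)) • ∑ i ∈ Finset.range L, ((H i).starProjection : Hn k →L[ℝ] Hn k).toLinearMap
  have hS : ∀ x, S x = (1 / (L : ℝ)) • ∑ i ∈ Finset.range L, (H i).starProjection x := by
    intro x
    show ((1 / (L : ℝ)) • ∑ i ∈ Finset.range L, ((H i).starProjection : Hn k →L[ℝ] Hn k).toLinearMap) x = _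
    rw [LinearMap.smul_apply, LinearMap.sum_apply]
    rfl
  refine ⟨H L, S, hHL, ?_, ?_, ?_⟩
  · intro x
    rw [hS]
    refine Submodule.smul_mem _ _ (Submodule.sum_mem _ fun i hi => ?_)
    exact hmono (Finset.mem_range.1 hi).le ((H i).starProjection_apply_mem x)
  · intro x
    have hB : ∀ i, B ((H i).starProjection x) = B x := by
      intro i
      have e1 : x - (H i).starProjection x ∈ (H i)ᗮ := Submodule.sub_starProjection_mem_orthogonal x
      have e2 : (H i)ᗮ ≤ LinearMap.ker B := by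
        have e3 : (LinearMap.ker B)ᗮ ≤ H i := by
          rw [← hH0]
          exact hmono (Nat.zero_le i)
        have e4 := Submodule.orthogonal_le e3
        rwa [Submodule.orthogonal_orthogonal] at e4
      have e5 := LinearMap.mem_ker.1 (e2 e1)
      rw [map_sub, sub_eq_zero] at e5
      exact e5.symm
    rw [hS, map_smul, map_sum, Finset.sum_congr rfl fun i _ => hB i, Finset.sum_const, Finset.card_range,
      ← Nat.cast_smul_eq_nsmul ℝ, smul_smul, one_div, inv_mul_cancel₀ hL0.ne', one_smul]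
  · intro τ x
    have hterm : ∀ i ∈ Finset.range L, p τ ((H i).starProjection x) ≤
        5 / 4 * (p τ x + D * ‖(H (i + 1)).starProjection x - (H i).starProjection x‖) := by
      intro i hi
      obtain ⟨f, hf1, hf2, hf3⟩ := hf i (Finset.mem_range.1 hi) τ _ ((H i).starProjection_apply_mem x)
      have e1 := UAP_inner (H (i + 1)) hf1 x
      have e2 : inner ℝ f ((H i).starProjection x) =
          inner ℝ f x + inner ℝ f (-((H (i + 1)).starProjection x - (H i).starProjection x)) := by
        rw [inner_neg_right, inner_sub_right, e1]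
        ring
      have e3 := hf2 x
      have e4 := hf2 (-((H (i + 1)).starProjection x - (H i).starProjection x))
      have e5 := (hp τ (-((H (i + 1)).starProjection x - (H i).starProjection x))).2
      rw [norm_neg] at e5
      linarith
    have hsum : p τ (∑ i ∈ Finset.range L, (H i).starProjection x) ≤
        5 / 4 * (L * p τ x + D * ∑ i ∈ Finset.range L, ‖(H (i + 1)).starProjection x - (H i).starProjection x‖) := by
      refine (UAP_sum (p τ) _ L).trans ((Finset.sum_le_sum hterm).trans (le_of_eq ?_))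
      rw [← Finset.mul_sum, Finset.sum_add_distrib, Finset.sum_const, Finset.card_range, nsmul_eq_mul,
        ← Finset.mul_sum]
    have hcs : (∑ i ∈ Finset.range L, ‖(H (i + 1)).starProjection x - (H i).starProjection x‖) ^ 2 ≤ L * ‖x‖ ^ 2 := by
      have e1 := sq_sum_le_card_mul_sum_sq (s := Finset.range L)
        (f := fun i => ‖(H (i + 1)).starProjection x - (H i).starProjection x‖)
      rw [Finset.card_range] at e1
      exact e1.trans (mul_le_mul_of_nonneg_left (UAP_tel H hH x L) hL0.le)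
    have hs0 : 0 ≤ ∑ i ∈ Finset.range L, ‖(H (i + 1)).starProjection x - (H i).starProjection x‖ :=
      Finset.sum_nonneg fun i _ => norm_nonneg _
    have hx := (hp τ x).1
    have hx0 : 0 ≤ ‖x‖ := norm_nonneg _
    have hfinal := hsum.trans (UAP_fin hL0 hL hD hs0 hx0 hx hcs)
    rw [hS, map_smul_eq_mul, Real.norm_of_nonneg (by positivity)]
    calc 1 / (L : ℝ) * p τ (∑ i ∈ Finset.range L, (H i).starProjection x)
        ≤ 1 / (L : ℝ) * (L * (2 * p τ x)) := mul_le_mul_of_nonneg_left hfinal (by positivity)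
      _ = 2 * p τ x := by field_simp

end Pool.NG
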