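import Pool.Agent.Work.MP_3e8c7a_ng.Interface

set_option autoImplicit false

namespace Pool.NG

open Module Pool.Agent.MP3e8c7a

theorem p_UTW (h1 : Stmt_UNO) : Stmt_UTW := by
  intro D t r L hD
  induction L with
  | zero =>
    refine ⟨r, fun k p hp H₀ hH₀ => ⟨fun _ => H₀, rfl, fun _ => le_rfl, hH₀, ?_⟩⟩
    intro i hi
    exact absurd hi (Nat.not_lt_zero i)
  | succ L ih =>
    obtain ⟨R₁, hR₁⟩ := ih
    obtain ⟨R₂, hR₂⟩ := h1 D t R₁ hD
    refine ⟨R₂, fun k p hp H₀ hH₀ => ?_⟩
    obtain ⟨H, hH0, hmono, hfin, hH⟩ := hR₁ k p hp H₀ hH₀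
    obtain ⟨G, hG1, hG2, hG3⟩ := hR₂ k p hp (H L) hfin
    refine ⟨fun i => if i ≤ L then H i else G, ?_, ?_, ?_, ?_⟩
    · simp [hH0]
    · intro i
      rcases Nat.lt_trichotomy i L with hi | hi | hi
      · have h3 : i ≤ L := hi.le
        have h4 : i + 1 ≤ L := hi
        simp only [h3, h4, if_true]
        exact hmono i
      · subst hi
        have h4 : ¬ i + 1 ≤ i := by omega
        simp only [le_refl, h4, if_true, if_false]
        exact hG1
      · have h3 : ¬ i ≤ L := by omega
        have h4 : ¬ i + 1 ≤ L := by omega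
        simp only [h3, h4, if_false]
        exact le_rfl
    · have h4 : ¬ L + 1 ≤ L := by omega
      show finrank ℝ ↥(if L + 1 ≤ L then H (L + 1) else G) ≤ R₂
      rw [if_neg h4]
      exact hG2
    · intro i hi τ x hx
      rcases Nat.lt_or_ge i L with h2 | h2
      · have h3 : i ≤ L := h2.le
        have h4 : i + 1 ≤ L := h2
        simp only [h3, if_true] at hx
        simp only [h4, if_true]
        exact hH i h2 τ x hx
      · have h5 : i = L := by omega
        subst h5
        have h4 : ¬ i + 1 ≤ i := by omega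
        simp only [le_refl, if_true] at hx
        simp only [h4, if_false]
        exact hG3 τ x hx

end Pool.NG
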