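import Pool.Agent.Work.MP_3e8c7a_ng.Interface

/-!
# Block VIA: almost scalar matrices are invertible with a bounded inverse
-/

set_option autoImplicit false

namespace Pool.NG

open Module Pool.Agent.MP3e8c7a

lemma VIA_sq {d : Type} [Fintype d] (w : d → ℝ) : l2 w ^ 2 = ∑ i, w i ^ 2 :=
  Real.sq_sqrt (Finset.sum_nonneg fun i _ => sq_nonneg _)

lemma VIA_nonneg {d : Type} [Fintype d] (w : d → ℝ) : 0 ≤ l2 w := Real.sqrt_nonneg _

lemma VIA_cs {d : Type} [Fintype d] (u w : d → ℝ) : ∑ i, u i * w i ≤ l2 u * l2 w := by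
  have h1 : (∑ i, u i * w i) ^ 2 ≤ (l2 u * l2 w) ^ 2 := by
    rw [mul_pow, VIA_sq, VIA_sq]
    exact Finset.sum_mul_sq_le_sq_mul_sq Finset.univ u w
  exact (le_abs_self _).trans (abs_le_of_sq_le_sq h1 (mul_nonneg (VIA_nonneg u) (VIA_nonneg w)))

lemma VIA_low {d : Type} [Fintype d] [DecidableEq d] (B : d → d → ℝ) (t τ β : ℝ)
    (hβt : β ≤ t) (hτ : 0 ≤ τ) (hs : 2 * (τ * Fintype.card d) ≤ β)
    (hB : ∀ i i', |B i i' - (if i = i' then t else 0)| ≤ τ) (w : d → ℝ) :
    β / 2 * l2 w ^ 2 ≤ ∑ i, mv B w i * w i := by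
  rw [VIA_sq]
  have h1 : ∑ i, mv B w i * w i
      = ∑ i, ∑ i', (B i i' - (if i = i' then t else 0)) * (w i' * w i) + t * ∑ i, w i ^ 2 := by
    rw [Finset.mul_sum, ← Finset.sum_add_distrib]
    refine Finset.sum_congr rfl fun i _ => ?_
    rw [mv_apply, Finset.sum_mul]
    have h2 : ∑ i', (B i i' - (if i = i' then t else 0)) * (w i' * w i)
        = ∑ i', B i i' * w i' * w i - ∑ i', (if i = i' then t else 0) * (w i' * w i) := by
      rw [← Finset.sum_sub_distrib]
      exact Finset.sum_congr rfl fun i' _ => by ring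
    have h3 : ∑ i', (if i = i' then t else 0) * (w i' * w i) = t * w i ^ 2 := by
      rw [Finset.sum_eq_single i]
      · rw [if_pos rfl]; ring
      · intro b _ hb
        rw [if_neg (Ne.symm hb), zero_mul]
      · intro h
        exact absurd (Finset.mem_univ i) h
    rw [h2, h3]
    ring
  have h4 : |∑ i, ∑ i', (B i i' - (if i = i' then t else 0)) * (w i' * w i)|
      ≤ τ * ((Fintype.card d : ℝ) * ∑ i, w i ^ 2) := by
    have h5 : |∑ i, ∑ i', (B i i' - (if i = i' then t else 0)) * (w i' * w i)|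
        ≤ ∑ i, ∑ i', τ * (|w i'| * |w i|) := by
      refine (Finset.abs_sum_le_sum_abs _ _).trans (Finset.sum_le_sum fun i _ => ?_)
      refine (Finset.abs_sum_le_sum_abs _ _).trans (Finset.sum_le_sum fun i' _ => ?_)
      rw [abs_mul, abs_mul]
      exact mul_le_mul_of_nonneg_right (hB i i') (mul_nonneg (abs_nonneg _) (abs_nonneg _))
    have h6 : ∑ i, ∑ i', τ * (|w i'| * |w i|) = τ * (∑ i, |w i|) ^ 2 := by
      rw [pow_two, Finset.sum_mul_sum, Finset.mul_sum]
      refine Finset.sum_congr rfl fun i _ => ?_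
      rw [Finset.mul_sum]
      exact Finset.sum_congr rfl fun i' _ => by ring
    have h7 : (∑ i, |w i|) ^ 2 ≤ (Fintype.card d : ℝ) * ∑ i, w i ^ 2 := by
      have h8 := sq_sum_le_card_mul_sum_sq (s := (Finset.univ : Finset d)) (f := fun i => |w i|)
      simpa only [Finset.card_univ, sq_abs] using h8
    rw [h6] at h5
    exact h5.trans (mul_le_mul_of_nonneg_left h7 hτ)
  have h9 := (abs_le.1 h4).1
  have h10 : 0 ≤ ∑ i, w i ^ 2 := Finset.sum_nonneg fun i _ => sq_nonneg _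
  rw [h1]
  have h11 : τ * ((Fintype.card d : ℝ) * ∑ i, w i ^ 2) ≤ β / 2 * ∑ i, w i ^ 2 := by
    rw [← mul_assoc]
    exact mul_le_mul_of_nonneg_right (by linarith) h10
  have h12 : β * ∑ i, w i ^ 2 ≤ t * ∑ i, w i ^ 2 := mul_le_mul_of_nonneg_right hβt h10
  linarith

lemma VIA_bound {d : Type} [Fintype d] [DecidableEq d] (B : d → d → ℝ) (t τ β : ℝ)
    (hβt : β ≤ t) (hτ : 0 ≤ τ) (hs : 2 * (τ * Fintype.card d) ≤ β)
    (hB : ∀ i i', |B i i' - (if i = i' then t else 0)| ≤ τ) (w : d → ℝ) :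
    β / 2 * l2 w ≤ l2 (mv B w) := by
  have h1 := (VIA_low B t τ β hβt hτ hs hB w).trans (VIA_cs (mv B w) w)
  rcases (VIA_nonneg w).eq_or_lt with h0 | h0
  · rw [← h0, mul_zero]
    exact VIA_nonneg _
  · have h2 : (β / 2 * l2 w) * l2 w ≤ l2 (mv B w) * l2 w := by
      calc (β / 2 * l2 w) * l2 w = β / 2 * l2 w ^ 2 := by ring
        _ ≤ _ := h1
    exact le_of_mul_le_mul_right h2 h0

theorem p_VIA : Stmt_VIA := by
  intro d _ _ B t τ β hβ hβt hτ hs hB
  have hb := VIA_bound B t τ β hβt hτ hs hB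
  have hinj : Function.Injective (mv B) := by
    rw [← LinearMap.ker_eq_bot, LinearMap.ker_eq_bot']
    intro w hw
    have h1 := hb w
    rw [hw] at h1
    have h2 : l2 (0 : d → ℝ) = 0 := by
      simp [l2]
    rw [h2] at h1
    have h3 : l2 w = 0 := by
      refine le_antisymm ?_ (VIA_nonneg w)
      by_contra h
      push Not at h
      have h4 : 0 < β / 2 * l2 w := mul_pos (by linarith) h
      linarith
    have h5 := VIA_sq w
    rw [h3] at h5
    have h6 : ∑ i, w i ^ 2 = 0 := by rw [← h5]; ring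
    funext i
    have h7 := (Finset.sum_eq_zero_iff_of_nonneg (fun i _ => sq_nonneg (w i))).1 h6 i (Finset.mem_univ i)
    exact pow_eq_zero_iff (two_ne_zero) |>.1 h7
  have hsur : Function.Surjective (mv B) := LinearMap.injective_iff_surjective.1 hinj
  let e : (d → ℝ) ≃ₗ[ℝ] (d → ℝ) := LinearEquiv.ofBijective (mv B) ⟨hinj, hsur⟩
  refine ⟨e.symm.toLinearMap, fun w => ?_⟩
  have h1 : mv B (e.symm w) = w := e.apply_symm_apply w
  refine ⟨h1, ?_⟩
  have h2 := hb (e.symm w)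
  rw [h1] at h2
  show l2 (e.symm w) ≤ 2 / β * l2 w
  have h3 : l2 (e.symm w) = 2 / β * (β / 2 * l2 (e.symm w)) := by
    field_simp
  rw [h3]
  exact mul_le_mul_of_nonneg_left h2 (by positivity)

end Pool.NG
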