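import Pool.Agent.Work.MP_3e8c7a_ng.Interface

set_option autoImplicit false

namespace Pool.NG

open Module Pool.Agent.MP3e8c7a

lemma VIS_coord {s : Type} [Fintype s] (z : s → ℝ) (l : s) : |z l| ≤ l2 z := by
  rw [l2, ← Real.sqrt_sq_eq_abs]
  exact Real.sqrt_le_sqrt (Finset.single_le_sum (f := fun i => z i ^ 2) (fun i _ => sq_nonneg (z i)) (Finset.mem_univ l))

theorem p_VIS (h1 : Stmt_SIG) (h2 : Stmt_HID) : Stmt_VIS := by
  intro n J d s _ _ _ _ _ X N₀ L τ β hX hT E j hE hn hG x hx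
  have hβ := hT.β0
  have hb1 := hT.β1
  have hN : X.N2 x ≤ X.nX x := by
    rw [Cfg.nX_apply]
    exact le_max_left _ _
  have hev : ‖X.ev x‖ ≤ X.nX x := by
    rw [Cfg.nX_apply]
    exact le_max_right _ _
  have hn0 : 0 ≤ X.nX x := apply_nonneg _ _
  have hN0 : 0 ≤ X.N2 x := apply_nonneg _ _
  have hone : 1 ≤ 1 / β := by
    rw [le_div_iff₀ hβ]
    linarith
  have e15 : 15 / β * X.nX x = 14 / β * X.nX x + 1 / β * X.nX x := by ring
  have hin : X.nX x ≤ 1 / β * X.nX x := le_mul_of_one_le_left hn0 hone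
  have hc : 14 / β * X.N2 x ≤ 14 / β * X.nX x := mul_le_mul_of_nonneg_left hN (by positivity)
  have h14 : 0 ≤ 14 / β * X.nX x := by positivity
  rw [wS_apply]
  refine max_le ?_ ?_
  · have h := h1 n J d s X N₀ L hX j x
    have e14 : 14 / β * X.nX x = 14 * (1 / β * X.nX x) := by ring
    linarith
  · refine (pi_norm_le_iff_of_nonneg (by linarith)).2 fun l => ?_
    have hh := h2 n J d s X N₀ L τ β hX hT E j hE hn hG x hx
    have hl := (VIS_coord (fun l : s => inner ℝ (X.b j (Sum.inr l)) x) l).trans hh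
    have hp : |inner ℝ (X.psi (j, l)) x| ≤ X.nX x := by
      have h := norm_le_pi_norm (X.ev x) (j, l)
      rw [Real.norm_eq_abs, Cfg.ev_apply] at h
      exact h.trans hev
    have e : mv X.Φ (X.U j x) l = inner ℝ (X.psi (j, l)) x - inner ℝ (X.b j (Sum.inr l)) x := by
      rw [mv_apply, Cfg.psi, inner_add_left, sum_inner]
      simp only [Cfg.U_apply, real_inner_smul_left]
      ring
    rw [e, Real.norm_eq_abs]
    have h3 := abs_sub (inner ℝ (X.psi (j, l)) x) (inner ℝ (X.b j (Sum.inr l)) x)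
    linarith

end Pool.NG
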