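import Pool.Agent.Work.MP_3e8c7a_un.All
import Pool.Agent.Work.MP_3e8c7a_h.All
import Pool.Agent.Work.MP_3e8c7a_ng.B_MAT
import Pool.Agent.Work.MP_3e8c7a_ng.B_ABS
import Pool.Agent.Work.MP_3e8c7a_ng.B_ATN
import Pool.Agent.Work.MP_3e8c7a_ng.B_ATT
import Pool.Agent.Work.MP_3e8c7a_ng.B_BDY
import Pool.Agent.Work.MP_3e8c7a_ng.B_BGS
import Pool.Agent.Work.MP_3e8c7a_ng.B_LRA
import Pool.Agent.Work.MP_3e8c7a_ng.B_TYY
import Pool.Agent.Work.MP_3e8c7a_ng.B_GRA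
import Pool.Agent.Work.MP_3e8c7a_ng.B_TBD
import Pool.Agent.Work.MP_3e8c7a_ng.B_PSI
import Pool.Agent.Work.MP_3e8c7a_ng.B_EUC
import Pool.Agent.Work.MP_3e8c7a_ng.B_F3B
import Pool.Agent.Work.MP_3e8c7a_ng.B_LRR
import Pool.Agent.Work.MP_3e8c7a_ng.B_DRP
import Pool.Agent.Work.MP_3e8c7a_ng.B_ROT
import Pool.Agent.Work.MP_3e8c7a_ng.B_HIL
import Pool.Agent.Work.MP_3e8c7a_ng.B_CLS
import Pool.Agent.Work.MP_3e8c7a_ng.B_UNO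
import Pool.Agent.Work.MP_3e8c7a_ng.B_UTW
import Pool.Agent.Work.MP_3e8c7a_ng.B_UAP
import Pool.Agent.Work.MP_3e8c7a_ng.B_UAG
import Pool.Agent.Work.MP_3e8c7a_ng.B_NTX
import Pool.Agent.Work.MP_3e8c7a_ng.B_PAR
import Pool.Agent.Work.MP_3e8c7a_ng.B_RCB
import Pool.Agent.Work.MP_3e8c7a_ng.B_RCQ
import Pool.Agent.Work.MP_3e8c7a_ng.B_RFB
import Pool.Agent.Work.MP_3e8c7a_ng.B_RBA
import Pool.Agent.Work.MP_3e8c7a_ng.B_RPD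
import Pool.Agent.Work.MP_3e8c7a_ng.B_RNA
import Pool.Agent.Work.MP_3e8c7a_ng.B_RHO
import Pool.Agent.Work.MP_3e8c7a_ng.B_RBB
import Pool.Agent.Work.MP_3e8c7a_ng.B_RNB
import Pool.Agent.Work.MP_3e8c7a_ng.B_RCO
import Pool.Agent.Work.MP_3e8c7a_ng.B_RNT
import Pool.Agent.Work.MP_3e8c7a_ng.B_RAP
import Pool.Agent.Work.MP_3e8c7a_ng.B_RUA
import Pool.Agent.Work.MP_3e8c7a_ng.B_RUB
import Pool.Agent.Work.MP_3e8c7a_ng.B_REX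
import Pool.Agent.Work.MP_3e8c7a_ng.B_RPJ
import Pool.Agent.Work.MP_3e8c7a_ng.B_RVE
import Pool.Agent.Work.MP_3e8c7a_ng.B_CON
import Pool.Agent.Work.MP_3e8c7a_ng.B_DIM
import Pool.Agent.Work.MP_3e8c7a_ng.B_EUV
import Pool.Agent.Work.MP_3e8c7a_ng.B_NOI
import Pool.Agent.Work.MP_3e8c7a_ng.B_LAT
import Pool.Agent.Work.MP_3e8c7a_ng.B_NIS
import Pool.Agent.Work.MP_3e8c7a_ng.B_VIA
import Pool.Agent.Work.MP_3e8c7a_ng.B_VIB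
import Pool.Agent.Work.MP_3e8c7a_ng.B_SIG
import Pool.Agent.Work.MP_3e8c7a_ng.B_LRH
import Pool.Agent.Work.MP_3e8c7a_ng.B_HOL
import Pool.Agent.Work.MP_3e8c7a_ng.B_HID
import Pool.Agent.Work.MP_3e8c7a_ng.B_VIS
import Pool.Agent.Work.MP_3e8c7a_ng.B_SPL
import Pool.Agent.Work.MP_3e8c7a_ng.B_TYP
import Pool.Agent.Work.MP_3e8c7a_ng.B_SEA
import Pool.Agent.Work.MP_3e8c7a_ng.B_SEC
import Pool.Agent.Work.MP_3e8c7a_ng.B_FNL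
import Pool.Agent.Work.MP_3e8c7a_ng.B_NEG

/-!
# MP_3e8c7a_an, THEOREM NEG: all blocks together
-/

set_option autoImplicit false

namespace Pool.NG

open Module Pool.Agent.MP3e8c7a

theorem q_MAT : Stmt_MAT := p_MAT

theorem q_ABS : Stmt_ABS := p_ABS q_MAT

theorem q_ATN : Stmt_ATN := p_ATN

theorem q_ATT : Stmt_ATT := p_ATT q_ATN

theorem q_BDY : Stmt_BDY := p_BDY

theorem q_BGS : Stmt_BGS := p_BGS Pool.UN.q_NLU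

theorem q_LRA : Stmt_LRA := p_LRA

theorem q_TYY : Stmt_TYY := p_TYY

theorem q_GRA : Stmt_GRA := p_GRA

theorem q_TBD : Stmt_TBD := p_TBD q_GRA q_TYY

theorem q_PSI : Stmt_PSI := p_PSI q_GRA q_TYY

theorem q_EUC : Stmt_EUC := p_EUC q_LRA q_TYY q_TBD q_PSI q_ATT

theorem q_F3B : Stmt_F3B := p_F3B q_LRA q_TYY q_PSI q_ATT

theorem q_LRR : Stmt_LRR := p_LRR

theorem q_DRP : Stmt_DRP := p_DRP q_LRA q_TYY q_TBD q_ATT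

theorem q_ROT : Stmt_ROT := p_ROT q_LRR q_DRP

theorem q_HIL : Stmt_HIL := p_HIL q_EUC q_ROT Pool.EH.q_KWA

theorem q_CLS : Stmt_CLS := p_CLS q_EUC q_F3B q_HIL

theorem q_UNO : Stmt_UNO := p_UNO

theorem q_UTW : Stmt_UTW := p_UTW q_UNO

theorem q_UAP : Stmt_UAP := p_UAP q_UTW

theorem q_UAG : Stmt_UAG := p_UAG q_UAP

theorem q_NTX : Stmt_NTX := p_NTX

theorem q_PAR : Stmt_PAR := p_PAR

theorem q_RCB : Stmt_RCB := p_RCB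

theorem q_RCQ : Stmt_RCQ := p_RCQ

theorem q_RFB : Stmt_RFB := p_RFB

theorem q_RBA : Stmt_RBA := p_RBA q_RCB q_RCQ q_RFB

theorem q_RPD : Stmt_RPD := p_RPD

theorem q_RNA : Stmt_RNA := p_RNA q_RBA q_RPD

theorem q_RHO : Stmt_RHO := p_RHO

theorem q_RBB : Stmt_RBB := p_RBB q_RHO q_RFB

theorem q_RNB : Stmt_RNB := p_RNB q_RBB q_RPD

theorem q_RCO : Stmt_RCO := p_RCO q_RHO q_RFB

theorem q_RNT : Stmt_RNT := p_RNT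

theorem q_RAP : Stmt_RAP := p_RAP

theorem q_RUA : Stmt_RUA := p_RUA

theorem q_RUB : Stmt_RUB := p_RUB

theorem q_REX : Stmt_REX := p_REX q_RNA q_RNB q_RCO q_RNT q_RAP q_RUA q_RUB

theorem q_RPJ : Stmt_RPJ := p_RPJ

theorem q_RVE : Stmt_RVE := p_RVE q_REX q_RPJ

theorem q_RVF : Stmt_RVF := fun c _ _ τ hτ => by
  obtain ⟨n₀, -, h⟩ := q_RVE c τ hτ
  exact ⟨n₀, h⟩

theorem q_CON : Stmt_CON := p_CON q_BGS q_UAG q_NTX q_PAR q_RVF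

theorem q_DIM : Stmt_DIM := p_DIM

theorem q_EUV : Stmt_EUV := p_EUV q_EUC

theorem q_NOI : Stmt_NOI := p_NOI q_LRA q_PSI

theorem q_LAT : Stmt_LAT := p_LAT q_CLS q_NOI

theorem q_NIS : Stmt_NIS := p_NIS q_LAT

theorem q_VIA : Stmt_VIA := p_VIA

theorem q_VIB : Stmt_VIB := p_VIB q_GRA q_VIA

theorem q_SIG : Stmt_SIG := p_SIG q_LRA q_GRA q_TYY q_ATT

theorem q_LRH : Stmt_LRH := p_LRH

theorem q_HOL : Stmt_HOL := p_HOL q_LRH q_TBD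

theorem q_HID : Stmt_HID := p_HID q_LRA q_GRA q_TYY q_ATT q_HOL

theorem q_VIS : Stmt_VIS := p_VIS q_SIG q_HID

theorem q_SPL : Stmt_SPL := p_SPL q_VIB q_VIS

theorem q_TYP : Stmt_TYP := p_TYP q_EUC q_CLS

theorem q_SEA : Stmt_SEA := p_SEA q_EUV q_ABS q_TYP

theorem q_SEC : Stmt_SEC := p_SEC q_SPL q_SEA

theorem q_FNL : Stmt_FNL := p_FNL q_EUC q_NIS q_SEC q_DIM q_CON

theorem q_NEG : Stmt_NEG := p_NEG q_FNL q_BDY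

end Pool.NG
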