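import Pool.Agent.Work.MP_3e8c7a_ng.InterfaceF

set_option autoImplicit false

namespace Pool.NG

open Module Pool.Agent.MP3e8c7a
open Pool.RG (FacE)

lemma FNL_def {n : ℕ} {J d s : Type} [Fintype J] [Fintype d] [Fintype s] (h1 : Stmt_EUC) (X : Cfg n J d s) {N₀ : ℕ} {L : ℝ}
    (hX : X.Ok N₀ L) {m Q : ℕ} (G : (Fin m → ℝ) →ₗ[ℝ] (Fin Q → ℝ)) (hG : Function.Injective G) (τ : ℕ) : Def (X.P G τ) := by
  intro v hv
  have hD : 0 < X.D := lt_of_lt_of_le one_pos hX.D1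
  rw [Cfg.P_apply] at hv
  have a1 : 0 ≤ X.nX v.1 := apply_nonneg _ _
  have a2 : 0 ≤ qS X.D τ Q (G v.2) := apply_nonneg _ _
  have e1 : X.nX v.1 = 0 := by linarith
  have e2 : qS X.D τ Q (G v.2) = 0 := by linarith
  obtain ⟨b1, b2, b3, b4⟩ := h1 n J d s X N₀ L hX v.1
  have e3 : X.N2 v.1 ≤ 0 := by rw [← e1]; exact b3
  have e4 : ‖v.1‖ ≤ 0 := by
    refine b1.trans ?_
    have : 0 ≤ 3 * X.D ^ 2 := by positivity
    exact mul_nonpos_of_nonneg_of_nonpos this e3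
  have e5 : v.1 = 0 := norm_le_zero_iff.1 e4
  rw [qS_apply hD] at e2
  have e6 : X.D⁻¹ * l2 (G v.2) ≤ 0 := by rw [← e2]; exact le_max_left _ _
  have e7 : l2 (G v.2) ≤ 0 := by
    by_contra hc
    push Not at hc
    have : 0 < X.D⁻¹ * l2 (G v.2) := mul_pos (inv_pos.2 hD) hc
    linarith
  rw [l2_eq_norm] at e7
  have e8 : (WithLp.toLp 2 (G v.2) : EuclideanSpace ℝ (Fin Q)) = 0 := norm_le_zero_iff.1 e7
  have e9 : G v.2 = 0 := by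
    have := congrArg WithLp.ofLp e8
    simpa using this
  have e10 : v.2 = 0 := hG (by rw [e9, map_zero])
  exact Prod.ext e5 e10

theorem p_FNL (h1 : Stmt_EUC) (h2 : Stmt_NIS) (h3 : Stmt_SEC) (h4 : Stmt_DIM) (h5 : Stmt_CON) : Stmt_FNL := by
  intro α hα0 hα1
  set β : ℝ := min α (1 - α) / 2 with hβdef
  have hm : 0 < min α (1 - α) := lt_min hα0 (by linarith)
  have hβ : 0 < β := by rw [hβdef]; linarith
  have hβα : 2 * β ≤ α := by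
    have := min_le_left α (1 - α)
    rw [hβdef]; linarith
  have hβα' : α ≤ 1 - 2 * β := by
    have := min_le_right α (1 - α)
    rw [hβdef]; linarith
  have hβ1 : 2 * β ≤ 1 := by linarith
  refine ⟨10 ^ 16 / β ^ 6, ?_, ?_⟩
  · rw [le_div_iff₀ (by positivity), one_mul]
    have : β ≤ 1 := by linarith
    calc β ^ 6 ≤ 1 := pow_le_one₀ hβ.le this
      _ ≤ 10 ^ 16 := by norm_num
  intro κ hκ
  obtain ⟨t, a, N₁, m, Q, q, N₀, L, τ, G, Ξ, n₀, hma, hbad, hc⟩ := h5 κ β hκ hβ hβ1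
  -- the choice of n
  obtain ⟨n₁, hn₁⟩ := exists_nat_ge (((m : ℝ) + 1) / β)
  obtain ⟨n₂, hn₂⟩ := exists_nat_ge (((a + q * (t + 1) * a : ℕ) : ℝ) / α)
  set n : ℕ := n₀ + n₁ + n₂ + 1 with hn
  have hnn0 : n₀ ≤ n := by omega
  have hn1 : 1 ≤ n := by omega
  have hnr : (n : ℝ) = n₀ + n₁ + n₂ + 1 := by rw [hn]; push_cast; ring
  have hN0 : (0 : ℝ) ≤ n₀ := Nat.cast_nonneg _
  have hN1 : (0 : ℝ) ≤ n₁ := Nat.cast_nonneg _
  have hN2 : (0 : ℝ) ≤ n₂ := Nat.cast_nonneg _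
  have hmβ : (m : ℝ) + 1 ≤ β * n := by
    have : ((m : ℝ) + 1) / β ≤ n := by rw [hnr]; linarith
    rw [div_le_iff₀ hβ] at this
    linarith
  have haα : ((a + q * (t + 1) * a : ℕ) : ℝ) ≤ α * n := by
    have : ((a + q * (t + 1) * a : ℕ) : ℝ) / α ≤ n := by rw [hnr]; linarith
    rw [div_le_iff₀ hα0] at this
    linarith
  obtain ⟨M, X, hU, hT, hg⟩ := hc n hnn0
  refine ⟨n, m, X.P G 0, X.P G t, hn1, FNL_def h1 X hU.ok G hU.G 0, FNL_def h1 X hU.ok G hU.G t, ?_, ?_⟩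
  · intro E hE
    obtain ⟨c1, c2, c3⟩ := h4 n m α β hβ hβα hβα' hmβ E hE
    obtain ⟨j, g1, g2⟩ := hg (E.comap (LinearMap.inl ℝ (Hn n) (Fin m → ℝ))) (E.map (LinearMap.fst ℝ (Hn n) (Fin m → ℝ)))
    refine h3 n M t a N₁ m Q q X N₀ L G Ξ hU τ β hT E j (by omega) ?_ c1 c2 g1 g2
    exact_mod_cast haα.trans c3
  · exact h2 n (Fin M) ((Fin q × Fin (t + 1)) × Fin a) ((Fin q × Fin (t + 1)) × Fin (N₁ + Q)) X N₀ L a N₁ hU.ok hU.aN hU.DN hU.NN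
      m Q t G κ hκ hma hU.G hU.sq hU.t2 hbad

end Pool.NG
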