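import Pool.Agent.Work.MP_3e8c7a_ng.Interface

/-!
Block GRA of `MP_3e8c7a_ng`: coherent vectors.
-/

set_option autoImplicit false

namespace Pool.NG

open Module Pool.Agent.MP3e8c7a

/-- The basic estimate for a sum over a finite set. -/
theorem GRA_sq {n : ℕ} {ι : Type} (b : ι → Hn n) (μ : ℝ) (hμ : 0 ≤ μ)
    (hb : ∀ c, ‖b c‖ = 1) (hc : ∀ c c', c ≠ c' → |inner ℝ (b c) (b c')| ≤ μ)
    (S : Finset ι) (y : ι → ℝ) :
    ‖∑ c ∈ S, y c • b c‖ ^ 2 ≤ ∑ c ∈ S, y c ^ 2 + μ * (∑ c ∈ S, |y c|) ^ 2 := by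
  classical
  have h1 : ‖∑ c ∈ S, y c • b c‖ ^ 2
      = ∑ c ∈ S, ∑ c' ∈ S, y c * (y c' * inner ℝ (b c) (b c')) := by
    rw [← real_inner_self_eq_norm_sq, sum_inner]
    refine Finset.sum_congr rfl fun c _ => ?_
    rw [inner_sum]
    refine Finset.sum_congr rfl fun c' _ => ?_
    rw [real_inner_smul_left, real_inner_smul_right]
  have h2 : ∀ c c' : ι, y c * (y c' * inner ℝ (b c) (b c'))
      ≤ (if c = c' then y c ^ 2 else 0) + μ * (|y c| * |y c'|) := by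
    intro c c'
    have h0 : 0 ≤ μ * (|y c| * |y c'|) := by positivity
    by_cases h : c = c'
    · subst h
      rw [if_pos rfl, real_inner_self_eq_norm_sq, hb c]
      nlinarith
    · rw [if_neg h, zero_add]
      calc y c * (y c' * inner ℝ (b c) (b c'))
          ≤ |y c * (y c' * inner ℝ (b c) (b c'))| := le_abs_self _
        _ = (|y c| * |y c'|) * |inner ℝ (b c) (b c')| := by
            rw [abs_mul, abs_mul]; ring
        _ ≤ (|y c| * |y c'|) * μ :=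
            mul_le_mul_of_nonneg_left (hc c c' h) (by positivity)
        _ = μ * (|y c| * |y c'|) := by ring
  have h3 : ∑ c ∈ S, ∑ c' ∈ S, (if c = c' then y c ^ 2 else 0) = ∑ c ∈ S, y c ^ 2 := by
    refine Finset.sum_congr rfl fun c hcS => ?_
    rw [Finset.sum_ite_eq, if_pos hcS]
  have h4 : ∑ c ∈ S, ∑ c' ∈ S, μ * (|y c| * |y c'|) = μ * (∑ c ∈ S, |y c|) ^ 2 := by
    rw [sq, Finset.sum_mul_sum, Finset.mul_sum]
    refine Finset.sum_congr rfl fun c _ => ?_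
    rw [Finset.mul_sum]
  calc ‖∑ c ∈ S, y c • b c‖ ^ 2
      = ∑ c ∈ S, ∑ c' ∈ S, y c * (y c' * inner ℝ (b c) (b c')) := h1
    _ ≤ ∑ c ∈ S, ∑ c' ∈ S, ((if c = c' then y c ^ 2 else 0) + μ * (|y c| * |y c'|)) :=
        Finset.sum_le_sum fun c _ => Finset.sum_le_sum fun c' _ => h2 c c'
    _ = ∑ c ∈ S, y c ^ 2 + μ * (∑ c ∈ S, |y c|) ^ 2 := by
        rw [← h3, ← h4, ← Finset.sum_add_distrib]
        refine Finset.sum_congr rfl fun c _ => ?_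
        rw [← Finset.sum_add_distrib]

theorem p_GRA : Stmt_GRA := by
  intro n ι _ b μ hμ hb hc
  refine ⟨fun y => ?_, fun S v hS => ?_⟩
  · have h1 := GRA_sq b μ hμ hb hc Finset.univ y
    have hs : 0 ≤ ∑ c, |y c| := Finset.sum_nonneg fun c _ => abs_nonneg _
    have hl : 0 ≤ l2 y := Real.sqrt_nonneg _
    have hl2 : l2 y ^ 2 = ∑ c, y c ^ 2 :=
      Real.sq_sqrt (Finset.sum_nonneg fun c _ => sq_nonneg _)
    have hm : Real.sqrt μ ^ 2 = μ := Real.sq_sqrt hμ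
    have hm0 : 0 ≤ Real.sqrt μ := Real.sqrt_nonneg _
    have h2 : ‖∑ c, y c • b c‖ ^ 2 ≤ (l2 y + Real.sqrt μ * ∑ c, |y c|) ^ 2 := by
      calc ‖∑ c, y c • b c‖ ^ 2 ≤ ∑ c, y c ^ 2 + μ * (∑ c, |y c|) ^ 2 := h1
        _ = l2 y ^ 2 + Real.sqrt μ ^ 2 * (∑ c, |y c|) ^ 2 := by rw [hl2, hm]
        _ ≤ (l2 y + Real.sqrt μ * ∑ c, |y c|) ^ 2 := by
            have h3 : 0 ≤ l2 y * (Real.sqrt μ * ∑ c, |y c|) := by positivity
            nlinarith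
    exact (sq_le_sq₀ (norm_nonneg _) (by positivity)).1 h2
  · have hA : ∑ c ∈ S, inner ℝ (b c) v ^ 2
        = inner ℝ (∑ c ∈ S, (inner ℝ (b c) v : ℝ) • b c) v := by
      rw [sum_inner]
      refine Finset.sum_congr rfl fun c _ => ?_
      rw [real_inner_smul_left, sq]
    have h1 := GRA_sq b μ hμ hb hc S (fun c => inner ℝ (b c) v)
    have hA0 : 0 ≤ ∑ c ∈ S, inner ℝ (b c) v ^ 2 := Finset.sum_nonneg fun c _ => sq_nonneg _
    have h2 : (∑ c ∈ S, |inner ℝ (b c) v|) ^ 2 ≤ S.card * ∑ c ∈ S, inner ℝ (b c) v ^ 2 := by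
      have h := sq_sum_le_card_mul_sum_sq (s := S) (f := fun c => |inner ℝ (b c) v|)
      simpa only [sq_abs] using h
    have h3 : ‖∑ c ∈ S, (inner ℝ (b c) v : ℝ) • b c‖ ^ 2
        ≤ 2 * ∑ c ∈ S, inner ℝ (b c) v ^ 2 := by
      have h4 : μ * (∑ c ∈ S, |inner ℝ (b c) v|) ^ 2
          ≤ ∑ c ∈ S, inner ℝ (b c) v ^ 2 := by
        calc μ * (∑ c ∈ S, |inner ℝ (b c) v|) ^ 2
            ≤ μ * (S.card * ∑ c ∈ S, inner ℝ (b c) v ^ 2) :=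
              mul_le_mul_of_nonneg_left h2 hμ
          _ = (S.card * μ) * ∑ c ∈ S, inner ℝ (b c) v ^ 2 := by ring
          _ ≤ 1 * ∑ c ∈ S, inner ℝ (b c) v ^ 2 := mul_le_mul_of_nonneg_right hS hA0
          _ = ∑ c ∈ S, inner ℝ (b c) v ^ 2 := one_mul _
      have h5 : ‖∑ c ∈ S, (inner ℝ (b c) v : ℝ) • b c‖ ^ 2
          ≤ ∑ c ∈ S, inner ℝ (b c) v ^ 2 + μ * (∑ c ∈ S, |inner ℝ (b c) v|) ^ 2 := h1
      linarith
    have h6 : ∑ c ∈ S, inner ℝ (b c) v ^ 2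
        ≤ ‖∑ c ∈ S, (inner ℝ (b c) v : ℝ) • b c‖ * ‖v‖ := by
      rw [hA]
      exact real_inner_le_norm _ _
    have h7 : (∑ c ∈ S, inner ℝ (b c) v ^ 2) ^ 2
        ≤ (2 * ∑ c ∈ S, inner ℝ (b c) v ^ 2) * ‖v‖ ^ 2 := by
      calc (∑ c ∈ S, inner ℝ (b c) v ^ 2) ^ 2
          ≤ (‖∑ c ∈ S, (inner ℝ (b c) v : ℝ) • b c‖ * ‖v‖) ^ 2 :=
            pow_le_pow_left₀ hA0 h6 2
        _ = ‖∑ c ∈ S, (inner ℝ (b c) v : ℝ) • b c‖ ^ 2 * ‖v‖ ^ 2 := by ring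
        _ ≤ (2 * ∑ c ∈ S, inner ℝ (b c) v ^ 2) * ‖v‖ ^ 2 :=
            mul_le_mul_of_nonneg_right h3 (sq_nonneg _)
    rcases hA0.eq_or_lt with h0 | h0
    · rw [← h0]; positivity
    · have h8 : (∑ c ∈ S, inner ℝ (b c) v ^ 2) * (∑ c ∈ S, inner ℝ (b c) v ^ 2)
          ≤ (2 * ‖v‖ ^ 2) * (∑ c ∈ S, inner ℝ (b c) v ^ 2) := by nlinarith
      exact le_of_mul_le_mul_right h8 h0

end Pool.NG
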