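import Pool.Agent.Work.MP_3e8c7a_ng.InterfaceR

set_option autoImplicit false

namespace Pool.NG

open Module Pool.Agent.MP3e8c7ak
open scoped RealInnerProductSpace

open Classical in
lemma REX_ex {Y κ : Type} [Fintype Y] [Nonempty Y] (T : Finset κ) (FA FB : κ → Finset Y) (FC : Finset Y)
    (A B C N : ℝ) (hA : ∀ Z ∈ T, ((FA Z).card : ℝ) ≤ A * Fintype.card Y)
    (hB : ∀ Z ∈ T, ((FB Z).card : ℝ) ≤ B * Fintype.card Y) (hC : (FC.card : ℝ) ≤ C * Fintype.card Y)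
    (hN : (T.card : ℝ) ≤ N) (hA0 : 0 ≤ A) (hB0 : 0 ≤ B) (h1 : N * A < 1 / 4) (h2 : N * B < 1 / 4) (h3 : C < 1 / 4) :
    ∃ y, (∀ Z ∈ T, y ∉ FA Z ∧ y ∉ FB Z) ∧ y ∉ FC := by
  by_contra hcon
  push Not at hcon
  have hY : (0 : ℝ) < Fintype.card Y := by exact_mod_cast Fintype.card_pos
  have hsub : (Finset.univ : Finset Y) ⊆ (T.biUnion FA ∪ T.biUnion FB) ∪ FC := by
    intro y _
    by_cases hy : ∀ Z ∈ T, y ∉ FA Z ∧ y ∉ FB Z
    · exact Finset.mem_union_right _ (hcon y hy)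
    · push Not at hy
      obtain ⟨Z, hZ, h⟩ := hy
      refine Finset.mem_union_left _ ?_
      by_cases hyA : y ∈ FA Z
      · exact Finset.mem_union_left _ (Finset.mem_biUnion.2 ⟨Z, hZ, hyA⟩)
      · exact Finset.mem_union_right _ (Finset.mem_biUnion.2 ⟨Z, hZ, h hyA⟩)
  have hc := Finset.card_le_card hsub
  rw [Finset.card_univ] at hc
  have hc1 := Finset.card_union_le (T.biUnion FA ∪ T.biUnion FB) FC
  have hc2 := Finset.card_union_le (T.biUnion FA) (T.biUnion FB)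
  have hc3 : (T.biUnion FA).card ≤ ∑ Z ∈ T, (FA Z).card := Finset.card_biUnion_le
  have hc4 : (T.biUnion FB).card ≤ ∑ Z ∈ T, (FB Z).card := Finset.card_biUnion_le
  have hnat : Fintype.card Y ≤ ∑ Z ∈ T, (FA Z).card + ∑ Z ∈ T, (FB Z).card + FC.card := by omega
  have hreal : (Fintype.card Y : ℝ) ≤ ∑ Z ∈ T, ((FA Z).card : ℝ) + ∑ Z ∈ T, ((FB Z).card : ℝ) + (FC.card : ℝ) := by
    exact_mod_cast hnat
  have s1 : ∑ Z ∈ T, ((FA Z).card : ℝ) ≤ N * A * Fintype.card Y := by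
    have h := Finset.sum_le_card_nsmul T (fun Z => ((FA Z).card : ℝ)) _ hA
    rw [nsmul_eq_mul] at h
    have h' : (T.card : ℝ) * (A * Fintype.card Y) ≤ N * (A * Fintype.card Y) :=
      mul_le_mul_of_nonneg_right hN (mul_nonneg hA0 hY.le)
    linarith
  have s2 : ∑ Z ∈ T, ((FB Z).card : ℝ) ≤ N * B * Fintype.card Y := by
    have h := Finset.sum_le_card_nsmul T (fun Z => ((FB Z).card : ℝ)) _ hB
    rw [nsmul_eq_mul] at h
    have h' : (T.card : ℝ) * (B * Fintype.card Y) ≤ N * (B * Fintype.card Y) :=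
      mul_le_mul_of_nonneg_right hN (mul_nonneg hB0 hY.le)
    linarith
  have k1 := mul_lt_mul_of_pos_right h1 hY
  have k2 := mul_lt_mul_of_pos_right h2 hY
  have k3 := mul_lt_mul_of_pos_right h3 hY
  linarith

lemma REX_num1 {v τ n : ℝ} (hv : 0 ≤ v) (hτ : 0 < τ) (hn : 1 ≤ n) :
    2 * v ^ 2 * (4 * n) / (τ * n / 4) ^ 2 ≤ (128 * (v + 1) ^ 2 / τ ^ 2 + 2 * (v + 1) ^ 2) / n := by
  have hn0 : 0 < n := by linarith
  have e : 2 * v ^ 2 * (4 * n) / (τ * n / 4) ^ 2 = 128 * v ^ 2 / τ ^ 2 / n := by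
    field_simp
    ring
  rw [e]
  have h1 : v ^ 2 ≤ (v + 1) ^ 2 := by nlinarith
  have h2 : 128 * v ^ 2 / τ ^ 2 ≤ 128 * (v + 1) ^ 2 / τ ^ 2 := by gcongr
  have h3 : 0 ≤ 2 * (v + 1) ^ 2 := by positivity
  have h4 : 128 * v ^ 2 / τ ^ 2 ≤ 128 * (v + 1) ^ 2 / τ ^ 2 + 2 * (v + 1) ^ 2 := by linarith
  gcongr

lemma REX_num2 {v τ n : ℝ} (hv : 0 ≤ v) (hτ : 0 < τ) (hn : 1 ≤ n) :
    2 * n ^ 3 * v ^ 2 * Real.exp (-((τ * n / 4) ^ 2 / (8 * n))) ≤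
      (128 * (v + 1) ^ 2 / τ ^ 2 + 2 * (v + 1) ^ 2) * n ^ 3 * Real.exp (-(τ ^ 2 / 128 * n)) := by
  have hn0 : 0 < n := by linarith
  have e : (τ * n / 4) ^ 2 / (8 * n) = τ ^ 2 / 128 * n := by
    field_simp
    ring
  rw [e]
  have h1 : v ^ 2 ≤ (v + 1) ^ 2 := by nlinarith
  have h3 : 0 ≤ 128 * (v + 1) ^ 2 / τ ^ 2 := by positivity
  have h4 : 2 * v ^ 2 ≤ 128 * (v + 1) ^ 2 / τ ^ 2 + 2 * (v + 1) ^ 2 := by linarith
  have e2 : 2 * n ^ 3 * v ^ 2 = 2 * v ^ 2 * n ^ 3 := by ring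
  rw [e2]
  gcongr

lemma REX_num3 {v τ n : ℝ} (hv : 0 ≤ v) (hτ : 0 < τ) (hn : 1 ≤ n) :
    (n ^ 3 * v) ^ 2 * (2 * Real.exp (-(τ ^ 2 * n / 2))) ≤
      (128 * (v + 1) ^ 2 / τ ^ 2 + 2 * (v + 1) ^ 2) * n ^ 6 * Real.exp (-(τ ^ 2 / 128 * n)) := by
  have hn0 : 0 < n := by linarith
  have h1 : v ^ 2 ≤ (v + 1) ^ 2 := by nlinarith
  have h3 : 0 ≤ 128 * (v + 1) ^ 2 / τ ^ 2 := by positivity
  have h4 : 2 * v ^ 2 ≤ 128 * (v + 1) ^ 2 / τ ^ 2 + 2 * (v + 1) ^ 2 := by linarith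
  have e2 : (n ^ 3 * v) ^ 2 * (2 * Real.exp (-(τ ^ 2 * n / 2))) = 2 * v ^ 2 * n ^ 6 * Real.exp (-(τ ^ 2 * n / 2)) := by ring
  rw [e2]
  have h5 : Real.exp (-(τ ^ 2 * n / 2)) ≤ Real.exp (-(τ ^ 2 / 128 * n)) := by
    apply Real.exp_le_exp.2
    have h6 : 0 ≤ τ ^ 2 * n := by positivity
    linarith
  gcongr

open Classical in
theorem p_REX (h1 : Stmt_RNA) (h2 : Stmt_RNB) (h3 : Stmt_RCO) (h4 : Stmt_RNT) (h5 : Stmt_RAP) (h6 : Stmt_RUA)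
    (h7 : Stmt_RUB) : Stmt_REX := by
  intro ι _ _ τ hτ hτ1
  obtain ⟨v, hv⟩ : ∃ v : ℝ, v = Fintype.card ι := ⟨_, rfl⟩
  have hv0 : 0 ≤ v := by rw [hv]; positivity
  obtain ⟨a, ha⟩ : ∃ a : ℕ, 4 / τ ≤ a := ⟨_, Nat.le_ceil _⟩
  have haτ : 4 ≤ a * τ := (div_le_iff₀ hτ).1 ha
  have ha0 : (0 : ℝ) ≤ a := Nat.cast_nonneg a
  have ha1 : (1 : ℝ) ≤ a := by nlinarith
  have ha1' : 1 ≤ a := by exact_mod_cast ha1
  obtain ⟨C, hC⟩ : ∃ C : ℝ, C = 128 * (v + 1) ^ 2 / τ ^ 2 + 2 * (v + 1) ^ 2 := ⟨_, rfl⟩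
  obtain ⟨c, hc⟩ : ∃ c : ℝ, c = τ ^ 2 / 128 := ⟨_, rfl⟩
  have hC0 : 0 < C := by rw [hC]; positivity
  have hc0 : 0 < c := by rw [hc]; positivity
  obtain ⟨n1, hn1⟩ := h6 a C c hC0 hc0
  obtain ⟨n2, hn2⟩ := h7 a C c hC0 hc0
  refine ⟨max (max n1 n2) 1, le_max_right _ _, fun n hn => ?_⟩
  have hnn1 : n1 ≤ n := ((le_max_left _ _).trans (le_max_left _ _)).trans hn
  have hnn2 : n2 ≤ n := ((le_max_right _ _).trans (le_max_left _ _)).trans hn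
  have hnn : 1 ≤ n := (le_max_right _ _).trans hn
  have hnr : (1 : ℝ) ≤ n := by exact_mod_cast hnn
  have hnr0 : (0 : ℝ) < n := by linarith
  obtain ⟨u1, u2⟩ := hn1 n hnn1
  have u3 := hn2 n hnn2
  obtain ⟨L, hL⟩ : ∃ L : ℕ, L = n * a := ⟨_, rfl⟩
  have hL1 : 1 ≤ L := by rw [hL]; exact Nat.one_le_iff_ne_zero.2 (Nat.mul_ne_zero (by omega) (by omega))
  have hnL : n ≤ L := by rw [hL]; exact Nat.le_mul_of_pos_right n (by omega)
  have hLr : (0 : ℝ) < L := by exact_mod_cast hL1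
  obtain ⟨T, hT1, hT2⟩ := h4 n L hL1
  obtain ⟨t, ht⟩ : ∃ t : ℝ, t = τ * n / 4 := ⟨_, rfl⟩
  have ht0 : 0 < t := by rw [ht]; positivity
  have hdiv : (n : ℝ) ^ 2 / L ≤ t := by
    rw [ht, hL, Nat.cast_mul, div_le_iff₀ (by positivity)]
    have h : τ * n / 4 * (n * a) = (n : ℝ) ^ 2 * (a * τ / 4) := by ring
    rw [h]
    exact le_mul_of_one_le_right (by positivity) (by linarith)
  obtain ⟨Ω, hΩ, hΩC⟩ := REX_ex (Y := Fin (n ^ 3) → ι → Fin n → Bool)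
    (T.filter fun Z => hs Z ≤ 4 * n ∧ ∀ y : Fin n → ℝ, ∑ k, (∑ l, Z k l * y l) ^ 2 ≤ 4 * ∑ l, y l ^ 2)
    (fun Z => Finset.univ.filter fun Ω : Fin (n ^ 3) → ι → Fin n → Bool =>
      n ^ 3 ≤ 4 * (Finset.univ.filter fun j => BadA Z t (Ω j)).card)
    (fun Z => Finset.univ.filter fun Ω : Fin (n ^ 3) → ι → Fin n → Bool =>
      n ^ 3 ≤ 4 * (Finset.univ.filter fun j => ∃ i, i ≠ j ∧ BadB Z t (Ω j) (Ω i)).card)
    (Finset.univ.filter fun Ω : Fin (n ^ 3) → ι → Fin n → Bool =>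
      ∃ j c i c', (j, c) ≠ (i, c') ∧ τ * n < |∑ k, sg (Ω j c k) * sg (Ω i c' k)|)
    (2 ^ (n ^ 3) * (C / n) ^ (n ^ 3 / 4))
    (2 * (Nat.log 2 (n ^ 3) + 1 : ℕ) *
      (2 ^ (n ^ 3) * (C * (n : ℝ) ^ 3 * Real.exp (-(c * n))) ^ (n ^ 3 / (8 * (Nat.log 2 (n ^ 3) + 1)))))
    (C * (n : ℝ) ^ 6 * Real.exp (-(c * n)))
    (((2 * (n * a) + 1) ^ (n ^ 2) : ℕ) : ℝ)
    (by
      intro Z hZ
      obtain ⟨-, hZ1, -⟩ := Finset.mem_filter.1 hZ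
      have h := h1 ι (n ^ 3) n Z t (4 * n) ht0 (by positivity) hZ1
      refine h.trans ?_
      have hq := REX_num1 hv0 hτ hnr
      rw [← hC, ← ht] at hq
      rw [← hv]
      have hq0 : 0 ≤ 2 * v ^ 2 * (4 * (n : ℝ)) / t ^ 2 := by positivity
      have hp := pow_le_pow_left₀ hq0 hq (n ^ 3 / 4)
      gcongr)
    (by
      intro Z hZ
      obtain ⟨-, -, hZ1⟩ := Finset.mem_filter.1 hZ
      have h := h2 ι (n ^ 3) n (Nat.log 2 (n ^ 3) + 1) Z t hnn (by omega)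
        (Nat.lt_pow_succ_log_self (by norm_num) _).le ht0.le hZ1
      refine h.trans ?_
      have hq := REX_num2 hv0 hτ hnr
      rw [← hC, ← ht, ← hc] at hq
      rw [← hv, Nat.cast_pow]
      have hq0 : 0 ≤ 2 * (n : ℝ) ^ 3 * v ^ 2 * Real.exp (-(t ^ 2 / (8 * n))) := by positivity
      have hp := pow_le_pow_left₀ hq0 hq (n ^ 3 / (8 * (Nat.log 2 (n ^ 3) + 1)))
      have e : ∀ x y z w : ℝ, x * (y * z) * w = x * (y * z * w) := fun x y z w => by ring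
      rw [e]
      gcongr)
    (by
      have h := h3 ι (n ^ 3) n τ hnn hτ.le
      refine h.trans ?_
      have hq := REX_num3 hv0 hτ hnr
      rw [← hC, ← hc] at hq
      rw [← hv, Nat.cast_pow]
      gcongr)
    (by
      have h := Finset.card_filter_le T (fun Z => hs Z ≤ 4 * n ∧ ∀ y : Fin n → ℝ, ∑ k, (∑ l, Z k l * y l) ^ 2 ≤ 4 * ∑ l, y l ^ 2)
      have h' := h.trans hT1
      rw [hL] at h'
      exact_mod_cast h')
    (by positivity) (by positivity) u1 u3 u2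
  refine ⟨Ω, ?_, ?_⟩
  · intro j c i c' hne
    by_contra hlt
    push Not at hlt
    exact hΩC (Finset.mem_filter.2 ⟨Finset.mem_univ _, j, c, i, c', hne, hlt⟩)
  · intro A hA1 hA2 hA3
    obtain ⟨Z, hZT, hZ⟩ := hT2 A hA1
    obtain ⟨g1, g2, g3, g4⟩ := h5 n L A Z hnn hnL hZ hA2 hA3
    have hZ' : Z ∈ T.filter fun Z => hs Z ≤ 4 * n ∧ ∀ y : Fin n → ℝ, ∑ k, (∑ l, Z k l * y l) ^ 2 ≤ 4 * ∑ l, y l ^ 2 :=
      Finset.mem_filter.2 ⟨hZT, g1, g2⟩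
    obtain ⟨w1, w2⟩ := hΩ Z hZ'
    have hτt : τ * n = 4 * t := by rw [ht]; ring
    constructor
    · have w1' : ¬ n ^ 3 ≤ 4 * (Finset.univ.filter fun j => BadA Z t (Ω j)).card := fun h =>
        w1 (Finset.mem_filter.2 ⟨Finset.mem_univ _, h⟩)
      push Not at w1'
      refine lt_of_le_of_lt (Nat.mul_le_mul_left 4 (Finset.card_le_card ?_)) w1'
      intro j hj
      obtain ⟨-, c, c', hcc⟩ := Finset.mem_filter.1 hj
      refine Finset.mem_filter.2 ⟨Finset.mem_univ _, c, c', ?_⟩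
      have b1 := (g3 (Ω j c) (Ω j c')).trans hdiv
      have b2 := g4.trans hdiv
      rw [hτt] at hcc
      by_cases hcc' : c = c'
      · rw [if_pos hcc'] at hcc ⊢
        have e : BL A (Ω j c) (Ω j c') - tr A = (BL Z (Ω j c) (Ω j c') - tr Z) +
          ((BL A (Ω j c) (Ω j c') - BL Z (Ω j c) (Ω j c')) - (tr A - tr Z)) := by ring
        rw [e] at hcc
        have k1 := abs_add_le (BL Z (Ω j c) (Ω j c') - tr Z)
          ((BL A (Ω j c) (Ω j c') - BL Z (Ω j c) (Ω j c')) - (tr A - tr Z))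
        have k2 := abs_sub (BL A (Ω j c) (Ω j c') - BL Z (Ω j c) (Ω j c')) (tr A - tr Z)
        linarith
      · rw [if_neg hcc'] at hcc ⊢
        have e : BL A (Ω j c) (Ω j c') - 0 = (BL Z (Ω j c) (Ω j c') - 0) +
          (BL A (Ω j c) (Ω j c') - BL Z (Ω j c) (Ω j c')) := by ring
        rw [e] at hcc
        have k1 := abs_add_le (BL Z (Ω j c) (Ω j c') - 0) (BL A (Ω j c) (Ω j c') - BL Z (Ω j c) (Ω j c'))
        linarith
    · have w2' : ¬ n ^ 3 ≤ 4 * (Finset.univ.filter fun j => ∃ i, i ≠ j ∧ BadB Z t (Ω j) (Ω i)).card := fun h =>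
        w2 (Finset.mem_filter.2 ⟨Finset.mem_univ _, h⟩)
      push Not at w2'
      refine lt_of_le_of_lt (Nat.mul_le_mul_left 4 (Finset.card_le_card ?_)) w2'
      intro j hj
      obtain ⟨-, i, hij, c, c', hcc⟩ := Finset.mem_filter.1 hj
      refine Finset.mem_filter.2 ⟨Finset.mem_univ _, i, hij, c, c', ?_⟩
      have b1 := (g3 (Ω j c) (Ω i c')).trans hdiv
      rw [hτt] at hcc
      have e : BL A (Ω j c) (Ω i c') = BL Z (Ω j c) (Ω i c') +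
        (BL A (Ω j c) (Ω i c') - BL Z (Ω j c) (Ω i c')) := by ring
      rw [e] at hcc
      have k1 := abs_add_le (BL Z (Ω j c) (Ω i c')) (BL A (Ω j c) (Ω i c') - BL Z (Ω j c) (Ω i c'))
      linarith

end Pool.NG
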