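import Pool.Agent.Work.MP_3e8c7a_ng.InterfaceR

set_option autoImplicit false

/-!
# Block RPD: independence
-/

open Module Pool.Agent.MP3e8c7ak
open scoped RealInnerProductSpace

noncomputable section

namespace Pool.NG

/-- Exchange the value at `j` with a new value. -/
def RPD_swap {M : ℕ} {B : Type} (j : Fin M) (p : (Fin M → B) × B) : (Fin M → B) × B :=
  (Function.update p.1 j p.2, p.1 j)

theorem RPD_inv {M : ℕ} {B : Type} (j : Fin M) :
    Function.Involutive (RPD_swap j : (Fin M → B) × B → (Fin M → B) × B) := by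
  rintro ⟨Ω, b⟩
  simp only [RPD_swap, Function.update_idem, Function.update_self, Function.update_eq_self]

theorem RPD_fst {α β : Type} [Fintype α] [Fintype β] (F : α → ℝ) :
    ∑ p : α × β, F p.1 = (Fintype.card β : ℝ) * ∑ a, F a := by
  rw [Fintype.sum_prod_type, Finset.mul_sum]
  refine Finset.sum_congr rfl fun a _ => ?_
  change ∑ _y : β, F a = _
  rw [Finset.sum_const, Finset.card_univ, nsmul_eq_mul]

open Classical in
theorem RPD_key (M : ℕ) (B : Type) [Fintype B] (S : Finset (Fin M))
    (Bad : (Fin M → B) → B → Prop) (q : ℝ) (hq : 0 ≤ q)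
    (h1 : ∀ Ω Ω' : Fin M → B, (∀ i, i ∉ S → Ω i = Ω' i) → ∀ β, Bad Ω β → Bad Ω' β)
    (h2 : ∀ Ω, ((Finset.univ.filter fun β : B => Bad Ω β).card : ℝ) ≤ q * Fintype.card B)
    (H : Finset (Fin M)) : H ⊆ S →
    ((Finset.univ.filter fun Ω : Fin M → B => ∀ j ∈ H, Bad Ω (Ω j)).card : ℝ) ≤
      q ^ H.card * (Fintype.card (Fin M → B) : ℝ) := by
  induction H using Finset.induction_on with
  | empty =>
    intro _
    simp
  | insert j H hj ih =>
    intro hS
    have hjS : j ∈ S := hS (Finset.mem_insert_self j H)
    have ih' := ih fun x hx => hS (Finset.mem_insert_of_mem hx)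
    rw [Finset.card_insert_of_notMem hj]
    have hup : ∀ (Ω : Fin M → B) (b β : B), Bad (Function.update Ω j b) β ↔ Bad Ω β := by
      intro Ω b β
      constructor
      · apply h1
        intro i hi
        rw [Function.update_of_ne]
        rintro rfl
        exact hi hjS
      · apply h1
        intro i hi
        rw [Function.update_of_ne]
        rintro rfl
        exact hi hjS
    rcases Nat.eq_zero_or_pos (Fintype.card B) with hB | hB
    · have hempty : IsEmpty (Fin M → B) := by
        have : IsEmpty B := Fintype.card_eq_zero_iff.1 hB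
        exact ⟨fun Ω => this.false (Ω j)⟩
      have h0 : (Finset.univ.filter fun Ω : Fin M → B =>
          ∀ i ∈ insert j H, Bad Ω (Ω i)).card = 0 := by
        rw [Finset.card_eq_zero]
        exact Finset.eq_empty_of_isEmpty _
      rw [h0]
      push_cast
      positivity
    · have hBr : (0 : ℝ) < Fintype.card B := by exact_mod_cast hB
      have e1 : (Fintype.card B : ℝ) * ((Finset.univ.filter fun Ω : Fin M → B =>
          ∀ i ∈ insert j H, Bad Ω (Ω i)).card : ℝ) =
          ∑ p : (Fin M → B) × B, if (∀ i ∈ insert j H, Bad p.1 (p.1 i)) then (1 : ℝ) else 0 := by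
        rw [RPD_fst (fun Ω : Fin M → B =>
          if (∀ i ∈ insert j H, Bad Ω (Ω i)) then (1 : ℝ) else 0), Finset.sum_boole]
      have e2 : ∑ p : (Fin M → B) × B, (if (∀ i ∈ insert j H, Bad p.1 (p.1 i)) then (1 : ℝ) else 0)
          = ∑ p : (Fin M → B) × B, (if (∀ i ∈ insert j H,
            Bad (RPD_swap j p).1 ((RPD_swap j p).1 i)) then (1 : ℝ) else 0) :=
        (Equiv.sum_comp ((RPD_inv j).toPerm (RPD_swap j)) (fun p : (Fin M → B) × B =>
          if (∀ i ∈ insert j H, Bad p.1 (p.1 i)) then (1 : ℝ) else 0)).symm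
      have e3 : ∀ (Ω : Fin M → B) (b : B), (if (∀ i ∈ insert j H,
          Bad (RPD_swap j (Ω, b)).1 ((RPD_swap j (Ω, b)).1 i)) then (1 : ℝ) else 0) =
          (if (∀ i ∈ H, Bad Ω (Ω i)) then (1 : ℝ) else 0) * (if Bad Ω b then (1 : ℝ) else 0) := by
        intro Ω b
        have hiff : (∀ i ∈ insert j H, Bad (RPD_swap j (Ω, b)).1 ((RPD_swap j (Ω, b)).1 i)) ↔
            (∀ i ∈ H, Bad Ω (Ω i)) ∧ Bad Ω b := by
          simp only [RPD_swap, Finset.mem_insert, forall_eq_or_imp, Function.update_self, hup]
          constructor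
          · rintro ⟨a1, a2⟩
            refine ⟨fun i hi => ?_, a1⟩
            have := a2 i hi
            have hne : i ≠ j := by
              rintro rfl
              exact hj hi
            rwa [Function.update_of_ne hne] at this
          · rintro ⟨a1, a2⟩
            refine ⟨a2, fun i hi => ?_⟩
            have hne : i ≠ j := by
              rintro rfl
              exact hj hi
            rw [Function.update_of_ne hne]
            exact a1 i hi
        by_cases c1 : (∀ i ∈ H, Bad Ω (Ω i))
        · by_cases c2 : Bad Ω b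
          · rw [if_pos (hiff.2 ⟨c1, c2⟩), if_pos c1, if_pos c2, mul_one]
          · rw [if_neg (fun h => c2 (hiff.1 h).2), if_neg c2, mul_zero]
        · rw [if_neg (fun h => c1 (hiff.1 h).1), if_neg c1, zero_mul]
      have e4 : (Fintype.card B : ℝ) * ((Finset.univ.filter fun Ω : Fin M → B =>
          ∀ i ∈ insert j H, Bad Ω (Ω i)).card : ℝ) ≤
          (Fintype.card B : ℝ) * (q ^ (H.card + 1) * (Fintype.card (Fin M → B) : ℝ)) := by
        rw [e1, e2, Fintype.sum_prod_type]
        calc ∑ Ω : Fin M → B, ∑ b : B, (if (∀ i ∈ insert j H,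
              Bad (RPD_swap j (Ω, b)).1 ((RPD_swap j (Ω, b)).1 i)) then (1 : ℝ) else 0)
            = ∑ Ω : Fin M → B, (if (∀ i ∈ H, Bad Ω (Ω i)) then (1 : ℝ) else 0) *
                ((Finset.univ.filter fun β : B => Bad Ω β).card : ℝ) := by
              refine Finset.sum_congr rfl fun Ω _ => ?_
              rw [Finset.sum_congr rfl fun b _ => e3 Ω b, ← Finset.mul_sum, Finset.sum_boole]
          _ ≤ ∑ Ω : Fin M → B, (if (∀ i ∈ H, Bad Ω (Ω i)) then (1 : ℝ) else 0) *
                (q * Fintype.card B) := by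
              refine Finset.sum_le_sum fun Ω _ => mul_le_mul_of_nonneg_left (h2 Ω) ?_
              split_ifs
              · exact zero_le_one
              · exact le_rfl
          _ = ((Finset.univ.filter fun Ω : Fin M → B => ∀ i ∈ H, Bad Ω (Ω i)).card : ℝ) *
                (q * Fintype.card B) := by
              rw [← Finset.sum_mul, Finset.sum_boole]
          _ ≤ (q ^ H.card * (Fintype.card (Fin M → B) : ℝ)) * (q * Fintype.card B) :=
              mul_le_mul_of_nonneg_right ih' (by positivity)
          _ = (Fintype.card B : ℝ) * (q ^ (H.card + 1) * (Fintype.card (Fin M → B) : ℝ)) := by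
              ring
      exact le_of_mul_le_mul_left e4 hBr

open Classical in
theorem p_RPD : Stmt_RPD := by
  intro M B _ S Bad q h hq h1 h2
  have hsub : (Finset.univ.filter fun Ω : Fin M → B => h ≤ (S.filter fun j => Bad Ω (Ω j)).card) ⊆
      (S.powersetCard h).biUnion fun H =>
        Finset.univ.filter fun Ω : Fin M → B => ∀ j ∈ H, Bad Ω (Ω j) := by
    intro Ω hΩ
    rw [Finset.mem_filter] at hΩ
    obtain ⟨H, hH1, hH2⟩ := Finset.exists_subset_card_eq hΩ.2
    rw [Finset.mem_biUnion]
    refine ⟨H, ?_, ?_⟩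
    · rw [Finset.mem_powersetCard]
      exact ⟨hH1.trans (Finset.filter_subset _ _), hH2⟩
    · rw [Finset.mem_filter]
      exact ⟨Finset.mem_univ _, fun j hj => (Finset.mem_filter.1 (hH1 hj)).2⟩
  have hcard : ((S.powersetCard h).card : ℝ) ≤ 2 ^ M := by
    have e1 : (S.powersetCard h).card ≤ 2 ^ M := by
      calc (S.powersetCard h).card ≤ S.powerset.card :=
            Finset.card_le_card fun H hH => Finset.mem_powerset.2 (Finset.mem_powersetCard.1 hH).1
        _ = 2 ^ S.card := Finset.card_powerset S
        _ ≤ 2 ^ M := by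
            apply Nat.pow_le_pow_right (by norm_num)
            have := Finset.card_le_univ S
            rwa [Fintype.card_fin] at this
    exact_mod_cast e1
  calc ((Finset.univ.filter fun Ω : Fin M → B =>
        h ≤ (S.filter fun j => Bad Ω (Ω j)).card).card : ℝ)
      ≤ (((S.powersetCard h).biUnion fun H =>
        Finset.univ.filter fun Ω : Fin M → B => ∀ j ∈ H, Bad Ω (Ω j)).card : ℝ) := by
        exact_mod_cast Finset.card_le_card hsub
    _ ≤ ∑ H ∈ S.powersetCard h,
        ((Finset.univ.filter fun Ω : Fin M → B => ∀ j ∈ H, Bad Ω (Ω j)).card : ℝ) := by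
        exact_mod_cast Finset.card_biUnion_le
    _ ≤ ∑ _H ∈ S.powersetCard h, q ^ h * (Fintype.card (Fin M → B) : ℝ) := by
        refine Finset.sum_le_sum fun H hH => ?_
        rw [Finset.mem_powersetCard] at hH
        have := RPD_key M B S Bad q hq h1 h2 H hH.1
        rwa [hH.2] at this
    _ = ((S.powersetCard h).card : ℝ) * (q ^ h * (Fintype.card (Fin M → B) : ℝ)) := by
        rw [Finset.sum_const, nsmul_eq_mul]
    _ ≤ 2 ^ M * (q ^ h * (Fintype.card (Fin M → B) : ℝ)) :=
        mul_le_mul_of_nonneg_right hcard (by positivity)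
    _ = 2 ^ M * q ^ h * (Fintype.card (Fin M → B) : ℝ) := by ring

end Pool.NG
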