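import Pool.Agent.Work.MP_3e8c7a_ng.Interface

/-!
Block UNO (norming functionals), typed by helper76.
-/

set_option autoImplicit false

namespace Pool.NG

open Module Pool.Agent.MP3e8c7a

/-- A norming functional. -/
theorem UNO_norming (k : ℕ) (q : Seminorm ℝ (Hn k)) (x0 : Hn k) (hx0 : x0 ≠ 0) :
    ∃ f : Hn k, (∀ y, inner ℝ f y ≤ q y) ∧ inner ℝ f x0 = q x0 := by
  have hval : ∀ (c : ℝ) (h : c • x0 ∈ (LinearPMap.mkSpanSingleton x0 (q x0) hx0 : Hn k →ₗ.[ℝ] ℝ).domain),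
      (LinearPMap.mkSpanSingleton x0 (q x0) hx0 : Hn k →ₗ.[ℝ] ℝ) ⟨c • x0, h⟩ = c * q x0 := by
    intro c h
    exact LinearPMap.mkSpanSingleton'_apply x0 (q x0) _ c h
  obtain ⟨g, hg1, hg2⟩ := exists_extension_of_le_sublinear
    (LinearPMap.mkSpanSingleton x0 (q x0) hx0 : Hn k →ₗ.[ℝ] ℝ) q
    (fun c hc x => by
      rw [map_smul_eq_mul, Real.norm_eq_abs, abs_of_pos hc])
    (fun x y => map_add_le_add q x y)
    (by
      rintro ⟨x, hx⟩
      obtain ⟨c, rfl⟩ := Submodule.mem_span_singleton.1 hx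
      rw [hval c hx]
      simp only
      rw [map_smul_eq_mul, Real.norm_eq_abs]
      exact mul_le_mul_of_nonneg_right (le_abs_self c) (apply_nonneg q x0))
  refine ⟨(InnerProductSpace.toDual ℝ (Hn k)).symm (LinearMap.toContinuousLinearMap g), ?_, ?_⟩
  · intro y
    rw [InnerProductSpace.toDual_symm_apply]
    exact hg2 y
  · rw [InnerProductSpace.toDual_symm_apply]
    have h1 : (1 : ℝ) • x0 ∈ (LinearPMap.mkSpanSingleton x0 (q x0) hx0 : Hn k →ₗ.[ℝ] ℝ).domain := by
      rw [one_smul]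
      exact Submodule.mem_span_singleton_self x0
    have h2 := hg1 ⟨(1 : ℝ) • x0, h1⟩
    rw [hval 1 h1, one_mul] at h2
    simp only [one_smul] at h2
    exact h2

/-- Finite nets of the unit spheres. -/
theorem UNO_net (δ : ℝ) (hδ : 0 < δ) (h : ℕ) : ∃ N : Finset (EuclideanSpace ℝ (Fin h)),
    (∀ z ∈ N, ‖z‖ = 1) ∧ ∀ x : EuclideanSpace ℝ (Fin h), ‖x‖ = 1 → ∃ z ∈ N, ‖x - z‖ ≤ δ := by
  obtain ⟨s, hs1, hs2, hs3⟩ := (isCompact_sphere (0 : EuclideanSpace ℝ (Fin h)) 1).finite_cover_balls hδ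
  refine ⟨hs2.toFinset, ?_, ?_⟩
  · intro z hz
    have h1 := hs1 (hs2.mem_toFinset.1 hz)
    rwa [mem_sphere_zero_iff_norm] at h1
  · intro x hx
    have h1 : x ∈ Metric.sphere (0 : EuclideanSpace ℝ (Fin h)) 1 := by
      rwa [mem_sphere_zero_iff_norm]
    have h2 := hs3 h1
    simp only [Set.mem_iUnion, Metric.mem_ball, exists_prop] at h2
    obtain ⟨z, hz, hxz⟩ := h2
    refine ⟨z, hs2.mem_toFinset.2 hz, ?_⟩
    rw [dist_eq_norm] at hxz
    exact hxz.le

theorem p_UNO : Stmt_UNO := by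
  intro D t r hD
  have hδ : (0 : ℝ) < 1 / (10 * D) := by positivity
  choose N hN1 hN2 using UNO_net (1 / (10 * D)) hδ
  refine ⟨r + (t + 1) * ∑ h ∈ Finset.range (r + 1), (N h).card, ?_⟩
  intro k p hp H hH
  classical
  set e : H ≃ₗᵢ[ℝ] EuclideanSpace ℝ (Fin (finrank ℝ H)) := (stdOrthonormalBasis ℝ H).repr with he
  have hne : ∀ z : {z // z ∈ N (finrank ℝ H)}, ((e.symm z.1 : H) : Hn k) ≠ 0 := by
    intro z h0
    have h1 : ‖((e.symm z.1 : H) : Hn k)‖ = 1 := by
      have h2 : ‖((e.symm z.1 : H) : Hn k)‖ = ‖e.symm z.1‖ := rfl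
      rw [h2, LinearIsometryEquiv.norm_map]
      exact hN1 _ z.1 z.2
    rw [h0, norm_zero] at h1
    norm_num at h1
  have hF : ∀ c : Fin (t + 1) × {z // z ∈ N (finrank ℝ H)}, ∃ f : Hn k,
      (∀ y, inner ℝ f y ≤ p c.1 y) ∧
        inner ℝ f ((e.symm c.2.1 : H) : Hn k) = p c.1 ((e.symm c.2.1 : H) : Hn k) :=
    fun c => UNO_norming k (p c.1) _ (hne c.2)
  choose F hF1 hF2 using hF
  have hFn : ∀ c, ‖F c‖ ≤ D := by
    intro c
    have h1 := hF1 c (F c)
    have h2 := (hp c.1 (F c)).2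
    rw [real_inner_self_eq_norm_sq] at h1
    by_contra h3
    push Not at h3
    have h4 : (0 : ℝ) < ‖F c‖ := by linarith
    nlinarith
  refine ⟨H ⊔ Submodule.span ℝ (Set.range F), le_sup_left, ?_, ?_⟩
  · have h1 : finrank ℝ (Submodule.span ℝ (Set.range F)) ≤
        Fintype.card (Fin (t + 1) × {z // z ∈ N (finrank ℝ H)}) := finrank_range_le_card F
    have h2 : Fintype.card (Fin (t + 1) × {z // z ∈ N (finrank ℝ H)}) =
        (t + 1) * (N (finrank ℝ H)).card := by
      rw [Fintype.card_prod, Fintype.card_fin, Fintype.card_coe]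
    have h3 : (N (finrank ℝ H)).card ≤ ∑ h ∈ Finset.range (r + 1), (N h).card :=
      Finset.single_le_sum (f := fun h => (N h).card) (fun _ _ => Nat.zero_le _)
        (Finset.mem_range.2 (by omega))
    have h4 := Submodule.finrank_add_le_finrank_add_finrank H (Submodule.span ℝ (Set.range F))
    have h5 := Nat.mul_le_mul_left (t + 1) h3
    omega
  · intro τ x hx
    rcases eq_or_ne x 0 with h0 | h0
    · refine ⟨0, Submodule.zero_mem _, ?_, ?_⟩
      · intro y
        rw [inner_zero_left]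
        exact apply_nonneg _ _
      · rw [h0, inner_zero_left, map_zero, mul_zero]
    · have hx0 : (0 : ℝ) < ‖x‖ := norm_pos_iff.2 h0
      set u : Hn k := ‖x‖⁻¹ • x with hu
      have huH : u ∈ H := H.smul_mem _ hx
      have hun : ‖u‖ = 1 := by
        rw [hu, norm_smul, norm_inv, norm_norm]
        exact inv_mul_cancel₀ hx0.ne'
      have hxu : x = ‖x‖ • u := by
        rw [hu, smul_smul, mul_inv_cancel₀ hx0.ne', one_smul]
      have hen : ‖e ⟨u, huH⟩‖ = 1 := by
        rw [LinearIsometryEquiv.norm_map]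
        exact hun
      obtain ⟨z, hz, hzu⟩ := hN2 _ (e ⟨u, huH⟩) hen
      set x0 : Hn k := ((e.symm z : H) : Hn k) with hx0'
      have hdist : ‖u - x0‖ ≤ 1 / (10 * D) := by
        have h1 : ‖(⟨u, huH⟩ : H) - e.symm z‖ = ‖e ⟨u, huH⟩ - z‖ := by
          rw [← LinearIsometryEquiv.norm_map e, map_sub, LinearIsometryEquiv.apply_symm_apply]
        have h2 : ‖u - x0‖ = ‖(⟨u, huH⟩ : H) - e.symm z‖ := rfl
        rw [h2, h1]
        exact hzu
      have hf2 := hF2 (τ, ⟨z, hz⟩)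
      have hf1 := hF1 (τ, ⟨z, hz⟩)
      have hfn := hFn (τ, ⟨z, hz⟩)
      set f := F (τ, ⟨z, hz⟩) with hf
      simp only at hf2 hf1
      refine ⟨f, Submodule.mem_sup_right (Submodule.subset_span ⟨_, rfl⟩), hf1, ?_⟩
      have hD0 : (0 : ℝ) < D := by linarith
      have h10 : D * (1 / (10 * D)) = 1 / 10 := by
        field_simp
      have h1 : p τ u ≤ p τ x0 + 1 / 10 := by
        have h2 : p τ u ≤ p τ x0 + p τ (u - x0) := by
          have h3 := map_add_le_add (p τ) x0 (u - x0)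
          rwa [add_sub_cancel] at h3
        have h4 := (hp τ (u - x0)).2
        have h5 : D * ‖u - x0‖ ≤ D * (1 / (10 * D)) := mul_le_mul_of_nonneg_left hdist hD0.le
        linarith
      have h2 : inner ℝ f x0 ≤ inner ℝ f u + 1 / 10 := by
        have h3 : inner ℝ f x0 - inner ℝ f u = inner ℝ f (x0 - u) := by
          rw [inner_sub_right]
        have h4 : inner ℝ f (x0 - u) ≤ ‖f‖ * ‖x0 - u‖ := real_inner_le_norm _ _
        have h5 : ‖f‖ * ‖x0 - u‖ ≤ D * (1 / (10 * D)) := by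
          rw [norm_sub_rev]
          exact mul_le_mul hfn hdist (norm_nonneg _) hD0.le
        linarith
      have h3 : 1 ≤ p τ u := by
        have h4 := (hp τ u).1
        rwa [hun] at h4
      have h4 : p τ u ≤ 5 / 4 * inner ℝ f u := by
        have h5 : inner ℝ f x0 = p τ x0 := hf2
        linarith
      rw [hxu, map_smul_eq_mul, inner_smul_right, norm_norm]
      calc ‖x‖ * p τ u ≤ ‖x‖ * (5 / 4 * inner ℝ f u) := mul_le_mul_of_nonneg_left h4 hx0.le
        _ = 5 / 4 * (‖x‖ * inner ℝ f u) := by ring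

end Pool.NG
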