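import Pool.Agent.Work.MP_3e8c7a_ng.Interface

/-!
# Block VIB (typed by helper63): the lifting
-/

set_option autoImplicit false

namespace Pool.NG

open Module Pool.Agent.MP3e8c7a

/-- the powers of `L` -/
lemma VIB_small {L τ β : ℝ} (hL : 1 ≤ L) (hτ : 0 < τ) (h : 30 * (L ^ 3 * τ) ≤ β) :
    30 * (L ^ 2 * τ) ≤ β ∧ 30 * (L * τ) ≤ β := by
  have h1 : L ^ 2 * τ ≤ L ^ 3 * τ := by
    have : L ^ 2 ≤ L ^ 3 := pow_le_pow_right₀ hL (by norm_num)
    exact mul_le_mul_of_nonneg_right this hτ.le
  have h2 : L * τ ≤ L ^ 3 * τ := by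
    have : L ^ 1 ≤ L ^ 3 := pow_le_pow_right₀ hL (by norm_num)
    rw [pow_one] at this
    exact mul_le_mul_of_nonneg_right this hτ.le
  constructor <;> linarith

lemma VIB_l2_nonneg {ι : Type} [Fintype ι] (z : ι → ℝ) : 0 ≤ l2 z := Real.sqrt_nonneg _

/-- Cauchy-Schwarz -/
lemma VIB_l1 {ι : Type} [Fintype ι] (z : ι → ℝ) {L : ℝ} (hL : 1 ≤ L)
    (hc : (Fintype.card ι : ℝ) ≤ L) : ∑ i, |z i| ≤ L * l2 z := by
  have h1 : (∑ i, |z i|) ^ 2 ≤ (Fintype.card ι : ℝ) * ∑ i, z i ^ 2 := by
    have h := sq_sum_le_card_mul_sum_sq (s := (Finset.univ : Finset ι)) (f := fun i => |z i|)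
    simpa only [sq_abs, Finset.card_univ] using h
  have h0 : 0 ≤ ∑ i, z i ^ 2 := Finset.sum_nonneg fun i _ => sq_nonneg _
  have h2 : (∑ i, |z i|) ^ 2 ≤ (L * l2 z) ^ 2 := by
    rw [mul_pow, l2, Real.sq_sqrt h0]
    refine h1.trans (mul_le_mul_of_nonneg_right ?_ h0)
    nlinarith
  exact (abs_le_of_sq_le_sq' h2 (mul_nonneg (by linarith) (VIB_l2_nonneg z))).2

theorem p_VIB (h1 : Stmt_GRA) (h2 : Stmt_VIA) : Stmt_VIB := by
  intro n J d s _ _ _ _ _ X N₀ L τ β hX hT E j hE hn hG
  have hL := hX.L1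
  have hβ := hT.β0
  have hτ := hT.τ0
  obtain ⟨hs2, hs1⟩ := VIB_small hL hτ hT.t1
  have hn' : (0 : ℝ) < n := by exact_mod_cast hn
  obtain ⟨hg1, hg2⟩ := hG
  -- the inverse matrix
  have hvia := h2 d (fun i i' => inner ℝ (X.b j (Sum.inl i)) (E.starProjection (X.b j (Sum.inl i'))))
    ((finrank ℝ E : ℝ) / n) τ β hβ ((le_div_iff₀ hn').2 hE) hτ.le
    (by
      have : τ * Fintype.card d ≤ τ * L := mul_le_mul_of_nonneg_left hX.Ld hτ.le
      nlinarith)
    (by
      intro i i'
      have h := hg1 (Sum.inl i) (Sum.inl i')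
      simpa only [Sum.inl.injEq] using h)
  obtain ⟨G, hGG⟩ := hvia
  let u : d → Hn n := fun i => X.b j (Sum.inl i)
  let I : (d → ℝ) →ₗ[ℝ] Hn n :=
    (E.starProjection : Hn n →L[ℝ] Hn n).toLinearMap ∘ₗ (Fintype.linearCombination ℝ u) ∘ₗ G
  have hI : ∀ w, I w = E.starProjection (∑ i, G w i • u i) := by
    intro w
    simp only [I, LinearMap.comp_apply, Fintype.linearCombination_apply,
      ContinuousLinearMap.coe_coe]
  have hin : ∀ (v : Hn n) (w : d → ℝ),
      inner ℝ v (I w) = ∑ i, G w i * inner ℝ v (E.starProjection (u i)) := by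
    intro v w
    rw [hI, map_sum, inner_sum]
    refine Finset.sum_congr rfl fun i _ => ?_
    rw [map_smul, inner_smul_right]
  refine ⟨I, fun w => ?_⟩
  have hw2 := (hGG w).2
  have hU : ∀ i, inner ℝ (X.b j (Sum.inl i)) (I w) = w i := by
    intro i
    rw [hin]
    have h := congrFun (hGG w).1 i
    rw [mv_apply] at h
    rw [← h]
    exact Finset.sum_congr rfl fun i' _ => mul_comm _ _
  have hl1 : ∑ i, |G w i| ≤ L * l2 (G w) := VIB_l1 _ hL hX.Ld
  have hl2w : 0 ≤ l2 w := VIB_l2_nonneg w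
  have hl2G : 0 ≤ l2 (G w) := VIB_l2_nonneg _
  -- small numbers
  have hsmall : ∀ a : ℝ, 0 ≤ a → 30 * a ≤ β → a * l2 (G w) ≤ l2 w := by
    intro a ha hab
    have h3 : a * l2 (G w) ≤ a * (2 / β * l2 w) := mul_le_mul_of_nonneg_left hw2 ha
    have h4 : a * (2 / β * l2 w) = (2 * a / β) * l2 w := by ring
    have h5 : 2 * a / β ≤ 1 := by
      rw [div_le_one hβ]
      linarith
    calc a * l2 (G w) ≤ (2 * a / β) * l2 w := by rw [← h4]; exact h3
      _ ≤ 1 * l2 w := mul_le_mul_of_nonneg_right h5 hl2w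
      _ = l2 w := one_mul _
  have hws : l2 w ≤ wS X.Φ w := by rw [wS_apply]; exact le_max_left _ _
  have hws2 : ‖mv X.Φ w‖ ≤ wS X.Φ w := by rw [wS_apply]; exact le_max_right _ _
  have hws0 : 0 ≤ wS X.Φ w := hl2w.trans hws
  have h2b : (2 : ℝ) ≤ 4 / β := by
    rw [le_div_iff₀ hβ]
    have := hT.β1
    linarith
  have h2b' : 2 * wS X.Φ w ≤ 4 / β * wS X.Φ w := mul_le_mul_of_nonneg_right h2b hws0
  refine ⟨?_, ?_, ?_⟩
  · rw [hI]
    exact Submodule.starProjection_apply_mem E _
  · funext i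
    rw [Cfg.U_apply]
    exact hU i
  · rw [Cfg.nX_apply]
    refine max_le ?_ ?_
    · -- the norm N2
      have hN : X.N2 (I w) ≤ ‖I w‖ := by
        have h := X.N2_le (I w) 0
        rw [map_zero, map_zero, sub_zero, ← lrS_apply X.r X.hr, map_zero] at h
        simpa using h
      have h3 : ‖I w‖ ≤ ‖∑ i, G w i • u i‖ := by
        rw [hI]
        exact Submodule.norm_starProjection_apply_le E _
      have h4 := (h1 n d u X.μ hX.μ0.le (fun c => hX.unit j _) (fun c c' hcc => by
        have := hX.coh (j, Sum.inl c) (j, Sum.inl c') (by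
          intro h
          apply hcc
          simpa using h)
        exact this)).1 (G w)
      have h5 : Real.sqrt X.μ * L ≤ 1 := by
        have hm : 0 ≤ Real.sqrt X.μ := Real.sqrt_nonneg _
        have hL6 : L ≤ L ^ 6 := by
          have : L ^ 1 ≤ L ^ 6 := pow_le_pow_right₀ hL (by norm_num)
          rwa [pow_one] at this
        have h61 : (1 : ℝ) ≤ L ^ 6 := one_le_pow₀ hL
        have a1 : Real.sqrt X.μ * L ≤ L ^ 6 * Real.sqrt X.μ := by
          rw [mul_comm]
          exact mul_le_mul_of_nonneg_right hL6 hm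
        have a2 : X.ρ ≤ L ^ 6 * X.ρ := by
          have := hX.ρ0
          nlinarith
        have a3 := hX.sm1
        have a4 := hX.sm2
        linarith
      have h6 : Real.sqrt X.μ * ∑ c, |G w c| ≤ l2 (G w) := by
        have hm : 0 ≤ Real.sqrt X.μ := Real.sqrt_nonneg _
        calc Real.sqrt X.μ * ∑ c, |G w c| ≤ Real.sqrt X.μ * (L * l2 (G w)) :=
              mul_le_mul_of_nonneg_left hl1 hm
          _ = (Real.sqrt X.μ * L) * l2 (G w) := by ring
          _ ≤ 1 * l2 (G w) := mul_le_mul_of_nonneg_right h5 hl2G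
          _ = l2 (G w) := one_mul _
      have h7 : 2 * l2 (G w) ≤ 4 / β * l2 w := by
        have e : 4 / β * l2 w = 2 * (2 / β * l2 w) := by ring
        rw [e]
        linarith
      have h8 : 4 / β * l2 w ≤ 4 / β * wS X.Φ w :=
        mul_le_mul_of_nonneg_left hws (by positivity)
      linarith
    · -- the functionals
      have hb0 : 0 ≤ 4 / β * wS X.Φ w := by positivity
      refine (pi_norm_le_iff_of_nonneg hb0).2 ?_
      rintro ⟨k, l⟩
      rw [Cfg.ev_apply, Real.norm_eq_abs]
      have hpsi : inner ℝ (X.psi (k, l)) (I w) = inner ℝ (X.b k (Sum.inr l)) (I w) +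
          ∑ i, X.Φ l i * inner ℝ (X.b k (Sum.inl i)) (I w) := by
        simp only [Cfg.psi]
        rw [inner_add_left, sum_inner]
        congr 1
        refine Finset.sum_congr rfl fun i _ => ?_
        rw [real_inner_smul_left]
      rw [hpsi]
      -- a vector which is almost orthogonal to the block
      have hort : ∀ v : Hn n, (∀ i, |inner ℝ v (E.starProjection (u i))| ≤ τ) →
          |inner ℝ v (I w)| ≤ τ * ∑ i, |G w i| := by
        intro v hv
        rw [hin, Finset.mul_sum]
        refine (Finset.abs_sum_le_sum_abs _ _).trans (Finset.sum_le_sum fun i _ => ?_)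
        rw [abs_mul, mul_comm]
        exact mul_le_mul_of_nonneg_right (hv i) (abs_nonneg _)
      by_cases hk : k = j
      · subst hk
        have h3 : |inner ℝ (X.b k (Sum.inr l)) (I w)| ≤ τ * ∑ i, |G w i| := by
          refine hort _ fun i => ?_
          have h := hg1 (Sum.inr l) (Sum.inl i)
          simpa using h
        have h4 : ∑ i, X.Φ l i * inner ℝ (X.b k (Sum.inl i)) (I w) = mv X.Φ w l := by
          rw [mv_apply]
          exact Finset.sum_congr rfl fun i _ => by rw [hU i]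
        have h5 : |mv X.Φ w l| ≤ ‖mv X.Φ w‖ := by
          rw [← Real.norm_eq_abs]
          exact norm_le_pi_norm _ l
        have h6 : τ * ∑ i, |G w i| ≤ l2 w := by
          calc τ * ∑ i, |G w i| ≤ τ * (L * l2 (G w)) := mul_le_mul_of_nonneg_left hl1 hτ.le
            _ = (L * τ) * l2 (G w) := by ring
            _ ≤ l2 w := hsmall _ (by positivity) hs1
        rw [h4]
        refine (abs_add_le _ _).trans ?_
        linarith
      · have hrow : ∑ i, |X.Φ l i| ≤ X.f - 1 := by
          have : ∑ i, |X.Φ l i| ≤ ∑ l, ∑ i, |X.Φ l i| :=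
            Finset.single_le_sum (f := fun l => ∑ i, |X.Φ l i|)
              (fun l _ => Finset.sum_nonneg fun i _ => abs_nonneg _) (Finset.mem_univ l)
          simp only [Cfg.f]
          linarith
        have h3 : ∀ c, |inner ℝ (X.b k c) (I w)| ≤ τ * ∑ i, |G w i| := by
          intro c
          exact hort _ fun i => hg2 k hk c (Sum.inl i)
        have hS0 : 0 ≤ ∑ i, |G w i| := Finset.sum_nonneg fun i _ => abs_nonneg _
        have h4 : |∑ i, X.Φ l i * inner ℝ (X.b k (Sum.inl i)) (I w)| ≤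
            (X.f - 1) * (τ * ∑ i, |G w i|) := by
          refine (Finset.abs_sum_le_sum_abs _ _).trans ?_
          calc ∑ i, |X.Φ l i * inner ℝ (X.b k (Sum.inl i)) (I w)|
              ≤ ∑ i, |X.Φ l i| * (τ * ∑ i, |G w i|) := by
                refine Finset.sum_le_sum fun i _ => ?_
                rw [abs_mul]
                exact mul_le_mul_of_nonneg_left (h3 _) (abs_nonneg _)
            _ = (∑ i, |X.Φ l i|) * (τ * ∑ i, |G w i|) := by rw [Finset.sum_mul]
            _ ≤ _ := mul_le_mul_of_nonneg_right hrow (by positivity)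
        have h5 : X.f * (τ * ∑ i, |G w i|) ≤ l2 w := by
          calc X.f * (τ * ∑ i, |G w i|) ≤ L * (τ * (L * l2 (G w))) := by
                refine mul_le_mul hX.Lf (mul_le_mul_of_nonneg_left hl1 hτ.le) (by positivity)
                  (by linarith)
            _ = (L ^ 2 * τ) * l2 (G w) := by ring
            _ ≤ l2 w := hsmall _ (by positivity) hs2
        refine (abs_add_le _ _).trans ?_
        have h6 := h3 (Sum.inr l)
        have h7 : τ * ∑ i, |G w i| + (X.f - 1) * (τ * ∑ i, |G w i|) =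
            X.f * (τ * ∑ i, |G w i|) := by ring
        linarith

end Pool.NG
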