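import Pool.Agent.Work.MP_3e8c7a.Flags

/-!
# MP_3e8c7a_an: bodies with a common flag of complemented subspaces

Let `b`, `lam ≥ 1` and `j` be given. There is `C` such that for all `1 ≤ k ≤ n` and all
origin-symmetric convex bodies `K, L` in `ℝ^n` whose sections by all subspaces of dimension `k` have
Banach–Mazur distance at most `b`: if there are subspaces `E 0 ≤ E 1 ≤ … ≤ E j = ℝ^n` with steps of
dimension `k - 1` or `k`, the sections by `E 0` have distance at most `b`, and every `E i` is the
range of a linear projection that maps `K` into `lam K` and of a linear projection that maps `L` into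
`lam L` (the two projections may be different), then `d_BM(K, L) ≤ C`.

Proof: tilt and scale lemma (`Pool/Agent/Work/MP_3e8c7a/Base.lean`), from the top of the flag.
-/

namespace Pool.Agent.Results.MP_3e8c7a_an.CommonFlags

open Pool.Agent.MP3e8c7a Module

theorem result (b lam : ℝ) (hlam : 1 ≤ lam) (j : ℕ) : ∃ C : ℝ, 1 ≤ C ∧
    ∀ n k : ℕ, 1 ≤ k → k ≤ n → ∀ K L : Set (Fin n → ℝ), IsBody K → IsBody L →
      SectionsClose k b K L → ∀ E : ℕ → Submodule ℝ (Fin n → ℝ), E j = ⊤ →
      (∀ i < j, E i ≤ E (i + 1) ∧ finrank ℝ (E i) + (k - 1) ≤ finrank ℝ (E (i + 1)) ∧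
        finrank ℝ (E (i + 1)) ≤ finrank ℝ (E i) + k) →
      (∀ i < j, Complemented lam K (E i) ∧ Complemented lam L (E i)) →
      dBM (sec K (E 0)) (sec L (E 0)) ≤ ENNReal.ofReal b →
      dBM K L ≤ ENNReal.ofReal C :=
  flags_dist b lam hlam j

end Pool.Agent.Results.MP_3e8c7a_an.CommonFlags
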