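import Pool.Agent.Work.MP_3e8c7a_un.Interface

/-!
# MP_3e8c7a_an, THEOREM NEG (negative answer to Q1): definitions

`lrS r h`: the norm of `ℓ_r` on `ι → ℝ`. `l2S`: the Euclidean norm on `ι → ℝ`. `mv Φ`: the linear map of a matrix.
`infS p q T x = inf_z (p (x - T z) + q z)`. `Cfg`: the data of the space `X`.
-/

set_option autoImplicit false
set_option linter.unusedSectionVars false

namespace Pool.NG

open Module Pool.Agent.MP3e8c7a

/-- The `ℓ_r` norm. -/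
noncomputable def lr (r : ℝ) {ι : Type} [Fintype ι] (z : ι → ℝ) : ℝ := (∑ i, |z i| ^ r) ^ (1 / r)

/-- The `ℓ_r` norm as a seminorm. -/
noncomputable def lrS (r : ℝ) (hr : 1 ≤ r) (ι : Type) [Fintype ι] : Seminorm ℝ (ι → ℝ) :=
  Seminorm.ofSMulLE (lr r) (by
      have h0 : r ≠ 0 := by linarith
      simp only [lr, Pi.zero_apply, abs_zero]
      rw [Real.zero_rpow h0, Finset.sum_const_zero, Real.zero_rpow (one_div_ne_zero h0)])
    (fun x y => by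
      have h := Real.Lp_add_le (Finset.univ) x y hr
      simpa only [lr, Pi.add_apply] using h)
    (fun c x => by
      have h0 : 0 < r := by linarith
      have h1 : ∑ i, |(c • x) i| ^ r = |c| ^ r * ∑ i, |x i| ^ r := by
        rw [Finset.mul_sum]
        refine Finset.sum_congr rfl fun i _ => ?_
        rw [Pi.smul_apply, smul_eq_mul, abs_mul, Real.mul_rpow (abs_nonneg _) (abs_nonneg _)]
      have h2 : 0 ≤ ∑ i, |x i| ^ r := Finset.sum_nonneg fun i _ => Real.rpow_nonneg (abs_nonneg _) _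
      simp only [lr]
      rw [h1, Real.mul_rpow (Real.rpow_nonneg (abs_nonneg _) _) h2, ← Real.rpow_mul (abs_nonneg _),
        mul_one_div_cancel h0.ne', Real.rpow_one, Real.norm_eq_abs])

@[simp] lemma lrS_apply (r : ℝ) (hr : 1 ≤ r) {ι : Type} [Fintype ι] (z : ι → ℝ) :
    lrS r hr ι z = lr r z := rfl

/-- The Euclidean norm of a vector. -/
noncomputable def l2 {ι : Type} [Fintype ι] (z : ι → ℝ) : ℝ := Real.sqrt (∑ i, z i ^ 2)

lemma l2_eq_norm {ι : Type} [Fintype ι] (z : ι → ℝ) : l2 z = ‖(WithLp.toLp 2 z : EuclideanSpace ℝ ι)‖ := by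
  rw [EuclideanSpace.norm_eq]
  simp only [l2, Real.norm_eq_abs, sq_abs]

/-- The Euclidean norm as a seminorm. -/
noncomputable def l2S (ι : Type) [Fintype ι] : Seminorm ℝ (ι → ℝ) :=
  (normSeminorm ℝ (EuclideanSpace ℝ ι)).comp (WithLp.linearEquiv 2 ℝ (ι → ℝ)).symm.toLinearMap

@[simp] lemma l2S_apply {ι : Type} [Fintype ι] (z : ι → ℝ) : l2S ι z = l2 z := by
  rw [l2_eq_norm]
  rfl

/-- The linear map of a matrix. -/
def mv {s d : Type} [Fintype d] (Φ : s → d → ℝ) : (d → ℝ) →ₗ[ℝ] (s → ℝ) where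
  toFun w := fun l => ∑ i, Φ l i * w i
  map_add' x y := by
    funext l
    simp only [Pi.add_apply, mul_add, Finset.sum_add_distrib]
  map_smul' c x := by
    funext l
    simp only [Pi.smul_apply, smul_eq_mul, RingHom.id_apply, Finset.mul_sum]
    exact Finset.sum_congr rfl fun i _ => by ring

@[simp] lemma mv_apply {s d : Type} [Fintype d] (Φ : s → d → ℝ) (w : d → ℝ) (l : s) :
    mv Φ w l = ∑ i, Φ l i * w i := rfl

/-- The norm `|w|_2 ∨ |Φ w|_∞` (`‖·‖` on `s → ℝ` is the maximum norm). -/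
noncomputable def wS {s d : Type} [Fintype s] [Fintype d] (Φ : s → d → ℝ) : Seminorm ℝ (d → ℝ) :=
  l2S d ⊔ (normSeminorm ℝ (s → ℝ)).comp (mv Φ)

lemma wS_apply {s d : Type} [Fintype s] [Fintype d] (Φ : s → d → ℝ) (w : d → ℝ) :
    wS Φ w = max (l2 w) ‖mv Φ w‖ := by
  rw [wS, Seminorm.sup_apply, l2S_apply]
  rfl

/-- Infimal convolution: `infS p q T x = inf_z (p (x - T z) + q z)`. -/
noncomputable def infS {V W : Type} [AddCommGroup V] [Module ℝ V] [AddCommGroup W] [Module ℝ W]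
    (p : Seminorm ℝ V) (q : Seminorm ℝ W) (T : W →ₗ[ℝ] V) : Seminorm ℝ V :=
  have hb : ∀ x, BddBelow (Set.range fun z : W => p (x - T z) + q z) := fun x =>
    ⟨0, by rintro _ ⟨z, rfl⟩; exact add_nonneg (apply_nonneg _ _) (apply_nonneg _ _)⟩
  Seminorm.ofSMulLE (fun x => ⨅ z : W, p (x - T z) + q z)
    (le_antisymm
      ((ciInf_le (hb 0) 0).trans (by simp))
      (le_ciInf fun z => add_nonneg (apply_nonneg _ _) (apply_nonneg _ _)))
    (fun x y => by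
      refine le_ciInf_add_ciInf fun z z' => ?_
      refine (ciInf_le (hb (x + y)) (z + z')).trans ?_
      have h1 : p (x + y - T (z + z')) ≤ p (x - T z) + p (y - T z') := by
        have e : x + y - T (z + z') = (x - T z) + (y - T z') := by rw [map_add]; abel
        rw [e]
        exact map_add_le_add p _ _
      have h2 : q (z + z') ≤ q z + q z' := map_add_le_add q _ _
      linarith)
    (fun c x => by
      show ⨅ z : W, p (c • x - T z) + q z ≤ ‖c‖ * ⨅ z : W, p (x - T z) + q z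
      rw [Real.mul_iInf_of_nonneg (norm_nonneg c)]
      refine le_ciInf fun z => ?_
      refine (ciInf_le (hb (c • x)) (c • z)).trans (le_of_eq ?_)
      have e : c • x - T (c • z) = c • (x - T z) := by rw [map_smul, smul_sub]
      show p (c • x - T (c • z)) + q (c • z) = ‖c‖ * (p (x - T z) + q z)
      rw [e, map_smul_eq_mul, map_smul_eq_mul, mul_add])

lemma infS_le {V W : Type} [AddCommGroup V] [Module ℝ V] [AddCommGroup W] [Module ℝ W]
    (p : Seminorm ℝ V) (q : Seminorm ℝ W) (T : W →ₗ[ℝ] V) (x : V) (z : W) :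
    infS p q T x ≤ p (x - T z) + q z :=
  ciInf_le (f := fun z : W => p (x - T z) + q z)
    ⟨0, by rintro _ ⟨z, rfl⟩; exact add_nonneg (apply_nonneg _ _) (apply_nonneg _ _)⟩ z

lemma le_infS {V W : Type} [AddCommGroup V] [Module ℝ V] [AddCommGroup W] [Module ℝ W]
    (p : Seminorm ℝ V) (q : Seminorm ℝ W) (T : W →ₗ[ℝ] V) (x : V) {a : ℝ}
    (h : ∀ z, a ≤ p (x - T z) + q z) : a ≤ infS p q T x :=
  le_ciInf h

/-- The space `ℝ^n`. -/
abbrev Hn (n : ℕ) : Type := EuclideanSpace ℝ (Fin n)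

/-- The data of the space `X`: blocks `j : J`, signal vectors `b j (inl i)`, `i : d`, noise vectors
`b j (inr l)`, `l : s`, the matrix `Φ`, and the numbers `D = 1 / θ`, `r`, `ρ`, `μ`. -/
structure Cfg (n : ℕ) (J d s : Type) where
  b : J → d ⊕ s → Hn n
  Φ : s → d → ℝ
  D : ℝ
  r : ℝ
  ρ : ℝ
  μ : ℝ
  hr : 1 ≤ r
  hρ : 0 ≤ ρ

section cfg

variable {n : ℕ} {J d s : Type} [Fintype J] [Fintype d] [Fintype s] (X : Cfg n J d s)

/-- `T z = ∑ z_c g_c` with these vectors `g_c`. -/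
def Cfg.g (X : Cfg n J d s) : J × (d ⊕ s) → Hn n
  | (j, Sum.inl i) => X.b j (Sum.inl i) - ∑ l, X.Φ l i • X.b j (Sum.inr l)
  | (j, Sum.inr l) => X.b j (Sum.inr l)

/-- The functionals `ψ`. -/
def Cfg.psi (X : Cfg n J d s) (c : J × s) : Hn n :=
  X.b c.1 (Sum.inr c.2) + ∑ i, X.Φ c.2 i • X.b c.1 (Sum.inl i)

/-- The map `T`. -/
noncomputable def Cfg.T : (J × (d ⊕ s) → ℝ) →ₗ[ℝ] Hn n := Fintype.linearCombination ℝ X.g

lemma Cfg.T_apply (z : J × (d ⊕ s) → ℝ) : X.T z = ∑ c, z c • X.g c := by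
  rw [Cfg.T, Fintype.linearCombination_apply]

/-- The weighted vector: the noise coordinates are divided by `D`. -/
noncomputable def Cfg.wt (X : Cfg n J d s) : (J × (d ⊕ s) → ℝ) →ₗ[ℝ] (J × (d ⊕ s) → ℝ) where
  toFun z := fun c => Sum.elim (fun _ => z c) (fun _ => X.D⁻¹ * z c) c.2
  map_add' x y := by
    funext c
    rcases c with ⟨j, i | l⟩ <;> simp [mul_add]
  map_smul' t x := by
    funext c
    rcases c with ⟨j, i | l⟩ <;> simp [mul_left_comm]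

@[simp] lemma Cfg.wt_inl (z : J × (d ⊕ s) → ℝ) (j : J) (i : d) :
    X.wt z (j, Sum.inl i) = z (j, Sum.inl i) := rfl

@[simp] lemma Cfg.wt_inr (z : J × (d ⊕ s) → ℝ) (j : J) (l : s) :
    X.wt z (j, Sum.inr l) = X.D⁻¹ * z (j, Sum.inr l) := rfl

/-- The `ℓ_1` norm. -/
noncomputable def l1S (ι : Type) [Fintype ι] : Seminorm ℝ (ι → ℝ) := lrS 1 le_rfl ι

lemma l1S_apply {ι : Type} [Fintype ι] (z : ι → ℝ) : l1S ι z = ∑ i, |z i| := by
  show (∑ i, |z i| ^ (1 : ℝ)) ^ (1 / (1 : ℝ)) = _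
  simp only [Real.rpow_one, div_one]

/-- The norm `|(w, θ a)|_r + ρ |z|_1`. -/
noncomputable def Cfg.nu : Seminorm ℝ (J × (d ⊕ s) → ℝ) :=
  (lrS X.r X.hr (J × (d ⊕ s))).comp X.wt + X.ρ.toNNReal • l1S (J × (d ⊕ s))

lemma Cfg.nu_apply (z : J × (d ⊕ s) → ℝ) :
    X.nu z = lr X.r (X.wt z) + X.ρ * ∑ c, |z c| := by
  rw [Cfg.nu, Seminorm.add_apply, Seminorm.smul_apply, l1S_apply, NNReal.smul_def, Real.coe_toNNReal _ X.hρ]
  rfl

/-- The norm `N₂`. -/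
noncomputable def Cfg.N2 : Seminorm ℝ (Hn n) := infS (normSeminorm ℝ (Hn n)) X.nu X.T

lemma Cfg.N2_le (x : Hn n) (z : J × (d ⊕ s) → ℝ) :
    X.N2 x ≤ ‖x - X.T z‖ + (lr X.r (X.wt z) + X.ρ * ∑ c, |z c|) := by
  rw [← X.nu_apply]
  exact infS_le (normSeminorm ℝ (Hn n)) X.nu X.T x z

/-- The evaluation of the functionals `ψ`. -/
noncomputable def Cfg.ev : Hn n →ₗ[ℝ] (J × s → ℝ) where
  toFun x := fun c => inner ℝ (X.psi c) x
  map_add' x y := by
    funext c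
    simp [inner_add_right]
  map_smul' t x := by
    funext c
    simp [inner_smul_right]

@[simp] lemma Cfg.ev_apply (x : Hn n) (c : J × s) : X.ev x c = inner ℝ (X.psi c) x := rfl

/-- The norm of `X`. -/
noncomputable def Cfg.nX : Seminorm ℝ (Hn n) := X.N2 ⊔ (normSeminorm ℝ (J × s → ℝ)).comp X.ev

lemma Cfg.nX_apply (x : Hn n) : X.nX x = max (X.N2 x) ‖X.ev x‖ := rfl

/-- The signal coordinates of the block `j`. -/
noncomputable def Cfg.U (j : J) : Hn n →ₗ[ℝ] (d → ℝ) where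
  toFun x := fun i => inner ℝ (X.b j (Sum.inl i)) x
  map_add' x y := by
    funext c
    simp [inner_add_right]
  map_smul' t x := by
    funext c
    simp [inner_smul_right]

@[simp] lemma Cfg.U_apply (j : J) (x : Hn n) (i : d) : X.U j x i = inner ℝ (X.b j (Sum.inl i)) x := rfl

/-- The sum of the absolute values of the entries of `Φ`, plus one. -/
def Cfg.f : ℝ := 1 + ∑ l, ∑ i, |X.Φ l i|

end cfg

/-- The basic hypotheses on the data; `L` bounds all sizes, `μ`, `ρ` are small. -/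
structure Cfg.Ok {n : ℕ} {J d s : Type} [Fintype J] [Fintype d] [Fintype s] (X : Cfg n J d s)
    (N₀ : ℕ) (L : ℝ) : Prop where
  D1 : 1 ≤ X.D
  r1 : 1 < X.r
  r2 : X.r < 2
  ρ0 : 0 < X.ρ
  μ0 : 0 < X.μ
  unit : ∀ j c, ‖X.b j c‖ = 1
  coh : ∀ x y : J × (d ⊕ s), x ≠ y → |inner ℝ (X.b x.1 x.2) (X.b y.1 y.2)| ≤ X.μ
  phi : ∀ w : d → ℝ, l2 (mv X.Φ w) ≤ X.D * l2 w
  N1 : 1 ≤ N₀
  L1 : 1 ≤ L
  Lf : X.f ≤ L
  LN : (N₀ : ℝ) ≤ L
  LD : X.D + 2 ≤ L
  Ld : (Fintype.card d : ℝ) ≤ L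
  Ls : (Fintype.card s : ℝ) ≤ L
  sm1 : L ^ 6 * Real.sqrt X.μ ≤ X.ρ
  sm2 : L ^ 6 * X.ρ ≤ 1
  rN : (N₀ : ℝ) ^ (1 / X.r - 1 / 2) ≤ 2
  drop : ∃ η : ℝ, 0 < η ∧ 4 * (L * Real.sqrt (η / X.ρ)) ≤ 1 ∧ X.ρ * η ^ (1 - X.r) * X.D ^ X.r * N₀ ≤ 1

/-- The block `j` is good for the orthogonal projection onto `E`: it is almost diagonal on the block, and the block is almost orthogonal to all the others. -/
def GoodB {n : ℕ} {J c : Type} [DecidableEq c] (b : J → c → Hn n) (τ : ℝ) (E : Submodule ℝ (Hn n)) (j : J) : Prop :=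
  (∀ x y : c, |inner ℝ (b j x) (E.starProjection (b j y)) - (if x = y then (finrank ℝ E : ℝ) / n else 0)| ≤ τ) ∧
  ∀ i : J, i ≠ j → ∀ x y : c, |inner ℝ (b i x) (E.starProjection (b j y))| ≤ τ

/-- Smallness of `τ`; `β` is the lower bound for `dim E / n` and `1 - dim E / n`. -/
structure Cfg.Tau {n : ℕ} {J d s : Type} [Fintype J] [Fintype d] [Fintype s] (X : Cfg n J d s) (L τ β : ℝ) : Prop where
  τ0 : 0 < τ
  β0 : 0 < β
  β1 : 2 * β ≤ 1
  t1 : 30 * (L ^ 3 * τ) ≤ β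
  t2 : X.D * ((L ^ 2 * τ) ^ (X.r / (X.r - 1) - 2) * (2 * L) ^ 2) ^ (1 - 1 / X.r) ≤ 1

/-- The coordinates of `T z` with respect to the vectors `b`. -/
def Cfg.yc {n : ℕ} {J d s : Type} [Fintype d] (X : Cfg n J d s) (z : J × (d ⊕ s) → ℝ) : J × (d ⊕ s) → ℝ
  | (j, Sum.inl i) => z (j, Sum.inl i)
  | (j, Sum.inr l) => z (j, Sum.inr l) - ∑ i, X.Φ l i * z (j, Sum.inl i)

/-- The norms `q_τ (y) = max (θ |y|_2) (2^{-τ} |y|_∞)` on `ℝ^Q`. -/
noncomputable def qS (D : ℝ) (τ : ℕ) (Q : ℕ) : Seminorm ℝ (Fin Q → ℝ) :=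
  (l2S (Fin Q)).comp (D⁻¹ • LinearMap.id) ⊔ (normSeminorm ℝ (Fin Q → ℝ)).comp (((1 : ℝ) / 2) ^ τ • LinearMap.id)

lemma qS_apply {D : ℝ} (hD : 0 < D) (τ : ℕ) {Q : ℕ} (y : Fin Q → ℝ) :
    qS D τ Q y = max (D⁻¹ * l2 y) ((1 / 2) ^ τ * ‖y‖) := by
  show max (l2S (Fin Q) (D⁻¹ • y)) ‖((1 : ℝ) / 2) ^ τ • y‖ = _
  rw [map_smul_eq_mul, l2S_apply, norm_smul, Real.norm_eq_abs, Real.norm_eq_abs, abs_of_pos (inv_pos.2 hD),
    abs_of_pos (by positivity)]

/-- The norms `p_τ (x, y) = ‖x‖_X + q_τ (G y)` on `V = ℝ^n × ℝ^m`. -/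
noncomputable def Cfg.P {n : ℕ} {J d s : Type} [Fintype J] [Fintype d] [Fintype s] (X : Cfg n J d s) {m Q : ℕ}
    (G : (Fin m → ℝ) →ₗ[ℝ] (Fin Q → ℝ)) (τ : ℕ) : Seminorm ℝ (Hn n × (Fin m → ℝ)) :=
  ds X.nX ((qS X.D τ Q).comp G)

lemma Cfg.P_apply {n : ℕ} {J d s : Type} [Fintype J] [Fintype d] [Fintype s] (X : Cfg n J d s) {m Q : ℕ}
    (G : (Fin m → ℝ) →ₗ[ℝ] (Fin Q → ℝ)) (τ : ℕ) (v : Hn n × (Fin m → ℝ)) :
    X.P G τ v = X.nX v.1 + qS X.D τ Q (G v.2) := rfl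

/-- Block diagonal matrix. -/
def bd {K : Type} [DecidableEq K] {c a : ℕ} (Ξ : K → Fin c → Fin a → ℝ) : K × Fin c → K × Fin a → ℝ :=
  fun x y => if x.1 = y.1 then Ξ x.1 x.2 y.2 else 0

/-- Lattice seminorms on `ι → ℝ`. -/
def UncT {ι : Type} (u : Seminorm ℝ (ι → ℝ)) : Prop := ∀ x y : ι → ℝ, (∀ j, |x j| ≤ |y j|) → u x ≤ u y

end Pool.NG
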