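import Pool.Agent.Work.MP_3e8c7a_h.Interface

/-!
# MP_3e8c7a_an, THEOREM NEG (full negative answer to Q1): definitions for the absorption part (helper11)
-/

set_option autoImplicit false

namespace Pool.NG

open Module Pool.Agent.MP3e8c7a

/-- The Euclidean norm on functions. -/
noncomputable def e2 (D : Type) [Fintype D] : Seminorm ℝ (D → ℝ) :=
  (normSeminorm ℝ (EuclideanSpace ℝ D)).comp ((WithLp.linearEquiv 2 ℝ (D → ℝ)).symm : (D → ℝ) →ₗ[ℝ] EuclideanSpace ℝ D)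

theorem e2_apply {D : Type} [Fintype D] (w : D → ℝ) : e2 D w = Real.sqrt (∑ i, w i ^ 2) := by
  show ‖(WithLp.linearEquiv 2 ℝ (D → ℝ)).symm w‖ = _
  rw [EuclideanSpace.norm_eq]
  congr 1
  refine Finset.sum_congr rfl fun i _ => ?_
  show ‖w i‖ ^ 2 = w i ^ 2
  rw [Real.norm_eq_abs, sq_abs]

theorem e2_sq {D : Type} [Fintype D] (w : D → ℝ) : e2 D w ^ 2 = ∑ i, w i ^ 2 := by
  rw [e2_apply, Real.sq_sqrt (Finset.sum_nonneg fun i _ => sq_nonneg _)]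

/-- The norm `|w|_2 ∨ |Φ w|_∞`. -/
noncomputable def wN {S D : Type} [Fintype S] [Fintype D] (Φ : Matrix S D ℝ) : Seminorm ℝ (D → ℝ) :=
  e2 D ⊔ (normSeminorm ℝ (S → ℝ)).comp Φ.mulVecLin

theorem wN_apply {S D : Type} [Fintype S] [Fintype D] (Φ : Matrix S D ℝ) (w : D → ℝ) :
    wN Φ w = max (e2 D w) ‖Φ.mulVec w‖ := rfl

/-- `|Φ w|_2 ≤ D |w|_2`. -/
def MB (D : ℝ) {S T : Type} [Fintype S] [Fintype T] (Φ : Matrix S T ℝ) : Prop :=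
  ∀ w : T → ℝ, e2 S (Φ.mulVec w) ≤ D * e2 T w

/-- Block diagonal matrix with the blocks `Ξ τ`. -/
def blk {t s R : ℕ} (Ξ : Fin (t + 1) → Matrix (Fin s) (Fin R) ℝ) :
    Matrix (Fin (t + 1) × Fin s) (Fin (t + 1) × Fin R) ℝ :=
  Matrix.of fun a b => if a.1 = b.1 then Ξ a.1 a.2 b.2 else 0

/-- Block diagonal matrix with the blocks `Xi κ τ`. -/
def cat {K t s R : ℕ} (Xi : Fin K → Fin (t + 1) → Matrix (Fin s) (Fin R) ℝ) :
    Matrix (Fin K × Fin (t + 1) × Fin s) (Fin K × Fin (t + 1) × Fin R) ℝ :=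
  Matrix.of fun a b => if a.1 = b.1 ∧ a.2.1 = b.2.1 then Xi a.1 a.2.1 a.2.2 b.2.2 else 0

theorem blk_mulVec {t s R : ℕ} (Ξ : Fin (t + 1) → Matrix (Fin s) (Fin R) ℝ) (w : Fin (t + 1) × Fin R → ℝ)
    (a : Fin (t + 1) × Fin s) : (blk Ξ).mulVec w a = (Ξ a.1).mulVec (fun i => w (a.1, i)) a.2 := by
  show ∑ b : Fin (t + 1) × Fin R, (if a.1 = b.1 then Ξ a.1 a.2 b.2 else 0) * w b = ∑ i, Ξ a.1 a.2 i * w (a.1, i)
  rw [Fintype.sum_prod_type, Finset.sum_eq_single a.1]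
  · refine Finset.sum_congr rfl fun i _ => ?_
    simp
  · intro b _ hb
    refine Finset.sum_eq_zero fun i _ => ?_
    rw [if_neg (Ne.symm hb), zero_mul]
  · intro h
    exact absurd (Finset.mem_univ _) h

theorem cat_mulVec {K t s R : ℕ} (Xi : Fin K → Fin (t + 1) → Matrix (Fin s) (Fin R) ℝ)
    (w : Fin K × Fin (t + 1) × Fin R → ℝ) (a : Fin K × Fin (t + 1) × Fin s) :
    (cat Xi).mulVec w a = (Xi a.1 a.2.1).mulVec (fun i => w (a.1, a.2.1, i)) a.2.2 := by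
  show ∑ b : Fin K × Fin (t + 1) × Fin R, (if a.1 = b.1 ∧ a.2.1 = b.2.1 then Xi a.1 a.2.1 a.2.2 b.2.2 else 0) * w b
    = ∑ i, Xi a.1 a.2.1 a.2.2 i * w (a.1, a.2.1, i)
  rw [Fintype.sum_prod_type, Finset.sum_eq_single a.1]
  · rw [Fintype.sum_prod_type, Finset.sum_eq_single a.2.1]
    · refine Finset.sum_congr rfl fun i _ => ?_
      simp
    · intro b _ hb
      refine Finset.sum_eq_zero fun i _ => ?_
      rw [if_neg (fun h => hb h.2.symm), zero_mul]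
    · intro h
      exact absurd (Finset.mem_univ _) h
  · intro b _ hb
    rw [Fintype.sum_prod_type]
    refine Finset.sum_eq_zero fun _ _ => Finset.sum_eq_zero fun i _ => ?_
    rw [if_neg (fun h => hb h.1.symm), zero_mul]
  · intro h
    exact absurd (Finset.mem_univ _) h

/-- The seminorm `N x ∨ q τ (B x)`. -/
noncomputable def pT {t m : ℕ} {E : Type} [AddCommGroup E] [Module ℝ E] (N : Seminorm ℝ E)
    (q : Fin (t + 1) → Seminorm ℝ (Fin m → ℝ)) (B : E →ₗ[ℝ] (Fin m → ℝ)) (τ : Fin (t + 1)) : Seminorm ℝ E :=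
  N ⊔ (q τ).comp B

theorem pT_apply {t m : ℕ} {E : Type} [AddCommGroup E] [Module ℝ E] (N : Seminorm ℝ E)
    (q : Fin (t + 1) → Seminorm ℝ (Fin m → ℝ)) (B : E →ₗ[ℝ] (Fin m → ℝ)) (τ : Fin (t + 1)) (x : E) :
    pT N q B τ x = max (N x) (q τ (B x)) := rfl

theorem pT_comp {t m : ℕ} {E F : Type} [AddCommGroup E] [Module ℝ E] [AddCommGroup F] [Module ℝ F]
    (N : Seminorm ℝ E) (q : Fin (t + 1) → Seminorm ℝ (Fin m → ℝ)) (B : E →ₗ[ℝ] (Fin m → ℝ))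
    (f : F →ₗ[ℝ] E) (τ : Fin (t + 1)) : (pT N q B τ).comp f = pT (N.comp f) q (B ∘ₗ f) τ := rfl

/-- Neighbouring seminorms are `2`-equivalent, decreasing in `τ`. -/
def QS {t m : ℕ} (q : Fin (t + 1) → Seminorm ℝ (Fin m → ℝ)) : Prop :=
  ∀ (τ : Fin t) (y : Fin m → ℝ), q τ.succ y ≤ q τ.castSucc y ∧ q τ.castSucc y ≤ 2 * q τ.succ y

/-- The subspaces of dimension `R` look like `|w|_2 ∨ |Ξ_τ w|_∞`, with the same coordinates for all `τ`. -/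
def Clo (c D : ℝ) (s R : ℕ) {t : ℕ} {E : Type} [AddCommGroup E] [Module ℝ E] (p : Fin (t + 1) → Seminorm ℝ E) : Prop :=
  ∀ A : Submodule ℝ E, finrank ℝ A = R → ∃ (u : (Fin R → ℝ) ≃ₗ[ℝ] A) (Ξ : Fin (t + 1) → Matrix (Fin s) (Fin R) ℝ),
    (∀ τ, MB D (Ξ τ)) ∧ ∀ τ w, wN (Ξ τ) w ≤ c * p τ (u w) ∧ p τ (u w) ≤ c * wN (Ξ τ) w

/-- All `p τ` are `D`-equivalent to one Euclidean norm. -/
def EuS (D : ℝ) {t : ℕ} {E : Type} [AddCommGroup E] [Module ℝ E] (p : Fin (t + 1) → Seminorm ℝ E) : Prop :=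
  ∃ (e : ℕ) (T : E →ₗ[ℝ] EuclideanSpace ℝ (Fin e)), Function.Injective T ∧ ∀ τ x, ‖T x‖ ≤ p τ x ∧ p τ x ≤ D * ‖T x‖

/-- The space `(D → ℝ, wN Φ)` is a `c`-complemented part of `(E, N)` inside the kernel of `B`. -/
def Vis (c : ℝ) {S D : Type} [Fintype S] [Fintype D] (Φ : Matrix S D ℝ) {m : ℕ} {E : Type} [AddCommGroup E] [Module ℝ E]
    (N : Seminorm ℝ E) (B : E →ₗ[ℝ] (Fin m → ℝ)) : Prop :=
  ∃ (J : (D → ℝ) →ₗ[ℝ] E) (Q : E →ₗ[ℝ] (D → ℝ)), (∀ w, Q (J w) = w) ∧ (∀ w, B (J w) = 0) ∧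
    (∀ w, N (J w) ≤ c * wN Φ w) ∧ ∀ x, wN Φ (Q x) ≤ c * N x

end Pool.NG
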