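import Pool.Agent.Work.MP_3e8c7a_ng.Defs

/-!
# MP_3e8c7a_an, THEOREM NEG (Q1 is false): the blocks of the geometry of `X` and of the sections

RULES. Every block is one file `B_X.lean` in this folder, `import Pool.Agent.Work.MP_3e8c7a_ng.Interface`, `namespace Pool.NG`, `open Module Pool.Agent.MP3e8c7a`, `theorem p_X (h1 : Stmt_Y) .. : Stmt_X` with exactly the blocks named after `uses` as hypotheses in that order (`theorem p_X : Stmt_X` if it uses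
nothing); auxiliary lemmas with the prefix `X_`. No straight double quotes. All definitions and their `_apply` lemmas are in `Defs.lean` (read it first: 5 minutes). `‖·‖` on `ι → ℝ` is the maximum norm (`pi_norm_le_iff_of_nonneg`, `norm_le_pi_norm`), `l2` the Euclidean norm, `lr r` the norm of `ℓ_r`; powers with real exponents are `Real.rpow`.
`c` denotes an index of `J × (d ⊕ s)`; `b_c = X.b c.1 c.2`; `|z|_1 = ∑ c, |z c|`. `X.f = 1 + ∑ |Φ l i| ≤ L`.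
-/

set_option autoImplicit false

namespace Pool.NG

open Module Pool.Agent.MP3e8c7a
open Pool.RG (FacE)

/-! ## 2. Sequences -/

/-- **LRA** (150; uses nothing). THE NORM OF `ℓ_r`. (1) `l2 z ≤ lr r z`: if `lr r z = 0` then `z = 0`; otherwise homogeneity, `lr r z = 1`: `|z i| ≤ 1`, so `z i ^ 2 ≤ |z i| ^ r` and `∑ z i ^ 2 ≤ 1`. (2) monotone. (3) Hoelder with the exponents `2 / r` and `2 / (2 - r)` on `S`: `∑_{i ∈ S} |z i| ^ r ≤ (∑ z i ^ 2) ^ (r / 2) * S.card ^ (1 - r / 2)`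
(`Real.inner_le_Lp_mul_Lq` or `Real.rpow_sum_le_const_mul_sum_rpow`; for `r = 2` trivial, for `S = ∅` we have `z = 0`), to the power `1 / r`. -/
def Stmt_LRA : Prop := ∀ (r : ℝ) (ι : Type) [Fintype ι], 1 ≤ r → r ≤ 2 →
  (∀ z : ι → ℝ, l2 z ≤ lr r z) ∧
  (∀ z z' : ι → ℝ, (∀ i, |z i| ≤ |z' i|) → lr r z ≤ lr r z') ∧
  (∀ (S : Finset ι) (z : ι → ℝ), (∀ i ∉ S, z i = 0) → lr r z ≤ (S.card : ℝ) ^ (1 / r - 1 / 2) * l2 z)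

/-- **LRH** (130; uses nothing). HOELDER FOR FLAT VECTORS. `r' = r / (r - 1) > 2`. `|∑_{S} k i * z i| ≤ (∑_{S} |k i| ^ r') ^ (1 / r') * (∑_{S} |z i| ^ r) ^ (1 / r)` (`Real.inner_le_Lp_mul_Lq`), `|k i| ^ r' = |k i| ^ (r' - 2) * k i ^ 2 ≤ ε ^ (r' - 2) * k i ^ 2`, `1 / r' = 1 - 1 / r`. -/
def Stmt_LRH : Prop := ∀ (r : ℝ) (ι : Type) [Fintype ι] (S : Finset ι) (k z : ι → ℝ) (ε A : ℝ), 1 < r → r < 2 → 0 ≤ ε → 0 ≤ A →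
  (∀ i ∈ S, |k i| ≤ ε) → ∑ i ∈ S, k i ^ 2 ≤ A ^ 2 →
  |∑ i ∈ S, k i * z i| ≤ (ε ^ (r / (r - 1) - 2) * A ^ 2) ^ (1 - 1 / r) * lr r z

/-- **LRR** (220; uses nothing). ROTATIONS IN `ℓ_r`. For a coordinate `c : ι`: `∑ j, y j c ^ 2 = ∑ i, x i c ^ 2` (`U` orthogonal: `∑ j, (∑ i, U j i * t i) ^ 2 = ∑ i, t i ^ 2`, e.g. `U ᵀ U = 1`). (a) `(∑ j, lr r (y j) ^ 2) ^ (r / 2) ≤ ∑ c, (∑ j, y j c ^ 2) ^ (r / 2)`: this is the triangle inequality of `ℓ_{2/r}(Fin N)` for the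
vectors `(|y j c| ^ r)_j`, `c : ι` (`2 / r ≥ 1`; induct with `Real.Lp_add_le`, or `lrS (2 / r)` of a finite sum: `map_sum_le_sum` style lemma for seminorms; `lr r (y j) ^ 2 = (∑ c, |y j c| ^ r) ^ (2 / r)`, `(|y| ^ r) ^ (2 / r) = y ^ 2`). (b) `(∑ i, x i c ^ 2) ^ (r / 2) ≤ ∑ i, |x i c| ^ r` (`r / 2 ≤ 1`: `Real.rpow_sum_le..` or
`Real.add_rpow_le_rpow_add`/`rpow_add_le_add_rpow` and induction). (c) `∑ i, lr r (x i) ^ r ≤ N ^ (1 - r / 2) * (∑ i, lr r (x i) ^ 2) ^ (r / 2)` (Jensen: `Real.inner_le_Lp_mul_Lq`, or `Real.rpow_sum_le_const_mul_sum_rpow` with the exponent `2 / r`). Together, to the power `2 / r`: `N ^ (2 / r - 1) = (N ^ (1 / r - 1 / 2)) ^ 2`. -/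
def Stmt_LRR : Prop := ∀ (r : ℝ) (ι : Type) [Fintype ι] (N : ℕ), 1 ≤ r → r ≤ 2 → 1 ≤ N → ∀ U ∈ Matrix.orthogonalGroup (Fin N) ℝ,
  ∀ x y : Fin N → ι → ℝ, (∀ j, y j = ∑ i, U j i • x i) →
  ∑ j, lr r (y j) ^ 2 ≤ ((N : ℝ) ^ (1 / r - 1 / 2)) ^ 2 * ∑ i, lr r (x i) ^ 2

/-- **ATN** (120; uses nothing). THE INFIMUM IS ATTAINED. `F z = p (x - T z) + q z` is continuous on the finite dimensional space `W` (put `W ≃ Fin k → ℝ` by a basis; a seminorm on `Fin k → ℝ` is continuous: `q z ≤ ∑ |z i| q (e_i)`), `F z ≥ q z`, and `{z : q z ≤ F 0}` is compact (`Def q`: there is `c > 0` with `c ‖z‖ ≤ q z`, the minimum of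
`q` on the unit sphere; earlier files of this problem contain such lemmas, e.g. `Pool.Agent.Work.MP_3e8c7a.Glue` / `MP_3e8c7a_h/B_KWA.lean`). -/
def Stmt_ATN : Prop := ∀ (V W : Type) [AddCommGroup V] [Module ℝ V] [FiniteDimensional ℝ V] [AddCommGroup W] [Module ℝ W] [FiniteDimensional ℝ W]
  (p : Seminorm ℝ V) (q : Seminorm ℝ W) (T : W →ₗ[ℝ] V), Def q → ∀ x, ∃ z, p (x - T z) + q z = infS p q T x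

/-! ## 3. The space `X` -/

/-- **GRA** (100; uses nothing). COHERENT VECTORS. (1) `‖∑ y c • b c‖ ^ 2 = ∑ c c', y c * y c' * ⟪b c, b c'⟫ ≤ ∑ y c ^ 2 + μ * (∑ |y c|) ^ 2`; square roots: `√(A + B) ≤ √A + √B`. (2) Duality on `S`: with `β c = ⟪b c, v⟫` on `S`, `0` outside: `∑ β c ^ 2 = ⟪∑ β c • b c, v⟫ ≤ ‖∑ β c • b c‖ * ‖v‖`, and `‖∑ β c • b c‖ ^ 2 ≤ ∑ β c ^ 2 + μ * S.card * ∑ β c ^ 2 ≤ 2 * ∑ β c ^ 2`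
(Cauchy-Schwarz `(∑_S |β c|) ^ 2 ≤ S.card * ∑ β c ^ 2`). -/
def Stmt_GRA : Prop := ∀ (n : ℕ) (ι : Type) [Fintype ι] (b : ι → Hn n) (μ : ℝ), 0 ≤ μ → (∀ c, ‖b c‖ = 1) → (∀ c c', c ≠ c' → |inner ℝ (b c) (b c')| ≤ μ) →
  (∀ y : ι → ℝ, ‖∑ c, y c • b c‖ ≤ l2 y + Real.sqrt μ * ∑ c, |y c|) ∧
  (∀ (S : Finset ι) (v : Hn n), S.card * μ ≤ 1 → ∑ c ∈ S, inner ℝ (b c) v ^ 2 ≤ 2 * ‖v‖ ^ 2)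

/-- **TYY** (140; uses nothing). THE COORDINATES OF `T z`. `X.T z = ∑ c, yc z c • b_c` (`Fintype.sum_prod_type`, `Fintype.sum_sum_type`, `Finset.sum_comm`). `∑ |yc z c| ≤ f ∑ |z c|`: `∑_l |∑_i Φ l i z (j, inl i)| ≤ ∑_i |z (j, inl i)| ∑_l |Φ l i|`, and `∑_l |Φ l i| ≤ f - 1`. `l2 (yc z) ≤ (D + 2) * l2 z`: `yc z = z - (0, (Φ w_j)_j)`, `w_j = z (j, inl ·)`, triangle inequality for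
`l2`, `l2 (0, (Φ w_j)_j) ^ 2 = ∑ j, l2 (Φ w_j) ^ 2 ≤ D ^ 2 ∑ j, l2 (w_j) ^ 2 ≤ D ^ 2 * l2 z ^ 2`. `l2 z ≤ D * l2 (wt z)`: every coordinate, `D ≥ 1`. `∑ |z|^..`: only this. -/
def Stmt_TYY : Prop := ∀ (n : ℕ) (J d s : Type) [Fintype J] [Fintype d] [Fintype s] (X : Cfg n J d s), 1 ≤ X.D →
  (∀ w : d → ℝ, l2 (mv X.Φ w) ≤ X.D * l2 w) → ∀ z : J × (d ⊕ s) → ℝ,
  X.T z = ∑ c, X.yc z c • X.b c.1 c.2 ∧ l2 (X.yc z) ≤ (X.D + 2) * l2 z ∧ ∑ c, |X.yc z c| ≤ X.f * ∑ c, |z c| ∧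
  l2 z ≤ X.D * l2 (X.wt z)

/-- **TBD** (60; uses GRA TYY). `‖T z‖ ≤ l2 (yc z) + √μ ∑ |yc z| ≤ (D + 2) l2 z + √μ f ∑ |z|`; `D + 2 ≤ L`, `f ≤ L`. -/
def Stmt_TBD : Prop := ∀ (n : ℕ) (J d s : Type) [Fintype J] [Fintype d] [Fintype s] (X : Cfg n J d s) (N₀ : ℕ) (L : ℝ), X.Ok N₀ L →
  ∀ z : J × (d ⊕ s) → ℝ, ‖X.T z‖ ≤ (X.D + 2) * l2 z + L * Real.sqrt X.μ * ∑ c, |z c|

/-- **PSI** (200; uses GRA TYY). THE FUNCTIONALS `ψ`. Note `f ≤ L`, `√μ ≤ 1 / L ^ 6` (from `sm1`, `sm2`: `L ^ 6 √μ ≤ ρ ≤ 1`), so `μ ≤ √μ ≤ 1`. (1) `⟪ψ_c, T z⟫` with `T z = ∑ yc z c' • b_c'`, `ψ_{jl} = b_{j,inr l} + ∑ i, Φ l i • b_{j,inl i}` (total coefficient `≤ f`): the diagonal terms give `yc z (j, inr l) + ∑ i, Φ l i * yc z (j, inl i) = z (j, inr l)`,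
all the other terms are at most `f * μ * ∑ |yc z| ≤ f ^ 2 * μ * ∑ |z|` (write `⟪b_c, ∑ y_{c'} b_{c'}⟫ = y_c + O(μ ∑ |y|)`). (2) `‖∑ β_c • ψ_c‖`: `= ‖∑ y_{c'} • b_{c'}‖` with `y (j, inr l) = β (j, l)`, `y (j, inl i) = ∑ l, Φ l i * β (j, l)`; `l2 y ≤ (1 + D) l2 β` (the transposed matrix has the same norm bound: `∑ i (∑ l Φ l i β l) w_i = ∑ l β l (Φ w) l ≤ l2 β * D * l2 w`, take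
`w = Φᵀ β`), `∑ |y| ≤ f ∑ |β|`. GRA. `1 + D ≤ 2 D`. (3) one `β = single`: `‖ψ_c‖ ≤ 2 D + L √μ ≤ 3 D`. -/
def Stmt_PSI : Prop := ∀ (n : ℕ) (J d s : Type) [Fintype J] [Fintype d] [Fintype s] (X : Cfg n J d s) (N₀ : ℕ) (L : ℝ), X.Ok N₀ L →
  (∀ (z : J × (d ⊕ s) → ℝ) (c : J × s), |inner ℝ (X.psi c) (X.T z) - z (c.1, Sum.inr c.2)| ≤ L ^ 2 * X.μ * ∑ c, |z c|) ∧
  (∀ β : J × s → ℝ, ‖∑ c, β c • X.psi c‖ ≤ 2 * X.D * l2 β + L * Real.sqrt X.μ * ∑ c, |β c|) ∧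
  (∀ c, ‖X.psi c‖ ≤ 3 * X.D)

/-- **ATT** (40; uses ATN). `Def X.nu` (`ρ > 0`: `ρ ∑ |z c| = 0` gives `z = 0`; `lr` is nonnegative) and `Cfg.nu_apply`. -/
def Stmt_ATT : Prop := ∀ (n : ℕ) (J d s : Type) [Fintype J] [Fintype d] [Fintype s] (X : Cfg n J d s), 0 < X.ρ →
  ∀ x, ∃ z, ‖x - X.T z‖ + (lr X.r (X.wt z) + X.ρ * ∑ c, |z c|) = X.N2 x

/-- **EUC** (100; uses LRA TYY TBD PSI ATT). THE EUCLIDEAN CONSTANT OF `X`. `z` of ATT: `‖x‖ ≤ ‖x - T z‖ + ‖T z‖`, `‖T z‖ ≤ (D + 2) l2 z + L √μ ∑ |z| ≤ (D + 2) D lr r (wt z) + ρ ∑ |z|` (`l2 z ≤ D l2 (wt z) ≤ D lr r (wt z)`; `L √μ ≤ ρ` because `L ^ 6 √μ ≤ ρ`), `(D + 2) D ≤ 3 D ^ 2`. `N2 x ≤ ‖x‖`: `z = 0` in `Cfg.N2_le`. `nX x = max (N2 x) ‖ev x‖`, `|⟪ψ_c, x⟫| ≤ 3 D ‖x‖`. -/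
def Stmt_EUC : Prop := ∀ (n : ℕ) (J d s : Type) [Fintype J] [Fintype d] [Fintype s] (X : Cfg n J d s) (N₀ : ℕ) (L : ℝ), X.Ok N₀ L →
  ∀ x, ‖x‖ ≤ 3 * X.D ^ 2 * X.N2 x ∧ X.N2 x ≤ ‖x‖ ∧ X.N2 x ≤ X.nX x ∧ X.nX x ≤ 3 * X.D * ‖x‖

/-- **F3B** (160; uses LRA TYY PSI ATT). FEW FUNCTIONALS. `A = √(∑_Λ ⟪ψ_c, x⟫ ^ 2)`, `A > 0`, `β_c = ⟪ψ_c, x⟫` on `Λ`, `0` outside: `l2 β = A`, `∑ |β| ≤ √Λ.card * A ≤ L * A` (`Λ.card ≤ N₀ ≤ L`, `L ≥ 1`). `z` of ATT, `v = x - T z`. `A ^ 2 = ∑ β_c ⟪ψ_c, v⟫ + ∑ β_c ⟪ψ_c, T z⟫`. First: `≤ ‖∑ β_c ψ_c‖ ‖v‖ ≤ (2 D A + L √μ L A) ‖v‖ ≤ 3 D A ‖v‖`. Second: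
`≤ ∑ β_c z (c.1, inr c.2) + L ^ 2 μ ∑ |z| * L A`, `∑ β_c z_c ≤ A * √(∑_c z (c.1, inr c.2) ^ 2) ≤ A * D * l2 (wt z) ≤ A D lr r (wt z)`, `L ^ 3 μ ≤ ρ`. Total `≤ A * 3 D * N2 x`. -/
def Stmt_F3B : Prop := ∀ (n : ℕ) (J d s : Type) [Fintype J] [Fintype d] [Fintype s] (X : Cfg n J d s) (N₀ : ℕ) (L : ℝ), X.Ok N₀ L →
  ∀ (Λ : Finset (J × s)), Λ.card ≤ N₀ → ∀ x, Real.sqrt (∑ c ∈ Λ, inner ℝ (X.psi c) x ^ 2) ≤ 3 * X.D * X.N2 x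

/-- **DRP** (200; uses LRA TYY TBD ATT). DROPPING THE `ℓ_1` PART. Homogeneity: `N2 x = 1` (if `N2 x = 0`: `z` of ATT has `‖x - T z‖ = 0`, `ρ ∑ |z| = 0`, fine; otherwise scale). `z` of ATT, `η` of `Ok.drop`, `z'' c = z c` if `|z c| < η`, else `0`; `z' = z - z''`. `‖T z''‖ ≤ L l2 z'' + L √μ ∑ |z''|`, `l2 z'' ^ 2 ≤ η ∑ |z| ≤ η / ρ`, `L √μ / ρ ≤ 1 / L ^ 5 ≤ 1 / 4` (`L ≥ 3`):
`‖T z''‖ ≤ 1/4 + 1/4`. So `‖x - T z'‖ ≤ ‖x - T z‖ + 1 / 2`, `lr r (wt z') ≤ lr r (wt z)` (monotone), the sum is `≤ 3 / 2`. For `|z c| ≥ η`: `|z c| ≤ η ^ (1 - r) |z c| ^ r` and `|z c| ^ r ≤ D ^ r |wt z c| ^ r`: `N₀ ρ ∑ |z'| ≤ N₀ ρ η ^ (1 - r) D ^ r (lr r (wt z)) ^ r ≤ 1`. -/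
def Stmt_DRP : Prop := ∀ (n : ℕ) (J d s : Type) [Fintype J] [Fintype d] [Fintype s] (X : Cfg n J d s) (N₀ : ℕ) (L : ℝ), X.Ok N₀ L →
  ∀ x, ∃ z, ‖x - X.T z‖ + lr X.r (X.wt z) ≤ 2 * X.N2 x ∧ N₀ * (X.ρ * ∑ c, |z c|) ≤ X.N2 x

/-- **ROT** (170; uses LRR DRP). ROTATIONS. `z i` of DRP for `x i`, `v i = x i - T (z i)`, `z' j = ∑ i, U j i • z i`, so `y j - T (z' j) = ∑ i, U j i • v i`, `wt (z' j) = ∑ i, U j i • wt (z i)`, `∑_c |z' j c| ≤ ∑ i, ∑ c |z i c|` (`|U j i| ≤ 1`). `Cfg.N2_le`: `N2 (y j) ≤ A j + B j + C`, `N2 (y j) ^ 2 ≤ 3 (A j ^ 2 + B j ^ 2 + C ^ 2)`.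
`∑ j, ‖∑ i, U j i • v i‖ ^ 2 = ∑ i, ‖v i‖ ^ 2 ≤ 4 ∑ N2 (x i) ^ 2`; LRR: `∑ B j ^ 2 ≤ (N ^ (1/r - 1/2)) ^ 2 ∑ lr (wt (z i)) ^ 2 ≤ 4 * 4 ∑ N2 (x i) ^ 2` (`N ^ (1/r-1/2) ≤ N₀ ^ (1/r-1/2) ≤ 2`); `N * C ^ 2 ≤ N * (∑ N2 (x i) / N₀) ^ 2 ≤ N * N ∑ N2 (x i) ^ 2 / N₀ ^ 2 ≤ ∑ N2 (x i) ^ 2`. `3 * 21 = 63 ≤ 64`. (`N = 0` trivial.) -/
def Stmt_ROT : Prop := ∀ (n : ℕ) (J d s : Type) [Fintype J] [Fintype d] [Fintype s] (X : Cfg n J d s) (N₀ : ℕ) (L : ℝ), X.Ok N₀ L →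
  ∀ N ≤ N₀, ∀ U ∈ Matrix.orthogonalGroup (Fin N) ℝ, ∀ x y : Fin N → Hn n, (∀ j, y j = ∑ i, U j i • x i) →
  ∑ j, X.N2 (y j) ^ 2 ≤ 8 ^ 2 * ∑ i, X.N2 (x i) ^ 2

/-- **HIL** (60; uses EUC ROT and `Pool.EH.Stmt_KWA`). KWA for `N2.comp F.subtype`, `m = N₀`, `K = 8`, `K' = 9`; `Def N2` from EUC (`N2 x = 0` gives `‖x‖ ≤ 0`). -/
def Stmt_HIL : Prop := ∀ (n : ℕ) (J d s : Type) [Fintype J] [Fintype d] [Fintype s] (X : Cfg n J d s) (N₀ : ℕ) (L : ℝ), X.Ok N₀ L →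
  ∀ F : Submodule ℝ (Hn n), finrank ℝ F * finrank ℝ F + 1 ≤ N₀ → Pool.EH.Eu 9 (X.N2.comp F.subtype)

/-- **CLS** (220; uses EUC F3B HIL). CLOSURE: FINITE DIMENSIONAL SUBSPACES OF `X`. HIL and `Pool.EH.Eu.exists_equiv`: `S₀ : F ≃ₗ Hn k`, `k = finrank F ≤ a`, `‖S₀ x‖ ≤ N2 x ≤ 9 ‖S₀ x‖`; `S = 9 • S₀`: `N2 x ≤ ‖S x‖ ≤ 9 N2 x`. `u_i = S⁻¹ e_i`, `φ_c i = ⟪ψ_c, u_i⟫`, so `⟪ψ_c, x⟫ = ∑ φ_c i (S x) i`, `|⟪ψ_c, x⟫| ≤ l2 φ_c * ‖S x‖`. `Λ = {c : 1 < ∑ i, φ_c i ^ 2}`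
(classical filter). For every `Λ' ⊆ Λ` with at most `N₀` elements: `Λ'.card ≤ ∑_{Λ'} ∑ i, φ_c i ^ 2 = ∑ i, ∑_{Λ'} ⟪ψ_c, u_i⟫ ^ 2 ≤ ∑ i, (3 D N2 (u_i)) ^ 2 ≤ k * 9 D ^ 2 ≤ N₁` (`N2 u_i ≤ ‖S u_i‖ = 1`; F3B). If `Λ.card > N₁` choose `Λ' ⊆ Λ` with `N₁ + 1 ≤ N₀` elements: contradiction. The last inequality: F3B and `N2 x ≤ ‖S x‖`. -/
def Stmt_CLS : Prop := ∀ (n : ℕ) (J d s : Type) [Fintype J] [Fintype d] [Fintype s] (X : Cfg n J d s) (N₀ : ℕ) (L : ℝ) (a N₁ : ℕ), X.Ok N₀ L →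
  a * a + 1 ≤ N₀ → 9 * X.D ^ 2 * a ≤ N₁ → N₁ + 1 ≤ N₀ → ∀ F : Submodule ℝ (Hn n), finrank ℝ F ≤ a →
  ∃ (S : F ≃ₗ[ℝ] Hn (finrank ℝ F)) (Λ : Finset (J × s)), Λ.card ≤ N₁ ∧ ∀ x : F, X.N2 x ≤ ‖S x‖ ∧ ‖S x‖ ≤ 9 * X.N2 x ∧
    (∀ c ∉ Λ, |inner ℝ (X.psi c) (x : Hn n)| ≤ ‖S x‖) ∧ Real.sqrt (∑ c ∈ Λ, inner ℝ (X.psi c) (x : Hn n) ^ 2) ≤ 3 * X.D * ‖S x‖

/-- **NOI** (120; uses LRA PSI). COMBINATIONS OF FEW NOISE VECTORS. `z (j, inr l) = β (j, l)` on `Λ`, all other coordinates `0`: `X.T z = ∑_{c ∈ Λ} β c • b (c.1) (inr c.2)` (call it `x`), `wt z = D⁻¹ z`. `Cfg.N2_le` with this `z` (`x - T z = 0`): `N2 x ≤ lr r (wt z) + ρ ∑ |β| ≤ D⁻¹ * 2 * l2 β + ρ * L * l2 β ≤ 3 D⁻¹ l2 β`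
(LRA (3), `Λ.card ^ (1/r-1/2) ≤ N₀ ^ (1/r-1/2) ≤ 2`; `∑ |β| ≤ √Λ.card l2 β ≤ L l2 β`; `ρ L ≤ 1 / L ^ 5 ≤ D⁻¹`). PSI (1): `|⟪ψ_c, x⟫ - z (c.1, inr c.2)| ≤ L ^ 2 μ ∑ |β| ≤ L ^ 3 μ l2 β`, and `L ^ 3 μ ≤ L⁻² ≤ ..`: `L ^ 3 * μ * D ≤ 1 / L`. -/
def Stmt_NOI : Prop := ∀ (n : ℕ) (J d s : Type) [Fintype J] [Fintype d] [Fintype s] (X : Cfg n J d s) (N₀ : ℕ) (L : ℝ), X.Ok N₀ L →
  ∀ (Λ : Finset (J × s)) (β : J × s → ℝ), Λ.card ≤ N₀ →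
  X.N2 (∑ c ∈ Λ, β c • X.b c.1 (Sum.inr c.2)) ≤ 3 * X.D⁻¹ * Real.sqrt (∑ c ∈ Λ, β c ^ 2) ∧
  (∀ c ∈ Λ, |inner ℝ (X.psi c) (∑ c ∈ Λ, β c • X.b c.1 (Sum.inr c.2)) - β c| ≤ (X.D * L)⁻¹ * Real.sqrt (∑ c ∈ Λ, β c ^ 2)) ∧
  (∀ c ∉ Λ, |inner ℝ (X.psi c) (∑ c ∈ Λ, β c • X.b c.1 (Sum.inr c.2))| ≤ (X.D * L)⁻¹ * Real.sqrt (∑ c ∈ Λ, β c ^ 2))

/-- **LAT** (220; uses CLS NOI). FACTORIZATION THROUGH A LATTICE. `S`, `Λ` of CLS. `ι = Λ ⊕ Fin (finrank F)` (`Λ` as a type, `Fintype`). `w z = max (max ‖z ∘ inl‖ (D⁻¹ * l2 (z ∘ inl))) (l2 (z ∘ inr))` (a supremum of compositions of `normSeminorm`, `l2S` with linear maps; `UncT`: every piece is monotone in `|z i|`). `j x = (⟪ψ_c, x⟫)_{c ∈ Λ}, S x`: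
`w (j x) ≤ 27 nX x` (`|⟪ψ_c, x⟫| ≤ nX x`, `D⁻¹ l2 ≤ 3 ‖S x‖ ≤ 27 N2 x`, `‖S x‖ ≤ 9 N2 x`). `q z = ∑_Λ z_c • γ_c + (x - ∑_Λ ⟪ψ_c, x⟫ • γ_c)`, `x = S⁻¹ (z ∘ inr)`, `γ_c = b c.1 (inr c.2)`. `q (j x) = x`. With `β_c = z_c - ⟪ψ_c, x⟫` and NOI: `l2 β ≤ D w z + 3 D w z = 4 D w z`: `N2 (q z) ≤ N2 x + 3 D⁻¹ l2 β ≤ w z + 12 w z`. For `c ∈ Λ`: `⟪ψ_c, q z⟫ = ⟪ψ_c, x⟫ + β_c + O((D L)⁻¹ l2 β)`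
`= z_c + O(4 w z)`; for `c ∉ Λ`: `|⟪ψ_c, q z⟫| ≤ ‖S x‖ + 4 w z ≤ 5 w z` (`L ≥ 1`). So `nX (q z) ≤ 13 w z`. -/
def Stmt_LAT : Prop := ∀ (n : ℕ) (J d s : Type) [Fintype J] [Fintype d] [Fintype s] (X : Cfg n J d s) (N₀ : ℕ) (L : ℝ) (a N₁ : ℕ), X.Ok N₀ L →
  a * a + 1 ≤ N₀ → 9 * X.D ^ 2 * a ≤ N₁ → N₁ + 1 ≤ N₀ → ∀ F : Submodule ℝ (Hn n), finrank ℝ F ≤ a →
  ∃ (ι : Type) (_ : Fintype ι) (w : Seminorm ℝ (ι → ℝ)) (j : F →ₗ[ℝ] (ι → ℝ)) (q : (ι → ℝ) →ₗ[ℝ] Hn n), UncT w ∧ (∀ x : F, q (j x) = x) ∧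
    (∀ x : F, w (j x) ≤ 27 * X.nX x) ∧ ∀ z, X.nX (q z) ≤ 13 * w z

/-- **BGS** (80; uses `Pool.UN.Stmt_NLU`). THE BAD SPACE. `NLU` for `d = 1 / 4` and `C`: `m, Q, a`. `G = Pool.UN.OO a (fun s => Pi.single s 1)`, so `G x s = rad (a s) x`; `u = normSeminorm ℝ (Fin Q → ℝ)` is `Unc`, the vectors `Pi.single s 1` are `Dis`, of norm `1`, and `u (∑ s, Pi.single s 1) ≤ 1 ≤ Q ^ (1/2 - 1/4)`. `FacE` for a finite type `ι` gives `FacE` for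
`Fin (card ι)` by `Fintype.equivFin` (`w.comp` of the reindexing map `LinearEquiv.funCongrLeft`). -/
def Stmt_BGS : Prop := ∀ C : ℝ, 1 ≤ C → ∃ (m Q : ℕ) (G : (Fin m → ℝ) →ₗ[ℝ] (Fin Q → ℝ)), 1 ≤ Q ∧ Function.Injective G ∧
  ∀ (ι : Type) [Fintype ι] (w : Seminorm ℝ (ι → ℝ)), UncT w → ¬ FacE C ((normSeminorm ℝ (Fin Q → ℝ)).comp G) w

/-- **NIS** (220; uses LAT). THE SPACES ARE NOT ISOMORPHIC. Suppose `T : V ≃ V`, `P 0 v ≤ P t (T v) ≤ κ P 0 v`. `qS D 0 y = ‖y‖` because `D⁻¹ l2 y ≤ D⁻¹ √Q ‖y‖ ≤ ‖y‖`; `qS D t y = D⁻¹ l2 y` because `(1/2)^t ‖y‖ ≤ D⁻¹ l2 y`. `J y = T (0, y) = (J₁ y, J₂ y)`: `nX (J₁ y) ≤ κ ‖G y‖`, `D⁻¹ l2 (G (J₂ y)) ≤ κ ‖G y‖`. `R v = (T⁻¹ v).2`: `‖G (R v)‖ ≤ P 0 (T⁻¹ v) ≤ P t v`, `R (J y) = y`.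
`F = range J₁`, `finrank F ≤ m ≤ a`; LAT: `ι, w, j, q`. `θ : (Fin m → ℝ) ≃ₗ Hn m'` with `‖θ y‖ = D⁻¹ l2 (G y)` (`Pool.EH.Eu.exists_equiv` for this norm with the constant `1`, `T y = D⁻¹ • toLp (G y)`; `Def`: `G` injective). On `ι ⊕ Fin m'`: `w' z = (27 κ)⁻¹ * max (w (z ∘ inl)) (l2 (z ∘ inr))`, `UncT`. `j' y = (j (J₁ y), θ (J₂ y))`, `w' (j' y) ≤ ‖G y‖`.
`q' z = R (q (z ∘ inl), θ⁻¹ (z ∘ inr))`: `‖G (q' z)‖ ≤ nX (q ..) + D⁻¹ l2 (G θ⁻¹ ..) ≤ 14 max .. = 14 * 27 κ w' z = 378 κ w' z`. `q' (j' y) = R (J₁ y, J₂ y) = y`. So `FacE (378 κ)`. -/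
def Stmt_NIS : Prop := ∀ (n : ℕ) (J d s : Type) [Fintype J] [Fintype d] [Fintype s] (X : Cfg n J d s) (N₀ : ℕ) (L : ℝ) (a N₁ : ℕ), X.Ok N₀ L →
  a * a + 1 ≤ N₀ → 9 * X.D ^ 2 * a ≤ N₁ → N₁ + 1 ≤ N₀ → ∀ (m Q t : ℕ) (G : (Fin m → ℝ) →ₗ[ℝ] (Fin Q → ℝ)) (κ : ℝ), 1 ≤ κ → m ≤ a →
  Function.Injective G → Real.sqrt Q ≤ X.D → X.D ≤ 2 ^ t →
  (∀ (ι : Type) [Fintype ι] (w : Seminorm ℝ (ι → ℝ)), UncT w → ¬ FacE (378 * κ) ((normSeminorm ℝ (Fin Q → ℝ)).comp G) w) →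
  ¬ Iso κ (X.P G 0) (X.P G t)

/-! ## 4. Visible blocks -/

/-- **VIA** (110; uses nothing). ALMOST SCALAR MATRICES. `⟨B w, w⟩ = t |w|² + ∑ (B i i' - t δ) w_i w_i' ≥ t |w|² - τ (∑ |w_i|)² ≥ (t - τ card d) |w|² ≥ (β / 2) |w|²`. So `mv B` is injective, hence bijective (finite dimension, `LinearMap.injective_iff_surjective`, `LinearEquiv.ofBijective`), `G` = the inverse, and with `w' = G w`: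
`(β / 2) |w'|² ≤ ⟨w, w'⟩ ≤ |w| |w'|`. -/
def Stmt_VIA : Prop := ∀ (d : Type) [Fintype d] [DecidableEq d] (B : d → d → ℝ) (t τ β : ℝ), 0 < β → β ≤ t → 0 ≤ τ → 2 * (τ * Fintype.card d) ≤ β →
  (∀ i i', |B i i' - (if i = i' then t else 0)| ≤ τ) →
  ∃ G : (d → ℝ) →ₗ[ℝ] (d → ℝ), ∀ w, mv B (G w) = w ∧ l2 (G w) ≤ 2 / β * l2 w

/-- **VIB** (220; uses GRA VIA). THE LIFTING. `u i = b j (inl i)`, `P = E.starProjection`, `B i i' = ⟪u i, P (u i')⟫`, VIA with `t = finrank E / n ≥ β` (`2 τ card d ≤ 2 τ L ≤ β`). `I w = P (∑ i, (G w) i • u i)`, in `E`. `w' = G w`, `l2 w' ≤ (2/β) l2 w`. `U j (I w) = mv B w' = w`. `‖I w‖ ≤ ‖∑ w' i • u i‖ ≤ l2 w' + √μ ∑ |w'| ≤ 2 l2 w' ≤ (4/β) l2 w` (GRA (1) for the family `i ↦ u i`;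
`∑ |w'| ≤ √card d * l2 w' ≤ L l2 w'`, `√μ L ≤ 1` from `sm1`, `sm2`). `N2 (I w) ≤ ‖I w‖` (`z = 0` in `Cfg.N2_le`). `⟪ψ_(j,l), I w⟫ = ⟪b j (inr l), I w⟫ + ∑ i, Φ l i * w i`, and `|⟪b j (inr l), P (∑ w' i • u i)⟫| ≤ τ ∑ |w'| ≤ τ L (2/β) l2 w ≤ l2 w`. For `k ≠ j`: `|⟪ψ_(k,l), I w⟫| ≤ (1 + ∑ i |Φ l i|) τ ∑ |w'| ≤ f τ L (2/β) l2 w ≤ l2 w`
(`L ^ 2 τ ≤ β / 30`). So `nX (I w) ≤ max ((4/β) l2 w) (l2 w + ‖Φ w‖) ≤ (4/β) wS Φ w` (`β ≤ 1/2`). -/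
def Stmt_VIB : Prop := ∀ (n : ℕ) (J d s : Type) [Fintype J] [Fintype d] [DecidableEq d] [Fintype s] [DecidableEq s] (X : Cfg n J d s) (N₀ : ℕ) (L τ β : ℝ), X.Ok N₀ L →
  X.Tau L τ β → ∀ (E : Submodule ℝ (Hn n)) (j : J), β * n ≤ finrank ℝ E → 0 < n → GoodB X.b τ E j →
  ∃ I : (d → ℝ) →ₗ[ℝ] Hn n, ∀ w, I w ∈ E ∧ X.U j (I w) = w ∧ X.nX (I w) ≤ 4 / β * wS X.Φ w

/-- **SIG** (110; uses LRA GRA TYY ATT). THE SIGNAL COORDINATES. `z` of ATT, `v = x - T z`. `⟪b_{j,inl i}, T z⟫ = ∑ c, yc z c ⟪b_{j, inl i}, b_c⟫ = z (j, inl i) + O(μ ∑ |yc z|)`. So `l2 (U j x) ≤ l2 (⟪b_{j,inl i}, v⟫)_i + l2 (z (j, inl ·)) + √card d μ f ∑ |z| ≤ √2 ‖v‖ + lr r (wt z) + ρ ∑ |z| ≤ 2 N2 x` (GRA (2) for the family `c ↦ b_c` and `S` = the block; `card d * μ ≤ 1`;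
`l2 (z (j, inl ·)) ≤ l2 (wt z) ≤ lr r (wt z)`; `√L L μ ≤ ρ`). -/
def Stmt_SIG : Prop := ∀ (n : ℕ) (J d s : Type) [Fintype J] [Fintype d] [Fintype s] (X : Cfg n J d s) (N₀ : ℕ) (L : ℝ), X.Ok N₀ L →
  ∀ (j : J) (x : Hn n), l2 (X.U j x) ≤ 2 * X.N2 x

/-- **HOL** (220; uses LRH TBD). THE CROSS TERMS. `k c = ⟪h, g c⟫`, so `⟪h, T z⟫ = ∑ z c * k c`. `A = 0`: `h = 0`, trivial. Normalize `A = 1` or keep it. `big = {c ∈ S : ρ A < |k c|}`, `q = big.card`. `σ c` = the sign of `k c` on `big`, `0` outside: `q ρ A ≤ ∑_{big} |k c| = ⟪h, T σ⟫ ≤ A ‖T σ‖ ≤ A (L √q + L √μ q)` (TBD, `D + 2 ≤ L`), and `L √μ ≤ ρ / 2`, so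
`√q ≤ 2 L / ρ`. With `z = k` on `big`, `0` outside (`K = √(∑_{big} k c ^ 2)`): `K ^ 2 = ⟪h, T z⟫ ≤ A (L K + L √μ √q K)`, `L √μ √q ≤ 2 L ^ 2 √μ / ρ ≤ L`, so `K ≤ 2 L A`. LRH for `k / A` on `big` with `ε = ε₀`, `A = 2 L`: `|∑_{big} k c z c| ≤ A * (ε₀ ^ (r/(r-1) - 2) (2 L) ^ 2) ^ (1 - 1/r) * lr r z`, and `lr r z ≤ D lr r (wt z)` (every coordinate, `|z c| ≤ D |wt z c|`; `lrS` is homogeneous and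
monotone). The rest: `|∑_{S \ big} k c z c| ≤ ρ A ∑ |z c|`. -/
def Stmt_HOL : Prop := ∀ (n : ℕ) (J d s : Type) [Fintype J] [Fintype d] [Fintype s] (X : Cfg n J d s) (N₀ : ℕ) (L : ℝ), X.Ok N₀ L →
  ∀ (h : Hn n) (A ε : ℝ) (S : Finset (J × (d ⊕ s))) (z : J × (d ⊕ s) → ℝ), ‖h‖ ≤ A → 0 ≤ ε →
  X.D * (ε ^ (X.r / (X.r - 1) - 2) * (2 * L) ^ 2) ^ (1 - 1 / X.r) ≤ 1 → (∀ c ∈ S, |inner ℝ h (X.g c)| ≤ ε * A) →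
  |∑ c ∈ S, z c * inner ℝ h (X.g c)| ≤ A * (lr X.r (X.wt z) + X.ρ * ∑ c, |z c|)

/-- **HID** (260; uses LRA GRA TYY ATT HOL). THE NOISE IS INVISIBLE IN `E`. `x ∈ E`, `z` of ATT, `v = x - T z`, `λ = N2 x`, `γ l = b j (inr l)`, `g l = ⟪γ l, x⟫`, `|g| = l2 g` (assume `> 0`), `P = E.starProjection`, `h = P (∑ l, g l • γ l)`; `‖h‖ ≤ ‖∑ g l γ l‖ ≤ |g| + √μ ∑ |g l| ≤ 2 |g|`. `|g|² = ⟪∑ g l γ l, x⟫ = ⟪h, x⟫ = ⟪h, v⟫ + ⟪h, T z⟫` (`P x = x`, `P` symmetric).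
`y l = z (j, inr l) - ∑ i, Φ l i z (j, inl i)`. `⟪h, T z⟫ = ∑ c, z c ⟪h, g c⟫` = block `j` + the rest. Block `j`: `= ∑ l, y l ⟪h, γ l⟫ + ∑ i, z (j, inl i) ⟪h, b j (inl i)⟫`; `⟪h, γ l⟫ = ∑ l', g l' ⟪γ l, P γ l'⟫ = t g l + O(τ ∑ |g|)`, `t = finrank E / n ≤ 1 - β`; so `≤ (t + τ L) |g| |y| + τ ∑ |g| ∑_i |z (j, inl i)| ≤ (1 - β / 2) |g| |y| + |g| λ`
(`∑ |g| ≤ √card s |g|`, `∑_i |z (j, inl i)| ≤ √card d l2 (wt z)`, `τ L ≤ β / 30`). `|y| ≤ |g| + √2 ‖v‖ + √L μ L ∑ |z| ≤ |g| + 2 λ`: `g l = ⟪γ l, v⟫ + ⟪γ l, T z⟫` and `⟪γ l, T z⟫ = yc z (j, inr l) + O(μ ∑ |yc z|) = y l + O(μ L ∑ |z|)` (`√L L μ ≤ ρ`). The rest: HOL with `S = {c : c.1 ≠ j}`, `A = 2 |g|`, `ε = L ^ 2 τ`: `g c` for `c.1 ≠ j` is a combination of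
vectors `b i c'` of the block `i = c.1` with the sum of the absolute values of the coefficients `≤ f`, and `|⟪h, b i c'⟫| = |∑ g l ⟪b i c', P γ l⟫| ≤ τ ∑ |g l| ≤ τ L |g|`, so `|⟪h, g c⟫| ≤ L ^ 2 τ |g|`; the rest is `≤ 2 |g| λ`. Sum: `|g|² ≤ 2 |g| ‖v‖ + (1 - β/2) |g| (|g| + 2 λ) + |g| λ + 2 |g| λ`, `‖v‖ ≤ λ`: `(β/2) |g| ≤ 7 λ`. -/
def Stmt_HID : Prop := ∀ (n : ℕ) (J d s : Type) [Fintype J] [Fintype d] [DecidableEq d] [Fintype s] [DecidableEq s] (X : Cfg n J d s) (N₀ : ℕ) (L τ β : ℝ), X.Ok N₀ L →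
  X.Tau L τ β → ∀ (E : Submodule ℝ (Hn n)) (j : J), (finrank ℝ E : ℝ) ≤ (1 - β) * n → 0 < n → GoodB X.b τ E j →
  ∀ x ∈ E, l2 (fun l : s => inner ℝ (X.b j (Sum.inr l)) x) ≤ 14 / β * X.N2 x

/-- **VIS** (60; uses SIG HID). `wS Φ (U j x) = max (l2 (U j x)) ‖Φ (U j x)‖`; `(Φ (U j x)) l = ⟪ψ_(j,l), x⟫ - ⟪b j (inr l), x⟫`, `|⟪ψ_(j,l), x⟫| ≤ nX x`, `|⟪b j (inr l), x⟫| ≤ l2 .. ≤ (14/β) N2 x ≤ (14/β) nX x`; `1 ≤ 1 / β`. -/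
def Stmt_VIS : Prop := ∀ (n : ℕ) (J d s : Type) [Fintype J] [Fintype d] [DecidableEq d] [Fintype s] [DecidableEq s] (X : Cfg n J d s) (N₀ : ℕ) (L τ β : ℝ), X.Ok N₀ L →
  X.Tau L τ β → ∀ (E : Submodule ℝ (Hn n)) (j : J), (finrank ℝ E : ℝ) ≤ (1 - β) * n → 0 < n → GoodB X.b τ E j →
  ∀ x ∈ E, wS X.Φ (X.U j x) ≤ 15 / β * X.nX x

/-- **SPL** (150; uses VIB VIS). SPLITTING THE SECTION. `I` of VIB for `E₁ = E.comap inl`. `E' = {e ∈ E : U j e.1 = 0}`. `Ψ e = (e - (I (U j e.1), 0), U j e.1)`; `(I w, 0) ∈ E` since `I w ∈ E₁`; `U j (I w) = w`, so `Ψ` is a linear equivalence `E ≃ E' × (d → ℝ)` with the inverse `(e', w) ↦ e' + (I w, 0)`. `e.1 ∈ E₂ = E.map fst`: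
`wS Φ (U j e.1) ≤ (15/β) nX e.1 ≤ (15/β) p e`; `p (I w, 0) = nX (I w) ≤ (4/β) wS Φ w`. `p (Ψ e).1 ≤ p e + (4/β)(15/β) p e ≤ (61/β²) p e`; `p e ≤ p e' + (4/β) wS w`. -/
def Stmt_SPL : Prop := ∀ (n : ℕ) (J d s : Type) [Fintype J] [Fintype d] [DecidableEq d] [Fintype s] [DecidableEq s] (X : Cfg n J d s) (N₀ : ℕ) (L τ β : ℝ), X.Ok N₀ L →
  X.Tau L τ β → ∀ (m : ℕ) (E : Submodule ℝ (Hn n × (Fin m → ℝ))) (j : J), 0 < n →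
  β * n ≤ finrank ℝ (E.comap (LinearMap.inl ℝ (Hn n) (Fin m → ℝ))) → (finrank ℝ (E.map (LinearMap.fst ℝ (Hn n) (Fin m → ℝ))) : ℝ) ≤ (1 - β) * n →
  GoodB X.b τ (E.comap (LinearMap.inl ℝ (Hn n) (Fin m → ℝ))) j → GoodB X.b τ (E.map (LinearMap.fst ℝ (Hn n) (Fin m → ℝ))) j →
  ∃ (E' : Submodule ℝ (Hn n × (Fin m → ℝ))) (Ψ : E ≃ₗ[ℝ] E' × (d → ℝ)),
    ∀ p : Seminorm ℝ (Hn n × (Fin m → ℝ)), (∀ x, p (x, 0) = X.nX x) → (∀ v, X.nX v.1 ≤ p v) →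
    ∀ e : E, p (Ψ e).1 ≤ 61 / β ^ 2 * p e ∧ wS X.Φ (Ψ e).2 ≤ 15 / β * p e ∧ p e ≤ p (Ψ e).1 + 4 / β * wS X.Φ (Ψ e).2

/-! ## 5. Finite rank operators, absorption -/

/-- **UNO** (200; uses nothing; the net is `Pool.Agent.Work.MP_3e8c7a_r.B_NET` or compactness of the unit sphere of `EuclideanSpace ℝ (Fin h)` for every `h ≤ r`, which gives a finite net whose size depends only on `h` and `D`). NORMING FUNCTIONALS. `δ = 1 / (10 D)`. The unit sphere of `H` (`≃` unit sphere of `Hn h`, `h = finrank H ≤ r`, by an isometry) has a `δ`-net with at most `ν(r, D)` elements.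
For a net point `x₀` and `τ` Hahn-Banach (`exists_extension_of_le_sublinear`, or `exists_dual_vector` for the norm `p τ`) gives a linear functional `φ ≤ p τ` with `φ x₀ = p τ x₀`; `f` = its Riesz representer (`InnerProductSpace.toDual`), `‖f‖ ≤ D` (`⟪f, f⟫ ≤ p τ f ≤ D ‖f‖`). `H' = H ⊔ span {f}`. For `x ∈ H`, `‖x‖ = 1`: `p τ x ≤ p τ x₀ + D δ = ⟪f, x₀⟫ + D δ ≤ ⟪f, x⟫ + 2 D δ = ⟪f, x⟫ + 1/5`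
and `1 ≤ p τ x`, so `(4/5) p τ x ≤ ⟪f, x⟫`. `R' = r + (t + 1) * ν`. -/
def Stmt_UNO : Prop := ∀ (D : ℝ) (t r : ℕ), 1 ≤ D → ∃ R' : ℕ, ∀ (k : ℕ) (p : Fin (t + 1) → Seminorm ℝ (Hn k)), (∀ τ x, ‖x‖ ≤ p τ x ∧ p τ x ≤ D * ‖x‖) →
  ∀ H : Submodule ℝ (Hn k), finrank ℝ H ≤ r → ∃ H' : Submodule ℝ (Hn k), H ≤ H' ∧ finrank ℝ H' ≤ R' ∧
    ∀ τ, ∀ x ∈ H, ∃ f ∈ H', (∀ y, inner ℝ f y ≤ p τ y) ∧ p τ x ≤ 5 / 4 * inner ℝ f x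

/-- **UTW** (90; uses UNO). THE TOWER. Recursion on `L` (`Function.iterate` for the dimension bounds; for the spaces: induction on `L` producing the sequence, constant after `L`). -/
def Stmt_UTW : Prop := ∀ (D : ℝ) (t r L : ℕ), 1 ≤ D → ∃ R' : ℕ, ∀ (k : ℕ) (p : Fin (t + 1) → Seminorm ℝ (Hn k)), (∀ τ x, ‖x‖ ≤ p τ x ∧ p τ x ≤ D * ‖x‖) →
  ∀ H₀ : Submodule ℝ (Hn k), finrank ℝ H₀ ≤ r → ∃ H : ℕ → Submodule ℝ (Hn k), H 0 = H₀ ∧ (∀ i, H i ≤ H (i + 1)) ∧ finrank ℝ (H L) ≤ R' ∧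
    ∀ i < L, ∀ τ, ∀ x ∈ H i, ∃ f ∈ H (i + 1), (∀ y, inner ℝ f y ≤ p τ y) ∧ p τ x ≤ 5 / 4 * inner ℝ f x

/-- **UAP** (220; uses UTW). BOUNDED FINITE RANK OPERATORS. `L ≥ 4 D ^ 2`, `L ≥ 1`; `H₀ = (ker B)ᗮ`, `finrank H₀ = finrank (range B) ≤ m`. `H` of UTW, `R_i = (H i).starProjection`, `S = (1 / L) ∑_{i<L} R_i`, `A = H L` (`finrank ≤ R`). `x - R_i x ∈ (H i)ᗮ ≤ H₀ᗮ = ker B`, so `B (S x) = B x`. `p τ (R_i x) ≤ (5/4) ⟪f, R_i x⟫` with `f ∈ H (i+1)`: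
`⟪f, R_i x⟫ = ⟪f, R_{i+1} x⟫ - ⟪f, R_{i+1} x - R_i x⟫ = ⟪f, x⟫ - .. ≤ p τ x + D ‖R_{i+1} x - R_i x‖` (`‖f‖ ≤ D`, since `‖f‖² ≤ p τ f ≤ D ‖f‖`). `∑_{i<L} ‖R_{i+1} x - R_i x‖² ≤ ‖x‖²` (`R_{i+1} x - R_i x` is orthogonal to `H i`, hence `‖R_{i+1} x‖² = ‖R_i x‖² + ‖R_{i+1} x - R_i x‖²`; telescoping). Cauchy-Schwarz:
`p τ (S x) ≤ (5/4) (p τ x + D √L ‖x‖ / L) ≤ (5/4) (1 + D / √L) p τ x ≤ (5/4)(3/2) p τ x ≤ 2 p τ x`. -/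
def Stmt_UAP : Prop := ∀ (D : ℝ) (t m : ℕ), 1 ≤ D → ∃ R : ℕ, ∀ (k : ℕ) (p : Fin (t + 1) → Seminorm ℝ (Hn k)), (∀ τ x, ‖x‖ ≤ p τ x ∧ p τ x ≤ D * ‖x‖) →
  ∀ B : Hn k →ₗ[ℝ] (Fin m → ℝ), ∃ (A : Submodule ℝ (Hn k)) (S : Hn k →ₗ[ℝ] Hn k), finrank ℝ A ≤ R ∧ (∀ x, S x ∈ A) ∧ (∀ x, B (S x) = B x) ∧
    ∀ τ x, p τ (S x) ≤ 2 * p τ x

/-- **UAG** (110; uses UAP). THE SAME FOR A GENERAL SPACE, AND A SUBSPACE OF DIMENSION EXACTLY `a`. `Eu 1 N`, `Def N`: `Pool.EH.Eu.exists_equiv` gives `T : W ≃ₗ Hn (finrank W)` with `‖T x‖ = N x`; transport `p τ`, `B`; `A` is contained in a subspace of dimension exactly `a` if `finrank A ≤ a ≤ finrank W` (e.g. `Submodule.exists_..`, or add basis vectors one by one; a linear complement of `A`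
contains a subspace of any dimension up to `finrank W - finrank A`). -/
def Stmt_UAG : Prop := ∀ (D : ℝ) (t m : ℕ), 1 ≤ D → ∃ R : ℕ, ∀ (W : Type) [AddCommGroup W] [Module ℝ W] [FiniteDimensional ℝ W] (N : Seminorm ℝ W)
  (p : Fin (t + 1) → Seminorm ℝ W), Pool.EH.Eu 1 N → Def N → (∀ τ x, N x ≤ p τ x ∧ p τ x ≤ D * N x) →
  ∀ (B : W →ₗ[ℝ] (Fin m → ℝ)) (a : ℕ), R ≤ a → a ≤ finrank ℝ W → ∃ (A : Submodule ℝ W) (S : W →ₗ[ℝ] W), finrank ℝ A = a ∧ (∀ x, S x ∈ A) ∧ (∀ x, B (S x) = B x) ∧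
    ∀ τ x, p τ (S x) ≤ 2 * p τ x

/-- **MAT** (130; uses nothing). THE MATRIX. `e (x, a) = ((x - S x) + (S a - 2 a), S x + (a - S a))` (second component in `A`), inverse `(x, a) ↦ ((x - S x) + (2 a - S a), - S x + (a - S a))` (check with `map_sub`, `map_add`; all compositions are polynomials in `S`). Bounds: `B (x - S x) = 0`, so `p0 (x - S x) = p1 (x - S x) ≤ 3 p1 x`, and `≤ 3 p0 x` as well. -/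
def Stmt_MAT : Prop := ∀ (W : Type) [AddCommGroup W] [Module ℝ W] (p0 p1 : Seminorm ℝ W) (m : ℕ) (B : W →ₗ[ℝ] (Fin m → ℝ)) (A : Submodule ℝ W) (S : W →ₗ[ℝ] W),
  (∀ x, S x ∈ A) → (∀ x, B (S x) = B x) → (∀ x, p0 (S x) ≤ 2 * p0 x) → (∀ x, p1 (S x) ≤ 2 * p1 x) → (∀ x, p1 x ≤ p0 x) → (∀ x, B x = 0 → p0 x ≤ p1 x) →
  ∃ e : (W × A) ≃ₗ[ℝ] (W × A), (∀ z, p1 (e z).1 ≤ 7 * max (p0 z.1) (p1 z.2) ∧ p0 (e z).2 ≤ 7 * max (p0 z.1) (p1 z.2)) ∧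
    ∀ z, p0 (e.symm z).1 ≤ 7 * max (p1 z.1) (p0 z.2) ∧ p1 (e.symm z).2 ≤ 7 * max (p1 z.1) (p0 z.2)

/-- **ABS** (280; uses MAT). ABSORPTION. `K = ι × Fin (t + 1)`, `d = K × Fin a`, `s = K × Fin c`. For `w : d → ℝ` let `w_κ = fun i => w (κ, i)`; `mv (bd Ξ) w (κ, l) = mv (Ξ κ) w_κ l`, so `wS (bd Ξ) w = max √(∑_κ |w_κ|²) (max_κ ‖Ξ_κ w_κ‖)` and `wS (Ξ κ) w_κ ≤ wS (bd Ξ) w`. The map: `a_τ = θ⁻¹ w_(i₀,τ) ∈ A`, `(x', b) = e₀ (x, a_t)` with `e₀` of MAT (`p0 = p 0`, `p1 = p t`),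
`w'_(i₀,0) = θ b`, `w'_(i₀,τ+1) = w_(i₀,τ)` for `τ < t`, `w'_κ = w_κ` for `κ.1 ≠ i₀`. Inverse: `b = θ⁻¹ w'_(i₀,0)`, `(x, a_t) = e₀⁻¹ (x', b)`, `w_(i₀,τ) = w'_(i₀,τ+1)` for `τ < t`, `w_(i₀,t) = θ a_t`. Bounds (`M = max (p 0 x) (wS w)`): `p t a_t ≤ C wS (Ξ_(i₀,t)) w_(i₀,t) ≤ C M`; `p t x' ≤ 7 C M`, `p 0 b ≤ 7 C M`, `wS (Ξ_(i₀,0)) (θ b) ≤ 7 C² M`;
`wS (Ξ_(i₀,τ+1)) w_(i₀,τ) ≤ C p (τ+1) a_τ ≤ C p τ a_τ ≤ C² M` (for the inverse `2 C²`); `l2 w' ≤ l2 (θ b) + l2 w`. So everything is `≤ 8 C² M ≤ 20 C² M`. SUGGESTION: compose three simpler equivalences, or define the map and its inverse by `toFun`/`invFun` on `W × (K → Fin a → ℝ)` (currying) and check `left_inv`, `right_inv` by cases. -/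
def Stmt_ABS : Prop := ∀ (t a c m : ℕ) (ι : Type) [Fintype ι] [DecidableEq ι] (Ξ : ι × Fin (t + 1) → Fin c → Fin a → ℝ) (W : Type) [AddCommGroup W] [Module ℝ W]
  (B : W →ₗ[ℝ] (Fin m → ℝ)) (p : ℕ → Seminorm ℝ W) (A : Submodule ℝ W) (S : W →ₗ[ℝ] W) (C : ℝ) (i₀ : ι) (θ : A ≃ₗ[ℝ] (Fin a → ℝ)), 1 ≤ C →
  (∀ x, S x ∈ A) → (∀ x, B (S x) = B x) → (∀ τ ≤ t, ∀ x, p τ (S x) ≤ 2 * p τ x) → (∀ τ x, p (τ + 1) x ≤ p τ x ∧ p τ x ≤ 2 * p (τ + 1) x) →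
  (∀ x, B x = 0 → p 0 x ≤ p t x) → (∀ (τ : Fin (t + 1)) (x : A), p τ x ≤ C * wS (Ξ (i₀, τ)) (θ x) ∧ wS (Ξ (i₀, τ)) (θ x) ≤ C * p τ x) →
  ∃ e : (W × ((ι × Fin (t + 1)) × Fin a → ℝ)) ≃ₗ[ℝ] (W × ((ι × Fin (t + 1)) × Fin a → ℝ)),
    (∀ z, p t (e z).1 ≤ 20 * C ^ 2 * max (p 0 z.1) (wS (bd Ξ) z.2) ∧ wS (bd Ξ) (e z).2 ≤ 20 * C ^ 2 * max (p 0 z.1) (wS (bd Ξ) z.2)) ∧
    ∀ z, p 0 (e.symm z).1 ≤ 20 * C ^ 2 * max (p t z.1) (wS (bd Ξ) z.2) ∧ wS (bd Ξ) (e.symm z).2 ≤ 20 * C ^ 2 * max (p t z.1) (wS (bd Ξ) z.2)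

/-- **NTX** (120; uses nothing). THE NET OF TYPES, AND THE BLOCK DIAGONAL MATRIX. The set of all `Ξ' : Fin (t+1) → Fin c → Fin a → ℝ` with `l2 (mv (Ξ' τ) w) ≤ D l2 w` for all `τ, w` is compact (closed: intersection of closed conditions; bounded: `w = e_i` gives `|Ξ' τ l i| ≤ D`), so it is totally bounded: finitely many members `Ξ_0, .., Ξ_{q-1}` with
`|Ξ' τ l i - Ξ_k τ l i| ≤ 1 / (a + 1)` for some `k` (sup distance); `|∑ i, (Ξ' - Ξ_k) τ l i * w i| ≤ (1/(a+1)) ∑ |w i| ≤ l2 w`. (2) `l2 (mv (bd Ξ) w) ^ 2 = ∑ κ, l2 (mv (Ξ κ) w_κ) ^ 2 ≤ D ^ 2 ∑ κ, l2 w_κ ^ 2`. -/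
def Stmt_NTX : Prop := ∀ (t a c : ℕ) (D : ℝ), 0 ≤ D → ∃ (q : ℕ) (Ξ : Fin q × Fin (t + 1) → Fin c → Fin a → ℝ),
  (∀ κ (w : Fin a → ℝ), l2 (mv (Ξ κ) w) ≤ D * l2 w) ∧ (∀ w, l2 (mv (bd Ξ) w) ≤ D * l2 w) ∧
  ∀ Ξ' : Fin (t + 1) → Fin c → Fin a → ℝ, (∀ τ (w : Fin a → ℝ), l2 (mv (Ξ' τ) w) ≤ D * l2 w) →
    ∃ i, ∀ τ (w : Fin a → ℝ), ‖mv (Ξ' τ) w - mv (Ξ (i, τ)) w‖ ≤ l2 w

/-- **EUV** (110; uses EUC). THE EUCLIDEAN NORM OF `V`. `N (x, y) = (3 D ^ 2)⁻¹ * √(‖x‖ ^ 2 + (D⁻¹ * l2 (G y)) ^ 2)` (the norm of `(3 D ^ 2)⁻¹ • (x, D⁻¹ G y)` in `Hn (n + Q)`; give the linear map explicitly, e.g. to `EuclideanSpace ℝ (Fin n ⊕ Fin Q)` and reindex, so `Eu 1 N`). `P τ (x, y) = nX x + max (D⁻¹ l2 (G y)) (2^{-τ} ‖G y‖)`; lower bound: `≥ ‖x‖ / (3 D ^ 2) + D⁻¹ l2 (G y)`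
`≥ N`. Upper bound: `≤ 3 D ‖x‖ + D (D⁻¹ l2 (G y))` (`‖G y‖ ≤ l2 (G y)`, `D ≥ 1`) `≤ 3 D (‖x‖ + D⁻¹ l2 (G y)) ≤ 3 D * 2 * 3 D ^ 2 N ≤ 20 D ^ 3 N`. -/
def Stmt_EUV : Prop := ∀ (n : ℕ) (J d s : Type) [Fintype J] [Fintype d] [Fintype s] (X : Cfg n J d s) (N₀ : ℕ) (L : ℝ), X.Ok N₀ L →
  ∀ (m Q : ℕ) (G : (Fin m → ℝ) →ₗ[ℝ] (Fin Q → ℝ)), Function.Injective G →
  ∃ N : Seminorm ℝ (Hn n × (Fin m → ℝ)), Pool.EH.Eu 1 N ∧ Def N ∧ ∀ τ v, N v ≤ X.P G τ v ∧ X.P G τ v ≤ 20 * X.D ^ 3 * N v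

/-- **TYP** (250; uses EUC CLS). THE TYPES. `F = A.map fst`, `finrank F ≤ a`; CLS: `S`, `Λ`, an injection of `Λ` into `Fin N₁` (or an enumeration `Fin N₁ → Option Λ`). Hilbert norm on `A`: `N x = 3 * √(‖S x.1‖ ^ 2 + (D⁻¹ l2 (G x.2)) ^ 2)` (`Def`: `N2 x.1 ≤ ‖S x.1‖`, `Def N2` by EUC, `G` injective); `Pool.EH.Eu.exists_equiv` (constant `1`) and `finrank A = a` give
`θ : A ≃ₗ (Fin a → ℝ)` with `l2 (θ x) = N x`. `Ξ' τ` = the matrix of the linear map `w ↦ ((⟪ψ_c, x.1⟫)_{c ∈ Λ} (padded by zeros to N₁ rows), ((1/2)^τ (G x.2)_k)_{k < Q})`, `x = θ⁻¹ w` (`Fin (N₁ + Q)`: `Fin.append` or `finSumFinEquiv`). `l2 (mv (Ξ' τ) w) ^ 2 ≤ 9 D ^ 2 ‖S x.1‖ ^ 2 + l2 (G x.2) ^ 2 ≤ D ^ 2 N x ^ 2`. `wS (Ξ' τ) (θ x) = max (N x) (max (max_Λ |⟪ψ_c, x.1⟫|) ((1/2)^τ ‖G x.2‖))`.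
`P τ x = nX x.1 + max (D⁻¹ l2 (G x.2)) ((1/2)^τ ‖G x.2‖) ≤ 2 wS` (`nX x.1 = max (N2 x.1) ‖ev x.1‖ ≤ max (‖S x.1‖) (max_Λ)`, `c ∉ Λ`: `|⟪ψ_c, x.1⟫| ≤ ‖S x.1‖`). `wS ≤ 45 P τ x`: `N x ≤ 3 (9 N2 x.1 + D⁻¹ l2 (G x.2)) ≤ 27 P τ x`. -/
def Stmt_TYP : Prop := ∀ (n : ℕ) (J d s : Type) [Fintype J] [Fintype d] [Fintype s] (X : Cfg n J d s) (N₀ : ℕ) (L : ℝ) (a N₁ : ℕ), X.Ok N₀ L →
  a * a + 1 ≤ N₀ → 9 * X.D ^ 2 * a ≤ N₁ → N₁ + 1 ≤ N₀ → ∀ (m Q t : ℕ) (G : (Fin m → ℝ) →ₗ[ℝ] (Fin Q → ℝ)), Function.Injective G →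
  ∀ A : Submodule ℝ (Hn n × (Fin m → ℝ)), finrank ℝ A = a →
  ∃ (θ : A ≃ₗ[ℝ] (Fin a → ℝ)) (Ξ' : Fin (t + 1) → Fin (N₁ + Q) → Fin a → ℝ), (∀ τ (w : Fin a → ℝ), l2 (mv (Ξ' τ) w) ≤ X.D * l2 w) ∧
    ∀ (τ : Fin (t + 1)) (x : A), X.P G τ x ≤ 2 * wS (Ξ' τ) (θ x) ∧ wS (Ξ' τ) (θ x) ≤ 45 * X.P G τ x

end Pool.NG
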