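import Pool.Agent.Work.MP_3e8c7a_ng.DefsA

/-!
# MP_3e8c7a_an, THEOREM NEG, sections 4 and 5: uniform approximation and absorption (helper11)

Notation (`DefsA.lean`): `e2` Euclidean norm on functions, `wN Φ w = max |w|_2 |Φ w|_∞`, `MB D Φ`: `|Φ w|_2 ≤ D |w|_2`, `blk Ξ`, `cat Xi` block diagonal matrices, `pT N q B τ x = max (N x) (q τ (B x))`, `QS`, `Clo`, `EuS`, `Vis`. `Iso`, `Def`, `ds` are in `Pool.Agent.MP3e8c7a` (`MP_3e8c7a/Base.lean`).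

RULES. Every block is one file `A_X.lean` in this folder, `import Pool.Agent.Work.MP_3e8c7a_ng.InterfaceA`, `namespace Pool.NG`, `open Module Pool.Agent.MP3e8c7a`, `open scoped RealInnerProductSpace`, `theorem p_X (h1 : Stmt_Y) .. : Stmt_X` with exactly the blocks named after `uses` as
hypotheses in that order (`theorem p_X : Stmt_X` if it uses nothing); auxiliary lemmas with the prefix `X_`. No straight double quotes.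
-/

set_option autoImplicit false

namespace Pool.NG

open Module Pool.Agent.MP3e8c7a
open scoped RealInnerProductSpace

/-! ## 4. The uniform approximation property -/

/-- **NFN** (200; uses `Pool.EH.Stmt_NET`). NORMING FUNCTIONALS INSIDE A SLIGHTLY LARGER SUBSPACE. For every `τ`: NET with `j = 2` for `W = H`, the seminorm `(p τ).comp H.subtype` (it is `Def`: `‖x‖ ≤ p τ x`): a finite set `T_τ` with at most `5 ^ (2 * finrank H)` points. For every `v ∈ T_τ`, `v ≠ 0`, let `f` be a norming functional: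
`|f x| ≤ p τ x` for all `x`, `f v = p τ v` (`Pool.RX.BAS_norming` in `MP_3e8c7a_r/B_BAS.lean`), represented by a vector (`(InnerProductSpace.toDual ℝ _).symm (LinearMap.toContinuousLinearMap f)`, or `∑ i, f (basis i) • basis i` for `EuclideanSpace.basisFun`). `H'` = `H ⊔` the span of all these vectors (for `v = 0` take the vector `0`): `finrank H' ≤ finrank H + (t + 1) * 5 ^ (2 * finrank H)`
(`Submodule.finrank_add_le_finrank_add_finrank`, `finrank_span_finset_le_card`, `Finset.card_biUnion_le`). Let `y ∈ H`; `y = 0`: `f = 0`. Otherwise `y' = (p τ y)⁻¹ • y` has `p τ y' = 1`; `v ∈ T_τ` with `p τ (y' - v) ≤ 1 / 4`: `p τ v ≥ 3 / 4`, `f y' = f v - f (v - y') ≥ 3 / 4 - 1 / 4 = 1 / 2`, so `p τ y ≤ 2 * f y`. -/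
def Stmt_NFN : Prop := ∀ (e t : ℕ) (D : ℝ) (p : Fin (t + 1) → Seminorm ℝ (EuclideanSpace ℝ (Fin e))) (H : Submodule ℝ (EuclideanSpace ℝ (Fin e))),
  (∀ τ x, ‖x‖ ≤ p τ x ∧ p τ x ≤ D * ‖x‖) →
  ∃ H' : Submodule ℝ (EuclideanSpace ℝ (Fin e)), H ≤ H' ∧ finrank ℝ H' ≤ finrank ℝ H + (t + 1) * 5 ^ (2 * finrank ℝ H) ∧
    ∀ τ, ∀ y ∈ H, ∃ f ∈ H', (∀ x, ⟪f, x⟫ ≤ p τ x) ∧ p τ y ≤ 2 * ⟪f, y⟫

/-- **CHN** (130; uses NFN). THE CHAIN. `g 0 = m`, `g (i + 1) = g i + (t + 1) * 5 ^ (2 * g i)`, `R = g L + 1` (depends on `m, t, L` only; `m ≤ g L` by induction). `H 0 = (ker B)ᗮ`: `finrank (H 0) = finrank (range B) ≤ m` (`Submodule.finrank_add_finrank_orthogonal`, `LinearMap.finrank_range_add_finrank_ker`, `finrank_le` into `Fin m → ℝ`), and `(H 0)ᗮ = ker B` (`Submodule.orthogonal_orthogonal`).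
`H (i + 1)` = `H'` of NFN for `H i` (recursion with `Classical.choose`; `finrank (H i) ≤ g i` by induction, the bound of NFN is increasing in `finrank`). `Monotone H`: `monotone_nat_of_le_succ`. -/
def Stmt_CHN : Prop := ∀ m t L : ℕ, ∃ R : ℕ, m ≤ R ∧ 1 ≤ R ∧ ∀ (e : ℕ) (D : ℝ) (p : Fin (t + 1) → Seminorm ℝ (EuclideanSpace ℝ (Fin e)))
  (B : EuclideanSpace ℝ (Fin e) →ₗ[ℝ] (Fin m → ℝ)), (∀ τ x, ‖x‖ ≤ p τ x ∧ p τ x ≤ D * ‖x‖) →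
  ∃ H : ℕ → Submodule ℝ (EuclideanSpace ℝ (Fin e)), Monotone H ∧ finrank ℝ (H L) ≤ R ∧ (∀ x ∈ (H 0)ᗮ, B x = 0) ∧
    ∀ (i : ℕ) (τ : Fin (t + 1)), ∀ y ∈ H i, ∃ f ∈ H (i + 1), (∀ x, ⟪f, x⟫ ≤ p τ x) ∧ p τ y ≤ 2 * ⟪f, y⟫

/-- **AVG** (220; uses nothing). AVERAGING THE PROJECTIONS. `R i` = the orthogonal projection onto `H i` (`(H i).starProjection` as a linear map), `S = (L : ℝ)⁻¹ • ∑ i ∈ range L, R i`; `S x ∈ H L` (`H i ≤ H L`). `B (R i x) = B x`: `x - R i x ∈ (H i)ᗮ ≤ (H 0)ᗮ`. Let `y = R i x ∈ H i`, `f ∈ H (i + 1)` as in the hypothesis: `p τ y ≤ 2 ⟪f, y⟫`,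
`⟪f, y⟫ = ⟪f, x⟫ - ⟪f, x - y⟫`, `⟪f, x - y⟫ = ⟪f, R (i+1) (x - y)⟫ = ⟪f, R (i+1) x - R i x⟫` (`f ∈ H (i+1)`; `R (i+1) (R i x) = R i x`), `‖f‖ ≤ D` (`‖f‖² = ⟪f, f⟫ ≤ p τ f ≤ D ‖f‖`). So `p τ (R i x) ≤ 2 (p τ x + D ‖R (i+1) x - R i x‖)`. The differences `R (i+1) x - R i x`, `i < L`, are orthogonal, `∑ ‖R (i+1) x - R i x‖² ≤ ‖x‖²`
(by induction on `L`: `∑ i < L, ‖R (i+1) x - R i x‖² = ‖R L x‖² - ‖R 0 x‖²`, since `⟪R (i+1) x - R i x, R i x⟫ = 0`), Cauchy-Schwarz: `∑ ‖..‖ ≤ √L ‖x‖`. `p τ (S x) ≤ L⁻¹ ∑ p τ (R i x) ≤ 2 p τ x + 2 D L⁻¹ √L ‖x‖ ≤ 3 p τ x` because `4 D² ≤ L` gives `2 D ≤ √L` and `‖x‖ ≤ p τ x`. -/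
def Stmt_AVG : Prop := ∀ (e m t L : ℕ) (D : ℝ) (p : Fin (t + 1) → Seminorm ℝ (EuclideanSpace ℝ (Fin e)))
  (B : EuclideanSpace ℝ (Fin e) →ₗ[ℝ] (Fin m → ℝ)) (H : ℕ → Submodule ℝ (EuclideanSpace ℝ (Fin e))),
  1 ≤ L → 1 ≤ D → 4 * D ^ 2 ≤ L → (∀ τ x, ‖x‖ ≤ p τ x ∧ p τ x ≤ D * ‖x‖) → Monotone H → (∀ x ∈ (H 0)ᗮ, B x = 0) →
  (∀ (i : ℕ) (τ : Fin (t + 1)), ∀ y ∈ H i, ∃ f ∈ H (i + 1), (∀ x, ⟪f, x⟫ ≤ p τ x) ∧ p τ y ≤ 2 * ⟪f, y⟫) →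
  ∃ S : EuclideanSpace ℝ (Fin e) →ₗ[ℝ] EuclideanSpace ℝ (Fin e), (∀ x, S x ∈ H L) ∧ (∀ x, B (S x) = B x) ∧ ∀ τ x, p τ (S x) ≤ 3 * p τ x

/-- **UAP** (150; uses CHN AVG). UNIFORM APPROXIMATION WITH A PRESCRIBED MAP. `L = ⌈4 D²⌉₊` (`≥ 1`), `R` of CHN for `m, t, L`. Let `T`, `p` be as in `EuS` on `X`, `d = finrank X`. Replace `T` by a bijective map: `range T` is a subspace of dimension `d` of a Euclidean space, a linear isometry `range T ≃ EuclideanSpace ℝ (Fin d)` (`stdOrthonormalBasis`; compare `Eu.exists_equiv` in `MP_3e8c7a_h/Base.lean`) gives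
`T' : X ≃ₗ EuclideanSpace ℝ (Fin d)` with `‖T' x‖ = ‖T x‖`. CHN and AVG for `p' τ = (p τ).comp T'.symm`, `B' = B ∘ T'.symm`: `H`, `S'`. `A = (H L).comap T'` (`= (H L).map T'.symm`, the same dimension), `S = T'.symm ∘ S' ∘ T'`. -/
def Stmt_UAP : Prop := ∀ (D : ℝ) (m t : ℕ), 1 ≤ D → ∃ R : ℕ, m ≤ R ∧ 1 ≤ R ∧ ∀ (X : Type) [AddCommGroup X] [Module ℝ X] [FiniteDimensional ℝ X]
  (p : Fin (t + 1) → Seminorm ℝ X) (B : X →ₗ[ℝ] (Fin m → ℝ)), EuS D p →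
  ∃ (A : Submodule ℝ X) (S : X →ₗ[ℝ] X), finrank ℝ A ≤ R ∧ (∀ x, S x ∈ A) ∧ (∀ x, B (S x) = B x) ∧ ∀ τ x, p τ (S x) ≤ 3 * p τ x

/-! ## 5. Absorption -/

/-- **ENL** (70; uses nothing). ENLARGING A SUBSPACE to a prescribed dimension (induction on `R - finrank A`, adding a vector outside; or a complement and `Submodule.exists_finrank_..`; or extend a basis). -/
def Stmt_ENL : Prop := ∀ (X : Type) [AddCommGroup X] [Module ℝ X] [FiniteDimensional ℝ X] (A : Submodule ℝ X) (R : ℕ),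
  finrank ℝ A ≤ R → R ≤ finrank ℝ X → ∃ A' : Submodule ℝ X, A ≤ A' ∧ finrank ℝ A' = R

/-- **MTX** (180; uses nothing). THE MATRIX. `σ : X → A`, `σ x = ⟨S x, _⟩` (`LinearMap.codRestrict`), `s a = σ a : A → A`. `M (x, a) = (x - S x + (S a - 2 a), σ x + (a - s a))`, the inverse `M' (x, a) = (x - S x - (S a - 2 a), - σ x + (a - s a))`. Check `M M' = 1 = M' M`: write `M (x, a) = (x - S x + S a - 2 a, S x + a - S a)` (second component in `A`); then with `x' = x - S x - S a + 2 a`, `a' = - S x + a - S a`: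
`x' - S x' + S a' - 2 a' = x - S x - S a + 2 a - S x + S S x + S S a - 2 S a - S S x + S a - S S a + 2 S x - 2 a + 2 S a = x`, `S x' + a' - S a' = S x - S S x - S S a + 2 S a - S x + a - S a + S S x - S a + S S a = a`; the other order is the same computation with changed signs.
BOUNDS. `P₁ (M x).1 ≤ P₁ (x - S x) + P₁ (S a) + 2 P₁ a ≤ 4 P₀ x + 5 P₁ a` (`P₁ (x - S x) ≤ P₀ (x - S x) ≤ 4 P₀ x`), `P₀ (M x).2 ≤ P₀ (S x) + P₀ (a - S a) ≤ 3 P₀ x + P₁ (a - S a) ≤ 3 P₀ x + 4 P₁ a`, because `B (a - S a) = 0`. Inverse: `P₀ (x - S x) ≤ P₁ (x - S x) ≤ 4 P₁ x` (`B (x - S x) = 0`), `P₀ (S a - 2 a) ≤ 5 P₀ a`, `P₁ (S x) ≤ 3 P₁ x`, `P₁ (a - S a) ≤ P₀ (a - S a) ≤ 4 P₀ a`. -/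
def Stmt_MTX : Prop := ∀ (X : Type) [AddCommGroup X] [Module ℝ X] (m : ℕ) (P₀ P₁ : Seminorm ℝ X) (B : X →ₗ[ℝ] (Fin m → ℝ))
  (A : Submodule ℝ X) (S : X →ₗ[ℝ] X), (∀ x, P₁ x ≤ P₀ x) → (∀ x, B x = 0 → P₀ x ≤ P₁ x) → (∀ x, S x ∈ A) → (∀ x, B (S x) = B x) →
  (∀ x, P₀ (S x) ≤ 3 * P₀ x ∧ P₁ (S x) ≤ 3 * P₁ x) →
  ∃ M : (X × A) ≃ₗ[ℝ] (X × A), (∀ x : X × A, P₁ (M x).1 + P₀ ((M x).2 : X) ≤ 9 * (P₀ x.1 + P₁ (x.2 : X))) ∧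
    ∀ x : X × A, P₀ (M.symm x).1 + P₁ ((M.symm x).2 : X) ≤ 9 * (P₁ x.1 + P₀ (x.2 : X))

/-- **SHF** (220; uses nothing). THE SHIFT. `F (x, w) = (x'', w'')`: `a τ i = w (τ, i)`, `(x'', b) = M (x, a (last t))`, `w'' (0, i) = b i`, `w'' (τ.succ, i) = w (τ.castSucc, i)` (`Fin.cons b (fun τ i => w (τ.castSucc, i))`). Inverse: `(x, a_t) = M.symm (x'', w'' (0, ·))`, `w (τ.castSucc, i) = w'' (τ.succ, i)`, `w (last t, i) = a_t i` (`Fin.snoc`). Both are linear.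
`wN (blk Ξ) w = max (√(∑ τ i, w (τ, i) ^ 2)) (max over τ of ‖Ξ τ (w (τ, ·))‖)` (`blk_mulVec`, norm of the product index: `pi_norm_le_iff_of_nonneg`). So `wN (Ξ τ) (w (τ, ·)) ≤ wN (blk Ξ) w`, and for `w''`: `√(..) ≤ e2 b + e2 w`, `‖Ξ 0 b‖ ≤ wN (Ξ 0) b`, `‖Ξ τ.succ (w (τ.castSucc, ·))‖ ≤ C * wN (Ξ τ.castSucc) (w (τ.castSucc, ·)) ≤ C * wN (blk Ξ) w`, hence
`wN (blk Ξ) w'' ≤ wN (Ξ 0) b + C * wN (blk Ξ) w`, and `P₁ x'' + wN (blk Ξ) w'' ≤ C * (P₀ x + wN (Ξ last) (a last)) + C * wN (blk Ξ) w ≤ 2 C * (P₀ x + wN (blk Ξ) w)`. The inverse in the same way. `Iso.of_bounds` with `A = B = 2 C`. -/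
def Stmt_SHF : Prop := ∀ (C : ℝ) (t s R : ℕ) (X : Type) [AddCommGroup X] [Module ℝ X] (P₀ P₁ : Seminorm ℝ X)
  (Ξ : Fin (t + 1) → Matrix (Fin s) (Fin R) ℝ) (M : (X × (Fin R → ℝ)) ≃ₗ[ℝ] (X × (Fin R → ℝ))), 1 ≤ C →
  (∀ (τ : Fin t) (w : Fin R → ℝ), wN (Ξ τ.succ) w ≤ C * wN (Ξ τ.castSucc) w ∧ wN (Ξ τ.castSucc) w ≤ C * wN (Ξ τ.succ) w) →
  (∀ x : X × (Fin R → ℝ), P₁ (M x).1 + wN (Ξ 0) (M x).2 ≤ C * (P₀ x.1 + wN (Ξ (Fin.last t)) x.2)) →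
  (∀ x : X × (Fin R → ℝ), P₀ (M.symm x).1 + wN (Ξ (Fin.last t)) (M.symm x).2 ≤ C * (P₁ x.1 + wN (Ξ 0) x.2)) →
  Iso (4 * C ^ 2) (ds P₀ (wN (blk Ξ))) (ds P₁ (wN (blk Ξ)))

/-- **EXC** (220; uses UAP ENL MTX SHF). EXCHANGE. `R` of UAP for `D₂, m, t`. `p τ = pT N q B τ` on `X`. UAP: `A₀`, `S`; ENL (`R ≤ finrank X`): `A ≥ A₀`, `finrank A = R`; `Clo`: `u`, `Ξ`. MTX for `P₀ = p 0`, `P₁ = p (last t)`: `P₁ ≤ P₀` (QS by induction along `Fin`: `q (last t) y ≤ q 0 y`), and `B x = 0` gives `p 0 x = max (N x) (q 0 0) = N x ≤ p (last t) x` (`map_zero`).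
`M' = (1 × u) ⁻¹ M (1 × u)` on `X × (Fin R → ℝ)`: `P₁ (M' x).1 + wN (Ξ 0) (M' x).2 ≤ P₁ .. + c P₀ (u ..) ≤ 9 c (P₀ x.1 + P₁ (u x.2)) ≤ 9 c² (P₀ x.1 + wN (Ξ last) x.2)`, the inverse in the same way. `wN (Ξ τ.succ) w ≤ c p τ.succ (u w) ≤ c p τ.castSucc (u w) ≤ c² wN (Ξ τ.castSucc) w`, `wN (Ξ τ.castSucc) w ≤ c p τ.castSucc (u w) ≤ 2 c p τ.succ (u w) ≤ 2 c² wN (Ξ τ.succ) w`.
SHF with `C = 9 c²`. -/
def Stmt_EXC : Prop := ∀ (D₂ : ℝ) (m t : ℕ), 1 ≤ D₂ → ∃ R : ℕ, m ≤ R ∧ 1 ≤ R ∧ ∀ (c D : ℝ) (s : ℕ) (X : Type) [AddCommGroup X] [Module ℝ X] [FiniteDimensional ℝ X]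
  (N : Seminorm ℝ X) (q : Fin (t + 1) → Seminorm ℝ (Fin m → ℝ)) (B : X →ₗ[ℝ] (Fin m → ℝ)), 1 ≤ c → R ≤ finrank ℝ X → QS q →
  EuS D₂ (pT N q B) → Clo c D s R (pT N q B) →
  ∃ Ξ : Fin (t + 1) → Matrix (Fin s) (Fin R) ℝ, (∀ τ, MB D (Ξ τ)) ∧
    Iso (4 * (9 * c ^ 2) ^ 2) (ds (pT N q B 0) (wN (blk Ξ))) (ds (pT N q B (Fin.last t)) (wN (blk Ξ)))

/-- **NTX** (160; uses nothing). A FINITE NET OF MATRICES. The set `M = {Ξ : ∀ τ, MB D (Ξ τ)}` in the finite dimensional space `Fin (t+1) → Matrix (Fin s) (Fin R) ℝ` (sup norm: view `Matrix` as `Fin s → Fin R → ℝ`) is bounded (`|Ξ τ l i| ≤ |D|`: `w = Pi.single i 1`) and closed, so compact, totally bounded: a finite subset with distances `≤ δ`, `δ * (R + 1) ≤ 1`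
(`IsCompact.finite_cover_balls`; enumerate it by `Fin K`; if `M` is empty take `K = 0`). `|∑ i, (Ξ τ l i - Ξ' τ l i) w i| ≤ δ ∑ |w i| ≤ δ R |w|_2 ≤ |w|_2` (`|w i| ≤ e2 w`). -/
def Stmt_NTX : Prop := ∀ (t s R : ℕ) (D : ℝ), ∃ (K : ℕ) (Xi : Fin K → Fin (t + 1) → Matrix (Fin s) (Fin R) ℝ), (∀ κ τ, MB D (Xi κ τ)) ∧
  ∀ Ξ : Fin (t + 1) → Matrix (Fin s) (Fin R) ℝ, (∀ τ, MB D (Ξ τ)) →
    ∃ κ, ∀ (τ : Fin (t + 1)) (w : Fin R → ℝ), ‖(Ξ τ).mulVec w - (Xi κ τ).mulVec w‖ ≤ e2 (Fin R) w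

/-- **SPW** (200; uses nothing). SPLITTING OFF ONE BLOCK. `W' = ({j : Fin K // j ≠ κ} × Fin (t+1) × Fin R → ℝ)`, `w'` = `wN` of the matrix with the blocks `Xi j τ`, `j ≠ κ` (`fun a b => if a.1 = b.1 ∧ a.2.1 = b.2.1 then Xi a.1 a.2.1 a.2.2 b.2.2 else 0`). The equivalence `w ↦ (fun b => w (κ, b), fun b => w (b.1, b.2))`. `e2 w ^ 2 = e2 w₁ ^ 2 + e2 w₂ ^ 2`,
`‖cat Xi w‖ = max ‖blk (Xi κ) w₁‖ ‖.. w₂‖` (`cat_mulVec`, `blk_mulVec`). So `wN (cat Xi) w ≤ wN .. w₁ + w' w₂ ≤ 2 wN (cat Xi) w`. -/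
def Stmt_SPW : Prop := ∀ (K t s R : ℕ) (Xi : Fin K → Fin (t + 1) → Matrix (Fin s) (Fin R) ℝ) (κ : Fin K),
  ∃ (W' : Type) (_ : AddCommGroup W') (_ : Module ℝ W') (w' : Seminorm ℝ W'), Iso 2 (wN (cat Xi)) (ds (wN (blk (Xi κ))) w')

/-- **CBD** (90; uses nothing). The norm of a block diagonal matrix: `e2 ((cat Xi) w) ^ 2 = ∑ κ τ, e2 (Xi κ τ (w (κ, τ, ·))) ^ 2 ≤ D² ∑ κ τ, e2 (w (κ, τ, ·)) ^ 2 = D² * e2 w ^ 2` (`cat_mulVec`, `Fintype.sum_prod_type`). -/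
def Stmt_CBD : Prop := ∀ (K t s R : ℕ) (D : ℝ) (Xi : Fin K → Fin (t + 1) → Matrix (Fin s) (Fin R) ℝ), 0 ≤ D → (∀ κ τ, MB D (Xi κ τ)) → MB D (cat Xi)

/-- **DEC** (110; uses nothing). A COMPLEMENTED PART. `T x = (x - J (Q x), Q x) : E ≃ ker Q × Y` (inverse `(x, y) ↦ x + J y`). `P x ≤ P (x - J Q x) + P (J Q x) ≤ c * ds (T x)`, `ds (T x) = P (x - J Q x) + w (Q x) ≤ (1 + c²) P x + c P x ≤ 3 c² P x`. `Iso.of_bounds` with `A = c`, `B = 3 c²`. -/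
def Stmt_DEC : Prop := ∀ (E Y : Type) [AddCommGroup E] [Module ℝ E] [AddCommGroup Y] [Module ℝ Y] (c : ℝ) (P : Seminorm ℝ E) (w : Seminorm ℝ Y)
  (J : Y →ₗ[ℝ] E) (Q : E →ₗ[ℝ] Y), 1 ≤ c → (∀ y, Q (J y) = y) → (∀ y, P (J y) ≤ c * w y) → (∀ x, w (Q x) ≤ c * P x) →
  Iso (3 * c ^ 3) P (ds (P.comp (LinearMap.ker Q).subtype) w)

/-- **ABS** (300; uses EXC NTX SPW DEC). ABSORPTION. `b = (3 c³) * 2 * 2 * (4 (9 c²)²) * 2 * 2 * (3 c³) * 4` (or any explicit number; choose what comes out). `R` of EXC for `D₂, m, t`; `K`, `Xi` of NTX. Given `E`: `J, Q` of `Vis`, `X = ker Q` (`finrank X ≥ finrank E - K (t+1) R ≥ R`), `i = X.subtype`. `pT (N.comp i) q (B ∘ i) τ = (pT N q B τ).comp i` (`pT_comp`, `rfl`).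
`EuS` passes to `X` (compose with `i`); `Clo` passes to `X`: for `A ≤ X`, `finrank A = R`, use `A.map i` (`Submodule.equivMapOfInjective`). EXC: `Ξ`. NTX: `κ` with `‖Ξ τ w - Xi κ τ w‖ ≤ e2 w`, so `wN (blk Ξ) ≤ 2 wN (blk (Xi κ)) ≤ 4 wN (blk Ξ)` pointwise (`blk_mulVec`; `e2 (w (τ, ·)) ≤ e2 w`), i.e. `Iso 4` by the identity.
DEC for `P = pT N q B τ`, `τ = 0, last t`, `w = wN (cat Xi)` (`pT .. (J w) = max (N (J w)) (q τ 0) = N (J w)` because `B (J w) = 0`; `wN (Q x) ≤ c N x ≤ c p x`). SPW for `κ`: `W'`, `w'`. Chain: `p 0 ~ ds (p 0 on X) (wN (cat Xi)) ~ ds (p 0 on X) (ds (wN (blk (Xi κ))) w') ~ ds (ds (p 0 on X) (wN (blk (Xi κ)))) w' ~ ds (ds (p 0 on X) (wN (blk Ξ))) w'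
~ ds (ds (p last on X) (wN (blk Ξ))) w' ~ .. ~ p last` (`Iso.trans`, `Iso.ds`, `Iso.symm`, `Iso.refl`; associativity of `ds` is `Iso 1` by `LinearEquiv.prodAssoc`). -/
def Stmt_ABS : Prop := ∀ c : ℝ, 1 ≤ c → ∃ b : ℝ, 1 ≤ b ∧ ∀ (D₂ : ℝ) (m t : ℕ), 1 ≤ D₂ → ∃ R : ℕ, m ≤ R ∧ 1 ≤ R ∧ ∀ (s : ℕ) (D : ℝ), 1 ≤ D →
  ∃ (K : ℕ) (Xi : Fin K → Fin (t + 1) → Matrix (Fin s) (Fin R) ℝ), (∀ κ τ, MB D (Xi κ τ)) ∧
    ∀ (E : Type) [AddCommGroup E] [Module ℝ E] [FiniteDimensional ℝ E] (N : Seminorm ℝ E) (q : Fin (t + 1) → Seminorm ℝ (Fin m → ℝ))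
      (B : E →ₗ[ℝ] (Fin m → ℝ)), (K * (t + 1) + 1) * R ≤ finrank ℝ E → QS q → EuS D₂ (pT N q B) → Vis c (cat Xi) N B → Clo c D s R (pT N q B) →
      Iso b (pT N q B 0) (pT N q B (Fin.last t))

end Pool.NG
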