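import Pool.Agent.Work.MP_3e8c7a_ng.Interface

/-!
# MP_3e8c7a_an, THEOREM NEG (Q1 is false): the final assembly

RULES. As in `Interface.lean` (read `Defs.lean` first), but `import Pool.Agent.Work.MP_3e8c7a_ng.InterfaceF`.
-/

set_option autoImplicit false

namespace Pool.NG

open Module Pool.Agent.MP3e8c7a
open Pool.RG (FacE)

/-- The property of `R` in UAG. -/
def UAGP (D : ℝ) (t m R : ℕ) : Prop := ∀ (W : Type) [AddCommGroup W] [Module ℝ W] [FiniteDimensional ℝ W] (N : Seminorm ℝ W)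
  (p : Fin (t + 1) → Seminorm ℝ W), Pool.EH.Eu 1 N → Def N → (∀ τ x, N x ≤ p τ x ∧ p τ x ≤ D * N x) →
  ∀ (B : W →ₗ[ℝ] (Fin m → ℝ)) (a : ℕ), R ≤ a → a ≤ finrank ℝ W → ∃ (A : Submodule ℝ W) (S : W →ₗ[ℝ] W), finrank ℝ A = a ∧ (∀ x, S x ∈ A) ∧ (∀ x, B (S x) = B x) ∧
    ∀ τ x, p τ (S x) ≤ 2 * p τ x

/-- The property of the net in NTX. -/
def NTP (t a c q : ℕ) (D : ℝ) (Ξ : Fin q × Fin (t + 1) → Fin c → Fin a → ℝ) : Prop :=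
  ∀ Ξ' : Fin (t + 1) → Fin c → Fin a → ℝ, (∀ τ (w : Fin a → ℝ), l2 (mv (Ξ' τ) w) ≤ D * l2 w) →
    ∃ i, ∀ τ (w : Fin a → ℝ), ‖mv (Ξ' τ) w - mv (Ξ (i, τ)) w‖ ≤ l2 w

/-- The data of the construction: the space `X` with the universal matrix `bd Ξ`. -/
structure Uni (n M t a N₁ m Q q : ℕ) (X : Cfg n (Fin M) ((Fin q × Fin (t + 1)) × Fin a) ((Fin q × Fin (t + 1)) × Fin (N₁ + Q))) (N₀ : ℕ) (L : ℝ)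
    (G : (Fin m → ℝ) →ₗ[ℝ] (Fin Q → ℝ)) (Ξ : Fin q × Fin (t + 1) → Fin (N₁ + Q) → Fin a → ℝ) : Prop where
  ok : X.Ok N₀ L
  Φ : X.Φ = bd Ξ
  aN : a * a + 1 ≤ N₀
  DN : 9 * X.D ^ 2 * a ≤ N₁
  NN : N₁ + 1 ≤ N₀
  G : Function.Injective G
  net : NTP t a (N₁ + Q) q X.D Ξ
  sq : Real.sqrt Q ≤ X.D
  t2 : X.D ≤ 2 ^ t
  ua : ∃ R ≤ a, UAGP (20 * X.D ^ 3) t m R

/-- **SEA** (220; uses EUV ABS TYP). THE ABSORPTION FOR A SUBSPACE `E'` of dimension `≥ a`. `W = E'`, `p τ = (X.P G τ).comp E'.subtype`, `N` of EUV composed with `E'.subtype` (`Eu.comp`, `Def.comp`), `B = snd ∘ subtype`. `ua`: `A`, `S`. TYP for `A.map E'.subtype` (the same dimension): `θ'`, `Ξ'`; `θ` = the composition with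
`A ≃ A.map E'.subtype` (`Submodule.equivMapOfInjective`). `net`: `i₀` with `‖Ξ'_τ w - Ξ_(i₀,τ) w‖ ≤ l2 w`, so `wS (Ξ'_τ) ≤ 2 wS (Ξ_(i₀,τ))` and conversely: the constant of ABS is `C = 90` (`P ≤ 2 wS Ξ' ≤ 4 wS Ξ`, `wS Ξ ≤ 2 wS Ξ' ≤ 90 P`). `p (τ+1) ≤ p τ ≤ 2 p (τ+1)`: `qS_apply`. `B x = 0`: `G x.2 = 0`, so `p 0 x = p t x = nX x.1`. `20 * 90 ^ 2 = 162000`. -/
def Stmt_SEA : Prop := ∀ (n M t a N₁ m Q q : ℕ) (X : Cfg n (Fin M) ((Fin q × Fin (t + 1)) × Fin a) ((Fin q × Fin (t + 1)) × Fin (N₁ + Q))) (N₀ : ℕ) (L : ℝ)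
  (G : (Fin m → ℝ) →ₗ[ℝ] (Fin Q → ℝ)) (Ξ : Fin q × Fin (t + 1) → Fin (N₁ + Q) → Fin a → ℝ), Uni n M t a N₁ m Q q X N₀ L G Ξ →
  ∀ E' : Submodule ℝ (Hn n × (Fin m → ℝ)), a ≤ finrank ℝ E' →
  ∃ e : (E' × ((Fin q × Fin (t + 1)) × Fin a → ℝ)) ≃ₗ[ℝ] (E' × ((Fin q × Fin (t + 1)) × Fin a → ℝ)),
    (∀ z, X.P G t (e z).1 ≤ 162000 * max (X.P G 0 z.1) (wS X.Φ z.2) ∧ wS X.Φ (e z).2 ≤ 162000 * max (X.P G 0 z.1) (wS X.Φ z.2)) ∧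
    ∀ z, X.P G 0 (e.symm z).1 ≤ 162000 * max (X.P G t z.1) (wS X.Φ z.2) ∧ wS X.Φ (e.symm z).2 ≤ 162000 * max (X.P G t z.1) (wS X.Φ z.2)

/-- **SEC** (150; uses SPL SEA). ONE SECTION. SPL: `E'`, `Ψ`; `finrank E = finrank E' + q (t+1) a` (`Ψ.finrank_eq`), so `a ≤ finrank E'`. SEA: `e`. `T = Ψ.trans (e.trans Ψ.symm)`. With `z = Ψ x`: `P t (T x) ≤ P t (e z).1 + (4/β) wS (e z).2 ≤ (1 + 4/β) * 162000 * max (P 0 z.1) (wS z.2) ≤ (5/β) * 162000 * (61/β²) * P 0 x ≤ (5 * 10^7 / β³) P 0 x`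
(`15/β ≤ 61/β²`), and the same with `T⁻¹`, `e.symm`. SPL is applied to `p = P 0` and `p = P t` (`P τ (x, 0) = nX x`, `nX v.1 ≤ P τ v`). `Iso.of_bounds` with `A = B = 5 * 10^7 / β³`; `Iso.mono`. -/
def Stmt_SEC : Prop := ∀ (n M t a N₁ m Q q : ℕ) (X : Cfg n (Fin M) ((Fin q × Fin (t + 1)) × Fin a) ((Fin q × Fin (t + 1)) × Fin (N₁ + Q))) (N₀ : ℕ) (L : ℝ)
  (G : (Fin m → ℝ) →ₗ[ℝ] (Fin Q → ℝ)) (Ξ : Fin q × Fin (t + 1) → Fin (N₁ + Q) → Fin a → ℝ), Uni n M t a N₁ m Q q X N₀ L G Ξ →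
  ∀ τ β : ℝ, X.Tau L τ β → ∀ (E : Submodule ℝ (Hn n × (Fin m → ℝ))) (j : Fin M), 0 < n → a + q * (t + 1) * a ≤ finrank ℝ E →
  β * n ≤ finrank ℝ (E.comap (LinearMap.inl ℝ (Hn n) (Fin m → ℝ))) → (finrank ℝ (E.map (LinearMap.fst ℝ (Hn n) (Fin m → ℝ))) : ℝ) ≤ (1 - β) * n →
  GoodB X.b τ (E.comap (LinearMap.inl ℝ (Hn n) (Fin m → ℝ))) j → GoodB X.b τ (E.map (LinearMap.fst ℝ (Hn n) (Fin m → ℝ))) j →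
  Iso (10 ^ 16 / β ^ 6) ((X.P G 0).comp E.subtype) ((X.P G t).comp E.subtype)

/-- **PAR** (200; uses nothing). THE PARAMETERS. `r`: `N₀ ^ (1/r - 1/2) ≤ 2` for `r = 2 - 1 / (N₀ + 1)` (`1/r - 1/2 = (2 - r) / (2 r) ≤ (2 - r) / 2`, `log N₀ ≤ N₀`), or by continuity at `r = 2`. `ρ`: with `η = ρ / (16 L ^ 2)`: `√(η / ρ) = 1 / (4 L)`, and `ρ η ^ (1 - r) D ^ r N₀ = ρ ^ (2 - r) (16 L ^ 2) ^ (r - 1) D ^ r N₀ ≤ 1` for small `ρ > 0` (`2 - r > 0`).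
`μ = (ρ / L ^ 6) ^ 2`. `τ`: `r / (r - 1) - 2 > 0` and `1 - 1/r > 0`, so the left side of the last condition tends to `0` with `τ` (choose `τ` explicitly or by `Filter.Tendsto` / `Real.continuousAt_rpow_const`). -/
def Stmt_PAR : Prop := ∀ (N₀ : ℕ) (D L β : ℝ), 1 ≤ N₀ → 1 ≤ D → 1 ≤ L → 0 < β → ∃ r ρ μ τ : ℝ, 1 < r ∧ r < 2 ∧ 0 < ρ ∧ 0 < μ ∧ 0 < τ ∧
  L ^ 6 * Real.sqrt μ ≤ ρ ∧ L ^ 6 * ρ ≤ 1 ∧ (N₀ : ℝ) ^ (1 / r - 1 / 2) ≤ 2 ∧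
  (∃ η : ℝ, 0 < η ∧ 4 * (L * Real.sqrt (η / ρ)) ≤ 1 ∧ ρ * η ^ (1 - r) * D ^ r * N₀ ≤ 1) ∧
  30 * (L ^ 3 * τ) ≤ β ∧ D * ((L ^ 2 * τ) ^ (r / (r - 1) - 2) * (2 * L) ^ 2) ^ (1 - 1 / r) ≤ 1

/-- **DIM** (70; uses nothing). DIMENSIONS. `E.comap inl ≃ E ⊓ ker snd` and `finrank E ≤ finrank (E ⊓ ker snd) + m` (rank-nullity for `snd` on `E`); `finrank (E.map fst) ≤ finrank E` (`Submodule.finrank_map_le`). The real inequalities: `k = ⌈α (n + m)⌉₊ ≥ α n`, so `finrank E₁ ≥ α n - m ≥ β n` (`α ≥ 2 β`, `β n ≥ m`); `k ≤ α (n + m) + 1 ≤ (1 - 2 β) n + m + 1 ≤ (1 - β) n`. -/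
def Stmt_DIM : Prop := ∀ (n m : ℕ) (α β : ℝ), 0 < β → 2 * β ≤ α → α ≤ 1 - 2 * β → (m : ℝ) + 1 ≤ β * n → ∀ E : Submodule ℝ (Hn n × (Fin m → ℝ)),
  finrank ℝ E = ⌈α * ((n + m : ℕ) : ℝ)⌉₊ →
  β * n ≤ finrank ℝ (E.comap (LinearMap.inl ℝ (Hn n) (Fin m → ℝ))) ∧ (finrank ℝ (E.map (LinearMap.fst ℝ (Hn n) (Fin m → ℝ))) : ℝ) ≤ (1 - β) * n ∧
  α * n ≤ finrank ℝ E

/-- **RV** (the random vectors; not a block of this file, see `InterfaceR.lean`). -/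
def Stmt_RVF : Prop := ∀ (c : Type) [Fintype c] [DecidableEq c] (τ : ℝ), 0 < τ → ∃ n₀ : ℕ, ∀ n ≥ n₀, ∃ (M : ℕ) (b : Fin M → c → Hn n),
  (∀ j x, ‖b j x‖ = 1) ∧ (∀ x y : Fin M × c, x ≠ y → |inner ℝ (b x.1 x.2) (b y.1 y.2)| ≤ τ) ∧
  ∀ E₁ E₂ : Submodule ℝ (Hn n), ∃ j, GoodB b τ E₁ j ∧ GoodB b τ E₂ j

/-- **CON** (220; uses BGS UAG NTX PAR RVF). THE CONSTRUCTION. `C = 378 κ` in BGS: `m, Q, G`, `Q ≥ 1`. `D = Q`, `t = Q` (`√Q ≤ Q ≤ 2 ^ Q`). UAG for `20 D ^ 3, t, m`: `R`. `a = max R (max m 1)`, `N₁ = 9 Q ^ 2 a`, `N₀ = a a + N₁ + 2`. NTX for `t, a, N₁ + Q, D`: `q, Ξ`. `d = (Fin q × Fin (t+1)) × Fin a`, `s = (Fin q × Fin (t+1)) × Fin (N₁ + Q)`.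
`f = 1 + ∑ l, ∑ i, |bd Ξ l i|`, `L = f + N₀ + (D + 2) + card d + card s`. PAR: `r, ρ, μ, τ`. RVF for `c = d ⊕ s` and `min τ μ`: `n₀`. For `n ≥ n₀`: `M`, `b`; `X = ⟨b, bd Ξ, D, r, ρ, μ, _, _⟩`. `GoodB` is monotone in `τ`. -/
def Stmt_CON : Prop := ∀ (κ β : ℝ), 1 ≤ κ → 0 < β → 2 * β ≤ 1 → ∃ (t a N₁ m Q q N₀ : ℕ) (L τ : ℝ) (G : (Fin m → ℝ) →ₗ[ℝ] (Fin Q → ℝ))
  (Ξ : Fin q × Fin (t + 1) → Fin (N₁ + Q) → Fin a → ℝ) (n₀ : ℕ), m ≤ a ∧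
  (∀ (ι : Type) [Fintype ι] (w : Seminorm ℝ (ι → ℝ)), UncT w → ¬ FacE (378 * κ) ((normSeminorm ℝ (Fin Q → ℝ)).comp G) w) ∧
  ∀ n ≥ n₀, ∃ (M : ℕ) (X : Cfg n (Fin M) ((Fin q × Fin (t + 1)) × Fin a) ((Fin q × Fin (t + 1)) × Fin (N₁ + Q))),
    Uni n M t a N₁ m Q q X N₀ L G Ξ ∧ X.Tau L τ β ∧ ∀ E₁ E₂ : Submodule ℝ (Hn n), ∃ j, GoodB X.b τ E₁ j ∧ GoodB X.b τ E₂ j

/-- **FNL** (180; uses EUC NIS SEC DIM CON). THE THEOREM FOR NORMS. `β = min α (1 - α) / 2`, `b = 10 ^ 16 / β ^ 6`. CON for `κ, β`; `n ≥ n₀` with `m + 1 ≤ β n` and `a + q (t + 1) a ≤ α n`, `n ≥ 1`. `p = X.P G 0`, `p' = X.P G t`. `Def`: `nX x = 0` gives `x = 0` (EUC), `qS D τ (G y) = 0` gives `l2 (G y) = 0`, `G y = 0`, `y = 0`. `Hyp`: for `E` of dimension `k`: DIM, `j` for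
`E₁ = E.comap inl`, `E₂ = E.map fst`; SEC. NIS gives `¬ Iso κ`. -/
def Stmt_FNL : Prop := ∀ α : ℝ, 0 < α → α < 1 → ∃ b : ℝ, 1 ≤ b ∧ ∀ κ : ℝ, 1 ≤ κ → ∃ (n m : ℕ) (p p' : Seminorm ℝ (Hn n × (Fin m → ℝ))), 1 ≤ n ∧ Def p ∧ Def p' ∧
  Hyp b ⌈α * ((n + m : ℕ) : ℝ)⌉₊ p p' ∧ ¬ Iso κ p p'

/-- **BDY** (100; uses nothing). UNIT BALLS ARE BODIES. A seminorm on `Fin N → ℝ` is continuous (`p x ≤ ∑ |x i| p (e_i) ≤ C ‖x‖`); convex and symmetric; `0` is an interior point (`{p < 1}` is open); bounded: the minimum `c > 0` of `p` on the unit sphere, `c ‖x‖ ≤ p x` (`N = 0`: everything is a point). -/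
def Stmt_BDY : Prop := ∀ (N : ℕ) (p : Seminorm ℝ (Fin N → ℝ)), Def p → IsBody {x | p x ≤ 1}

/-- **NEG** (130; uses FNL BDY). THE THEOREM FOR BODIES. `e : (Hn n × (Fin m → ℝ)) ≃ₗ (Fin (n + m) → ℝ)` (same `finrank`: `LinearEquiv.ofFinrankEq`), `P = p.comp e.symm`, `P' = p'.comp e.symm`: `Def`, and `Hyp b k P P'`: for `E` of dimension `k` in `Fin (n+m) → ℝ` use the definition of `Hyp` for `E.map e.symm` (or `Hyp.comp` / `Hyp.inj` in `MP_3e8c7a/Base.lean`). `K = {P ≤ 1}`, `L = {P' ≤ 1}`: BDY.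
`SectionsClose`: `Iso.dBM_le` (Glue.lean) for `P.comp E.subtype`. If `dBM K L ≤ ENNReal.ofReal κ` then `iso_of_dBM_le` gives `Iso (|κ| + 1) P P'`, hence `Iso (|κ| + 1) p p'`: apply FNL with `|κ| + 1`. -/
def Stmt_NEG : Prop := ∀ α : ℝ, 0 < α → α < 1 → ∃ b : ℝ, 1 ≤ b ∧ ∀ κ : ℝ, ∃ (n : ℕ) (K L : Set (Fin n → ℝ)), 1 ≤ n ∧ IsBody K ∧ IsBody L ∧
  SectionsClose ⌈α * n⌉₊ b K L ∧ ENNReal.ofReal κ < dBM K L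

end Pool.NG
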