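import Pool.Agent.Work.MP_3e8c7a_ng.Defs
import Pool.Agent.Work.MP_3e8c7a_k.B_MOM

/-!
# MP_3e8c7a_an, THEOREM NEG (negative answer to Q1), section 1: random vectors

Paper proof: note 3448 of the row (helper59), section 1. Everything here is finite counting with sign vectors `x : Fin n → Bool` (`sg true = 1`, `sg false = -1`; `sg` is `Pool.Agent.MP3e8c7ak.sg`).
`BL A x y = ∑ k, ∑ l, sg (x k) * A k l * sg (y l)`, `tr A = ∑ k, A k k`. `ι` is a finite set of indices, a block is `β : ι → Fin n → Bool`, a configuration is `Ω : Fin M → ι → Fin n → Bool`.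
`BadA A t β`: some pair `c, c'` has `t < |BL A (β c) (β c') - (tr A if c = c')|`. `BadB A t β β'`: some pair has `t < |BL A (β c) (β' c')|`.

RULES. Every block is one file `B_X.lean` in this folder, `import Pool.Agent.Work.MP_3e8c7a_ng.InterfaceR`, `namespace Pool.NG`, `open Module Pool.Agent.MP3e8c7ak`, `open scoped RealInnerProductSpace`, `open Classical in` before the theorem (the cardinalities are those of `Finset.filter` with classical decidability: same instances as here), `theorem p_X (h1 : Stmt_Y) .. : Stmt_X`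
with exactly the blocks named after `uses` as hypotheses in that order (`theorem p_X : Stmt_X` if it uses nothing); auxiliary lemmas with the prefix `X_`. No straight double quotes. `Pool.Agent.MP3e8c7ak.MOM` (proved, imported): `∑ g, (dt g x) ^ 2 = 2 ^ s * sq x` with `dt g x = ∑ a, sg (g a) * x a`, `Pool.Agent.MP3e8c7ak.sq x = ∑ a, x a ^ 2` (write the full name, `sq` alone is ambiguous with `_root_.sq`).
-/

set_option autoImplicit false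

namespace Pool.NG

open Module Pool.Agent.MP3e8c7ak
open scoped RealInnerProductSpace

/-- The bilinear form of a matrix on sign vectors. -/
def BL {n : ℕ} (A : Fin n → Fin n → ℝ) (x y : Fin n → Bool) : ℝ := ∑ k, ∑ l, sg (x k) * A k l * sg (y l)

/-- The trace. -/
def tr {n : ℕ} (A : Fin n → Fin n → ℝ) : ℝ := ∑ k, A k k

/-- The square of the Hilbert-Schmidt norm. -/
def hs {n : ℕ} (A : Fin n → Fin n → ℝ) : ℝ := ∑ k, ∑ l, A k l ^ 2

open Classical in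
/-- A block which is bad for the matrix `A`. -/
def BadA {n : ℕ} {ι : Type} (A : Fin n → Fin n → ℝ) (t : ℝ) (β : ι → Fin n → Bool) : Prop :=
  ∃ c c', t < |BL A (β c) (β c') - (if c = c' then tr A else 0)|

/-- Two blocks which are correlated. -/
def BadB {n : ℕ} {ι : Type} (A : Fin n → Fin n → ℝ) (t : ℝ) (β β' : ι → Fin n → Bool) : Prop :=
  ∃ c c', t < |BL A (β c) (β' c')|

open Classical in
/-- **RHO** (120; uses nothing). HOEFFDING. `lam = t / s`. `∑ ω, exp (lam * dt ω x) = ∏ k, (exp (lam * x k) + exp (-(lam * x k))) = ∏ k, 2 * cosh (lam * x k) ≤ 2 ^ n * exp (lam ^ 2 * s / 2)` (`Real.cosh_le_exp_half_sq`; the product formula `Finset.prod_univ_sum` / `Fintype.piFinset_univ`, see `MP_3e8c7a_k/B_MGF.lean`).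
Every `ω` with `t ≤ dt ω x` contributes at least `exp (lam * t)`: at most `2 ^ n * exp (lam ^ 2 * s / 2 - lam * t) = 2 ^ n * exp (-(t ^ 2 / (2 * s)))` of them. The same for `-x`. -/
def Stmt_RHO : Prop := ∀ (n : ℕ) (x : Fin n → ℝ) (s t : ℝ), 0 < s → ∑ k, x k ^ 2 ≤ s → 0 ≤ t →
  ((Finset.univ.filter fun ω : Fin n → Bool => t ≤ |dt ω x|).card : ℝ) ≤ 2 * Real.exp (-(t ^ 2 / (2 * s))) * 2 ^ n

open Classical in
/-- **RCB** (90; uses nothing). CHEBYSHEV, TWO INDEPENDENT SIGN VECTORS. `BL A x y = dt x (fun k => ∑ l, A k l * sg (y l))`. MOM twice: `∑ x, BL A x y ^ 2 = 2 ^ n * ∑ k, (∑ l, A k l * sg (y l)) ^ 2`, `∑ y, (dt y (A k)) ^ 2 = 2 ^ n * ∑ l, A k l ^ 2`. So `∑ p : _ × _, BL A p.1 p.2 ^ 2 = (2 ^ n) ^ 2 * hs A`, and every pair in the set contributes more than `t ^ 2`. -/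
def Stmt_RCB : Prop := ∀ (n : ℕ) (A : Fin n → Fin n → ℝ) (t : ℝ), 0 < t →
  t ^ 2 * ((Finset.univ.filter fun p : (Fin n → Bool) × (Fin n → Bool) => t < |BL A p.1 p.2|).card : ℝ) ≤ hs A * (2 ^ n) ^ 2

open Classical in
/-- **RCQ** (150; uses nothing). CHEBYSHEV, QUADRATIC FORM. First `∑ x, (BL A x x - tr A) ^ 2 ≤ 2 * hs A * 2 ^ n` by induction on `n` (all `A`): for `x = Fin.cons c x'` (`Fin.consEquiv`, see `MOM_key` in `MP_3e8c7a_k/B_MOM.lean`), `BL A x x - tr A = sg c * u(x') + v(x')` with `u(x') = ∑ l, (A 0 l.succ + A l.succ 0) * sg (x' l)` and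
`v(x') = BL A' x' x' - tr A'`, `A' k l = A k.succ l.succ` (`sg c ^ 2 = 1`). The sum over `c` of the square is `2 u ^ 2 + 2 v ^ 2`; `∑ x', u(x') ^ 2 = 2 ^ n' * ∑ l, (A 0 l.succ + A l.succ 0) ^ 2 ≤ 2 ^ n' * 2 * ∑ l, (A 0 l.succ ^ 2 + A l.succ 0 ^ 2)` (MOM), and the induction hypothesis for `A'`. Then as in RCB. -/
def Stmt_RCQ : Prop := ∀ (n : ℕ) (A : Fin n → Fin n → ℝ) (t : ℝ), 0 < t →
  t ^ 2 * ((Finset.univ.filter fun x : Fin n → Bool => t < |BL A x x - tr A|).card : ℝ) ≤ 2 * hs A * 2 ^ n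

open Classical in
/-- **RFB** (110; uses nothing). FIBRES OF COORDINATE PROJECTIONS. (1) All fibres of `β ↦ β c` have the same number of elements (`Equiv.funSplitAt c X : (ι → X) ≃ X × ({j // j ≠ c} → X)`, `Fintype.card_congr`, products). (2) the same for `β ↦ (β c, β c')`, `c ≠ c'`: e.g. (1) for the fixed value `β c = x` and the index type `{j // j ≠ c}`. -/
def Stmt_RFB : Prop := ∀ (ι X : Type) [Fintype ι] [DecidableEq ι] [Fintype X] [DecidableEq X],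
  (∀ (c : ι) (Q : X → Prop), (Finset.univ.filter fun β : ι → X => Q (β c)).card * Fintype.card X =
    (Finset.univ.filter fun x : X => Q x).card * Fintype.card (ι → X)) ∧
  ∀ (c c' : ι) (Q : X → X → Prop), c ≠ c' → (Finset.univ.filter fun β : ι → X => Q (β c) (β c')).card * Fintype.card X ^ 2 =
    (Finset.univ.filter fun p : X × X => Q p.1 p.2).card * Fintype.card (ι → X)

open Classical in
/-- **RBA** (90; uses RCB RCQ RFB). A BLOCK IS RARELY BAD. `BadA A t β` is a union over the pairs `(c, c')` (`Finset.card_biUnion_le` or `Finset.card_le_card` + `Finset.card_biUnion_le`, `Finset.univ : Finset (ι × ι)`); for `c ≠ c'`: RFB (2) for `Q x y := t < |BL A x y|` (`- 0`) and RCB, `Fintype.card (Fin n → Bool) = 2 ^ n`; for `c = c'`: RFB (1) for `Q x := t < |BL A x x - tr A|` and RCQ. Each of the at most `card ι ^ 2` sets has at most `2 * hs A / t ^ 2 * card (ι → Fin n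 → Bool)` elements. -/
def Stmt_RBA : Prop := ∀ (ι : Type) [Fintype ι] [DecidableEq ι] (n : ℕ) (A : Fin n → Fin n → ℝ) (t H : ℝ), 0 < t → hs A ≤ H →
  ((Finset.univ.filter fun β : ι → Fin n → Bool => BadA A t β).card : ℝ) ≤
    2 * (Fintype.card ι : ℝ) ^ 2 * H / t ^ 2 * (Fintype.card (ι → Fin n → Bool) : ℝ)

open Classical in
/-- **RBB** (100; uses RHO RFB). CORRELATION WITH FIXED BLOCKS. `J` a finite set of blocks (here: a family `γ : J → ι → Fin n → Bool`). `BL A x y = dt x (fun k => ∑ l, A k l * sg (y l))` and `sq (fun k => ∑ l, A k l * sg (y l)) ≤ 4 * ∑ l, sg (y l) ^ 2 = 4 * n`. RHO with `s = 4 * n` (`n ≥ 1`), RFB (1); union over `j : J`, `c`, `c'`. -/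
def Stmt_RBB : Prop := ∀ (ι J : Type) [Fintype ι] [DecidableEq ι] [Fintype J] (n : ℕ) (A : Fin n → Fin n → ℝ) (t : ℝ) (γ : J → ι → Fin n → Bool), 1 ≤ n → 0 ≤ t →
  (∀ y : Fin n → ℝ, ∑ k, (∑ l, A k l * y l) ^ 2 ≤ 4 * ∑ l, y l ^ 2) →
  ((Finset.univ.filter fun β : ι → Fin n → Bool => ∃ j, BadB A t β (γ j)).card : ℝ) ≤
    2 * Fintype.card J * (Fintype.card ι : ℝ) ^ 2 * Real.exp (-(t ^ 2 / (8 * n))) * (Fintype.card (ι → Fin n → Bool) : ℝ)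

open Classical in
/-- **RPD** (160; uses nothing). INDEPENDENCE. `S` a set of indices, `Bad Ω` a set of values which depends only on the coordinates of `Ω` OUTSIDE of `S`. Claim, for `H ⊆ S` by induction on the finite set `H`: `#{Ω | ∀ j ∈ H, Bad Ω (Ω j)} ≤ q ^ H.card * card (Fin M → B)`. Step `insert j H`: `Equiv.funSplitAt j B : (Fin M → B) ≃ B × ({i // i ≠ j} → B)`; for fixed values `ξ` outside of `j` the condition
for the indices of `H` and the set `Bad Ω` do not depend on the value at `j ∈ S`; so the number of `Ω` over `ξ` is `0` or at most `q * card B`, and `card B * #{ξ : the condition for H}` `= #{Ω | ∀ i ∈ H, Bad Ω (Ω i)}`. Finally, if `h ≤ #{j ∈ S | Bad Ω (Ω j)}` there is a subset `H` of this set with exactly `h` elements (`Finset.exists_subset_card_eq`), and there are at most `2 ^ M` sets `H`. (`B` empty: both sides are `0` unless `M = 0`, which is trivial: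 `q ^ h` with `h = 0`, or no `Ω` is counted.) -/
def Stmt_RPD : Prop := ∀ (M : ℕ) (B : Type) [Fintype B] (S : Finset (Fin M)) (Bad : (Fin M → B) → B → Prop) (q : ℝ) (h : ℕ), 0 ≤ q →
  (∀ Ω Ω' : Fin M → B, (∀ i, i ∉ S → Ω i = Ω' i) → ∀ β, Bad Ω β → Bad Ω' β) →
  (∀ Ω, ((Finset.univ.filter fun β : B => Bad Ω β).card : ℝ) ≤ q * Fintype.card B) →
  ((Finset.univ.filter fun Ω : Fin M → B => h ≤ (S.filter fun j => Bad Ω (Ω j)).card).card : ℝ) ≤ 2 ^ M * q ^ h * (Fintype.card (Fin M → B) : ℝ)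

open Classical in
/-- **RNA** (60; uses RBA RPD). MANY BAD BLOCKS ARE RARE. RPD for `B = ι → Fin n → Bool`, `S = univ`, `Bad Ω β = BadA A t β`, `q` of RBA, `h = M / 4` (`M ≤ 4 * N` gives `M / 4 ≤ N`). -/
def Stmt_RNA : Prop := ∀ (ι : Type) [Fintype ι] [DecidableEq ι] (M n : ℕ) (A : Fin n → Fin n → ℝ) (t H : ℝ), 0 < t → 0 ≤ H → hs A ≤ H →
  ((Finset.univ.filter fun Ω : Fin M → ι → Fin n → Bool => M ≤ 4 * (Finset.univ.filter fun j => BadA A t (Ω j)).card).card : ℝ) ≤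
    2 ^ M * (2 * (Fintype.card ι : ℝ) ^ 2 * H / t ^ 2) ^ (M / 4) * (Fintype.card (Fin M → ι → Fin n → Bool) : ℝ)

open Classical in
/-- **RNB** (170; uses RBB RPD). MANY CORRELATED BLOCKS ARE RARE (BINARY DIGITS). `M ≤ 2 ^ K`. If `j ≠ i` (both `< 2 ^ K`) some digit `d < K` has `Nat.testBit j d ≠ Nat.testBit i d` (`Nat.eq_of_testBit_eq`, `Nat.testBit_eq_false_of_lt` / `Nat.testBit_lt_two_pow` for `d ≥ K`). So the set of the `j` with a partner `i ≠ j`, `BadB A t (Ω j) (Ω i)`, is covered by the `2 K` sets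
`{j ∈ S | Bad Ω (Ω j)}` with `S = {j | testBit j d = e}`, `Bad Ω β := ∃ i ∉ S, BadB A t β (Ω i)`, `d < K`, `e : Bool`; one of them has at least `M / (8 K)` elements if `M ≤ 4 * N` (natural division). RPD for each of them, `h = M / (8 * K)`; `q` of RBB with `J = {i // i ∉ S}` (`card J ≤ M`). -/
def Stmt_RNB : Prop := ∀ (ι : Type) [Fintype ι] [DecidableEq ι] (M n K : ℕ) (A : Fin n → Fin n → ℝ) (t : ℝ), 1 ≤ n → 1 ≤ K → M ≤ 2 ^ K → 0 ≤ t →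
  (∀ y : Fin n → ℝ, ∑ k, (∑ l, A k l * y l) ^ 2 ≤ 4 * ∑ l, y l ^ 2) →
  ((Finset.univ.filter fun Ω : Fin M → ι → Fin n → Bool =>
    M ≤ 4 * (Finset.univ.filter fun j => ∃ i, i ≠ j ∧ BadB A t (Ω j) (Ω i)).card).card : ℝ) ≤
    2 * K * (2 ^ M * (2 * M * (Fintype.card ι : ℝ) ^ 2 * Real.exp (-(t ^ 2 / (8 * n)))) ^ (M / (8 * K)) * (Fintype.card (Fin M → ι → Fin n → Bool) : ℝ))

open Classical in
/-- **RCO** (120; uses RHO RFB). COHERENCE. Union over the pairs `(j, c) ≠ (i, c')`, at most `(M * card ι) ^ 2` of them. `Ω ↦ (Ω j c, Ω i c')`: `Equiv.curry` (`Fin M × ι → X`, `X = Fin n → Bool`) and RFB (2); for the pairs in `X × X`: for fixed `y` RHO for `x k = sg (y k)`, `sq x = n`, `s = n`, `t = τ * n`: `t ^ 2 / (2 * n) = τ ^ 2 * n / 2`. -/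
def Stmt_RCO : Prop := ∀ (ι : Type) [Fintype ι] [DecidableEq ι] (M n : ℕ) (τ : ℝ), 1 ≤ n → 0 ≤ τ →
  ((Finset.univ.filter fun Ω : Fin M → ι → Fin n → Bool => ∃ j c i c', (j, c) ≠ (i, c') ∧ τ * n < |∑ k, sg (Ω j c k) * sg (Ω i c' k)|).card : ℝ) ≤
    ((M : ℝ) * Fintype.card ι) ^ 2 * (2 * Real.exp (-(τ ^ 2 * n / 2))) * (Fintype.card (Fin M → ι → Fin n → Bool) : ℝ)

/-- **RNT** (80; uses nothing). A NET OF MATRICES. The image of `Fintype.piFinset (fun _ => Fintype.piFinset fun _ => Finset.Icc (-L) L)` (integer matrices) under `z ↦ fun k l => z k l / L`; `Z k l = ⌊A k l * L⌋ / L`. `((2 * L + 1) ^ n) ^ n = (2 * L + 1) ^ (n ^ 2)`. -/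
def Stmt_RNT : Prop := ∀ n L : ℕ, 1 ≤ L → ∃ T : Finset (Fin n → Fin n → ℝ), T.card ≤ (2 * L + 1) ^ (n ^ 2) ∧
  ∀ A : Fin n → Fin n → ℝ, (∀ k l, |A k l| ≤ 1) → ∃ Z ∈ T, ∀ k l, |A k l - Z k l| ≤ 1 / L

/-- **RAP** (130; uses nothing). WHAT IS LEFT AFTER THE APPROXIMATION. `D = Z - A`, `|D k l| ≤ 1 / L ≤ 1 / n`. `hs D ≤ n ^ 2 / L ^ 2 ≤ 1`, `√(hs Z) ≤ √(hs A) + √(hs D) ≤ √n + 1 ≤ 2 √n` (or `Z ^ 2 ≤ 2 A ^ 2 + 2 D ^ 2` entrywise: `hs Z ≤ 2 n + 2 ≤ 4 n`). `∑ k, (∑ l, D k l * y l) ^ 2 ≤ hs D * ∑ y l ^ 2 ≤ ∑ y l ^ 2` (Cauchy-Schwarz) and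
`(a + d) ^ 2 ≤ 2 a ^ 2 + 2 d ^ 2`. `|BL A x y - BL Z x y| ≤ ∑ k, ∑ l, |D k l| ≤ n ^ 2 / L`, `|tr A - tr Z| ≤ n / L`. -/
def Stmt_RAP : Prop := ∀ (n L : ℕ) (A Z : Fin n → Fin n → ℝ), 1 ≤ n → n ≤ L → (∀ k l, |A k l - Z k l| ≤ 1 / L) → hs A ≤ n →
  (∀ y : Fin n → ℝ, ∑ k, (∑ l, A k l * y l) ^ 2 ≤ ∑ l, y l ^ 2) →
  hs Z ≤ 4 * n ∧ (∀ y : Fin n → ℝ, ∑ k, (∑ l, Z k l * y l) ^ 2 ≤ 4 * ∑ l, y l ^ 2) ∧
  (∀ x y : Fin n → Bool, |BL A x y - BL Z x y| ≤ (n : ℝ) ^ 2 / L) ∧ |tr A - tr Z| ≤ (n : ℝ) ^ 2 / L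

/-- **RUA** (130; uses nothing). NUMBERS, FIRST AND THIRD TERM. As `n → ∞`: (1) `log` of the first product is at most `n ^ 2 * log (2 * a * n + 1) + n ^ 3 * log 2 + (n ^ 3 / 4) * log (C / n)`, with `n ^ 3 / 4 ≥ n ^ 3 / 8` for the natural quotient and `log (C / n) ≤ -(1/2) * log n` for large `n`: the last term wins. An elementary way: for large `n` `C / n ≤ (1 / 2) ^ 32`, `(C / n) ^ (n ^ 3 / 4) ≤ (1 / 2) ^ (4 * n ^ 3)` (as `32 * (n ^ 3 / 4) ≥ 4 * n ^ 3` for `n ≥ 2`),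
and `(2 * a * n + 1) ^ (n ^ 2) ≤ (2 ^ n) ^ (n ^ 2) = 2 ^ (n ^ 3)` for large `n` (`2 * a * n + 1 ≤ 2 ^ n`). So the first product is at most `2 ^ (n ^ 3) * 2 ^ (n ^ 3) * 2 ^ (-4 * n ^ 3) ≤ 2 ^ (-n) < 1 / 4`. (2) `n ^ 6 * exp (-c n) → 0` (`Real.tendsto_pow_mul_exp_neg_atTop_nhds_zero`). -/
def Stmt_RUA : Prop := ∀ (a : ℕ) (C c : ℝ), 0 < C → 0 < c → ∃ n₀ : ℕ, ∀ n : ℕ, n₀ ≤ n →
  (((2 * (n * a) + 1) ^ (n ^ 2) : ℕ) : ℝ) * (2 ^ (n ^ 3) * (C / n) ^ (n ^ 3 / 4)) < 1 / 4 ∧ C * (n : ℝ) ^ 6 * Real.exp (-(c * n)) < 1 / 4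

/-- **RUB** (160; uses nothing). NUMBERS, SECOND TERM. `K = Nat.log 2 (n ^ 3) + 1 ≤ 3 * (Nat.log 2 n + 1) + 1` (`Nat.log_pow_le` or `n ^ 3 < 2 ^ (3 * (Nat.log 2 n + 1))`). For large `n`: `q = C * n ^ 3 * exp (-c n) ≤ exp (-(c/2) n)`; `(q) ^ (n ^ 3 / (8 * K)) ≤ exp (-(c/2) * n * (n ^ 3 / (16 * K)))`, and `n / K → ∞` (`K ≤ √n` for large `n`), so for large `n` this is at most
`exp (-(4 * n ^ 3))`-like: `(c / 32) * n / K ≥ 4` gives `≤ exp (-4 * n ^ 3) ≤ 2 ^ (-4 * n ^ 3)`. `2 * K ≤ 2 ^ n`, `(2 * (n * a) + 1) ^ (n ^ 2) ≤ 2 ^ (n ^ 3)`. The product is at most `2 ^ (n ^ 3) * 2 ^ n * 2 ^ (n ^ 3) * 2 ^ (-4 * n ^ 3) < 1 / 4`. -/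
def Stmt_RUB : Prop := ∀ (a : ℕ) (C c : ℝ), 0 < C → 0 < c → ∃ n₀ : ℕ, ∀ n : ℕ, n₀ ≤ n →
  (((2 * (n * a) + 1) ^ (n ^ 2) : ℕ) : ℝ) * (2 * (Nat.log 2 (n ^ 3) + 1 : ℕ) *
    (2 ^ (n ^ 3) * (C * (n : ℝ) ^ 3 * Real.exp (-(c * n))) ^ (n ^ 3 / (8 * (Nat.log 2 (n ^ 3) + 1))))) < 1 / 4

open Classical in
/-- **REX** (180; uses RNA RNB RCO RNT RAP RUA RUB). GOOD CONFIGURATIONS. `τ ≤ 1`, `a = ⌈4 / τ⌉₊ ≥ 4`, `L = n * a`, `t = τ * n / 4`, `M = n ^ 3`, `K = Nat.log 2 M + 1`, `v = card ι`. For every `Z ∈ T` (RNT) with `hs Z ≤ 4 * n` and the operator bound `4`: RNA (`H = 4 * n`: `2 * v ^ 2 * (4 * n) / t ^ 2 = 128 * v ^ 2 / (τ ^ 2 * n)`) and RNB (`t ^ 2 / (8 * n) = τ ^ 2 * n / 128`);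
sum over `Z`, RCO. RUA, RUB with `C = 128 * (v + 1) ^ 2 / τ ^ 2 + 2 * (v + 1) ^ 2`, `c = τ ^ 2 / 128` (monotonicity in `q`). The sum of the three bounds is `< 3 / 4` of all configurations, so some `Ω` is outside of all bad sets. For `A` as in the statement take `Z` of RNT, RAP: `n ^ 2 / L = n / a ≤ τ * n / 4`; if `j` is not in the bad sets of `Z` for `t` then `|BL A - δ tr A| ≤ t + 2 * τ * n / 4 ≤ τ * n`
and `|BL A (Ω j c) (Ω i c')| ≤ t + τ * n / 4 ≤ τ * n`. -/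
def Stmt_REX : Prop := ∀ (ι : Type) [Fintype ι] [DecidableEq ι] (τ : ℝ), 0 < τ → τ ≤ 1 → ∃ n₀ : ℕ, 1 ≤ n₀ ∧ ∀ n : ℕ, n₀ ≤ n →
  ∃ Ω : Fin (n ^ 3) → ι → Fin n → Bool, (∀ j c i c', (j, c) ≠ (i, c') → |∑ k, sg (Ω j c k) * sg (Ω i c' k)| ≤ τ * n) ∧
  ∀ A : Fin n → Fin n → ℝ, (∀ k l, |A k l| ≤ 1) → hs A ≤ n → (∀ y : Fin n → ℝ, ∑ k, (∑ l, A k l * y l) ^ 2 ≤ ∑ l, y l ^ 2) →
    4 * (Finset.univ.filter fun j => BadA A (τ * n) (Ω j)).card < n ^ 3 ∧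
    4 * (Finset.univ.filter fun j => ∃ i, i ≠ j ∧ BadB A (τ * n) (Ω j) (Ω i)).card < n ^ 3

/-- **RPJ** (120; uses nothing). THE MATRIX OF A PROJECTION. `A k l = ⟪e_k, P e_l⟫` with `e = EuclideanSpace.single · 1`, `P = P.starProjection` (`Submodule.starProjection`, self-adjoint, idempotent, `‖P x‖ ≤ ‖x‖`: `Submodule.norm_starProjection_apply_le` or from `starProjection_norm_le`; `P x ∈ P`). `∑ l, A k l * y l = (P y) k`, so `∑ k, (..) ^ 2 = ‖P y‖ ^ 2 ≤ ‖y‖ ^ 2`.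
`hs A = ∑ l, ‖P e_l‖ ^ 2 = ∑ l, ⟪e_l, P e_l⟫ = tr A`, and the trace of an orthogonal projection is the dimension (`LinearMap.IsProj.trace` / `LinearMap.trace_eq_sum_inner`, `stdOrthonormalBasis` of `P`: `⟪e_l, P e_l⟫ = ∑ i, ⟪f_i, e_l⟫ ^ 2`), which is at most `n`. `⟪toLp x, P (toLp y)⟫ = ∑ k, ∑ l, x k * A k l * y l`. -/
def Stmt_RPJ : Prop := ∀ (n : ℕ) (P : Submodule ℝ (EuclideanSpace ℝ (Fin n))), ∃ A : Fin n → Fin n → ℝ, (∀ k l, |A k l| ≤ 1) ∧ hs A ≤ n ∧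
  tr A = finrank ℝ P ∧ (∀ y : Fin n → ℝ, ∑ k, (∑ l, A k l * y l) ^ 2 ≤ ∑ l, y l ^ 2) ∧
  ∀ x y : Fin n → ℝ, ⟪(WithLp.toLp 2 x : EuclideanSpace ℝ (Fin n)), P.starProjection (WithLp.toLp 2 y)⟫ = ∑ k, ∑ l, x k * A k l * y l

/-- **RVE** (130; uses REX RPJ). THE RANDOM VECTORS. REX for `min τ 1`; `b j c = WithLp.toLp 2 (fun k => sg (Ω j c k) / √n)`: norm `1` (`n ≥ 1`), `⟪b j c, b i c'⟫ = (∑ k, sg * sg) / n`, `⟪b j c, P (b i c')⟫ = BL A (Ω j c) (Ω i c') / n` (RPJ). For two subspaces `P₁`, `P₂`: more than half of the `j` are not in the union of the two bad sets of `P₁` (each has less than a quarter of the elements), the same for `P₂`: some `j` is good for both. (`GoodB` of `Defs.lean` has the projection on `b j`: `starProjection` is self-adjoint, `Submodule.inner_starProjection_left_eq_right`, and `real_inner_comm`.) -/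
def Stmt_RVE : Prop := ∀ (ι : Type) [Fintype ι] [DecidableEq ι] (τ : ℝ), 0 < τ → ∃ n₀ : ℕ, 1 ≤ n₀ ∧ ∀ n : ℕ, n₀ ≤ n →
  ∃ (M : ℕ) (b : Fin M → ι → Hn n), (∀ j c, ‖b j c‖ = 1) ∧ (∀ x y : Fin M × ι, x ≠ y → |inner ℝ (b x.1 x.2) (b y.1 y.2)| ≤ τ) ∧
  ∀ P₁ P₂ : Submodule ℝ (Hn n), ∃ j, GoodB b τ P₁ j ∧ GoodB b τ P₂ j

end Pool.NG
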